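import Mathlib

set_option autoImplicit false

/-!
# Module LogE: logarithms against powers

`log_pow`: for `g > 0` and all `A`, `k` there is `C` with `A log(d+3)^k M^(1+5g) ≤ d` whenever
`C M^(1+7g) ≤ d`, `g ≤ 1/7`: `A log(d+3)^k ≤ C1 d^g` for `d ≥ 1` (`isLittleO_log_rpow..` or
`Real.log_le_rpow_div`: `log x ≤ x^η/η`, `d + 3 ≤ 4 d`), and
`d^(1-g) ≥ C^(1-g) M^((1+7g)(1-g)) ≥ C^(1-g) M^(1+5g)` as `(1+7g)(1-g) = 1 + 6g - 7g^2 ≥ 1 + 5g`.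
-/

namespace Pool.Agent.SG

/-- `log (x+3)^k ≤ K x^g` for `x ≥ 1` -/
theorem logE_pow_le (g : ℝ) (k : ℕ) (hg : 0 < g) : ∃ K : ℝ, 0 < K ∧ ∀ x : ℝ, 1 ≤ x →
    Real.log (x + 3) ^ k ≤ K * x ^ g := by
  set η : ℝ := g / (k + 1) with hη
  have hk : (0 : ℝ) < (k : ℝ) + 1 := by positivity
  have hη0 : 0 < η := div_pos hg hk
  refine ⟨4 ^ g / η ^ k, by positivity, fun x hx => ?_⟩
  have h4 : (1 : ℝ) ≤ 4 * x := by linarith
  have h1 : Real.log (x + 3) ≤ (4 * x) ^ η / η := by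
    refine (Real.log_le_log (by linarith) (by linarith : x + 3 ≤ 4 * x)).trans ?_
    exact Real.log_le_rpow_div (by linarith) hη0
  have h0 : 0 ≤ Real.log (x + 3) := Real.log_nonneg (by linarith)
  have h2 : Real.log (x + 3) ^ k ≤ ((4 * x) ^ η / η) ^ k := pow_le_pow_left₀ h0 h1 k
  have h3 : ((4 * x) ^ η / η) ^ k = (4 * x) ^ (η * k) / η ^ k := by
    rw [div_pow, ← Real.rpow_natCast ((4 * x) ^ η) k, ← Real.rpow_mul (by linarith)]
  have h5 : (4 * x) ^ (η * k) ≤ (4 * x) ^ g := by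
    refine Real.rpow_le_rpow_of_exponent_le h4 ?_
    rw [hη, div_mul_eq_mul_div, div_le_iff₀ hk]
    nlinarith
  have h6 : (4 * x : ℝ) ^ g = 4 ^ g * x ^ g := Real.mul_rpow (by norm_num) (by linarith)
  rw [h3] at h2
  refine h2.trans ?_
  have h7 : (4 : ℝ) ^ g / η ^ k * x ^ g = (4 * x) ^ g / η ^ k := by
    rw [h6]; ring
  rw [h7]
  exact div_le_div_of_nonneg_right h5 (by positivity)

theorem log_pow (g A : ℝ) (k : ℕ) (hg : 0 < g) (hg7 : g ≤ 1 / 7) : ∃ C : ℝ, 1 ≤ C ∧ ∀ d M : ℕ, 1 ≤ M →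
    C * (M : ℝ) ^ (1 + 7 * g) ≤ d → A * Real.log ((d : ℝ) + 3) ^ k * (M : ℝ) ^ (1 + 5 * g) ≤ d := by
  obtain ⟨K, hK, hlog⟩ := logE_pow_le g k hg
  set B : ℝ := |A| * K with hB
  have hB0 : 0 ≤ B := by positivity
  have hg1 : 0 < 1 - g := by linarith
  refine ⟨max 1 (B ^ (1 / (1 - g))), le_max_left _ _, fun d M hM h => ?_⟩
  set C : ℝ := max 1 (B ^ (1 / (1 - g))) with hC
  have hC1 : 1 ≤ C := le_max_left _ _
  have hM1 : (1 : ℝ) ≤ M := by exact_mod_cast hM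
  have hM7 : (1 : ℝ) ≤ (M : ℝ) ^ (1 + 7 * g) := Real.one_le_rpow hM1 (by linarith)
  have hd1 : (1 : ℝ) ≤ d := by
    refine le_trans ?_ h
    nlinarith
  have hd0 : (0 : ℝ) < d := by linarith
  have h1 : A * Real.log ((d : ℝ) + 3) ^ k ≤ B * (d : ℝ) ^ g := by
    have h2 : 0 ≤ Real.log ((d : ℝ) + 3) ^ k := pow_nonneg (Real.log_nonneg (by linarith)) k
    calc A * Real.log ((d : ℝ) + 3) ^ k ≤ |A| * Real.log ((d : ℝ) + 3) ^ k :=
          mul_le_mul_of_nonneg_right (le_abs_self A) h2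
      _ ≤ |A| * (K * (d : ℝ) ^ g) := mul_le_mul_of_nonneg_left (hlog d hd1) (abs_nonneg A)
      _ = B * (d : ℝ) ^ g := by rw [hB]; ring
  have hBC : B ≤ C ^ (1 - g) := by
    have h3 : B ^ (1 / (1 - g)) ≤ C := le_max_right _ _
    have h4 : (B ^ (1 / (1 - g))) ^ (1 - g) ≤ C ^ (1 - g) :=
      Real.rpow_le_rpow (Real.rpow_nonneg hB0 _) h3 hg1.le
    rwa [← Real.rpow_mul hB0, one_div_mul_cancel hg1.ne', Real.rpow_one] at h4
  have hpow : C ^ (1 - g) * (M : ℝ) ^ (1 + 5 * g) ≤ (d : ℝ) ^ (1 - g) := by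
    have h5 : (C * (M : ℝ) ^ (1 + 7 * g)) ^ (1 - g) ≤ (d : ℝ) ^ (1 - g) :=
      Real.rpow_le_rpow (by positivity) h hg1.le
    refine le_trans ?_ h5
    rw [Real.mul_rpow (by linarith) (by positivity), ← Real.rpow_mul (by linarith)]
    refine mul_le_mul_of_nonneg_left ?_ (by positivity)
    refine Real.rpow_le_rpow_of_exponent_le hM1 ?_
    nlinarith
  have hM5 : 0 ≤ (M : ℝ) ^ (1 + 5 * g) := by positivity
  have hdg : (d : ℝ) ^ g * (d : ℝ) ^ (1 - g) = d := by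
    rw [← Real.rpow_add hd0]
    simp
  calc A * Real.log ((d : ℝ) + 3) ^ k * (M : ℝ) ^ (1 + 5 * g)
      ≤ B * (d : ℝ) ^ g * (M : ℝ) ^ (1 + 5 * g) := mul_le_mul_of_nonneg_right h1 hM5
    _ = (d : ℝ) ^ g * (B * (M : ℝ) ^ (1 + 5 * g)) := by ring
    _ ≤ (d : ℝ) ^ g * (C ^ (1 - g) * (M : ℝ) ^ (1 + 5 * g)) := by
        refine mul_le_mul_of_nonneg_left ?_ (by positivity)
        exact mul_le_mul_of_nonneg_right hBC hM5
    _ ≤ (d : ℝ) ^ g * (d : ℝ) ^ (1 - g) := mul_le_mul_of_nonneg_left hpow (by positivity)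
    _ = d := hdg

end Pool.Agent.SG
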