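import Pool.Agent.SG.Defs

set_option autoImplicit false

/-!
# Module Viol: numerics of a curve which violates nefness

`(D; w)` the class, `(e; b)` degree and multiplicities of an irreducible curve with Xu's inequality
and `D e < ∑ w b`. All arithmetic.
* `violV`: `∑ (D b_i - e w_i)^2 = D^2 ∑ b^2 - 2 D e ∑ w b + e^2 ∑ w^2 ≤ D^2 (e^2 + b_j) - 2 D e (D e + 1) +
  e^2 (D^2 - X) < D^2 b_j - e^2 X`.
* `viol`. Let `λ = e/D`, `β = min {b_j : b_j > 0}` (the set is not empty), `V = ∑ (b_i - λ w_i)^2 < β - λ^2 X`.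
  (i) `8 e > R`: otherwise `λ w_i ≤ e/R ≤ 1/8`, so `b_i - λ w_i ≥ (7/8) b_i` for `b_i ≥ 1`; with two such
  indices `(49/64) 2 β^2 < β`, impossible; with exactly one index `j`: `D e < w_j b_j ≤ w_j e`, but
  `R w_j ≤ D`.
  (ii) some `j` with `w_j ≤ W` has `b_j > 0`: otherwise `λ^2 D^2 / f ≤ V < β ≤ e`, so `e < f`; but
  `8 e > R ≥ 8 f`.
  (iii) `b_i < λ w_i + sqrt β` for all `i`. For `j` as in (ii): `b_j < λ W + sqrt (b_j)`; if `b_j ≥ 4` then
  `sqrt b_j ≤ b_j/2`, so `b_j < 2 λ W`. So `β < max(4, 2 λ W)`, and for all small `i` (`w_i ≤ W`):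
  `b_i < 4` if `λ W < 2`, `b_i < λ W + sqrt(2 λ W) ≤ 2 λ W` if `λ W ≥ 2`.
  `μ = 4` if `e W < 2 D`, else `μ = 2 e W / D` (`ℕ` division, `≥ 4`).
  (iv) `R0 b_i ≤ e`: `b_i < e/R + sqrt(4 + 2e/R)`, `R ≥ 64 R0 ...`, `e > R/8`. `R0 μ ≤ e` similarly.
  (v) `b^2 ≥ (λw)^2/2 - (b - λw)^2`, so `∑_(w_i ≤ W) b_i^2 ≥ e^2/(2f) - β ≥ e^2/(4f)`.
  (vi) `e^2 ≤ ∑ b^2` (Cauchy-Schwarz, `∑ w^2 ≤ D^2`), `∑ b^2 ≤ e^2 + β ≤ 2 e^2`.
  (vii) `λ^2 X < β`: in the first case `e^2 X < 4 D^2`; in the second `e^2 X < 2 (e/D) W D^2`, so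
  `e X < 2 W D`.
-/

namespace Pool.Agent.SG

theorem violV {n : ℕ} (w b : Fin n → ℕ) (D X e : ℕ) (hD : ∑ i, w i ^ 2 + X ≤ D ^ 2) (he : 0 < e)
    (hxu : ∀ j, 0 < b j → ∑ i, b i ^ 2 ≤ e ^ 2 + b j) (hv : D * e < ∑ i, w i * b i) (j : Fin n)
    (hj : 0 < b j) :
    ∑ i, ((D : ℤ) * b i - (e : ℤ) * w i) ^ 2 + (e : ℤ) ^ 2 * X < (D : ℤ) ^ 2 * b j := by
  have hD0 : 0 < D := by
    rcases Nat.eq_zero_or_pos D with h | h
    · subst h
      have h1 : ∑ i, w i ^ 2 = 0 := by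
        have : ∑ i, w i ^ 2 + X ≤ 0 := by simpa using hD
        omega
      have h2 : ∀ i, w i = 0 := by
        intro i
        have := (Finset.sum_eq_zero_iff.1 h1) i (Finset.mem_univ i)
        exact pow_eq_zero_iff (two_ne_zero) |>.1 this
      have h3 : ∑ i, w i * b i = 0 := Finset.sum_eq_zero fun i _ => by rw [h2 i, zero_mul]
      rw [h3] at hv
      omega
    · exact h
  have h1 : ∑ i, ((D : ℤ) * b i - (e : ℤ) * w i) ^ 2 = (D : ℤ) ^ 2 * ∑ i, (b i : ℤ) ^ 2 -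
      2 * D * e * ∑ i, (w i : ℤ) * b i + (e : ℤ) ^ 2 * ∑ i, (w i : ℤ) ^ 2 := by
    rw [Finset.mul_sum, Finset.mul_sum, Finset.mul_sum, ← Finset.sum_sub_distrib,
      ← Finset.sum_add_distrib]
    exact Finset.sum_congr rfl fun i _ => by ring
  have h2 : ∑ i, (b i : ℤ) ^ 2 ≤ (e : ℤ) ^ 2 + b j := by exact_mod_cast hxu j hj
  have h3 : (D : ℤ) * e + 1 ≤ ∑ i, (w i : ℤ) * b i := by exact_mod_cast hv
  have h4 : ∑ i, (w i : ℤ) ^ 2 + X ≤ (D : ℤ) ^ 2 := by exact_mod_cast hD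
  have hD' : (0 : ℤ) < D := by exact_mod_cast hD0
  have he' : (0 : ℤ) < e := by exact_mod_cast he
  have h5 := mul_le_mul_of_nonneg_left h2 (sq_nonneg (D : ℤ))
  have h6 := mul_le_mul_of_nonneg_left h3 (by positivity : (0 : ℤ) ≤ 2 * D * e)
  have h7 := mul_le_mul_of_nonneg_left h4 (sq_nonneg (e : ℤ))
  have h8 : (0 : ℤ) < 2 * D * e := by positivity
  rw [h1]
  nlinarith

private lemma sq_lt_two {s x : ℝ} (h2 : 2 ≤ s) (h : s ^ 2 < x + s) : s ^ 2 < 2 * x := by nlinarith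

private lemma lt_two {s x : ℝ} (hx : x < 2) (h : s ^ 2 < x + s) (hs : 0 ≤ s) : s < 2 := by nlinarith

private lemma sq_lt_two' {s x : ℝ} (hx : 2 ≤ x) (h : s ^ 2 < x + s) : s ^ 2 < 2 * x := by
  by_contra h'
  rw [not_lt] at h'
  have h1 : x < s := by linarith
  nlinarith

private lemma lt_of_sq {s x : ℝ} (hx : 2 ≤ x) (h : s ^ 2 < 2 * x) : s < x := by nlinarith

private lemma two_indices {β c V A B : ℝ} (hβ : 1 ≤ β) (hc : β ≤ c) (hA : 7 / 8 * β ≤ A)
    (hB : 7 / 8 * β ≤ B) (h : A ^ 2 + B ^ 2 ≤ V) (hV : V < β) : False := by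
  have h7 := pow_le_pow_left₀ (by linarith) hA 2
  have h8 := pow_le_pow_left₀ (by linarith) hB 2
  nlinarith

private lemma sixteen {f e : ℝ} (hf : 1 ≤ f) (h : 8 * f < e) : 16 * f ≤ e ^ 2 := by nlinarith

private lemma eight {f e : ℝ} (hf : 1 ≤ f) (h : 8 * f < e) : 2 * e * (4 * f) ≤ e * e := by nlinarith

private lemma par (b y : ℝ) : y ^ 2 ≤ 2 * b ^ 2 + 2 * (b - y) ^ 2 := by
  have e : 2 * b ^ 2 + 2 * (b - y) ^ 2 - y ^ 2 = (2 * b - y) ^ 2 := by ring
  linarith [sq_nonneg (2 * b - y)]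

theorem viol (f R0 : ℕ) : ∃ R : ℕ, 1 ≤ R ∧ ∀ (n : ℕ) (w b : Fin n → ℕ) (D W X e : ℕ), 1 ≤ W →
    R * W ≤ D → (∀ i, R * w i ≤ D) → D ^ 2 ≤ f * ∑ i with w i ≤ W, w i ^ 2 →
    ∑ i, w i ^ 2 + X ≤ D ^ 2 → 0 < e → (∀ j, 0 < b j → ∑ i, b i ^ 2 ≤ e ^ 2 + b j) →
    (∀ i, b i ≤ e) → D * e < ∑ i, w i * b i →
    ∃ μ : ℕ, 1 ≤ μ ∧ R0 * μ ≤ e ∧ (∀ i, R0 * b i ≤ e) ∧ (∀ i, w i ≤ W → b i ≤ μ) ∧
      e ^ 2 ≤ 4 * f * ∑ i with w i ≤ W, b i ^ 2 ∧ e ^ 2 ≤ ∑ i, b i ^ 2 ∧ ∑ i, b i ^ 2 ≤ 2 * e ^ 2 ∧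
      ((μ = 4 ∧ e ^ 2 * X < 4 * D ^ 2) ∨ (4 ≤ μ ∧ μ * D ≤ 2 * e * W ∧ e * X < 2 * W * D)) := by
  refine ⟨64 * (f + R0) + 1, by omega, ?_⟩
  intro n w b D W X e hW hRW hRw hf hX he hxu hb hv
  set R : ℕ := 64 * (f + R0) + 1 with hR
  -- positivity
  have hD0 : 0 < D := by
    have : 1 * 1 ≤ R * W := Nat.mul_le_mul (by omega) hW
    omega
  have hf0 : 0 < f := by
    rcases Nat.eq_zero_or_pos f with h | h
    · rw [h, zero_mul] at hf
      have := pow_pos hD0 2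
      omega
    · exact h
  have hDr : (0 : ℝ) < D := by exact_mod_cast hD0
  have her : (0 : ℝ) < e := by exact_mod_cast he
  have hRr : (0 : ℝ) < R := by exact_mod_cast (by omega : 0 < R)
  have hWr : (0 : ℝ) < W := by exact_mod_cast (by omega : 0 < W)
  -- the minimal positive multiplicity
  have hex : (Finset.univ.filter fun i => 0 < b i).Nonempty := by
    by_contra hc
    rw [Finset.not_nonempty_iff_eq_empty, Finset.filter_eq_empty_iff] at hc
    have h3 : ∑ i, w i * b i = 0 := Finset.sum_eq_zero fun i hi => by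
      have := hc hi
      have h0 : b i = 0 := by omega
      rw [h0, mul_zero]
    omega
  obtain ⟨j0, hj0, hmin⟩ := Finset.exists_min_image _ b hex
  rw [Finset.mem_filter] at hj0
  have hj0' : 0 < b j0 := hj0.2
  have hmin' : ∀ i, 0 < b i → b j0 ≤ b i := fun i hi =>
    hmin i (Finset.mem_filter.2 ⟨Finset.mem_univ i, hi⟩)
  -- the real form
  set L : ℝ := e / D with hLdef
  have hL : L * D = e := by rw [hLdef]; field_simp
  have hL0 : 0 < L := div_pos her hDr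
  set V : ℝ := ∑ i, ((b i : ℝ) - L * w i) ^ 2 with hVdef
  have hV0 : 0 ≤ V := Finset.sum_nonneg fun i _ => sq_nonneg _
  have hV : V + L ^ 2 * X < b j0 := by
    have h1 := violV w b D X e hX he hxu hv j0 hj0'
    have h2 : ((∑ i, ((D : ℤ) * b i - (e : ℤ) * w i) ^ 2 + (e : ℤ) ^ 2 * X : ℤ) : ℝ) <
        (((D : ℤ) ^ 2 * b j0 : ℤ) : ℝ) := by exact_mod_cast h1
    push_cast at h2
    have h3 : ∑ i, ((D : ℝ) * b i - (e : ℝ) * w i) ^ 2 + (e : ℝ) ^ 2 * X =
        (D : ℝ) ^ 2 * (V + L ^ 2 * X) := by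
      rw [mul_add, hVdef, Finset.mul_sum, ← hL]
      congr 1
      · exact Finset.sum_congr rfl fun i _ => by ring
      · ring
    rw [h3] at h2
    exact lt_of_mul_lt_mul_left h2 (by positivity)
  have hVX : 0 ≤ L ^ 2 * (X : ℝ) := by positivity
  have hVb : V < b j0 := by linarith
  have hterm : ∀ i, ((b i : ℝ) - L * w i) ^ 2 ≤ V := fun i =>
    Finset.single_le_sum (f := fun i => ((b i : ℝ) - L * w i) ^ 2) (fun i _ => sq_nonneg _)
      (Finset.mem_univ i)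
  have hbj1 : (1 : ℝ) ≤ b j0 := by exact_mod_cast hj0'
  -- (i)
  have hi : R < 8 * e := by
    by_contra hc
    rw [not_lt] at hc
    have hsm : ∀ i, L * w i ≤ 1 / 8 := by
      intro i
      have h1 : 8 * e * w i ≤ D := (Nat.mul_le_mul_right _ hc).trans (hRw i)
      have h2 : (8 : ℝ) * e * w i ≤ D := by exact_mod_cast h1
      rw [hLdef, div_mul_eq_mul_div, div_le_iff₀ hDr]
      linarith
    by_cases hone : ∀ k, k ≠ j0 → b k = 0
    · have h1 : ∑ i, w i * b i = w j0 * b j0 :=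
        Finset.sum_eq_single j0 (fun k _ hk => by rw [hone k hk, mul_zero])
          (fun h => absurd (Finset.mem_univ _) h)
      rw [h1] at hv
      have h2 : w j0 * b j0 ≤ w j0 * e := Nat.mul_le_mul_left _ (hb j0)
      have h3 : D * e < w j0 * e := hv.trans_le h2
      have h4 : D < w j0 := lt_of_mul_lt_mul_right h3 (Nat.zero_le _)
      have h5 : 1 * w j0 ≤ R * w j0 := Nat.mul_le_mul_right _ (by omega)
      have h6 := hRw j0
      omega
    · push Not at hone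
      obtain ⟨k, hk, hbk⟩ := hone
      have hbk' : 0 < b k := Nat.pos_of_ne_zero hbk
      have h1 : ((b j0 : ℝ) - L * w j0) ^ 2 + ((b k : ℝ) - L * w k) ^ 2 ≤ V :=
        Finset.add_le_sum (f := fun i => ((b i : ℝ) - L * w i) ^ 2) (fun i _ => sq_nonneg _)
          (Finset.mem_univ j0) (Finset.mem_univ k) (Ne.symm hk)
      have h2 : (b j0 : ℝ) ≤ b k := by exact_mod_cast hmin' k hbk'
      have h3 := hsm j0
      have h4 := hsm k
      have h5 : 7 / 8 * (b j0 : ℝ) ≤ (b j0 : ℝ) - L * w j0 := by linarith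
      have h6 : 7 / 8 * (b j0 : ℝ) ≤ (b k : ℝ) - L * w k := by linarith
      exact two_indices hbj1 h2 h5 h6 h1 hVb
  have hir : (R : ℝ) < 8 * e := by exact_mod_cast hi
  have hRf : (64 : ℝ) * f + 64 * R0 + 1 = R := by rw [hR]; push_cast; ring
  have hfr : (1 : ℝ) ≤ f := by exact_mod_cast hf0
  have hR0r : (0 : ℝ) ≤ R0 := Nat.cast_nonneg _
  have hbe : (b j0 : ℝ) ≤ e := by exact_mod_cast hb j0
  -- the sum over the small ones
  have hfr2 : (D : ℝ) ^ 2 ≤ f * ∑ i with w i ≤ W, (w i : ℝ) ^ 2 := by exact_mod_cast hf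
  have hLsum : (e : ℝ) ^ 2 ≤ f * ∑ i with w i ≤ W, (L * w i) ^ 2 := by
    have h1 : ∑ i with w i ≤ W, (L * (w i : ℝ)) ^ 2 = L ^ 2 * ∑ i with w i ≤ W, (w i : ℝ) ^ 2 := by
      rw [Finset.mul_sum]
      exact Finset.sum_congr rfl fun i _ => by ring
    rw [h1, ← hL, mul_pow]
    have := mul_le_mul_of_nonneg_left hfr2 (sq_nonneg L)
    linarith
  have hVs : ∑ i with w i ≤ W, ((b i : ℝ) - L * w i) ^ 2 ≤ V :=
    Finset.sum_le_sum_of_subset_of_nonneg (Finset.filter_subset _ _) fun i _ _ => sq_nonneg _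
  -- (ii)
  have hii : ∃ j, w j ≤ W ∧ 0 < b j := by
    by_contra hc
    push Not at hc
    have h1 : ∑ i with w i ≤ W, ((b i : ℝ) - L * w i) ^ 2 = ∑ i with w i ≤ W, (L * w i) ^ 2 := by
      refine Finset.sum_congr rfl fun i hi' => ?_
      have h0 : b i = 0 := by
        have := hc i (Finset.mem_filter.1 hi').2
        omega
      rw [h0]
      push_cast
      ring
    have h2 : (e : ℝ) ^ 2 ≤ f * e := by
      refine hLsum.trans (mul_le_mul_of_nonneg_left ?_ (by linarith))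
      rw [← h1]
      linarith
    rw [pow_two] at h2
    have h3 : (e : ℝ) ≤ f := le_of_mul_le_mul_right h2 her
    linarith
  obtain ⟨j, hjW, hj⟩ := hii
  -- the square root of `β`
  set s : ℝ := √(b j0 : ℝ) with hs
  have hs0 : 0 ≤ s := Real.sqrt_nonneg _
  have hs2 : s ^ 2 = b j0 := Real.sq_sqrt (by linarith)
  have habs : ∀ i, (b i : ℝ) < L * w i + s := by
    intro i
    have h1 : ((b i : ℝ) - L * w i) ^ 2 < s ^ 2 := by rw [hs2]; exact (hterm i).trans_lt hVb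
    have h2 := abs_lt_of_sq_lt_sq h1 hs0
    linarith [(abs_lt.1 h2).2]
  set x : ℝ := L * W with hx
  have hx0 : 0 < x := mul_pos hL0 hWr
  have hLw : ∀ i, w i ≤ W → L * w i ≤ x := fun i hi' =>
    mul_le_mul_of_nonneg_left (by exact_mod_cast hi') hL0.le
  have hxs : s ^ 2 < x + s := by
    have h1 := habs j
    have h2 := hLw j hjW
    have h3 : (b j0 : ℝ) ≤ b j := by exact_mod_cast hmin' j hj
    rw [hs2]
    linarith
  have hLR : ∀ m : ℕ, R * m ≤ D → L * m * R ≤ e := by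
    intro m hm
    have h1 : (R : ℝ) * m ≤ D := by exact_mod_cast hm
    have := mul_le_mul_of_nonneg_left h1 hL0.le
    rw [← hL]
    linarith
  have hxR : x * R ≤ e := hLR W hRW
  -- `s` is small compared with `e`
  have hs_small : s < 2 ∨ s ^ 2 * R < 2 * e := by
    rcases lt_or_ge s 2 with h | h
    · exact Or.inl h
    · right
      have h1 : s ^ 2 < 2 * x := sq_lt_two h hxs
      have h2 := mul_lt_mul_of_pos_right h1 hRr
      linarith
  -- (iv)
  have hiv : ∀ m : ℕ, R * m ≤ D → (R0 : ℝ) * (L * m + s) ≤ e := by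
    intro m hm
    have h1 := hLR m hm
    have h2 : (0 : ℝ) ≤ L * m := by positivity
    have h3 : (R0 : ℝ) * (L * m) ≤ e / 2 := by
      have h5 : 2 * (R0 : ℝ) ≤ R := by linarith
      have h6 := mul_le_mul_of_nonneg_left h5 h2
      linarith
    have h4 : (R0 : ℝ) * s ≤ e / 2 := by
      rcases hs_small with h5 | h5
      · have h6 := mul_le_mul_of_nonneg_left h5.le hR0r
        linarith
      · by_contra h6
        rw [not_le] at h6
        have h7 : (e / 2) ^ 2 < ((R0 : ℝ) * s) ^ 2 := pow_lt_pow_left₀ h6 (by positivity) (by norm_num)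
        have h8 : ((R0 : ℝ) * s) ^ 2 * R ≤ (R0 : ℝ) ^ 2 * (2 * e) := by
          rw [mul_pow, mul_assoc]
          exact mul_le_mul_of_nonneg_left h5.le (sq_nonneg _)
        have h9 : (e / 2) ^ 2 * R < (R0 : ℝ) ^ 2 * (2 * e) :=
          (mul_lt_mul_of_pos_right h7 hRr).trans_le h8
        have h10 : (e : ℝ) * R < 8 * (R0 : ℝ) ^ 2 := by
          have e1 : ((e : ℝ) / 2) ^ 2 * R * 4 = e * (e * R) := by ring
          have e2 : (R0 : ℝ) ^ 2 * (2 * e) * 4 = e * (8 * (R0 : ℝ) ^ 2) := by ring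
          have : (e : ℝ) * (e * R) < e * (8 * (R0 : ℝ) ^ 2) := by linarith
          exact lt_of_mul_lt_mul_left this her.le
        have h11 : 8 * (R0 : ℝ) ≤ e := by linarith
        have h12 : (R0 : ℝ) ≤ R := by linarith
        have h13 := mul_le_mul h11 h12 hR0r her.le
        have h14 : 8 * (R0 : ℝ) * R0 = 8 * (R0 : ℝ) ^ 2 := by ring
        linarith
    linarith
  have hiv' : ∀ i, R0 * b i ≤ e := by
    intro i
    have h1 := hiv (w i) (hRw i)
    have h2 := habs i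
    have h3 : (R0 : ℝ) * b i ≤ e := (mul_le_mul_of_nonneg_left h2.le hR0r).trans h1
    exact_mod_cast h3
  -- (v)
  have hv5 : (e : ℝ) ^ 2 ≤ 4 * f * ∑ i with w i ≤ W, (b i : ℝ) ^ 2 := by
    have h1 : ∑ i with w i ≤ W, (L * (w i : ℝ)) ^ 2 ≤ 2 * ∑ i with w i ≤ W, (b i : ℝ) ^ 2 +
        2 * ∑ i with w i ≤ W, ((b i : ℝ) - L * w i) ^ 2 := by
      rw [Finset.mul_sum, Finset.mul_sum, ← Finset.sum_add_distrib]
      exact Finset.sum_le_sum fun i _ => par _ _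
    have h2 : ∑ i with w i ≤ W, (L * (w i : ℝ)) ^ 2 ≤ 2 * ∑ i with w i ≤ W, (b i : ℝ) ^ 2 +
        2 * b j0 := by linarith
    have h3 : (e : ℝ) ^ 2 ≤ f * (2 * ∑ i with w i ≤ W, (b i : ℝ) ^ 2 + 2 * b j0) :=
      hLsum.trans (mul_le_mul_of_nonneg_left h2 (by linarith))
    have h4 : 4 * (f : ℝ) * b j0 ≤ e ^ 2 := by
      rw [← hs2]
      have h8e : 8 * (f : ℝ) < e := by linarith
      rcases hs_small with h5 | h5
      · have h6 : s ^ 2 ≤ 2 ^ 2 := pow_le_pow_left₀ hs0 h5.le 2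
        have h7 := mul_le_mul_of_nonneg_left h6 (by linarith : (0 : ℝ) ≤ 4 * f)
        have h8 := sixteen hfr h8e
        linarith
      · have h6 : (s ^ 2 * (4 * f)) * R ≤ e ^ 2 * R := by
          have h7 : (s ^ 2 * R) * (4 * f) ≤ (2 * e) * (4 * f) :=
            mul_le_mul_of_nonneg_right h5.le (by linarith)
          have h8 : (2 * (e : ℝ)) * (4 * f) ≤ e * e := eight hfr h8e
          have h9 : (e : ℝ) * e * 1 ≤ e * e * R :=
            mul_le_mul_of_nonneg_left (by linarith) (by positivity)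
          have e1 : (s ^ 2 * (4 * f)) * R = (s ^ 2 * R) * (4 * f) := by ring
          rw [e1, pow_two (e : ℝ)]
          linarith
        have := le_of_mul_le_mul_right h6 hRr
        linarith
    have e3 : (f : ℝ) * (2 * ∑ i with w i ≤ W, (b i : ℝ) ^ 2 + 2 * b j0) =
        2 * (f * ∑ i with w i ≤ W, (b i : ℝ) ^ 2) + 2 * (f * b j0) := by ring
    rw [e3] at h3
    linarith
  have hv5' : e ^ 2 ≤ 4 * f * ∑ i with w i ≤ W, b i ^ 2 := by exact_mod_cast hv5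
  -- (vi)
  have hvi : e ^ 2 ≤ ∑ i, b i ^ 2 := by
    have h1 : (∑ i, w i * b i) ^ 2 ≤ (∑ i, w i ^ 2) * ∑ i, b i ^ 2 :=
      Finset.sum_mul_sq_le_sq_mul_sq _ _ _
    have h2 : (D * e) ^ 2 ≤ (∑ i, w i * b i) ^ 2 := Nat.pow_le_pow_left hv.le 2
    have h3 : (∑ i, w i ^ 2) * ∑ i, b i ^ 2 ≤ D ^ 2 * ∑ i, b i ^ 2 :=
      Nat.mul_le_mul_right _ (by omega)
    have h4 : D ^ 2 * e ^ 2 ≤ D ^ 2 * ∑ i, b i ^ 2 := by
      rw [← mul_pow]
      exact h2.trans (h1.trans h3)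
    exact Nat.le_of_mul_le_mul_left h4 (pow_pos hD0 2)
  have hvi' : ∑ i, b i ^ 2 ≤ 2 * e ^ 2 := by
    have h1 := hxu j0 hj0'
    have h2 := hb j0
    have h3 : e ≤ e ^ 2 := Nat.le_self_pow two_ne_zero e
    omega
  -- the two cases
  rcases lt_or_ge x 2 with hc | hc
  · have hs2' : s < 2 := lt_two hc hxs hs0
    refine ⟨4, by norm_num, ?_, hiv', ?_, hv5', hvi, hvi', Or.inl ⟨rfl, ?_⟩⟩
    · have h1 : (R0 : ℝ) * 4 ≤ e := by linarith
      exact_mod_cast h1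
    · intro i hiW
      have h1 := habs i
      have h2 := hLw i hiW
      have h3 : (b i : ℝ) < 4 := by linarith
      have h4 : b i < 4 := by exact_mod_cast h3
      omega
    · have h6 : s ^ 2 ≤ 2 ^ 2 := pow_le_pow_left₀ hs0 hs2'.le 2
      have h1 : L ^ 2 * X < 4 := by linarith
      have h2 : (D : ℝ) ^ 2 * (L ^ 2 * X) < D ^ 2 * 4 := mul_lt_mul_of_pos_left h1 (by positivity)
      have h3 : (e : ℝ) ^ 2 * X < 4 * D ^ 2 := by
        rw [← hL, mul_pow]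
        linarith
      exact_mod_cast h3
  · have hxe : x * D = e * W := by rw [hx, ← hL]; ring
    have hsx2 : s ^ 2 < 2 * x := sq_lt_two' hc hxs
    have hsx : s < x := lt_of_sq hc hsx2
    have hμ : 4 * D ≤ 2 * e * W := by
      have h1 : (4 : ℝ) * D ≤ 2 * e * W := by
        have := mul_le_mul_of_nonneg_right hc hDr.le
        linarith
      exact_mod_cast h1
    have hμ4 : 4 ≤ 2 * e * W / D := (Nat.le_div_iff_mul_le hD0).2 hμ
    have hμD : 2 * e * W / D * D ≤ 2 * e * W := Nat.div_mul_le_self _ _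
    refine ⟨2 * e * W / D, by omega, ?_, hiv', ?_, hv5', hvi, hvi', Or.inr ⟨hμ4, hμD, ?_⟩⟩
    · have h1 : ((2 * e * W / D : ℕ) : ℝ) * D ≤ 2 * e * W := by exact_mod_cast hμD
      have h2 : ((2 * e * W / D : ℕ) : ℝ) ≤ 2 * x := by
        have : ((2 * e * W / D : ℕ) : ℝ) * D ≤ 2 * x * D := by rw [mul_assoc 2 x, hxe]; linarith
        exact le_of_mul_le_mul_right this hDr
      have h3 : (R0 : ℝ) * ((2 * e * W / D : ℕ) : ℝ) ≤ e := by
        have h4 : (R0 : ℝ) * ((2 * e * W / D : ℕ) : ℝ) ≤ R0 * (2 * x) :=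
          mul_le_mul_of_nonneg_left h2 hR0r
        have h5 : 2 * (R0 : ℝ) ≤ R := by linarith
        have h6 := mul_le_mul_of_nonneg_left h5 hx0.le
        linarith
      exact_mod_cast h3
    · intro i hiW
      rw [Nat.le_div_iff_mul_le hD0]
      have h1 := habs i
      have h2 := hLw i hiW
      have h3 : (b i : ℝ) ≤ 2 * x := by linarith
      have h4 : (b i : ℝ) * D ≤ 2 * e * W := by
        have := mul_le_mul_of_nonneg_right h3 hDr.le
        rw [mul_assoc 2 x, hxe] at this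
        linarith
      exact_mod_cast h4
    · have h1 : L ^ 2 * X < 2 * x := by linarith
      have h2 : (L * X) * L < (2 * W) * L := by rw [hx] at h1; linarith
      have h3 : L * X < 2 * W := lt_of_mul_lt_mul_right h2 hL0.le
      have h4 : (e : ℝ) * X < 2 * W * D := by
        rw [← hL]
        have := mul_lt_mul_of_pos_right h3 hDr
        linarith
      exact_mod_cast h4

end Pool.Agent.SG
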