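import Pool.Agent.SG.PropE
import Pool.Agent.SG.Viol

set_option autoImplicit false

/-!
# Module NNstep: nefness of every level

`nn_zero` (`a = 0`: `C W^2 ≤ X`): `nefP_of` (ST/Nef0.lean); for a violating `(e; b)` (`0 < e`, Xu, `b ≤ e`) use
`viol` with `R0 = 100 (f + 1)` and get a contradiction. Second alternative of `viol`: `4 ≤ μ`,
`4 D ≤ μ D ≤ 2 e W`, `e X < 2 W D`, `C W^2 ≤ X`: `e C W^2 < 2 W D`, so `e C W < 2 D ≤ e W`, false for `C ≥ 1`.
First alternative: `μ = 4`, `e^2 C W^2 ≤ e^2 X < 4 D^2`. With `C ≥ 256`: `8 e W < D`. So for `w_i ≤ W`,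
`b_i ≥ 1`: `D b_i - e w_i ≥ (7/8) D b_i`. By `violV` with `j` any index with `w_j ≤ W`, `b_j > 0`
(so `b_j ≤ 4`): `(49/64) ∑_(w_i ≤ W) b_i^2 < b_j ≤ 4`, so
`∑_(w_i ≤ W) b_i^2 ≤ 5`, but `e^2 ≤ 4 f ∑_(w_i ≤ W) b_i^2 ≤ 20 f` contradicts `4 R0 ≤ e`.

`nn_succ`: `C1` from `propE h (4 f)`, `R` from `viol f (C1 4^(a+2))`, `C = R + 2^(a+3) C1`.
For a violating `(e; b)`: `μ` from `viol`; `propE` with `ms = univ.val.map b` (elements with `w_i ≤ W` have
`b_i ≤ μ`, so `e^2 ≤ 4 f Sq (ms.filter ≤ μ)`). `C1 μ^(a+2) ≤ e^(a+1)`: if `μ = 4`: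
`C1 4^(a+2) ≤ R0 ≤ e ≤ e^(a+1)`. Otherwise `μ D ≤ 2 e W`, `e X < 2 W D`, `C W^(a+3) ≤ X D^(a+1)`:
`e C W^(a+3) ≤ e X D^(a+1) ≤ 2 W D^(a+2)`, so `e C W^(a+2) ≤ 2 D^(a+2)`;
`C (μ D)^(a+2) ≤ C 2^(a+2) e^(a+2) W^(a+2) ≤ 2^(a+3) e^(a+1) D^(a+2)`, so `C μ^(a+2) ≤ 2^(a+3) e^(a+1)`.
-/

namespace Pool.Agent.SG

open MvPolynomial Pool.Agent.helper5.NBS Pool.Agent.helper89.Segre Pool.Agent.SH9
open Pool.Agent.helper25.ST

private lemma sq_map {n : ℕ} (b : Fin n → ℕ) :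
    Sq (Finset.univ.val.map b) = ∑ i, b i ^ 2 := by
  unfold Sq
  rw [Multiset.map_map]
  rfl

private lemma sq_filter_map {n : ℕ} (b : Fin n → ℕ) (μ : ℕ) :
    Sq ((Finset.univ.val.map b).filter fun m => m ≤ μ) = ∑ i with b i ≤ μ, b i ^ 2 := by
  unfold Sq
  rw [Multiset.filter_map, Multiset.map_map]
  rfl

/-- the first alternative of `viol` in the case `a = 0` -/
private lemma small_case {n : ℕ} (w b : Fin n → ℕ) (D W X e : ℕ) (hC : 256 * W ^ 2 ≤ X)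
    (hD : ∑ i, w i ^ 2 + X ≤ D ^ 2) (he : 0 < e)
    (hxu : ∀ j, 0 < b j → ∑ i, b i ^ 2 ≤ e ^ 2 + b j) (hv : D * e < ∑ i, w i * b i)
    (hb : ∀ i, w i ≤ W → b i ≤ 4) (hX : e ^ 2 * X < 4 * D ^ 2) :
    ∑ i with w i ≤ W, b i ^ 2 ≤ 5 := by
  have h8 : 8 * (e * W) < D := by
    have h1 : (8 * (e * W)) ^ 2 < D ^ 2 := by
      have h2 : e ^ 2 * (256 * W ^ 2) ≤ e ^ 2 * X := Nat.mul_le_mul_left _ hC
      have h3 : (8 * (e * W)) ^ 2 * 4 = e ^ 2 * (256 * W ^ 2) := by ring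
      omega
    exact lt_of_pow_lt_pow_left₀ 2 (Nat.zero_le _) h1
  by_cases hj : ∃ j, w j ≤ W ∧ 0 < b j
  · obtain ⟨j, hjW, hjb⟩ := hj
    have hV := violV w b D X e hD he hxu hv j hjb
    have hb4 : b j ≤ 4 := hb j hjW
    have hD0 : 0 < D := by omega
    -- the sum over the small indices
    have hterm : ∀ i ∈ Finset.univ.filter (fun i => w i ≤ W),
        (49 : ℤ) * ((D : ℤ) ^ 2 * (b i : ℤ) ^ 2) ≤ 64 * ((D : ℤ) * b i - (e : ℤ) * w i) ^ 2 := by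
      intro i hi
      have hiW : w i ≤ W := (Finset.mem_filter.mp hi).2
      rcases Nat.eq_zero_or_pos (b i) with h0 | h1
      · rw [h0]
        have : (0 : ℤ) ≤ ((D : ℤ) * ((0 : ℕ) : ℤ) - (e : ℤ) * w i) ^ 2 := sq_nonneg _
        simp only [Nat.cast_zero]
        simp only [Nat.cast_zero] at this
        nlinarith
      · have h2 : 8 * (e * w i) ≤ D * b i := by
          have h3 : e * w i ≤ e * W := Nat.mul_le_mul_left _ hiW
          have h4 : D ≤ D * b i := Nat.le_mul_of_pos_right _ h1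
          omega
        have h2' : 8 * ((e : ℤ) * w i) ≤ (D : ℤ) * b i := by exact_mod_cast h2
        have h5 : (0 : ℤ) ≤ 7 * ((D : ℤ) * b i) := by positivity
        have h6 : 7 * ((D : ℤ) * b i) ≤ 8 * ((D : ℤ) * b i - (e : ℤ) * w i) := by linarith
        have h7 := pow_le_pow_left₀ h5 h6 2
        nlinarith [h7]
    have hsum : (49 : ℤ) * ((D : ℤ) ^ 2 * ∑ i with w i ≤ W, (b i : ℤ) ^ 2) ≤
        64 * ∑ i, ((D : ℤ) * b i - (e : ℤ) * w i) ^ 2 := by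
      rw [Finset.mul_sum, Finset.mul_sum, Finset.mul_sum]
      refine (Finset.sum_le_sum hterm).trans ?_
      apply Finset.sum_le_sum_of_subset_of_nonneg (Finset.filter_subset _ _)
      intro i _ _
      positivity
    have hX0 : (0 : ℤ) ≤ (e : ℤ) ^ 2 * X := by positivity
    have hbj : (b j : ℤ) ≤ 4 := by exact_mod_cast hb4
    have hD2 : (0 : ℤ) < (D : ℤ) ^ 2 := by positivity
    have h9 : (D : ℤ) ^ 2 * (b j : ℤ) ≤ (D : ℤ) ^ 2 * 4 := mul_le_mul_of_nonneg_left hbj hD2.le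
    have h10 : (D : ℤ) ^ 2 * (49 * ∑ i with w i ≤ W, (b i : ℤ) ^ 2) < (D : ℤ) ^ 2 * 256 := by
      linarith
    have h11 : (49 * ∑ i with w i ≤ W, (b i : ℤ) ^ 2) < 256 := lt_of_mul_lt_mul_left h10 hD2.le
    have h12 : 49 * ∑ i with w i ≤ W, b i ^ 2 < 256 := by exact_mod_cast h11
    omega
  · push Not at hj
    have h0 : ∑ i with w i ≤ W, b i ^ 2 = 0 := by
      apply Finset.sum_eq_zero
      intro i hi
      have := hj i (Finset.mem_filter.mp hi).2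
      have h1 : b i = 0 := by omega
      rw [h1]
      rfl
    omega

theorem nn_zero : NN 0 := by
  intro f
  obtain ⟨R, hR1, hR⟩ := viol f (100 * (f + 1))
  refine ⟨R + 256, ?_⟩
  intro n w D W X hW hCW hCw hf hX hD
  have hX' : (R + 256) * W ^ 2 ≤ X := by simpa using hX
  apply nefP_of
  intro e b he hxu hbe hv
  exfalso
  obtain ⟨μ, hμ1, hRμ, hRb, hbμ, he4, heS, hS2, hcase⟩ := hR n w b D W X e hW
    (le_trans (Nat.mul_le_mul_right _ (by omega)) hCW)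
    (fun i => le_trans (Nat.mul_le_mul_right _ (by omega)) (hCw i)) hf hD he hxu hbe hv
  rcases hcase with ⟨hμ, hXe⟩ | ⟨hμ, hμD, hXe⟩
  · subst hμ
    have h5 := small_case w b D W X e (le_trans (Nat.mul_le_mul_right _ (by omega)) hX') hD he hxu hv
      hbμ hXe
    have h6 : e ^ 2 ≤ 4 * f * 5 := he4.trans (Nat.mul_le_mul_left _ h5)
    have h7 : 400 * (f + 1) ≤ e := by linarith
    have h8 : e ≤ e ^ 2 := Nat.le_self_pow (by norm_num) e
    omega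
  · have h1 : 4 * D ≤ 2 * e * W := (Nat.mul_le_mul_right _ hμ).trans hμD
    have h2 : e * (W * W) ≤ e * X := by
      apply Nat.mul_le_mul_left
      have h3 : 1 * W ^ 2 ≤ (R + 256) * W ^ 2 := Nat.mul_le_mul_right _ (by omega)
      have h4 : W * W = W ^ 2 := (sq W).symm
      omega
    have h3 : W * (4 * D) ≤ W * (2 * e * W) := Nat.mul_le_mul_left _ h1
    have h4 : W * (2 * e * W) = 2 * (e * (W * W)) := by ring
    have h5 : W * (4 * D) = 2 * (2 * W * D) := by ring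
    omega

theorem nn_succ {a : ℕ} (h : NN a) : NN (a + 1) := by
  intro f
  obtain ⟨C1, hC1, hE⟩ := propE h (4 * f)
  obtain ⟨R, hR1, hR⟩ := viol f (C1 * 4 ^ (a + 2))
  refine ⟨R + 2 ^ (a + 3) * C1, ?_⟩
  intro n w D W X hW hCW hCw hf hX hD
  apply nefP_of
  intro e b he hxu hbe hv
  obtain ⟨μ, hμ1, hRμ, hRb, hbμ, he4, heS, hS2, hcase⟩ := hR n w b D W X e hW
    (le_trans (Nat.mul_le_mul_right _ (by omega)) hCW)
    (fun i => le_trans (Nat.mul_le_mul_right _ (by omega)) (hCw i)) hf hD he hxu hbe hv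
  have hR0 : C1 ≤ C1 * 4 ^ (a + 2) := Nat.le_mul_of_pos_right _ (by positivity)
  have hD0 : 0 < D := by
    have h1 : 1 * 1 ≤ (R + 2 ^ (a + 3) * C1) * W := Nat.mul_le_mul (by omega) hW
    omega
  refine hE e μ (Finset.univ.val.map b) hμ1 ?_ ?_ ?_ ?_ ?_
  · rcases hcase with ⟨hμ, _⟩ | ⟨hμ, hμD, hXe⟩
    · subst hμ
      calc C1 * 4 ^ (a + 2) ≤ C1 * 4 ^ (a + 2) * 4 := by omega
        _ ≤ e := hRμ
        _ ≤ e ^ (a + 1) := Nat.le_self_pow (by omega) e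
    · -- `e C W^(a+2) ≤ 2 D^(a+2)`
      set C := R + 2 ^ (a + 3) * C1 with hCdef
      have h1 : W * (e * (C * W ^ (a + 2))) ≤ W * (2 * D ^ (a + 2)) := by
        calc W * (e * (C * W ^ (a + 2))) = e * (C * W ^ (a + 1 + 2)) := by ring
          _ ≤ e * (X * D ^ (a + 1)) := Nat.mul_le_mul_left _ hX
          _ = (e * X) * D ^ (a + 1) := by ring
          _ ≤ (2 * W * D) * D ^ (a + 1) := Nat.mul_le_mul_right _ hXe.le
          _ = W * (2 * D ^ (a + 2)) := by ring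
      have h2 : e * (C * W ^ (a + 2)) ≤ 2 * D ^ (a + 2) := Nat.le_of_mul_le_mul_left h1 (by omega)
      have h3 : D ^ (a + 2) * (C * μ ^ (a + 2)) ≤ D ^ (a + 2) * (2 ^ (a + 3) * e ^ (a + 1)) := by
        calc D ^ (a + 2) * (C * μ ^ (a + 2)) = C * (μ * D) ^ (a + 2) := by
              rw [mul_pow]; ring
          _ ≤ C * (2 * e * W) ^ (a + 2) := Nat.mul_le_mul_left _ (Nat.pow_le_pow_left hμD _)
          _ = 2 ^ (a + 2) * e ^ (a + 1) * (e * (C * W ^ (a + 2))) := by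
              rw [mul_pow, mul_pow]; ring
          _ ≤ 2 ^ (a + 2) * e ^ (a + 1) * (2 * D ^ (a + 2)) := Nat.mul_le_mul_left _ h2
          _ = D ^ (a + 2) * (2 ^ (a + 3) * e ^ (a + 1)) := by ring
      have h4 : C * μ ^ (a + 2) ≤ 2 ^ (a + 3) * e ^ (a + 1) :=
        Nat.le_of_mul_le_mul_left h3 (by positivity)
      have h5 : 2 ^ (a + 3) * (C1 * μ ^ (a + 2)) ≤ 2 ^ (a + 3) * e ^ (a + 1) := by
        calc 2 ^ (a + 3) * (C1 * μ ^ (a + 2)) = (2 ^ (a + 3) * C1) * μ ^ (a + 2) := by ring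
          _ ≤ C * μ ^ (a + 2) := Nat.mul_le_mul_right _ (by omega)
          _ ≤ _ := h4
      exact Nat.le_of_mul_le_mul_left h5 (by positivity)
  · rw [sq_filter_map]
    refine he4.trans (Nat.mul_le_mul_left _ ?_)
    apply Finset.sum_le_sum_of_subset
    intro i hi
    rw [Finset.mem_filter] at hi ⊢
    exact ⟨hi.1, hbμ i hi.2⟩
  · intro m hm
    rw [Multiset.mem_map] at hm
    obtain ⟨i, _, rfl⟩ := hm
    exact (Nat.mul_le_mul_right _ hR0).trans (hRb i)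
  · rw [sq_map]; exact heS
  · rw [sq_map]; exact hS2

theorem nn_all (a : ℕ) : NN a := by
  induction a with
  | zero => exact nn_zero
  | succ a ih => exact nn_succ ih

end Pool.Agent.SG
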