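import Pool.Agent.SG.ExactC
import Pool.Agent.SG.NNstep
import Pool.Agent.SG.LogE
import Pool.Agent.KD.AllD
import Pool.Agent.helper25.ST.Main

set_option autoImplicit false

/-!
# Module Final: all systems with multiplicities at most `c d ^ (1 - ε)`

`j` with `g = 1/(2j+3) ≤ min(1/7, ε/7)`; `A` from `exactC j (nn_all _) 2` (`f = 2`), `C` from `log_pow`
(`k = 6`) plus `100`. Let `M' = M + 1`.
`critE`: `ms` (elements `≥ 1`, `≤ M'`) with `C(d+2,2) ≤ cd ms ≤ C(d+2,2) + kk M'` is empty in degree `d`: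
`exactC` with `L = M = M'`, `bg = 0`: `Sq ms ≥ cd ms ≥ d^2/2` (`Sm ≤ Sq`), `Sq ms ≤ 2 cd ms ≤
(d+1)(d+2) + M'(M'+1)`, so `2 Sq ≤ 5 d^2`; `vv ≤ 0`.
`exactG`: elements `0` can be dropped (as in the final modules of helper25/SX: FinM.lean), then as there: if
`cd ms ≤ C(d+2,2)` add `v = C(d+2,2) - cd ms` simple points, `critE`, `good_of_E_ones`; otherwise
`exists_sub`-like: a subset with `C(d+2,2) ≤ cd ≤ C(d+2,2) + kk M'`, `critE`, `E.add`.
`exactG2` (second alternative of the final theorem, compare helper25/SX/FinY.lean):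
`C (M+1)^(2+ε) ≤ ∑ m^2`: if `C' (M+1)^(1+ε/2) ≤ d` then `exactG`; otherwise `d` is small compared with
`sqrt (∑ m^2)`: `cd ms ≥ Sq/2 ≥ C(d'+2,2)` for a larger degree `d'` with `C' (M+1)^(1+ε/2) ≤ d'`, the system of
degree `d'` is empty by `exactG`, `E_deg`.
-/

namespace Pool.Agent.SG

open MvPolynomial Pool.Agent.helper5.NBS Pool.Agent.helper89.Segre Pool.Agent.SH9
open Pool.Agent.helper25.ST

/-- critical systems are empty -/
private theorem critE (ε : ℝ) (hε : 0 < ε) : ∃ C : ℝ, 0 < C ∧ ∀ (d M : ℕ) (ms : Multiset ℕ),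
    (∀ m ∈ ms, 1 ≤ m ∧ m ≤ M + 1) → C * ((M : ℝ) + 1) ^ (1 + ε) ≤ d →
    (d + 2).choose 2 ≤ cd ms → cd ms ≤ (d + 2).choose 2 + (M + 1) ^ 2 → E d ms := by
  obtain ⟨j, hj⟩ := exists_nat_gt (7 / ε + 7)
  have hjp : (0 : ℝ) < 2 * (j : ℝ) + 3 := by positivity
  have h7e : 0 < 7 / ε := by positivity
  have hj7 : (7 : ℝ) < j := by linarith
  have hjε : 7 < (2 * (j : ℝ) + 3) * ε := by
    have h1 : 7 / ε < 2 * (j : ℝ) + 3 := by linarith
    rwa [div_lt_iff₀ hε] at h1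
  obtain ⟨g, hg⟩ : ∃ g : ℝ, g = 1 / (2 * (j : ℝ) + 3) := ⟨_, rfl⟩
  have hg0 : 0 < g := by rw [hg]; positivity
  have hg7 : g ≤ 1 / 7 := by
    rw [hg]
    exact one_div_le_one_div_of_le (by norm_num) (by linarith)
  have hgε : 7 * g ≤ ε := by
    have h1 : 7 * g = 7 / (2 * (j : ℝ) + 3) := by rw [hg]; ring
    rw [h1, div_le_iff₀ hjp]
    linarith
  obtain ⟨A, hA1, hA⟩ := exactC j (nn_all _) 2
  obtain ⟨C, hC1, hC⟩ := log_pow g A 6 hg0 hg7
  refine ⟨C + 100, by linarith, ?_⟩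
  intro d M ms hms hd hlo hhi
  have hM1 : (1 : ℝ) ≤ (M : ℝ) + 1 := by
    have := Nat.cast_nonneg (α := ℝ) M
    linarith
  have hM0 : (0 : ℝ) ≤ (M : ℝ) + 1 := by linarith
  have hP0 : (0 : ℝ) ≤ ((M : ℝ) + 1) ^ (1 + ε) := Real.rpow_nonneg hM0 _
  have hMP : (M : ℝ) + 1 ≤ ((M : ℝ) + 1) ^ (1 + ε) := by
    have h1 := Real.rpow_le_rpow_of_exponent_le hM1 (by linarith : (1 : ℝ) ≤ 1 + ε)
    rwa [Real.rpow_one] at h1
  have hd100 : 100 * (M + 1) ≤ d := by
    have h1 : (100 : ℝ) * ((M : ℝ) + 1) ≤ d := by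
      have h2 : 0 ≤ C * ((M : ℝ) + 1) ^ (1 + ε) := by positivity
      linarith
    exact_mod_cast h1
  have hlog : A * Real.log ((d : ℝ) + 3) ^ 6 * (((M + 1 : ℕ) : ℝ)) ^ (1 + 5 * g) ≤ d := by
    refine hC d (M + 1) (by omega) ?_
    push_cast
    have h1 : ((M : ℝ) + 1) ^ (1 + 7 * g) ≤ ((M : ℝ) + 1) ^ (1 + ε) :=
      Real.rpow_le_rpow_of_exponent_le hM1 (by linarith)
    have h2 : C * ((M : ℝ) + 1) ^ (1 + 7 * g) ≤ C * ((M : ℝ) + 1) ^ (1 + ε) :=
      mul_le_mul_of_nonneg_left h1 (by linarith)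
    linarith
  have hlog' : A * Real.log ((d : ℝ) + 3) ^ 6 *
      (((M + 1 : ℕ) : ℝ)) ^ (1 + 5 / (2 * (j : ℝ) + 3)) ≤ d := by
    have h1 : 5 / (2 * (j : ℝ) + 3) = 5 * g := by rw [hg]; ring
    rw [h1]
    exact hlog
  have h2cd := two_cd' ms
  have hSS := Sm_le_Sq ms
  have htc := two_choose d
  have hfil : (ms.filter fun m => m ≤ M + 1) = ms :=
    Multiset.filter_eq_self.mpr fun m hm => (hms m hm).2
  have hdd : 100 * d ≤ d ^ 2 := by
    have h1 : 100 ≤ d := by omega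
    calc 100 * d ≤ d * d := Nat.mul_le_mul_right _ h1
      _ = d ^ 2 := by ring
  have hMM : 10000 * (M + 1) ^ 2 ≤ d ^ 2 := by
    calc 10000 * (M + 1) ^ 2 = (100 * (M + 1)) ^ 2 := by ring
      _ ≤ d ^ 2 := Nat.pow_le_pow_left hd100 2
  have hexp : (d + 1) * (d + 2) = d ^ 2 + 3 * d + 2 := by ring
  rw [hexp] at htc
  have h := hA d (M + 1) (M + 1) ms 0 (by omega) le_rfl hms (by simp)
    (by rw [hfil]; omega) (by rw [add_zero]; omega) hlog'
    (by simp [Sm]) (by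
      rw [add_zero]
      unfold vv
      have h1 : (((d + 2).choose 2 : ℕ) : ℝ) ≤ ((cd ms : ℕ) : ℝ) := by exact_mod_cast hlo
      linarith)
  rwa [add_zero] at h

theorem exactG (ε : ℝ) (hε : 0 < ε) : ∃ C : ℝ, 0 < C ∧ ∀ (d M : ℕ) (ms : Multiset ℕ),
    (∀ m ∈ ms, m ≤ M) → C * ((M : ℝ) + 1) ^ (1 + ε) ≤ d →
    Good ℂ (tri d) ms (min (cd ms) (tri d).card) := by
  obtain ⟨C, hC0, hC⟩ := critE ε hε
  refine ⟨C, hC0, ?_⟩
  intro d M ms hms hd
  obtain ⟨a, z, hz⟩ : ∃ a z : Multiset ℕ, a = ms.filter (fun m => 1 ≤ m) ∧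
      z = ms.filter (fun m => ¬ 1 ≤ m) := ⟨_, _, rfl, rfl⟩
  have hms' : a + z = ms := by
    rw [hz.1, hz.2]
    exact Multiset.filter_add_not _ _
  have ha : ∀ m ∈ a, 1 ≤ m ∧ m ≤ M := by
    intro m hm
    rw [hz.1, Multiset.mem_filter] at hm
    exact ⟨hm.2, hms m hm.1⟩
  have hzc : cd z = 0 := by
    rw [cd, Multiset.sum_eq_zero_iff]
    intro x hx
    obtain ⟨m, hm, rfl⟩ := Multiset.mem_map.mp hx
    rw [hz.2, Multiset.mem_filter] at hm
    have h0 : m = 0 := by omega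
    rw [h0]
    have := two_mul_kk 0
    omega
  have hcd : cd ms = cd a := by rw [← hms', cd_add, hzc, add_zero]
  rcases Nat.le_total (cd ms) ((d + 2).choose 2) with hc | hc
  · have hE : E d (a + Multiset.replicate ((d + 2).choose 2 - cd ms) 1) := by
      refine hC d M _ ?_ hd ?_ ?_
      · intro m hm
        rcases Multiset.mem_add.mp hm with h | h
        · have := ha m h
          omega
        · have := Multiset.eq_of_mem_replicate h
          omega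
      · rw [cd_add, cd_ones]
        omega
      · rw [cd_add, cd_ones]
        omega
    have hE2 := E.add hE z
    have he : a + Multiset.replicate ((d + 2).choose 2 - cd ms) 1 + z =
        ms + Multiset.replicate ((d + 2).choose 2 - cd ms) 1 := by
      rw [← hms']
      abel
    rw [he] at hE2
    have hG := good_of_E_ones hE2
    rw [card_tri] at hG ⊢
    rw [Nat.min_eq_left hc]
    have he : (d + 2).choose 2 - ((d + 2).choose 2 - cd ms) = cd ms := by omega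
    rwa [he] at hG
  · have haW : ∀ μ ∈ a, μ + 1 ≤ M + 1 := fun μ hμ => by
      have := ha μ hμ
      omega
    rw [hcd] at hc
    obtain ⟨gs, hg, g1, g2⟩ := exists_sub haW hc
    have hE : E d gs := hC d M gs (fun m hm => by
      have := ha m (Multiset.mem_of_le hg hm)
      omega) hd g1 g2
    obtain ⟨rest, hr⟩ := Multiset.le_iff_exists_add.mp hg
    have hQ := (hE.add rest).add z
    rw [← hr, hms'] at hQ
    rw [Nat.min_eq_right (by rw [card_tri, hcd]; exact hc)]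
    exact hQ

theorem exactG2 (ε : ℝ) (hε : 0 < ε) : ∃ C : ℝ, 0 < C ∧ ∀ (d h M : ℕ) (m : Fin h → ℕ),
    (∀ i, m i ≤ M) → (C * ((M : ℝ) + 1) ^ (1 + ε) ≤ d ∨
      C * ((M : ℝ) + 1) ^ (2 + ε) ≤ ∑ i, (m i : ℝ) ^ 2) →
    ∃ Q : MvPolynomial (Fin h × Fin 3) ℂ, Q ≠ 0 ∧ ∀ p : Fin h → Fin 3 → ℂ,
      eval (fun ij : Fin h × Fin 3 => p ij.1 ij.2) Q ≠ 0 →
      Module.finrank ℂ (sys d h m p) = (d + 2).choose 2 - ∑ k, (m k + 1).choose 2 := by
  obtain ⟨C1, hC10, hC1⟩ := exactG (ε / 2) (by linarith)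
  obtain ⟨C2, hC20, hC2⟩ := exactG ε hε
  refine ⟨C2 + 12 * C1 ^ 2 + 7, by positivity, ?_⟩
  intro d h M m hm hd
  have hM1 : (1 : ℝ) ≤ (M : ℝ) + 1 := by
    have := Nat.cast_nonneg (α := ℝ) M
    linarith
  have hM0 : (0 : ℝ) ≤ (M : ℝ) + 1 := by linarith
  have hms : ∀ μ ∈ (Finset.univ.val.map m : Multiset ℕ), μ ≤ M := by
    intro μ hμ
    obtain ⟨i, _, rfl⟩ := Multiset.mem_map.mp hμ
    exact hm i
  have hcd : cd (Finset.univ.val.map m) = ∑ k, (m k + 1).choose 2 := sumkk_eq m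
  rcases hd with hd | hd
  · have hP0 : (0 : ℝ) ≤ ((M : ℝ) + 1) ^ (1 + ε) := Real.rpow_nonneg hM0 _
    have hG := hC2 d M _ hms (le_trans (mul_le_mul_of_nonneg_right (by nlinarith [sq_nonneg C1]) hP0)
      hd)
    rw [hcd, card_tri] at hG
    exact generic_of_good hG
  -- the second alternative
  obtain ⟨P, hP⟩ : ∃ P : ℝ, P = ((M : ℝ) + 1) ^ (1 + ε / 2) := ⟨_, rfl⟩
  have hPsq : ((M : ℝ) + 1) ^ (2 + ε) = P ^ 2 := by
    rw [hP, ← Real.rpow_natCast (((M : ℝ) + 1) ^ (1 + ε / 2)), ← Real.rpow_mul hM0]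
    congr 1
    push_cast
    ring
  have hP1 : 1 ≤ P := by
    rw [hP]
    exact Real.one_le_rpow hM1 (by linarith)
  rw [hPsq] at hd
  have hsq : ∑ i, (m i : ℝ) ^ 2 ≤ 2 * (cd (Finset.univ.val.map m) : ℝ) := by
    rw [hcd]
    push_cast
    rw [Finset.mul_sum]
    refine Finset.sum_le_sum fun i _ => ?_
    have h1 : 2 * (m i + 1).choose 2 = m i * (m i + 1) := by
      have h := two_mul_kk (m i)
      rw [kk] at h
      rw [h]
      ring
    have h2 : (2 : ℝ) * ((m i + 1).choose 2 : ℕ) = (m i : ℝ) * ((m i : ℝ) + 1) := by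
      exact_mod_cast h1
    have h3 : (0 : ℝ) ≤ m i := Nat.cast_nonneg _
    nlinarith
  have key : ∀ e : ℕ, cd (Finset.univ.val.map m) ≤ (tri e).card + (e + 2) →
      C1 * ((M : ℝ) + 1) ^ (1 + ε / 2) ≤ e := by
    intro e he
    rw [← hP]
    rw [card_tri] at he
    have ht := two_choose e
    have h1 : 2 * cd (Finset.univ.val.map m) ≤ (e + 3) * (e + 2) := by nlinarith
    have h2 : (2 : ℝ) * (cd (Finset.univ.val.map m) : ℝ) ≤ ((e : ℝ) + 3) * ((e : ℝ) + 2) := by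
      exact_mod_cast h1
    have h3 : (C2 + 12 * C1 ^ 2 + 7) * P ^ 2 ≤ ((e : ℝ) + 3) * ((e : ℝ) + 2) := by linarith
    have hP2 : 1 ≤ P ^ 2 := one_le_pow₀ hP1
    rcases Nat.eq_zero_or_pos e with h0 | h0
    · exfalso
      subst h0
      have h4 : 7 * P ^ 2 ≤ (C2 + 12 * C1 ^ 2 + 7) * P ^ 2 := by
        apply mul_le_mul_of_nonneg_right _ (by positivity)
        nlinarith [sq_nonneg C1]
      norm_num at h3
      linarith
    · have he1 : (1 : ℝ) ≤ e := by exact_mod_cast h0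
      have h4 : 12 * C1 ^ 2 * P ^ 2 ≤ (C2 + 12 * C1 ^ 2 + 7) * P ^ 2 := by
        apply mul_le_mul_of_nonneg_right _ (by positivity)
        linarith
      have h5 : (C1 * P) ^ 2 ≤ (e : ℝ) ^ 2 := by nlinarith
      exact (abs_le_of_sq_le_sq' h5 (by linarith)).2
  have hG : Good ℂ (tri d) (Finset.univ.val.map m)
      (min (cd (Finset.univ.val.map m)) (tri d).card) := by
    have e : Pool.Agent.helper61.EX.cd (Finset.univ.val.map m) = cd (Finset.univ.val.map m) := rfl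
    refine Pool.Agent.KD.all_d (ms := Finset.univ.val.map m) ?_ ?_ d
    · intro d h1 _
      rw [e] at h1 ⊢
      have := hC1 d M _ hms (key d (by omega))
      rwa [min_eq_left h1] at this
    · intro d h1 h2
      rw [e] at h1 h2
      have := hC1 d M _ hms (key d h2)
      rwa [min_eq_right h1.le] at this
  rw [hcd, card_tri] at hG
  exact generic_of_good hG

end Pool.Agent.SG
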