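import Pool.Agent.SG.NefE

set_option autoImplicit false

/-!
# Module BaseA: one-sided bound for the dimension of a base system

`extras`: every number `t` of conditions is imposed by a multiset of elements `≤ x0` with small `Sm`:
`t = k kk(x0) + r`, `r < kk x0`, `kk y ≤ r < kk (y+1)`, `y < x0`, `r - kk y ≤ y` simple points;
`k x0^2 ≤ 2 t`.

`baseA`: `C0` from `empN` (`f`, `A = 40`), `w = (Sm + X)/2 + C d`. Let `v = vv d ms`,
`2 v = (d+1)(d+2) - Sq - Sm` (`two_vv`).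
If `v + w ≤ 1`: `Sq = (d+1)(d+2) - 2v - Sm ≥ d^2 + 3d + 2 + X + 2 C d - 2 ≥ d^2 + 2d + X + 1`: `empN`, `hh = 0`.
Otherwise `t = ⌈v + w⌉ - 1 ≥ 1`, `t ≤ v + w ≤ 12 d^2` (`C ≤ C μ ≤ d`, `Sm ≤ Sq ≤ 10 d^2`, `X ≤ d^2`),
`x0 = d / C0` (`≥ d / (2 C0)`), `X'` from `extras`: `Sm X' ≤ 2t/x0 + 2 x0 ≤ 50 C0 d`. For `ms + X'`:
`vv = v - t ≤ 1 - w`, so `Sq ≥ d^2 + 3d + 2 + 2w - 2 - Sm ms - Sm X' ≥ d^2 + 2d + X + 1` (`C ≥ 50 C0 + 2`), and
`Sq ≤ 10 d^2 + 2 t ≤ 40 d^2`. `empN`: empty. `hh_le_add`: `hh d ms ≤ cd X' = t ≤ v + w`.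
-/

namespace Pool.Agent.SG

open MvPolynomial Pool.Agent.helper5.NBS Pool.Agent.helper89.Segre Pool.Agent.SH9
open Pool.Agent.helper25.ST

private theorem kk_step (y : ℕ) : kk (y + 1) = kk y + (y + 1) := by
  have h1 := two_mul_kk (y + 1)
  have h2 := two_mul_kk y
  nlinarith

private theorem exists_tri (n : ℕ) : ∀ r : ℕ, r < kk n → ∃ y, y < n ∧ kk y ≤ r ∧ r < kk (y + 1) := by
  induction n with
  | zero => intro r hr; simp [kk] at hr
  | succ n ih =>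
    intro r hr
    by_cases h : r < kk n
    · obtain ⟨y, h1, h2, h3⟩ := ih r h
      exact ⟨y, by omega, h2, h3⟩
    · exact ⟨n, by omega, by omega, hr⟩

private theorem cd_rep (k m : ℕ) : cd (Multiset.replicate k m) = k * kk m := by
  simp [cd]

private theorem Sm_rep (k m : ℕ) : Sm (Multiset.replicate k m) = k * m := by
  simp [Sm]

theorem extras (t x0 : ℕ) (hx : 1 ≤ x0) : ∃ X' : Multiset ℕ, cd X' = t ∧ (∀ m ∈ X', m ≤ x0) ∧
    Sm X' * x0 ≤ 2 * t + 2 * x0 ^ 2 := by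
  have hk0 := two_mul_kk x0
  have hkpos : 0 < kk x0 := by nlinarith
  set k := t / kk x0 with hk
  set r := t % kk x0 with hr
  have hrt : k * kk x0 + r = t := by
    rw [hk, hr, mul_comm]; exact Nat.div_add_mod t (kk x0)
  have hr1 : r < kk x0 := Nat.mod_lt _ hkpos
  obtain ⟨y, hy, hy1, hy2⟩ := exists_tri x0 r hr1
  rw [kk_step] at hy2
  refine ⟨Multiset.replicate k x0 + (y ::ₘ Multiset.replicate (r - kk y) 1), ?_, ?_, ?_⟩
  · rw [cd_add, cd_cons, cd_rep, cd_ones]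
    omega
  · intro m hm
    rw [Multiset.mem_add, Multiset.mem_cons] at hm
    rcases hm with hm | hm | hm
    · rw [Multiset.eq_of_mem_replicate hm]
    · omega
    · rw [Multiset.eq_of_mem_replicate hm]; exact hx
  · rw [Sm_add, Sm_cons, Sm_rep, Sm_rep]
    have h1 : k * x0 + (y + (r - kk y) * 1) ≤ k * x0 + 2 * x0 := by omega
    have h2 : k * (x0 * x0) ≤ 2 * t := by
      have h3 : x0 * x0 ≤ 2 * kk x0 := by nlinarith
      calc k * (x0 * x0) ≤ k * (2 * kk x0) := Nat.mul_le_mul_left _ h3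
        _ = 2 * (k * kk x0) := by ring
        _ ≤ 2 * t := by omega
    calc (k * x0 + (y + (r - kk y) * 1)) * x0 ≤ (k * x0 + 2 * x0) * x0 := Nat.mul_le_mul_right _ h1
      _ = k * (x0 * x0) + 2 * x0 ^ 2 := by ring
      _ ≤ 2 * t + 2 * x0 ^ 2 := by omega

theorem baseA {a : ℕ} (h : NN a) (f : ℕ) : ∃ C : ℕ, 1 ≤ C ∧ ∀ (d μ X : ℕ) (ms : Multiset ℕ), 1 ≤ μ →
    C * μ ≤ d → (∀ m ∈ ms, C * m ≤ d) → d ^ 2 ≤ f * Sq (ms.filter fun m => m ≤ μ) →
    Sq ms ≤ 10 * d ^ 2 → C * μ ^ (a + 2) ≤ X * d ^ a → X ≤ d ^ 2 →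
    (hh d ms : ℝ) ≤ max (vv d ms + ((Sm ms : ℝ) + (X : ℝ)) / 2 + (C : ℝ) * (d : ℝ)) 0 := by
  obtain ⟨C0, hC0, hE⟩ := empN h f 40
  refine ⟨50 * C0 + 2, by omega, ?_⟩
  intro d μ X ms hμ hd hm hf hS hX hXd
  set C := 50 * C0 + 2 with hC
  have hCC0 : C0 ≤ C := by omega
  have hCd : C ≤ d := le_trans (by nlinarith) hd
  have hd1 : 1 ≤ d := by omega
  have hSS : Sm ms ≤ Sq ms := Sm_le_Sq ms
  have h2v := two_vv d ms
  have hd1' : (1 : ℝ) ≤ (d : ℝ) := by exact_mod_cast hd1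
  have hCdR : (C : ℝ) ≤ (d : ℝ) := by exact_mod_cast hCd
  have hC1R : (1 : ℝ) ≤ (C : ℝ) := by
    have : 1 ≤ C := by omega
    exact_mod_cast this
  set w : ℝ := ((Sm ms : ℝ) + (X : ℝ)) / 2 + (C : ℝ) * (d : ℝ) with hw
  have hgoal : vv d ms + ((Sm ms : ℝ) + (X : ℝ)) / 2 + (C : ℝ) * (d : ℝ) = vv d ms + w := by
    rw [hw]; ring
  rw [hgoal]
  by_cases h1 : vv d ms + w ≤ 1
  · have hemp : E d ms := by
      refine hE d μ X ms hμ (le_trans (Nat.mul_le_mul_right _ hCC0) hd)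
        (fun m hm' => le_trans (Nat.mul_le_mul_right _ hCC0) (hm m hm')) hf (by omega)
        (le_trans (Nat.mul_le_mul_right _ hCC0) hX) ?_
      have h3 : ((d ^ 2 + 2 * d + X + 1 : ℕ) : ℝ) ≤ (Sq ms : ℝ) := by
        push_cast
        nlinarith
      exact_mod_cast h3
    rw [hh_eq_zero_iff.2 hemp]
    simp
  · push Not at h1
    set t := ⌈vv d ms + w⌉₊ - 1 with ht
    have hpos : 0 < vv d ms + w := by linarith
    have hc1 : vv d ms + w ≤ (⌈vv d ms + w⌉₊ : ℝ) := Nat.le_ceil _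
    have hc2 : (⌈vv d ms + w⌉₊ : ℝ) < vv d ms + w + 1 := Nat.ceil_lt_add_one hpos.le
    have hc3 : 1 ≤ ⌈vv d ms + w⌉₊ := Nat.one_le_ceil_iff.2 hpos
    have htR : (t : ℝ) = (⌈vv d ms + w⌉₊ : ℝ) - 1 := by
      rw [ht]; push_cast [Nat.cast_sub hc3]; ring
    have ht1 : (t : ℝ) ≤ vv d ms + w := by linarith
    have ht2 : vv d ms + w - 1 ≤ (t : ℝ) := by linarith
    have hSmR : (Sm ms : ℝ) ≤ 10 * (d : ℝ) ^ 2 := by
      have : Sm ms ≤ 10 * d ^ 2 := hSS.trans hS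
      exact_mod_cast this
    have hXR : (X : ℝ) ≤ (d : ℝ) ^ 2 := by exact_mod_cast hXd
    have hSq0 : (0 : ℝ) ≤ (Sq ms : ℝ) := Nat.cast_nonneg _
    have hSm0 : (0 : ℝ) ≤ (Sm ms : ℝ) := Nat.cast_nonneg _
    have ht12 : (t : ℝ) ≤ 12 * (d : ℝ) ^ 2 := by
      have h3 : (C : ℝ) * (d : ℝ) ≤ (d : ℝ) ^ 2 := by nlinarith
      have h4 : vv d ms ≤ 3 * (d : ℝ) ^ 2 := by nlinarith
      rw [hw] at ht1
      linarith
    have ht12' : t ≤ 12 * d ^ 2 := by exact_mod_cast ht12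
    set x0 := d / C0 with hx0
    have hx1 : 1 ≤ x0 := (Nat.one_le_div_iff (by omega)).2 (by omega)
    have hx2 : C0 * x0 ≤ d := Nat.mul_div_le d C0
    have hx3 : d ≤ 2 * (C0 * x0) := by
      have h3 : d < C0 * (x0 + 1) := Nat.lt_mul_div_succ d (by omega)
      nlinarith
    have hx4 : x0 ≤ d := Nat.div_le_self _ _
    obtain ⟨X', hX1, hX2, hX3⟩ := extras t x0 hx1
    have hSm : Sm X' ≤ 50 * C0 * d := by
      have h3 : Sm X' * x0 ≤ 50 * C0 * d * x0 := by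
        have h4 : 24 * d ^ 2 ≤ 48 * C0 * d * x0 := by nlinarith
        have h5 : 2 * x0 ^ 2 ≤ 2 * C0 * d * x0 := by
          have h6 : x0 * x0 ≤ d * x0 := Nat.mul_le_mul_right _ hx4
          have h7 : d * x0 ≤ C0 * (d * x0) := Nat.le_mul_of_pos_left _ (by omega)
          nlinarith
        nlinarith
      exact Nat.le_of_mul_le_mul_right h3 (by omega)
    have hvv : vv d (ms + X') = vv d ms - (t : ℝ) := by rw [vv_add, hX1]
    have h2v' := two_vv d (ms + X')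
    rw [hvv, Sm_add] at h2v'
    push_cast at h2v'
    have hSmR' : (Sm X' : ℝ) ≤ 50 * (C0 : ℝ) * (d : ℝ) := by exact_mod_cast hSm
    have hCR : (C : ℝ) = 50 * (C0 : ℝ) + 2 := by rw [hC]; push_cast; ring
    have hC0R : (1 : ℝ) ≤ (C0 : ℝ) := by exact_mod_cast hC0
    have hemp : E d (ms + X') := by
      refine hE d μ X (ms + X') hμ (le_trans (Nat.mul_le_mul_right _ hCC0) hd) ?_ ?_ ?_
        (le_trans (Nat.mul_le_mul_right _ hCC0) hX) ?_
      · intro m hm'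
        rcases Multiset.mem_add.1 hm' with h3 | h3
        · exact le_trans (Nat.mul_le_mul_right _ hCC0) (hm m h3)
        · exact le_trans (Nat.mul_le_mul_left _ (hX2 m h3)) hx2
      · rw [Multiset.filter_add, Sq_add]
        exact hf.trans (Nat.mul_le_mul_left _ (Nat.le_add_right _ _))
      · rw [Sq_add]
        have h3 := two_cd' X'
        omega
      · have h3 : ((d ^ 2 + 2 * d + X + 1 : ℕ) : ℝ) ≤ (Sq (ms + X') : ℝ) := by
          push_cast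
          rw [hw] at ht2
          have h4 : (0 : ℝ) ≤ (C0 : ℝ) * (d : ℝ) := by positivity
          rw [hCR] at ht2
          nlinarith
        exact_mod_cast h3
    have h3 := hh_le_add d ms X'
    rw [hh_eq_zero_iff.2 hemp, hX1, zero_add] at h3
    have h4 : (hh d ms : ℝ) ≤ (t : ℝ) := by exact_mod_cast h3
    exact (h4.trans ht1).trans (le_max_left _ _)

end Pool.Agent.SG
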