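import Pool.Agent.SH9.Collide

set_option autoImplicit false

/-!
# Module CollideAll: limits of curves when points collide: ALL homogeneous components

As `collide` (SH9/Collide.lean), with a stronger conclusion: for every `n` (not only for one degree
`μ`) the component of degree `n` of the limit curve `F` at `q k` is the component of degree `n` of some
`g` of degree `≤ n` with multiplicities `m i` at `c i` (`π i = k`).

Proof: repeat `Pool.Agent.helper7.COL.specL`. There `H = scA G`, so `coeff ν H = X^(deg ν) coeff ν G` and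
`coeff ν (trA (C (u i)) H) = 0` for `deg ν < m i` (as polynomials in the parameter `t`). For given `n` let
`g` be the coefficient of `t^n` of `H` (`coeff ν g = (coeff ν H).coeff n`). It has multiplicity `m i` at
`u i` (take the coefficient of `t^n`; `trA (C (u i))` is linear over `ℂ[t]` with constant coefficients),
degree `≤ n` (`X^(deg ν)` divides `coeff ν H`) and for `deg ν = n`:
`coeff ν g = (coeff ν G).coeff 0 = coeff ν (sp 0 G) = coeff ν (trans (q k) (sp 0 F'))`. Then translate by
`q k` as at the end of `collide` (`wdeg_trans_le`, `coeff_trans_top`).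
-/

namespace Pool.Agent.SG

open MvPolynomial Pool.Agent.helper5.NBS Pool.Agent.helper89.Segre Pool.Agent.SH9
open Pool.Agent.helper73.Nag Pool.Agent.helper22.SC Pool.Agent.helper15.Coll

/-- the coefficient of `t ^ N` of a family of polynomials -/
private lemma exists_cf (N : ℕ) (f : RA) : ∃ g : R2, (∀ ν, coeff ν g = (coeff ν f).coeff N) ∧
    ∀ (u : Fin 2 → ℂ) (ν : Fin 2 →₀ ℕ), coeff ν (trans u g) =
      (coeff ν (trA (fun l => Polynomial.C (u l)) f)).coeff N := by
  classical
  induction f using MvPolynomial.induction_on' with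
  | monomial k p =>
    refine ⟨monomial k (p.coeff N), fun ν => ?_, fun u ν => ?_⟩
    · rw [coeff_monomial, coeff_monomial]
      split_ifs
      · rfl
      · simp
    · have h1 : (monomial k p : RA) = C p * MvPolynomial.map Polynomial.C (monomial k 1) := by
        rw [map_monomial, C_mul_monomial]
        simp
      have h2 : (monomial k (p.coeff N) : R2) = C (p.coeff N) * monomial k 1 := by
        rw [C_mul_monomial, mul_one]
      have h3 : ∀ F : R2, trA (fun l => Polynomial.C (u l)) (MvPolynomial.map Polynomial.C F) =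
          MvPolynomial.map Polynomial.C (trans u F) := by
        intro F
        have : (trA (fun l => Polynomial.C (u l)) : RA →+* RA).comp
            (MvPolynomial.map (Polynomial.C : ℂ →+* Polynomial ℂ)) =
            (MvPolynomial.map Polynomial.C).comp (trans u : R2 →+* R2) := by
          apply MvPolynomial.ringHom_ext
          · intro a
            simp [trA, trans_C]
          · intro l
            simp [trA, trans_X]
        exact congrArg (fun g : R2 →+* RA => g F) this
      have h4 : trA (fun l => Polynomial.C (u l)) (C p) = C p := by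
        rw [trA, aeval_C, MvPolynomial.algebraMap_eq]
      rw [h1, map_mul, h4, h3, coeff_C_mul, coeff_map, h2, map_mul, trans_C, coeff_C_mul,
        Polynomial.coeff_mul_C]
  | add f1 f2 h1 h2 =>
    obtain ⟨g1, a1, b1⟩ := h1
    obtain ⟨g2, a2, b2⟩ := h2
    refine ⟨g1 + g2, fun ν => ?_, fun u ν => ?_⟩
    · rw [coeff_add, coeff_add, a1, a2, Polynomial.coeff_add]
    · rw [map_add, map_add, coeff_add, coeff_add, b1, b2, Polynomial.coeff_add]

private lemma specAll {N : ℕ} {d h : ℕ} {m : Fin h → ℕ} (hN : 0 < N) {v : ExN N d → PtRing h}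
    (hv : IsFamN m v) {h' : ℕ} (π : Fin h → Fin h') (u : Fin h → Fin 2 → ℂ)
    (q : Fin h' → Fin 2 → ℂ) (hne : ∃ k, (col π u (v k)).map (evP q) ≠ 0) :
      ∃ F : R2, F ≠ 0 ∧ wdeg N F ≤ d ∧ ∀ (k : Fin h') (M : ℕ), ∃ g : R2,
        (∀ ν : Fin 2 →₀ ℕ, M < ν.degree → coeff ν g = 0) ∧
        (∀ i, π i = k → g ∈ ptIdeal (u i) ^ m i) ∧
        ∀ n : Fin 2 →₀ ℕ, n.degree = M → coeff n g = coeff n (trans (q k) F) := by
  classical
  set a : ExN N d → Polynomial ℂ := fun k => (col π u (v k)).map (evP q) with ha
  set Φ : RA := ∑ k : ExN N d, monomial k.1 (a k) with hΦ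
  have hcoef : ∀ n, coeff n Φ = if hn : n ∈ ExN N d then a ⟨n, hn⟩ else 0 := by
    intro n
    rw [hΦ, coeff_sum]
    simp only [coeff_monomial]
    split_ifs with hn
    · rw [Finset.sum_eq_single (⟨n, hn⟩ : ExN N d)]
      · simp
      · intro l _ hl
        rw [if_neg]
        intro h
        exact hl (Subtype.ext h)
      · intro h
        exact absurd (Finset.mem_univ _) h
    · apply Finset.sum_eq_zero
      intro k _
      rw [if_neg]
      intro h
      exact hn (h ▸ k.2)
  have hΦ0 : Φ ≠ 0 := by
    obtain ⟨k, hk⟩ := hne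
    intro h0
    have h1 := hcoef k.1
    rw [h0, coeff_zero, dif_pos k.2] at h1
    exact hk h1.symm
  have hsp : ∀ t, sp t Φ =
      polyOf (ExN N d) (fun k => evP (fun i l => q (π i) l + t * u i l) (v k)) := by
    intro t
    rw [hΦ, map_sum, polyOf]
    apply Finset.sum_congr rfl
    intro k _
    rw [sp, map_monomial, ha]
    show monomial k.1 (Polynomial.eval t _) = _
    rw [col_eval]
  obtain ⟨ν, F', hF', hF'0⟩ := extract hΦ0
  refine ⟨sp 0 F', hF'0, ?_, fun k M => ?_⟩
  · rw [wdegN_le_iff hN]
    intro n hn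
    by_contra hcon
    have h1 := hcoef n
    rw [dif_neg hcon, hF', coeff_C_mul] at h1
    have h2 : coeff n F' = 0 :=
      (mul_eq_zero.mp h1).resolve_left (pow_ne_zero _ Polynomial.X_ne_zero)
    rw [mem_support_iff, coeff_sp, h2] at hn
    simp at hn
  · set G : RA := trA (fun l => Polynomial.C (q k l)) F' with hG
    set H : RA := scA G with hH
    have hGsp : sp 0 G = trans (q k) (sp 0 F') := by
      rw [hG, sp_trA]
      simp
    obtain ⟨g, hg1, hg2⟩ := exists_cf M H
    refine ⟨g, ?_, ?_, ?_⟩
    · intro n hn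
      rw [hg1, hH, coeff_scA, Polynomial.coeff_X_pow_mul', if_neg (by omega)]
    · intro i hi
      rw [mem_ptIdeal_pow]
      intro n hn
      rw [hg2]
      have h2 : coeff n (trA (fun l => Polynomial.C (u i l)) H) = 0 := by
        rw [hH, hG, trA_scA, coeff_scA]
        have h3 : coeff n (trA (fun l => Polynomial.C (q k l) +
            Polynomial.X * Polynomial.C (u i l)) Φ) = 0 := by
          apply Polynomial.funext
          intro t
          rw [← coeff_sp, sp_trA, hsp, Polynomial.eval_zero]
          have h4 := (hv.lin hN (fun i l => q (π i) l + t * u i l)).2 i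
          rw [mem_ptIdeal_pow] at h4
          have h5 := h4 n hn
          have h6 : (fun l => Polynomial.eval t (Polynomial.C (q k l) +
              Polynomial.X * Polynomial.C (u i l))) = fun l => q (π i) l + t * u i l := by
            funext l
            simp [hi]
            ring
          rw [h6]
          exact h5
        rw [hF', map_mul] at h3
        have h4 : trA (fun l => Polynomial.C (q k l) + Polynomial.X * Polynomial.C (u i l))
            (C (Polynomial.X ^ ν)) = C (Polynomial.X ^ ν) := by
          rw [trA, aeval_C, MvPolynomial.algebraMap_eq]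
        rw [h4, coeff_C_mul] at h3
        rw [(mul_eq_zero.mp h3).resolve_left (pow_ne_zero _ Polynomial.X_ne_zero), mul_zero]
      rw [h2, Polynomial.coeff_zero]
    · intro n hn
      rw [hg1, hH, coeff_scA, Polynomial.coeff_X_pow_mul', if_pos (by omega), hn, Nat.sub_self,
        Polynomial.coeff_zero_eq_eval_zero, ← coeff_sp, hGsp]

private lemma wdeg_one_le {g : R2} {N : ℕ} (h : ∀ ν : Fin 2 →₀ ℕ, N < ν.degree → coeff ν g = 0) :
    wdeg 1 g ≤ N := by
  rw [wdeg_eq_totalDegree, MvPolynomial.totalDegree]
  apply Finset.sup_le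
  intro n hn
  rw [mem_support_iff] at hn
  by_contra hcon
  rw [not_le] at hcon
  exact hn (h n hcon)

theorem collideAll {d n : ℕ} {m : Fin n → ℕ} (h : ∀ c : Fin n → Fin 2 → ℂ, ¬ Emp d m c) :
    ∃ P : PtRing n, P ≠ 0 ∧ ∀ c : Fin n → Fin 2 → ℂ, evP c P ≠ 0 →
      ∀ (n' : ℕ) (π : Fin n → Fin n') (q : Fin n' → Fin 2 → ℂ),
        ∃ F : R2, F ≠ 0 ∧ wdeg 1 F ≤ d ∧ ∀ (k : Fin n') (N : ℕ), ∃ g : R2, wdeg 1 g ≤ N ∧
          (∀ i, π i = k → g ∈ ptIdeal (c i) ^ m i) ∧
          ∀ ν : Fin 2 →₀ ℕ, ν.degree = N → coeff ν g = coeff ν (trans (q k) F) := by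
  classical
  obtain ⟨P, hP0, hP⟩ := dichN (N := 1) one_pos n d m
  obtain ⟨v, hv, k0, hk0⟩ : ∃ v : ExN 1 d → PtRing n, IsFamN m v ∧ ∃ k, v k = P := by
    rcases hP with h1 | h1
    · exfalso
      obtain ⟨p, hp⟩ : ∃ p : Fin n → Fin 2 → ℂ, evP p P ≠ 0 := by
        by_contra hcon
        push Not at hcon
        exact hP0 (evP_eq_zero hcon)
      exact h p (fun F hF1 hF2 => h1 p hp F ⟨hF1, hF2⟩)
    · exact h1
  refine ⟨P, hP0, fun c hc n' π q => ?_⟩
  obtain ⟨F, hF0, hFd, hF⟩ := specAll (N := 1) one_pos hv π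
    (fun i l => c i l - q (π i) l) q ⟨k0, by
      intro h0
      apply hc
      have h1 := col_eval π (fun i l => c i l - q (π i) l) q 1 (v k0)
      rw [h0, Polynomial.eval_zero] at h1
      have h2 : (fun i l => q (π i) l + 1 * (c i l - q (π i) l)) = c := by
        funext i l
        ring
      rw [h2, hk0] at h1
      exact h1.symm⟩
  refine ⟨F, hF0, hFd, fun k N => ?_⟩
  obtain ⟨g, hgd, hgm, hgt⟩ := hF k N
  have hsd : wdeg 1 ((trans (q k)).symm g) ≤ N := by
    rw [trans_symm]
    exact wdeg_trans_le _ (wdeg_one_le hgd)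
  refine ⟨(trans (q k)).symm g, hsd, ?_, ?_⟩
  · intro i hi
    have h1 := hgm i hi
    rw [mem_ptIdeal_pow] at h1 ⊢
    intro ν hν
    rw [trans_symm, trans_trans]
    have h2 : (fun l => c i l + - q k l) = fun l => c i l - q (π i) l := by
      funext l
      rw [hi]
      ring
    rw [h2]
    exact h1 ν hν
  · intro ν hν
    rw [← hgt ν hν]
    have h1 := coeff_trans_top (q k) hsd ν hν
    rw [AlgEquiv.apply_symm_apply] at h1
    exact h1.symm

end Pool.Agent.SG
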