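import Pool.Agent.SG.Defs

set_option autoImplicit false

/-!
# Module Cube: a subgroup whose number of conditions is far from the triangular numbers

`k = j + 2`, `N = card gs`, `C W^2 ≤ N^(2k-1)`.
1. Finite differences: `Δ_[](f)(y) = f y`, `Δ_(x::xs)(f)(y) = Δ_xs(f)(y) - Δ_xs(f)(y - x)`. For
   `f_s(y) = y^s` (`Real.rpow`), `x_i ≥ 0` and `y - ∑ x_i > 0` there is `ξ ∈ [y - ∑ x_i, y]` with
   `Δ_xs(f_s)(y) = (∏ x_i) s (s-1) ... (s-k+1) ξ^(s-k)`: induction on the list for all `s`: the function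
   `y ↦ Δ_xs(f_s)(y)` has derivative `s Δ_xs(f_(s-1))(y)`, mean value theorem on `[y - x, y]`, then
   induction for `s - 1` at the intermediate point.
2. `T(y) = (sqrt(8y+1) - 1)/2`, `T(kk n) = n`, `T` is increasing and `T(y') - T(y) ≤ (y' - y) / sqrt(8 y + 1) * 2`
   (concave). So if `|y - kk n| ≤ δ` then `|T(y) - n| ≤ 2 δ / sqrt(min..)`; for `y ≍ N W^2` and `kk n` near `y`
   (if `|y - kk n| ≥ y/2` there is nothing to prove): `|T(y) - n| ≤ C' |y - kk n| / (sqrt N W)`.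
3. `r ≥ 1` elements in each of `k` disjoint blocks `B_1..B_k ≤ gs` (`k r ≤ N/2`), `x_i = cd B_i ∈
   [r W^2/8, r W^2]` (`kk m ∈ [W^2/8, W^2]`), `y = cd gs ∈ [N W^2/8, N W^2]`, `∑ x_i ≤ y/2`
   (`k r ≤ N/16`). By 1. (with `8y + 1` and `8 x_i`, `s = 1/2`):
   `|Δ| ≍_k ∏ x_i / y^(k - 1/2) ≍_k r^k W / N^(k-1/2)`, where `Δ = ∑_S ± T(y - x_S)` (the constant `-1/2`
   cancels, `k ≥ 1`). Choose `P = κ N^(k-1/2) / W` (`κ = κ(k)` small, `P ≥ 1` by `C W^2 ≤ N^(2k-1)`),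
   `r = ⌊P^(1/k)⌋ ≥ P^(1/k)/2`, so `r ≤ κ^(1/k) N ≤ N/(16 k)`, and `|Δ| ∈ [x0, 1/2]`, `x0 = x0(k) > 0`.
4. If for all `S` some integer `n_S` has `|T(y - x_S) - n_S| < x0 / 2^k` then `Δ` has distance `< x0` to an
   integer, contradiction with `x0 ≤ |Δ| ≤ 1/2`. So some `S` works for all integers; `gs' = gs` minus the
   blocks in `S`, `card gs' ≥ N - k r ≥ N/2`.
-/

namespace Pool.Agent.SG

open Pool.Agent.helper89.Segre Pool.Agent.SH9 Pool.Agent.helper25.ST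

/-- iterated difference -/
private noncomputable def Df : List ℝ → (ℝ → ℝ) → ℝ → ℝ
  | [], f, y => f y
  | x :: xs, f, y => Df xs f y - Df xs f (y - x)

private theorem Df_deriv {g g' : ℝ → ℝ} (h : ∀ t, 0 ≤ t → HasDerivAt g (g' t) t) :
    ∀ (xs : List ℝ), (∀ x ∈ xs, 0 < x) → ∀ y, xs.sum ≤ y →
      HasDerivAt (Df xs g) (Df xs g' y) y := by
  intro xs
  induction xs with
  | nil =>
    intro _ y hy
    exact h y (by simpa using hy)
  | cons x xs ih =>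
    intro hx y hy
    have hx0 : 0 < x := hx x (by simp)
    have hxs : ∀ x ∈ xs, 0 < x := fun z hz => hx z (by simp [hz])
    rw [List.sum_cons] at hy
    have h1 := ih hxs y (by linarith)
    have h2 := (ih hxs (y - x) (by linarith)).comp_sub_const y x
    exact h1.sub h2

private theorem Df_mvt : ∀ (xs : List ℝ), (∀ x ∈ xs, 0 < x) → ∀ (g : ℕ → ℝ → ℝ),
    (∀ i t, 0 ≤ t → HasDerivAt (g i) (g (i + 1) t) t) → ∀ y, xs.sum ≤ y →
    ∃ ξ, y - xs.sum ≤ ξ ∧ ξ ≤ y ∧ Df xs (g 0) y = xs.prod * g xs.length ξ := by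
  intro xs
  induction xs with
  | nil =>
    intro _ g _ y _
    exact ⟨y, by simp, le_rfl, by simp [Df]⟩
  | cons x xs ih =>
    intro hx g hg y hy
    have hx0 : 0 < x := hx x (by simp)
    have hxs : ∀ x ∈ xs, 0 < x := fun z hz => hx z (by simp [hz])
    rw [List.sum_cons] at hy
    have hd : ∀ t, xs.sum ≤ t → HasDerivAt (Df xs (g 0)) (Df xs (g 1) t) t :=
      fun t ht => Df_deriv (hg 0) xs hxs t ht
    obtain ⟨t, ht, ht2⟩ := exists_hasDerivAt_eq_slope (Df xs (g 0)) (Df xs (g 1))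
      (by linarith : y - x < y)
      (fun t ht => (hd t (by linarith [ht.1])).continuousAt.continuousWithinAt)
      (fun t ht => hd t (by linarith [ht.1]))
    obtain ⟨ξ, h1, h2, h3⟩ := ih hxs (fun i => g (i + 1)) (fun i t ht => hg (i + 1) t ht) t
      (by linarith [ht.1])
    refine ⟨ξ, ?_, h2.trans ht.2.le, ?_⟩
    · rw [List.sum_cons]
      linarith [ht.1]
    · have h4 : y - (y - x) = x := by ring
      rw [h4, eq_div_iff hx0.ne'] at ht2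
      have h5 : Df (x :: xs) (g 0) y = Df xs (g 0) y - Df xs (g 0) (y - x) := rfl
      rw [h5, ← ht2, List.prod_cons, List.length_cons]
      have h6 : Df xs (g 1) t = xs.prod * g (xs.length + 1) ξ := h3
      rw [h6]
      ring

/-- derivatives of `√(8 t + 1)` -/
private noncomputable def Gf (i : ℕ) (t : ℝ) : ℝ :=
  (∏ l ∈ Finset.range i, (8 * (1 / 2 - (l : ℝ)))) * (8 * t + 1) ^ ((1 : ℝ) / 2 - i)

private theorem Gf_deriv (i : ℕ) (t : ℝ) (ht : 0 ≤ t) : HasDerivAt (Gf i) (Gf (i + 1) t) t := by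
  have h1 : HasDerivAt (fun t : ℝ => 8 * t + 1) 8 t := by
    simpa using ((hasDerivAt_id t).const_mul (8 : ℝ)).add_const 1
  have h2 := h1.rpow_const (p := 1 / 2 - (i : ℝ)) (Or.inl (by positivity))
  have h3 := h2.const_mul (∏ l ∈ Finset.range i, (8 * (1 / 2 - (l : ℝ))))
  have h5 : HasDerivAt (Gf i) ((∏ l ∈ Finset.range i, (8 * (1 / 2 - (l : ℝ)))) *
      (8 * (1 / 2 - (i : ℝ)) * (8 * t + 1) ^ (1 / 2 - (i : ℝ) - 1))) t := h3
  refine h5.congr_deriv ?_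
  unfold Gf
  rw [Finset.prod_range_succ]
  have h4 : (1 : ℝ) / 2 - ((i + 1 : ℕ) : ℝ) = 1 / 2 - (i : ℝ) - 1 := by push_cast; ring
  rw [h4]
  ring

/-- the square of the coefficient, `≥ 1` -/
private theorem coef_sq (i : ℕ) :
    ∃ K : ℕ, 1 ≤ K ∧ (∏ l ∈ Finset.range i, (8 * (1 / 2 - (l : ℝ)))) ^ 2 = (K : ℝ) := by
  induction i with
  | zero => exact ⟨1, le_rfl, by simp⟩
  | succ i ih =>
    obtain ⟨K, h1, h2⟩ := ih
    have h3 : 1 ≤ ((4 - 8 * (i : ℤ)) ^ 2).toNat := by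
      have : 0 < (4 - 8 * (i : ℤ)) ^ 2 := by
        have h : (4 - 8 * (i : ℤ)) ≠ 0 := by omega
        positivity
      omega
    have h4 : ((((4 - 8 * (i : ℤ)) ^ 2).toNat : ℕ) : ℝ) = (4 - 8 * (i : ℝ)) ^ 2 := by
      have h5 : ((((4 - 8 * (i : ℤ)) ^ 2).toNat : ℕ) : ℤ) = (4 - 8 * (i : ℤ)) ^ 2 :=
        Int.toNat_of_nonneg (sq_nonneg _)
      have h6 : ((((((4 - 8 * (i : ℤ)) ^ 2).toNat : ℕ) : ℤ) : ℝ)) = (4 - 8 * (i : ℝ)) ^ 2 := by
        rw [h5]; push_cast; ring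
      exact_mod_cast h6
    refine ⟨K * ((4 - 8 * (i : ℤ)) ^ 2).toNat, Nat.one_le_iff_ne_zero.2 (by
      apply Nat.mul_ne_zero <;> omega), ?_⟩
    rw [Finset.prod_range_succ, mul_pow, h2]
    push_cast
    rw [h4]
    ring

/-- the difference of `√(8 t + 1)` -/
private theorem Df_sqrt (j : ℕ) {K : ℕ}
    (hK : (∏ l ∈ Finset.range (j + 2), (8 * (1 / 2 - (l : ℝ)))) ^ 2 = (K : ℝ)) (xs : List ℝ)
    (hl : xs.length = j + 2) (hx : ∀ x ∈ xs, 0 < x) (y : ℝ) (hy : xs.sum ≤ y) :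
    ∃ ξ, y - xs.sum ≤ ξ ∧ ξ ≤ y ∧
      (Df xs (Gf 0) y) ^ 2 * (8 * ξ + 1) ^ (2 * j + 3) = K * xs.prod ^ 2 := by
  obtain ⟨ξ, h1, h2, h3⟩ := Df_mvt xs hx Gf Gf_deriv y hy
  refine ⟨ξ, h1, h2, ?_⟩
  have hξ : 0 < 8 * ξ + 1 := by
    have : 0 ≤ ξ := by linarith
    positivity
  rw [h3, hl]
  unfold Gf
  have h4 : ((8 * ξ + 1) ^ ((1 : ℝ) / 2 - ((j + 2 : ℕ) : ℝ))) ^ 2 * (8 * ξ + 1) ^ (2 * j + 3) = 1 := by
    rw [← Real.rpow_natCast _ 2, ← Real.rpow_mul hξ.le, ← Real.rpow_natCast _ (2 * j + 3),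
      ← Real.rpow_add hξ]
    have : (1 / 2 - ((j + 2 : ℕ) : ℝ)) * ((2 : ℕ) : ℝ) + ((2 * j + 3 : ℕ) : ℝ) = 0 := by
      push_cast
      ring
    rw [this, Real.rpow_zero]
  calc _ = (∏ l ∈ Finset.range (j + 2), (8 * (1 / 2 - (l : ℝ)))) ^ 2 * xs.prod ^ 2 *
        (((8 * ξ + 1) ^ ((1 : ℝ) / 2 - ((j + 2 : ℕ) : ℝ))) ^ 2 * (8 * ξ + 1) ^ (2 * j + 3)) := by
        ring
    _ = _ := by rw [h4, hK, mul_one]

/-- near integers -/
private theorem Df_near {F : ℝ → ℝ} {δ : ℝ} : ∀ (Bs : List (Multiset ℕ)) (R : Multiset ℕ),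
    (∀ gs', R ≤ gs' → gs' ≤ R + Bs.sum → ∃ m : ℤ, |F ((cd gs' : ℕ) : ℝ) - m| ≤ δ) →
    ∃ m : ℤ, |Df (Bs.map fun B => ((cd B : ℕ) : ℝ)) F ((cd (R + Bs.sum) : ℕ) : ℝ) - m| ≤
      2 ^ Bs.length * δ := by
  intro Bs
  induction Bs with
  | nil =>
    intro R h
    obtain ⟨m, hm⟩ := h R le_rfl (by simp)
    refine ⟨m, ?_⟩
    simpa [Df] using hm
  | cons B Bs ih =>
    intro R h
    rw [List.sum_cons] at h
    have e1 : R + B + Bs.sum = R + (B + Bs.sum) := by rw [add_assoc]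
    obtain ⟨m1, h1⟩ := ih (R + B) (fun gs' h1 h2 => h gs' ((Multiset.le_add_right R B).trans h1)
      (by rwa [e1] at h2))
    obtain ⟨m2, h2⟩ := ih R (fun gs' h1 h2 => h gs' h1 (h2.trans (by
      rw [← e1, add_right_comm]
      exact Multiset.le_add_right _ _)))
    refine ⟨m1 - m2, ?_⟩
    have e2 : ((cd (R + Bs.sum) : ℕ) : ℝ) = ((cd (R + B + Bs.sum) : ℕ) : ℝ) - ((cd B : ℕ) : ℝ) := by
      unfold cd
      simp only [Multiset.map_add, Multiset.sum_add]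
      push_cast
      ring
    have e3 : Df ((B :: Bs).map fun B => ((cd B : ℕ) : ℝ)) F ((cd (R + (B :: Bs).sum) : ℕ) : ℝ) =
        Df (Bs.map fun B => ((cd B : ℕ) : ℝ)) F ((cd (R + B + Bs.sum) : ℕ) : ℝ) -
        Df (Bs.map fun B => ((cd B : ℕ) : ℝ)) F ((cd (R + Bs.sum) : ℕ) : ℝ) := by
      rw [List.map_cons, List.sum_cons, ← e1, e2]
      rfl
    rw [e3, List.length_cons]
    push_cast
    calc _ = |(Df (Bs.map fun B => ((cd B : ℕ) : ℝ)) F ((cd (R + B + Bs.sum) : ℕ) : ℝ) - m1) -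
          (Df (Bs.map fun B => ((cd B : ℕ) : ℝ)) F ((cd (R + Bs.sum) : ℕ) : ℝ) - m2)| := by
          congr 1; ring
      _ ≤ 2 ^ Bs.length * δ + 2 ^ Bs.length * δ := (abs_sub _ _).trans (add_le_add h1 h2)
      _ = _ := by ring

/-- blocks -/
private theorem blocks (r : ℕ) : ∀ (k : ℕ) (gs : Multiset ℕ), k * r ≤ Multiset.card gs →
    ∃ (R : Multiset ℕ) (Bs : List (Multiset ℕ)), Bs.length = k ∧ (∀ B ∈ Bs, Multiset.card B = r) ∧
      gs = R + Bs.sum := by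
  intro k
  induction k with
  | zero => exact fun gs _ => ⟨gs, [], rfl, by simp, by simp⟩
  | succ k ih =>
    intro gs h
    have h0 : r ≤ Multiset.card gs := by nlinarith
    obtain ⟨B, hB, hBr⟩ : ∃ B ≤ gs, Multiset.card B = r := by
      induction gs using Quotient.inductionOn with
      | _ l =>
        refine ⟨(l.take r : List ℕ), ?_, ?_⟩
        · exact Multiset.coe_le.2 (List.take_sublist r l).subperm
        · have h0' : r ≤ l.length := by simpa using h0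
          simp [h0']
    obtain ⟨R, Bs, h1, h2, h3⟩ := ih (gs - B) (by
      rw [Multiset.card_sub hB, hBr]
      have : (k + 1) * r = k * r + r := by ring
      omega)
    refine ⟨R, B :: Bs, by simp [h1], ?_, ?_⟩
    · intro B' hB'
      rcases List.mem_cons.1 hB' with h | h
      · rw [h, hBr]
      · exact h2 B' h
    · rw [List.sum_cons, ← add_assoc, add_comm R B, add_assoc, ← h3, add_comm B,
        Multiset.sub_add_cancel hB]

private theorem kk_two (m : ℕ) : 2 * kk m = m * (m + 1) := by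
  unfold kk
  have h := Nat.triangle_succ m
  rw [Nat.choose_two_right, Nat.add_sub_cancel]
  have h2 : Even ((m + 1) * m) := by
    rw [mul_comm]; exact Nat.even_mul_succ_self m
  rw [Nat.mul_div_cancel' h2.two_dvd]
  ring

private theorem cd_bd {W : ℕ} (hW : 1 ≤ W) (gs : Multiset ℕ) :
    (∀ m ∈ gs, W < 2 * m ∧ m ≤ W) →
    Multiset.card gs * W ^ 2 ≤ 8 * cd gs ∧ cd gs ≤ Multiset.card gs * W ^ 2 := by
  induction gs using Multiset.induction_on with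
  | empty => intro _; simp [cd]
  | cons m gs ih =>
    intro h
    obtain ⟨h1, h2⟩ := ih (fun z hz => h z (Multiset.mem_cons_of_mem hz))
    obtain ⟨h3, h4⟩ := h m (Multiset.mem_cons_self m gs)
    have h5 := kk_two m
    have h6 : cd (m ::ₘ gs) = kk m + cd gs := by simp [cd]
    rw [Multiset.card_cons, h6]
    constructor <;> nlinarith

private theorem le_sum_of_mem (Bs : List (Multiset ℕ)) : ∀ B ∈ Bs, B ≤ Bs.sum := by
  induction Bs with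
  | nil => simp
  | cons B0 Bs ih =>
    intro B hB
    rw [List.sum_cons]
    rcases List.mem_cons.1 hB with h | h
    · rw [h]; exact Multiset.le_add_right _ _
    · exact (ih B h).trans (Multiset.le_add_left _ _)

private theorem prod_bd {a b : ℝ} (ha : 0 < a) (xs : List ℝ) (h : ∀ x ∈ xs, a ≤ x ∧ x ≤ b) :
    a ^ xs.length ≤ xs.prod ∧ xs.prod ≤ b ^ xs.length ∧ xs.sum ≤ xs.length * b := by
  induction xs with
  | nil => simp
  | cons x xs ih =>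
    obtain ⟨h1, h2, h3⟩ := ih (fun z hz => h z (by simp [hz]))
    obtain ⟨h4, h5⟩ := h x (by simp)
    have hx : 0 < x := ha.trans_le h4
    have hp : 0 < a ^ xs.length := by positivity
    have hp2 : 0 < xs.prod := hp.trans_le h1
    rw [List.prod_cons, List.sum_cons, List.length_cons]
    push_cast
    refine ⟨?_, ?_, by linarith⟩
    · rw [pow_succ, mul_comm]
      exact mul_le_mul h4 h1 hp.le hx.le
    · rw [pow_succ, mul_comm (b ^ _)]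
      exact mul_le_mul h5 h2 hp2.le (hx.le.trans h5)

/-- the size of the blocks -/
private theorem exists_r (j B N W : ℕ) (hW : 1 ≤ W) (h1 : B * W ^ 2 ≤ N ^ (2 * j + 3))
    (h2 : 16 * (j + 2) ≤ N) : ∃ r, 1 ≤ r ∧ B * r ^ (2 * j + 4) * W ^ 2 ≤ N ^ (2 * j + 3) ∧
      16 * (j + 2) * r ≤ N ∧
      N ^ (2 * j + 3) ≤ (B * 2 ^ (2 * j + 4) + (32 * (j + 2)) ^ (2 * j + 4)) *
        r ^ (2 * j + 4) * W ^ 2 := by
  obtain ⟨r, hr, hP, hn⟩ : ∃ r, 1 ≤ r ∧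
      (B * r ^ (2 * j + 4) * W ^ 2 ≤ N ^ (2 * j + 3) ∧ 16 * (j + 2) * r ≤ N) ∧
      ¬ (B * (r + 1) ^ (2 * j + 4) * W ^ 2 ≤ N ^ (2 * j + 3) ∧ 16 * (j + 2) * (r + 1) ≤ N) := by
    by_contra hcon
    push Not at hcon
    have hall : ∀ r, 1 ≤ r →
        (B * r ^ (2 * j + 4) * W ^ 2 ≤ N ^ (2 * j + 3) ∧ 16 * (j + 2) * r ≤ N) := by
      intro r hr
      induction r, hr using Nat.le_induction with
      | base => simpa using ⟨h1, h2⟩
      | succ r hr ih => exact hcon r hr ih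
    have := (hall (N + 1) (by omega)).2
    nlinarith
  refine ⟨r, hr, hP.1, hP.2, ?_⟩
  have hr2 : r + 1 ≤ 2 * r := by omega
  by_cases hA : B * (r + 1) ^ (2 * j + 4) * W ^ 2 ≤ N ^ (2 * j + 3)
  · have hB : N < 16 * (j + 2) * (r + 1) := by
      by_contra h
      exact hn ⟨hA, by omega⟩
    have h3 : N ≤ 32 * (j + 2) * r := by nlinarith
    calc N ^ (2 * j + 3) ≤ (32 * (j + 2) * r) ^ (2 * j + 3) := Nat.pow_le_pow_left h3 _
      _ ≤ (32 * (j + 2) * r) ^ (2 * j + 4) := Nat.pow_le_pow_right (by nlinarith) (by omega)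
      _ = (32 * (j + 2)) ^ (2 * j + 4) * r ^ (2 * j + 4) * 1 := by rw [mul_pow, mul_one]
      _ ≤ (B * 2 ^ (2 * j + 4) + (32 * (j + 2)) ^ (2 * j + 4)) * r ^ (2 * j + 4) * W ^ 2 := by
        apply Nat.mul_le_mul
        · exact Nat.mul_le_mul_right _ (by omega)
        · exact Nat.one_le_pow _ _ hW
  · calc N ^ (2 * j + 3) ≤ B * (r + 1) ^ (2 * j + 4) * W ^ 2 := by omega
      _ ≤ B * (2 * r) ^ (2 * j + 4) * W ^ 2 := by gcongr
      _ = (B * 2 ^ (2 * j + 4)) * r ^ (2 * j + 4) * W ^ 2 := by rw [mul_pow]; ring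
      _ ≤ _ := by gcongr; omega

private theorem le_of_sq_le_sq' {a b : ℝ} (h : a ^ 2 ≤ b ^ 2) (hb : 0 ≤ b) : a ≤ b :=
  (le_abs_self a).trans (abs_le_of_sq_le_sq h hb)

theorem cube (j : ℕ) : ∃ (C : ℕ) (c : ℝ), 1 ≤ C ∧ 0 < c ∧ ∀ (W : ℕ) (gs : Multiset ℕ), 1 ≤ W →
    (∀ m ∈ gs, W < 2 * m ∧ m ≤ W) → C * W ^ 2 ≤ Multiset.card gs ^ (2 * j + 3) →
    ∃ gs' ≤ gs, Multiset.card gs ≤ 2 * Multiset.card gs' ∧
      ∀ n : ℕ, c * Real.sqrt (Multiset.card gs) * W ≤ |((cd gs' : ℕ) : ℝ) - (kk n : ℝ)| := by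
  obtain ⟨K, hK1, hK⟩ := coef_sq (j + 2)
  obtain ⟨B, hB⟩ : ∃ B, B = 4 * K * 2 ^ (2 * j + 3) := ⟨_, rfl⟩
  obtain ⟨L, hL⟩ : ∃ L, L = B * 2 ^ (2 * j + 4) + (32 * (j + 2)) ^ (2 * j + 4) := ⟨_, rfl⟩
  obtain ⟨M, hM⟩ : ∃ M : ℝ, M = L * 8 ^ (2 * j + 4) * 9 ^ (2 * j + 3) := ⟨_, rfl⟩
  have hL1 : 1 ≤ L := by
    have : 1 ≤ (32 * (j + 2)) ^ (2 * j + 4) := Nat.one_le_pow _ _ (by omega)
    omega
  have hM8 : 8 ≤ M := by
    rw [hM]
    have h1 : (1 : ℝ) ≤ L := by exact_mod_cast hL1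
    have h2 : (8 : ℝ) ≤ 8 ^ (2 * j + 4) := by
      calc (8 : ℝ) = 8 ^ 1 := by norm_num
        _ ≤ _ := pow_le_pow_right₀ (by norm_num) (by omega)
    have h3 : (1 : ℝ) ≤ 9 ^ (2 * j + 3) := one_le_pow₀ (by norm_num)
    have h4 : (8 : ℝ) ≤ L * 8 ^ (2 * j + 4) := by nlinarith
    nlinarith
  have hM0 : 0 < M := by linarith
  obtain ⟨δ, hδ⟩ : ∃ δ : ℝ, δ = 1 / (M * 2 ^ (j + 3)) := ⟨_, rfl⟩
  have hδ0 : 0 < δ := by rw [hδ]; positivity
  refine ⟨B + (16 * (j + 2)) ^ (2 * j + 3), δ / 16, ?_, by positivity, ?_⟩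
  · have : 1 ≤ (16 * (j + 2)) ^ (2 * j + 3) := Nat.one_le_pow _ _ (by omega)
    omega
  intro W gs hW hgs hC
  obtain ⟨N, hN⟩ : ∃ N, N = Multiset.card gs := ⟨_, rfl⟩
  rw [← hN] at hC
  have hW2 : 1 ≤ W ^ 2 := Nat.one_le_pow _ _ hW
  have hC1 : B * W ^ 2 ≤ N ^ (2 * j + 3) := le_trans (Nat.mul_le_mul_right _ (by omega)) hC
  have hN16 : 16 * (j + 2) ≤ N := by
    have h1 : (16 * (j + 2)) ^ (2 * j + 3) ≤ N ^ (2 * j + 3) := by
      refine le_trans ?_ hC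
      calc (16 * (j + 2)) ^ (2 * j + 3) = (16 * (j + 2)) ^ (2 * j + 3) * 1 := (mul_one _).symm
        _ ≤ _ := Nat.mul_le_mul (by omega) hW2
    exact (Nat.pow_le_pow_iff_left (by omega)).1 h1
  obtain ⟨r, hr1, hr2, hr3, hr4⟩ := exists_r j B N W hW hC1 hN16
  rw [← hL] at hr4
  obtain ⟨R, Bs, b1, b2, b3⟩ := blocks r (j + 2) gs (by rw [← hN]; nlinarith)
  -- elements of the blocks
  have hBgs : ∀ Bl ∈ Bs, Bl ≤ gs := by
    intro Bl hBl
    rw [b3]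
    exact (le_sum_of_mem Bs Bl hBl).trans (Multiset.le_add_left _ _)
  have hbd : ∀ g ≤ gs, Multiset.card g * W ^ 2 ≤ 8 * cd g ∧ cd g ≤ Multiset.card g * W ^ 2 :=
    fun g hg => cd_bd hW g (fun m hm => hgs m (Multiset.mem_of_le hg hm))
  have hWr : (1 : ℝ) ≤ W := by exact_mod_cast hW
  have hrr : (1 : ℝ) ≤ r := by exact_mod_cast hr1
  have hx : ∀ x ∈ Bs.map (fun B => ((cd B : ℕ) : ℝ)),
      (r : ℝ) * W ^ 2 / 8 ≤ x ∧ x ≤ r * W ^ 2 := by
    intro x hx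
    obtain ⟨Bl, hBl, rfl⟩ := List.mem_map.1 hx
    obtain ⟨h1, h2⟩ := hbd Bl (hBgs Bl hBl)
    rw [b2 Bl hBl] at h1 h2
    have h1' : ((r * W ^ 2 : ℕ) : ℝ) ≤ ((8 * cd Bl : ℕ) : ℝ) := by exact_mod_cast h1
    have h2' : ((cd Bl : ℕ) : ℝ) ≤ ((r * W ^ 2 : ℕ) : ℝ) := by exact_mod_cast h2
    push_cast at h1' h2'
    exact ⟨by linarith, h2'⟩
  obtain ⟨xs, hxs⟩ : ∃ xs, xs = Bs.map (fun B => ((cd B : ℕ) : ℝ)) := ⟨_, rfl⟩
  rw [← hxs] at hx
  have hlen : xs.length = j + 2 := by rw [hxs, List.length_map, b1]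
  obtain ⟨p1, p2, p3⟩ := prod_bd (by positivity) xs hx
  rw [hlen] at p1 p2 p3
  have hxpos : ∀ x ∈ xs, 0 < x := fun x hx' => lt_of_lt_of_le (by positivity) (hx x hx').1
  obtain ⟨y, hy⟩ : ∃ y : ℝ, y = ((cd gs : ℕ) : ℝ) := ⟨_, rfl⟩
  obtain ⟨y1, y2⟩ := hbd gs le_rfl
  rw [← hN] at y1 y2
  have y1' : ((N * W ^ 2 : ℕ) : ℝ) ≤ ((8 * cd gs : ℕ) : ℝ) := by exact_mod_cast y1
  have y2' : ((cd gs : ℕ) : ℝ) ≤ ((N * W ^ 2 : ℕ) : ℝ) := by exact_mod_cast y2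
  push_cast at y1' y2'
  rw [← hy] at y1' y2'
  have hr3' : ((16 * (j + 2) * r : ℕ) : ℝ) ≤ (N : ℝ) := by exact_mod_cast hr3
  push_cast at hr3' p3
  have hWW : (1 : ℝ) ≤ (W : ℝ) ^ 2 := one_le_pow₀ hWr
  have hsum : xs.sum ≤ N * W ^ 2 / 16 := by
    refine p3.trans ?_
    nlinarith
  obtain ⟨ξ, x1, x2, x3⟩ := Df_sqrt j hK xs hlen hxpos y (by linarith)
  have hξ1 : (N : ℝ) * W ^ 2 / 2 ≤ 8 * ξ + 1 := by linarith
  have hN1 : (1 : ℝ) ≤ N := by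
    have : 1 ≤ N := by omega
    exact_mod_cast this
  have hξ2 : 8 * ξ + 1 ≤ 9 * ((N : ℝ) * W ^ 2) := by nlinarith
  obtain ⟨D, hD⟩ : ∃ D, D = Df xs (Gf 0) y := ⟨_, rfl⟩
  rw [← hD] at x3
  have hK1' : (1 : ℝ) ≤ K := by exact_mod_cast hK1
  have hNW : 0 < (N : ℝ) * W ^ 2 := by positivity
  -- upper bound
  have hDu : D ^ 2 ≤ 1 / 4 := by
    have g1 : D ^ 2 * ((N : ℝ) * W ^ 2 / 2) ^ (2 * j + 3) ≤ K * xs.prod ^ 2 := by
      rw [← x3]
      exact mul_le_mul_of_nonneg_left (pow_le_pow_left₀ (by positivity) hξ1 _) (sq_nonneg _)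
    have g2 : xs.prod ^ 2 ≤ ((r : ℝ) * W ^ 2) ^ (2 * j + 4) := by
      have : ((r : ℝ) * W ^ 2) ^ (2 * j + 4) = (((r : ℝ) * W ^ 2) ^ (j + 2)) ^ 2 := by
        rw [← pow_mul]; congr 1; ring
      rw [this]
      exact pow_le_pow_left₀ (le_trans (by positivity) p1) p2 2
    have g3 : ((B * r ^ (2 * j + 4) * W ^ 2 : ℕ) : ℝ) ≤ ((N ^ (2 * j + 3) : ℕ) : ℝ) := by
      exact_mod_cast hr2
    rw [hB] at g3
    push_cast at g3
    have g4 : K * ((r : ℝ) * W ^ 2) ^ (2 * j + 4) ≤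
        1 / 4 * ((N : ℝ) * W ^ 2 / 2) ^ (2 * j + 3) := by
      have e1 : K * ((r : ℝ) * W ^ 2) ^ (2 * j + 4) = (K * r ^ (2 * j + 4) * W ^ 2) *
          (W ^ 2) ^ (2 * j + 3) := by
        rw [mul_pow, pow_succ ((W : ℝ) ^ 2) (2 * j + 3)]; ring
      have e2 : 1 / 4 * ((N : ℝ) * W ^ 2 / 2) ^ (2 * j + 3) =
          (N ^ (2 * j + 3) / (4 * 2 ^ (2 * j + 3))) * (W ^ 2) ^ (2 * j + 3) := by
        rw [div_pow, mul_pow]; ring
      rw [e1, e2]
      refine mul_le_mul_of_nonneg_right ?_ (by positivity)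
      rw [le_div_iff₀ (by positivity)]
      linarith
    have g5 : 0 < ((N : ℝ) * W ^ 2 / 2) ^ (2 * j + 3) := by positivity
    have g6 : D ^ 2 * ((N : ℝ) * W ^ 2 / 2) ^ (2 * j + 3) ≤
        1 / 4 * ((N : ℝ) * W ^ 2 / 2) ^ (2 * j + 3) :=
      (g1.trans (mul_le_mul_of_nonneg_left g2 (by positivity))).trans g4
    exact le_of_mul_le_mul_right g6 g5
  -- lower bound
  have hDl : 1 ≤ D ^ 2 * M := by
    have g1 : K * xs.prod ^ 2 ≤ D ^ 2 * (9 * ((N : ℝ) * W ^ 2)) ^ (2 * j + 3) := by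
      rw [← x3]
      exact mul_le_mul_of_nonneg_left (pow_le_pow_left₀ (by linarith) hξ2 _) (sq_nonneg _)
    have g2 : ((r : ℝ) * W ^ 2 / 8) ^ (2 * j + 4) ≤ xs.prod ^ 2 := by
      have : ((r : ℝ) * W ^ 2 / 8) ^ (2 * j + 4) = (((r : ℝ) * W ^ 2 / 8) ^ (j + 2)) ^ 2 := by
        rw [← pow_mul]; congr 1; ring
      rw [this]
      exact pow_le_pow_left₀ (by positivity) p1 2
    have g3 : ((N ^ (2 * j + 3) : ℕ) : ℝ) ≤ ((L * r ^ (2 * j + 4) * W ^ 2 : ℕ) : ℝ) := by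
      exact_mod_cast hr4
    push_cast at g3
    have g4 : ((r : ℝ) * W ^ 2 / 8) ^ (2 * j + 4) ≤
        D ^ 2 * (9 * ((N : ℝ) * W ^ 2)) ^ (2 * j + 3) := by
      have : 0 ≤ xs.prod ^ 2 := sq_nonneg _
      nlinarith
    have e1 : ((r : ℝ) * W ^ 2 / 8) ^ (2 * j + 4) * 8 ^ (2 * j + 4) =
        (r ^ (2 * j + 4) * W ^ 2) * (W ^ 2) ^ (2 * j + 3) := by
      rw [div_pow, mul_pow, pow_succ ((W : ℝ) ^ 2) (2 * j + 3)]
      field_simp
    have e2 : (9 * ((N : ℝ) * W ^ 2)) ^ (2 * j + 3) =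
        9 ^ (2 * j + 3) * ((N : ℝ) ^ (2 * j + 3) * (W ^ 2) ^ (2 * j + 3)) := by
      rw [mul_pow, mul_pow]
    have g5 : (N : ℝ) ^ (2 * j + 3) * (W ^ 2) ^ (2 * j + 3) ≤
        D ^ 2 * M * ((N : ℝ) ^ (2 * j + 3) * (W ^ 2) ^ (2 * j + 3)) := by
      calc (N : ℝ) ^ (2 * j + 3) * (W ^ 2) ^ (2 * j + 3) ≤
          L * r ^ (2 * j + 4) * W ^ 2 * (W ^ 2) ^ (2 * j + 3) :=
            mul_le_mul_of_nonneg_right g3 (by positivity)
        _ = L * 8 ^ (2 * j + 4) * ((r : ℝ) * W ^ 2 / 8) ^ (2 * j + 4) := by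
            rw [mul_assoc (L : ℝ) (8 ^ _), mul_comm ((8 : ℝ) ^ _), e1]; ring
        _ ≤ L * 8 ^ (2 * j + 4) * (D ^ 2 * (9 * ((N : ℝ) * W ^ 2)) ^ (2 * j + 3)) :=
            mul_le_mul_of_nonneg_left g4 (by positivity)
        _ = _ := by rw [e2, hM]; ring
    have g6 : 0 < (N : ℝ) ^ (2 * j + 3) * (W ^ 2) ^ (2 * j + 3) := by positivity
    by_contra hcon
    push Not at hcon
    nlinarith
  have hDu' : |D| ≤ 1 / 2 := abs_le_of_sq_le_sq (by linarith) (by norm_num)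
  have hDl' : 1 / M ≤ |D| := by
    by_contra hcon
    push Not at hcon
    have h1 : |D| ^ 2 < (1 / M) ^ 2 := pow_lt_pow_left₀ hcon (abs_nonneg _) (by norm_num)
    rw [sq_abs] at h1
    have h2 : (1 / M) ^ 2 * M ≤ 1 := by
      have : (1 / M) ^ 2 * M = 1 / M := by field_simp
      rw [this, div_le_one hM0]
      linarith
    nlinarith
  -- a selection
  obtain ⟨gs', hR, hg', hfar⟩ : ∃ gs', R ≤ gs' ∧ gs' ≤ R + Bs.sum ∧
      ∀ m : ℤ, δ < |Gf 0 ((cd gs' : ℕ) : ℝ) - m| := by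
    by_contra hcon
    push Not at hcon
    obtain ⟨m, hm⟩ := Df_near (F := Gf 0) (δ := δ) Bs R hcon
    rw [← hxs, ← b3, ← hy, ← hD, b1, hδ] at hm
    have e1 : (2 : ℝ) ^ (j + 2) * (1 / (M * 2 ^ (j + 3))) = 1 / M / 2 := by
      rw [pow_succ (2 : ℝ) (j + 2)]
      field_simp
    rw [e1] at hm
    have h8 : 1 / M ≤ 1 / 8 := one_div_le_one_div_of_le (by norm_num) hM8
    have hm0 : m = 0 := by
      have h1 : |(m : ℝ)| < 1 := by
        have : |(m : ℝ)| ≤ |D| + |D - m| := by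
          have := abs_sub_abs_le_abs_sub (m : ℝ) D
          rw [abs_sub_comm] at this
          linarith
        linarith
      have h2 : |m| < 1 := by exact_mod_cast h1
      exact Int.abs_lt_one_iff.1 h2
    rw [hm0] at hm
    simp only [Int.cast_zero, sub_zero] at hm
    have : 0 < 1 / M := by positivity
    linarith
  have hcard : Multiset.card gs ≤ 2 * Multiset.card gs' := by
    have h1 : Multiset.card R ≤ Multiset.card gs' := Multiset.card_le_card hR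
    have h2 : Multiset.card gs = Multiset.card R + (j + 2) * r := by
      have h3 : ∀ (l : List (Multiset ℕ)), (∀ B ∈ l, Multiset.card B = r) →
          Multiset.card l.sum = l.length * r := by
        intro l
        induction l with
        | nil => simp
        | cons B l ih =>
          intro h
          rw [List.sum_cons, Multiset.card_add, ih (fun B hB => h B (by simp [hB])),
            h B (by simp), List.length_cons]
          ring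
      conv_lhs => rw [b3]
      rw [Multiset.card_add, h3 Bs b2, b1]
    nlinarith
  have hgs' : gs' ≤ gs := hg'.trans b3.ge
  refine ⟨gs', hgs', hcard, ?_⟩
  intro n
  have hf := hfar (2 * n + 1)
  push_cast at hf
  obtain ⟨u, hu⟩ : ∃ u, u = Gf 0 ((cd gs' : ℕ) : ℝ) := ⟨_, rfl⟩
  rw [← hu] at hf
  have hu0 : 0 ≤ u := by
    rw [hu]
    unfold Gf
    positivity
  have hu2 : u ^ 2 = 8 * ((cd gs' : ℕ) : ℝ) + 1 := by
    rw [hu]
    unfold Gf
    have h0 : (0 : ℝ) ≤ 8 * ((cd gs' : ℕ) : ℝ) + 1 := by positivity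
    rw [Finset.prod_range_zero, one_mul, Nat.cast_zero, sub_zero, ← Real.sqrt_eq_rpow,
      Real.sq_sqrt h0]
  have hkn : (2 * (n : ℝ) + 1) ^ 2 = 8 * ((kk n : ℕ) : ℝ) + 1 := by
    have h1 : ((2 * kk n : ℕ) : ℝ) = ((n * (n + 1) : ℕ) : ℝ) := by exact_mod_cast kk_two n
    push_cast at h1
    linarith
  rw [← hN] at hcard ⊢
  have hus : Real.sqrt N * W / 2 ≤ u := by
    have h1 : (Real.sqrt N * W / 2) ^ 2 = N * W ^ 2 / 4 := by
      rw [div_pow, mul_pow, Real.sq_sqrt (by positivity)]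
      norm_num
    have h2 : ((Multiset.card gs' * W ^ 2 : ℕ) : ℝ) ≤ ((8 * cd gs' : ℕ) : ℝ) := by
      exact_mod_cast (hbd gs' hgs').1
    have h3 : (N : ℝ) ≤ ((2 * Multiset.card gs' : ℕ) : ℝ) := by exact_mod_cast hcard
    push_cast at h2 h3
    have h4 : (Real.sqrt N * W / 2) ^ 2 ≤ u ^ 2 := by
      rw [h1, hu2]
      nlinarith
    exact le_of_sq_le_sq' h4 hu0
  have h5 : 8 * |((cd gs' : ℕ) : ℝ) - (kk n : ℝ)| = |u - (2 * (n : ℝ) + 1)| * (u + (2 * n + 1)) := by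
    have h6 : 0 ≤ u + (2 * (n : ℝ) + 1) := by positivity
    rw [← abs_of_nonneg h6, ← abs_mul]
    have h7 : (u - (2 * (n : ℝ) + 1)) * (u + (2 * n + 1)) =
        8 * (((cd gs' : ℕ) : ℝ) - (kk n : ℝ)) := by
      have : (u - (2 * (n : ℝ) + 1)) * (u + (2 * n + 1)) = u ^ 2 - (2 * (n : ℝ) + 1) ^ 2 := by ring
      rw [this, hu2, hkn]
      ring
    rw [h7, abs_mul]
    norm_num
  have h8 : δ * u ≤ |u - (2 * (n : ℝ) + 1)| * (u + (2 * n + 1)) :=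
    mul_le_mul hf.le (by have : (0 : ℝ) ≤ n := Nat.cast_nonneg n
                         linarith) hu0 (abs_nonneg _)
  have h9 : δ * (Real.sqrt N * W / 2) ≤ δ * u := mul_le_mul_of_nonneg_left hus hδ0.le
  linarith

end Pool.Agent.SG
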