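import Pool.Agent.helper25.ST.FinP
import Pool.Agent.helper25.ST.Nef0

set_option autoImplicit false

/-!
# Project SG (MP_cfebfb_ag): non-speciality for `d ≥ C M ^ (1 + ε)`, every `ε > 0`: definitions

Architect helper83. See `/team-store/cfebfb_SG.md` for the whole proof.
-/

namespace Pool.Agent.SG

open MvPolynomial Pool.Agent.helper5.NBS Pool.Agent.helper89.Segre Pool.Agent.SH9
open Pool.Agent.helper25.ST

/-- the dimension of the space of curves of degree `d` with multiplicities `ms` at general points: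
the smallest number of general simple points which make the system empty -/
noncomputable def hh (d : ℕ) (ms : Multiset ℕ) : ℕ := sInf {s | E d (ms + Multiset.replicate s 1)}

/-- the virtual dimension (of the vector space) -/
noncomputable def vv (d : ℕ) (ms : Multiset ℕ) : ℝ := (((d + 2).choose 2 : ℕ) : ℝ) - ((cd ms : ℕ) : ℝ)

/-- sum of the multiplicities -/
def Sm (ms : Multiset ℕ) : ℕ := ms.sum

/-- sum of the squares of the multiplicities -/
def Sq (ms : Multiset ℕ) : ℕ := (ms.map fun m => m ^ 2).sum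

/-- the dimension in degrees `< n` -/
noncomputable def hk (gs : Multiset ℕ) (n : ℕ) : ℕ := if n = 0 then 0 else hh (n - 1) gs

/-- the number of conditions of degree `n` imposed by the group `gs` after it has been collapsed -/
noncomputable def cn (gs : Multiset ℕ) (n : ℕ) : ℝ :=
  (n : ℝ) + 1 - ((hk gs (n + 1) : ℝ) - (hk gs n : ℝ))

/-- the zone `[a, b]` of a group: no curve of degree `< a`, regular in degrees `≥ b - 1` -/
structure Zone (gs : Multiset ℕ) (a b : ℕ) : Prop where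
  hab : a ≤ b
  hb : 1 ≤ b
  emp : ∀ n, n < a → E n gs
  reg : ∀ n, b ≤ n + 1 → (hh n gs : ℝ) = vv n gs

/-- a window `[nL, nR]` around the zone of a group -/
structure Win (gs : Multiset ℕ) (nL nR : ℕ) (Y : ℝ) : Prop where
  ex : ∃ (a b : ℕ) (Z : ℝ), Zone gs a b ∧ nL ≤ a ∧ b ≤ nR ∧ 0 < Z ∧ (kk b : ℝ) - (kk a : ℝ) ≤ Z ∧
    (kk nL : ℝ) + 2 * Z ≤ (kk a : ℝ) ∧ (kk b : ℝ) + 2 * Z ≤ (kk nR : ℝ)
  wid : (kk nR : ℝ) - (kk nL : ℝ) ≤ Y

/-- mixture of two Laplace smoothings (widths `b1`, `b2`) of `max v 0` -/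
noncomputable def Phi (q b1 b2 v : ℝ) : ℝ :=
  max v 0 + (q * b1 * Real.exp (-|v| / b1) + (1 - q) * b2 * Real.exp (-|v| / b2)) / 2

/-- nefness with error exponent `a`: the classes `(D; w)` with all weights at most `D / C`, weights at
most `W ≤ D / C` carrying a proportion `1 / f` of the squares, and self-intersection at least `X`,
`C W ^ (a + 2) ≤ X D ^ a` -/
def NN (a : ℕ) : Prop := ∀ f : ℕ, ∃ C : ℕ, ∀ (n : ℕ) (w : Fin n → ℕ) (D W X : ℕ),
  1 ≤ W → C * W ≤ D → (∀ i, C * w i ≤ D) → D ^ 2 ≤ f * ∑ i with w i ≤ W, w i ^ 2 →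
  C * W ^ (a + 2) ≤ X * D ^ a → ∑ i, w i ^ 2 + X ≤ D ^ 2 → NefP D w

/-- the elements of the dyadic class `i`: `2 ^ (i - 1) < m ≤ 2 ^ i` -/
def cls (i : ℕ) (ms : Multiset ℕ) : Multiset ℕ := ms.filter fun m => Nat.clog 2 m = i

end Pool.Agent.SG
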