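import Pool.Agent.SG.HHB
import Pool.Agent.helper9.Nag.Move

set_option autoImplicit false

/-!
# Module Dim: `hh` is the dimension at general points; points with algebraically independent coordinates

`HH e p m`, `hh e p m` are from helper9/Nag/Lead.lean.

`dim_generic`: let `s = hh d ms`. `E d (ms + 1^s)` holds; `E.generic` gives `Q'` in the coordinates of
`n + s` points; some choice of the `s` simple points `z` gives `Q ≠ 0` in the coordinates of the `n`
points with `Emp d (m, 1^s) (p, z)` for `Q(p) ≠ 0`, so `dim ≤ s` (`finrank_le_of_pts` in SH9/CW.lean).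
If the dimension at one point `p` were `≤ s - 1` then `s - 1` general simple points would make the
system empty (`E_of_emp`; a nonzero space of polynomials of dimension `k` has `k` points where only
`0` vanishes), so `E d (ms + 1^(s-1))`, contradiction to the minimality of `s`. So
`s ≤ Nag.hh d p m` for ALL `p`, and `=` for `Q(p) ≠ 0`.

`exists_ai`: for finitely (or countably) many nonzero polynomials `Q ∈ T` there is `p` with all
`Q(p) ≠ 0` and `AI p` (algebraic independence over `ℚ` = avoiding the countably many nonzero polynomials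
with rational coefficients: `Pool.Agent.helper7.SC.exists_avoid`; see helper9/Nag/FinalE.lean, `mainE`,
for how this is done there).
-/

namespace Pool.Agent.SG

open MvPolynomial Pool.Agent.helper5.NBS Pool.Agent.helper89.Segre Pool.Agent.SH9
open Pool.Agent.helper25.ST

theorem hh_le_all {d n : ℕ} (m : Fin n → ℕ) (p : Fin n → Fin 2 → ℂ) :
    hh d (Finset.univ.val.map m) ≤ Pool.Agent.helper9.Nag.hh d p m := by
  rw [hh_le_iff]
  obtain ⟨z, hz⟩ := FRaux.exists_kill (Pool.Agent.helper9.Nag.hh d p m)
    (Pool.Agent.helper9.Nag.HH d p m) (Pool.Agent.helper9.Nag.finite_HH d p m) le_rfl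
  have hE : Emp d (Fin.append m (fun _ : Fin (Pool.Agent.helper9.Nag.hh d p m) => 1))
      (Fin.append p z) := by
    intro F hF1 hF2
    apply hz F
    · rw [Pool.Agent.helper9.Nag.mem_HH]
      refine ⟨hF1, fun i => ?_⟩
      have := hF2 (Fin.castAdd _ i)
      rwa [Fin.append_left, Fin.append_left] at this
    · intro j
      have := hF2 (Fin.natAdd _ j)
      rw [Fin.append_right, Fin.append_right] at this
      exact FRaux.ev_of_mem this
  have h2 := E_of_emp hE
  rwa [FRaux.map_append, FRaux.map_const'] at h2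

private lemma mem_pow_one {p : Fin 2 → ℂ} {F : R2} : F ∈ ptIdeal p ^ 1 ↔ coeff 0 (trans p F) = 0 := by
  rw [mem_ptIdeal_pow]
  constructor
  · intro h
    exact h 0 (by simp)
  · intro h n hn
    have : n = 0 := by
      have h1 : n.degree = 0 := by omega
      exact (Finsupp.degree_eq_zero_iff n).mp h1
    rw [this]
    exact h

/-- a space killed by `ρ` point evaluations has dimension at most `ρ` -/
private lemma finrank_le_of_pts {ρ : ℕ} (U : Submodule ℂ R2) (z : Fin ρ → Fin 2 → ℂ)
    (h : ∀ F ∈ U, (∀ j, F ∈ ptIdeal (z j) ^ 1) → F = 0) :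
    Module.finrank ℂ U ≤ ρ := by
  let ev : R2 →ₗ[ℂ] (Fin ρ → ℂ) :=
    LinearMap.pi fun j => (lcoeff ℂ (0 : Fin 2 →₀ ℕ)) ∘ₗ (trans (z j)).toLinearMap
  have hinj : Function.Injective (ev ∘ₗ U.subtype) := by
    rw [← LinearMap.ker_eq_bot, LinearMap.ker_eq_bot']
    intro F hF
    have h1 : (F : R2) = 0 := by
      apply h F F.2
      intro j
      rw [mem_pow_one]
      exact congrFun hF j
    exact Subtype.ext h1
  have hfin : Module.Finite ℂ U := Module.Finite.of_injective _ hinj
  have h2 := LinearMap.finrank_le_finrank_of_injective hinj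
  rwa [Module.finrank_fin_fun] at h2

/-- specialisation of the last `s` points -/
private lemma spec {n s : ℕ} (Q' : PtRing (n + s)) (z : Fin s → Fin 2 → ℂ) :
    ∃ Q : PtRing n, ∀ p : Fin n → Fin 2 → ℂ, evP p Q = evP (Fin.append p z) Q' := by
  refine ⟨aeval (fun ij : Fin (n + s) × Fin 2 =>
    Fin.append (fun i j => (X (i, j) : PtRing n)) (fun i j => C (z i j)) ij.1 ij.2) Q', ?_⟩
  intro p
  have h1 : (evP p).comp (aeval (fun ij : Fin (n + s) × Fin 2 =>
      Fin.append (fun i j => (X (i, j) : PtRing n)) (fun i j => C (z i j)) ij.1 ij.2) :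
        PtRing (n + s) →ₐ[ℂ] PtRing n).toRingHom = evP (Fin.append p z) := by
    apply MvPolynomial.ringHom_ext
    · intro c
      simp [evP]
    · rintro ⟨i, j⟩
      refine Fin.addCases (fun i => ?_) (fun i => ?_) i
      · simp [evP]
      · simp [evP]
  exact DFunLike.congr_fun h1 Q'

theorem dim_generic {d n : ℕ} (m : Fin n → ℕ) : ∃ Q : PtRing n, Q ≠ 0 ∧
    ∀ p : Fin n → Fin 2 → ℂ, evP p Q ≠ 0 →
      Pool.Agent.helper9.Nag.hh d p m = hh d (Finset.univ.val.map m) := by
  set s := hh d (Finset.univ.val.map m) with hs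
  have hE : E d (Finset.univ.val.map m + Multiset.replicate s 1) := hh_le_iff.mp le_rfl
  rw [← FRaux.map_const' s 1, ← FRaux.map_append] at hE
  obtain ⟨Q', hQ', hgen⟩ := hE.generic
  obtain ⟨x, hx⟩ : ∃ x : Fin (n + s) × Fin 2 → ℂ, eval x Q' ≠ 0 := by
    by_contra hcon
    push Not at hcon
    exact hQ' (MvPolynomial.funext fun x => by rw [hcon x, map_zero])
  obtain ⟨Q, hQ⟩ := spec Q' (fun i j => x (Fin.natAdd n i, j))
  have hxx : Fin.append (fun i j => x (Fin.castAdd s i, j)) (fun i j => x (Fin.natAdd n i, j)) =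
      fun i j => x (i, j) := by
    funext i
    refine Fin.addCases (fun i => ?_) (fun i => ?_) i
    · rw [Fin.append_left]
    · rw [Fin.append_right]
  refine ⟨Q, ?_, fun p hp => ?_⟩
  · rintro rfl
    have h1 := hQ (fun i j => x (Fin.castAdd s i, j))
    rw [map_zero, hxx] at h1
    exact hx h1.symm
  · apply le_antisymm _ (hh_le_all m p)
    rw [hQ] at hp
    have hemp := hgen _ hp
    refine finrank_le_of_pts (Pool.Agent.helper9.Nag.HH d p m)
      (fun i j => x (Fin.natAdd n i, j)) ?_
    intro F hF hF2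
    rw [Pool.Agent.helper9.Nag.mem_HH] at hF
    apply hemp F hF.1
    intro i
    refine Fin.addCases (fun i => ?_) (fun i => ?_) i
    · rw [Fin.append_left, Fin.append_left]
      exact hF.2 i
    · rw [Fin.append_right, Fin.append_right]
      exact hF2 i

theorem exists_ai {n : ℕ} (T : Set (PtRing n)) (hT : T.Countable) (h0 : ∀ Q ∈ T, Q ≠ 0) :
    ∃ p : Fin n → Fin 2 → ℂ, (∀ Q ∈ T, evP p Q ≠ 0) ∧ Pool.Agent.helper9.Nag.AI p := by
  let cst : MvPolynomial (Fin n × Fin 2) ℚ →+* PtRing n := MvPolynomial.map (algebraMap ℚ ℂ)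
  have hcst : Function.Injective cst :=
    MvPolynomial.map_injective _ (algebraMap ℚ ℂ).injective
  have hcount : Countable (MvPolynomial (Fin n × Fin 2) ℚ) := by
    rw [← Cardinal.mk_le_aleph0_iff]
    refine le_trans MvPolynomial.cardinalMk_le_max ?_
    refine max_le (max_le ?_ ?_) le_rfl
    · exact Cardinal.mk_le_aleph0_iff.mpr inferInstance
    · exact Cardinal.mk_le_aleph0_iff.mpr inferInstance
  let T2 : Set (PtRing n) :=
    Set.range fun P : {P : MvPolynomial (Fin n × Fin 2) ℚ // P ≠ 0} => cst P.1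
  obtain ⟨x, hx⟩ := Pool.Agent.helper7.SC.exists_avoid (T ∪ T2)
    (hT.union (Set.countable_range _)) (by
      rintro Q (hQ | ⟨P, rfl⟩)
      · exact h0 Q hQ
      · intro h
        exact P.2 (hcst (h.trans (map_zero cst).symm)))
  refine ⟨fun i j => x (i, j), fun Q hQ => hx Q (Or.inl hQ), ?_⟩
  rw [Pool.Agent.helper9.Nag.AI, algebraicIndependent_iff]
  intro P hP
  by_contra hne
  apply hx _ (Or.inr ⟨⟨P, hne⟩, rfl⟩)
  rw [← hP]
  show eval _ (MvPolynomial.map (algebraMap ℚ ℂ) P) = _
  rw [eval_map, aeval_def]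

end Pool.Agent.SG
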