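import Pool.Agent.SG.Final

set_option autoImplicit false

/-!
# Module FinalB: strong form, many big points

All multiplicities at most `d/C`; those with `C (m+1)^(1+ε) ≤ d` have `∑ m^2 ≥ d^2/f`. Then the system is
non-special.
Proof. `g = 1/(2j+3) ≤ min(1/20, ε/20)`, `A` from `exactC j (nn_all _) (f+2)`. Drop the zeros. Let `L` be the
largest number with `C (L+1)^(1+ε) ≤ d` (the hypothesis is about the elements `≤ L`; `L ≥ 1` because otherwise
`0 < d^2 ≤ 0`), `S = ms.filter (· ≤ L)`.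
If `cd S ≥ C(d+2,2)`: `exactG` for `S` (empty), `E.add`.
Otherwise: if `cd ms ≤ C(d+2,2)` let `ms' = ms + 1^v` with `cd ms' = C(d+2,2)`; if `cd ms > C(d+2,2)` remove
elements of `ms - S` (all `≤ d/C`) until `C(d+2,2) ≤ cd ms' ≤ C(d+2,2) + kk (d/C)`. So
`2 Sq ms' ≤ 4 cd ms' ≤ 5 d^2`, `vv d ms' ≤ 0`. `M = ⌈3 A ℓ L^(1+g)⌉ ≥ L`, `bg` = elements `> M` of `ms'`, the others are
the `ms` of `exactC`. `Sm bg ≤ Sq/M ≤ 2.5 d^2/M`, so `A ℓ L^(1+g) Sm bg ≤ d^2`. Growth:
`A ℓ^6 M^(1+5g) ≤ C' ℓ^9 L^((1+g)(1+5g)) ≤ d`, `(1+g)(1+5g) ≤ 1 + 8 g` (`g ≤ 1/5`), by `log_pow`-like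
estimates and `C L^(1+ε) ≤ d`, `ε ≥ 20 g`.
`E d ms'` implies the claim (`good_of_E_ones`, `E.add`).
-/

namespace Pool.Agent.SG

open MvPolynomial Pool.Agent.helper5.NBS Pool.Agent.helper89.Segre Pool.Agent.SH9
open Pool.Agent.helper25.ST

private lemma mul_Sm_le_Sq {M : ℕ} (a : Multiset ℕ) (h : ∀ m ∈ a, M ≤ m) : M * Sm a ≤ Sq a := by
  induction a using Multiset.induction_on with
  | empty => simp [Sq, Sm]
  | cons m a ih =>
    have h1 := ih (fun μ hμ => h μ (Multiset.mem_cons_of_mem hμ))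
    have h2 := h m (Multiset.mem_cons_self _ _)
    rw [Sm_cons, Sq_cons]
    nlinarith

private lemma Sq_nil_of {t : Multiset ℕ} (h : ∀ m ∈ t, m = 0) : Sq t = 0 := by
  induction t using Multiset.induction_on with
  | empty => simp [Sq]
  | cons m a ih =>
    rw [Sq_cons, ih (fun μ hμ => h μ (Multiset.mem_cons_of_mem hμ)),
      h m (Multiset.mem_cons_self _ _)]
    norm_num

private lemma cd_nil_of {t : Multiset ℕ} (h : ∀ m ∈ t, m = 0) : cd t = 0 := by
  induction t using Multiset.induction_on with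
  | empty => simp [cd]
  | cons m a ih =>
    rw [cd_cons, ih (fun μ hμ => h μ (Multiset.mem_cons_of_mem hμ)),
      h m (Multiset.mem_cons_self _ _)]
    decide

private lemma kk_mono {m n : ℕ} (h : m ≤ n) : kk m ≤ kk n := by
  have h1 := two_mul_kk m
  have h2 := two_mul_kk n
  have h3 : m * m ≤ n * n := Nat.mul_le_mul h h
  omega

/-- a subset with prescribed number of conditions -/
private lemma pick {K : ℕ} (t : Multiset ℕ) : ∀ N : ℕ, (∀ m ∈ t, kk m ≤ K) → N ≤ cd t →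
    ∃ gs ≤ t, N ≤ cd gs ∧ cd gs ≤ N + K := by
  induction t using Multiset.induction_on with
  | empty =>
    intro N _ hN
    exact ⟨0, le_refl _, hN, by simp [cd]⟩
  | cons m a ih =>
    intro N h hN
    by_cases h1 : N ≤ cd a
    · obtain ⟨gs, g1, g2, g3⟩ := ih N (fun μ hμ => h μ (Multiset.mem_cons_of_mem hμ)) h1
      exact ⟨gs, g1.trans (Multiset.le_cons_self _ _), g2, g3⟩
    · refine ⟨m ::ₘ a, le_refl _, hN, ?_⟩
      have h2 := h m (Multiset.mem_cons_self _ _)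
      rw [cd_cons]
      omega

private lemma filter_filter_le {L M : ℕ} (h : L ≤ M) (t : Multiset ℕ) :
    (t.filter fun m => m ≤ M).filter (fun m => m ≤ L) = t.filter fun m => m ≤ L := by
  rw [Multiset.filter_filter]
  refine Multiset.filter_congr fun m _ => ?_
  constructor
  · exact fun h1 => h1.1
  · exact fun h1 => ⟨h1, h1.trans h⟩

/-- the growth condition of `exactC` for `M = ⌈3 A ℓ L^(1+g)⌉` -/
private lemma growth {g A ℓ d : ℝ} {L M : ℕ} (hg : 0 < g) (hg5 : g ≤ 1 / 20) (hA : 1 ≤ A)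
    (hℓ : 1 ≤ ℓ) (hL : 1 ≤ L) (hM : (M : ℝ) ≤ 4 * (A * ℓ * (L : ℝ) ^ (1 + g)))
    (h : 16 * A ^ 3 * ℓ ^ 8 * (L : ℝ) ^ (1 + 5 * (2 * g)) ≤ d) :
    A * ℓ ^ 6 * (M : ℝ) ^ (1 + 5 * g) ≤ d := by
  have hL1 : (1 : ℝ) ≤ L := by exact_mod_cast hL
  have hL0 : (0 : ℝ) ≤ L := by linarith
  have hx : (1 : ℝ) ≤ 4 * A * ℓ := by nlinarith
  have h1 : (M : ℝ) ^ (1 + 5 * g) ≤ (4 * A * ℓ) ^ 2 * (L : ℝ) ^ (1 + 5 * (2 * g)) := by
    have h2 : (M : ℝ) ^ (1 + 5 * g) ≤ (4 * A * ℓ * (L : ℝ) ^ (1 + g)) ^ (1 + 5 * g) := by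
      refine Real.rpow_le_rpow (Nat.cast_nonneg M) ?_ (by linarith)
      refine hM.trans (le_of_eq ?_)
      ring
    refine h2.trans ?_
    rw [Real.mul_rpow (by linarith) (by positivity), ← Real.rpow_mul hL0]
    refine mul_le_mul ?_ ?_ (by positivity) (by positivity)
    · rw [← Real.rpow_two]
      exact Real.rpow_le_rpow_of_exponent_le hx (by linarith)
    · exact Real.rpow_le_rpow_of_exponent_le hL1 (by nlinarith)
  calc A * ℓ ^ 6 * (M : ℝ) ^ (1 + 5 * g)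
      ≤ A * ℓ ^ 6 * ((4 * A * ℓ) ^ 2 * (L : ℝ) ^ (1 + 5 * (2 * g))) :=
        mul_le_mul_of_nonneg_left h1 (by positivity)
    _ = 16 * A ^ 3 * ℓ ^ 8 * (L : ℝ) ^ (1 + 5 * (2 * g)) := by ring
    _ ≤ d := h

/-- the critical case -/
private theorem core (j f : ℕ) (g : ℝ) (hgj : g = 1 / (2 * (j : ℝ) + 3)) (hg5 : g ≤ 1 / 20) :
    ∃ C : ℝ, 1 ≤ C ∧ ∀ (d L : ℕ) (T : Multiset ℕ), 1 ≤ L → C * (L : ℝ) ^ (1 + 14 * g) ≤ d →
    (∀ m ∈ T, 1 ≤ m ∧ C * (m : ℝ) ≤ d) → d ^ 2 ≤ f * Sq (T.filter fun m => m ≤ L) →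
    2 * Sq T ≤ 5 * d ^ 2 → vv d T ≤ 0 → E d T := by
  have hj0 : (0 : ℝ) < 2 * (j : ℝ) + 3 := by positivity
  have hg : 0 < g := by rw [hgj]; positivity
  obtain ⟨A, hA, hC⟩ := exactC j (nn_all _) f
  obtain ⟨C1, hC1, hlog⟩ := log_pow (2 * g) (16 * A ^ 3) 8 (by linarith) (by linarith)
  refine ⟨C1 + A, by linarith, ?_⟩
  intro d L T hL hd hT hS hSq hv
  have hL1 : (1 : ℝ) ≤ L := by exact_mod_cast hL
  have hLp : (1 : ℝ) ≤ (L : ℝ) ^ (1 + 14 * g) := Real.one_le_rpow hL1 (by linarith)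
  have hd1 : (1 : ℝ) ≤ d := by nlinarith
  set ℓ : ℝ := Real.log ((d : ℝ) + 3) with hℓ
  have hℓ1 : 1 ≤ ℓ := by
    rw [hℓ, Real.le_log_iff_exp_le (by linarith)]
    have := Real.exp_one_lt_d9
    linarith
  have hLg : (L : ℝ) ≤ (L : ℝ) ^ (1 + g) := by
    calc (L : ℝ) = (L : ℝ) ^ (1 : ℝ) := (Real.rpow_one _).symm
      _ ≤ (L : ℝ) ^ (1 + g) := Real.rpow_le_rpow_of_exponent_le hL1 (by linarith)
  have hAℓ : 1 ≤ A * ℓ := by nlinarith
  have hx1 : (L : ℝ) ≤ A * ℓ * (L : ℝ) ^ (1 + g) := by nlinarith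
  set M : ℕ := ⌈3 * (A * ℓ * (L : ℝ) ^ (1 + g))⌉₊ with hM
  have hM1 : 3 * (A * ℓ * (L : ℝ) ^ (1 + g)) ≤ (M : ℝ) := Nat.le_ceil _
  have hM2 : (M : ℝ) ≤ 4 * (A * ℓ * (L : ℝ) ^ (1 + g)) := by
    have := (Nat.ceil_lt_add_one (by linarith : 0 ≤ 3 * (A * ℓ * (L : ℝ) ^ (1 + g)))).le
    rw [← hM] at this
    linarith
  have hLM : L ≤ M := by
    have : (L : ℝ) ≤ M := by linarith
    exact_mod_cast this
  have hlog' := hlog d L hL (by
    refine le_trans ?_ hd
    have e1 : 1 + 7 * (2 * g) = 1 + 14 * g := by ring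
    rw [e1]
    nlinarith)
  have hgr := growth (d := d) hg hg5 hA hℓ1 hL hM2 hlog'
  set sm : Multiset ℕ := T.filter fun m => m ≤ M with hsm
  set bg : Multiset ℕ := T.filter fun m => ¬ m ≤ M with hbg
  have hsum : sm + bg = T := Multiset.filter_add_not _ _
  have hbgS : M * Sm bg ≤ Sq bg := by
    refine mul_Sm_le_Sq bg fun m hm => ?_
    rw [hbg, Multiset.mem_filter] at hm
    omega
  have hSqT : Sq bg ≤ Sq T := by
    rw [← hsum, Sq_add]
    omega
  have hbgR : 2 * ((M : ℝ) * (Sm bg : ℝ)) ≤ 5 * (d : ℝ) ^ 2 := by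
    have : 2 * (M * Sm bg) ≤ 5 * d ^ 2 := by omega
    exact_mod_cast this
  have hres := hC d L M sm bg hL hLM ?_ ?_ ?_ ?_ ?_ ?_ ?_
  · rwa [hsum] at hres
  · intro m hm
    rw [hsm, Multiset.mem_filter] at hm
    exact ⟨(hT m hm.1).1, hm.2⟩
  · intro m hm
    rw [hbg, Multiset.mem_filter] at hm
    refine ⟨(hT m hm.1).1, le_trans ?_ (hT m hm.1).2⟩
    have : (0 : ℝ) ≤ m := Nat.cast_nonneg m
    nlinarith
  · rw [hsm, filter_filter_le hLM]
    exact hS
  · rw [hsum]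
    exact hSq
  · have e1 : (1 : ℝ) + 5 / (2 * (j : ℝ) + 3) = 1 + 5 * g := by
      rw [hgj]; ring
    rw [e1]
    exact hgr
  · have e1 : (1 : ℝ) + 1 / (2 * (j : ℝ) + 3) = 1 + g := by rw [hgj]
    rw [e1]
    have hs0 : (0 : ℝ) ≤ (Sm bg : ℝ) := Nat.cast_nonneg _
    have h1 : 3 * (A * ℓ * (L : ℝ) ^ (1 + g)) * (Sm bg : ℝ) ≤ (M : ℝ) * (Sm bg : ℝ) :=
      mul_le_mul_of_nonneg_right hM1 hs0
    have h2 : (0 : ℝ) ≤ (d : ℝ) ^ 2 := sq_nonneg _
    have h3 : A * ℓ * (L : ℝ) ^ (1 + g) * (Sm bg : ℝ) =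
      (3 * (A * ℓ * (L : ℝ) ^ (1 + g)) * (Sm bg : ℝ)) / 3 := by ring
    rw [h3]
    linarith
  · rw [hsum]
    exact hv

theorem exactB (ε : ℝ) (hε : 0 < ε) (f : ℕ) : ∃ C : ℝ, 0 < C ∧ ∀ (d : ℕ) (ms : Multiset ℕ),
    (∀ m ∈ ms, C * (m : ℝ) ≤ d) →
    (∀ L : ℕ, (∀ l : ℕ, C * ((l : ℝ) + 1) ^ (1 + ε) ≤ d → l ≤ L) →
      d ^ 2 ≤ f * Sq (ms.filter fun m => m ≤ L)) →
    Good ℂ (tri d) ms (min (cd ms) (tri d).card) := by
  classical
  obtain ⟨j, hj⟩ : ∃ j : ℕ, max 20 (14 / ε) ≤ 2 * (j : ℝ) + 3 := by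
    obtain ⟨j, hj⟩ := exists_nat_ge (max 20 (14 / ε))
    refine ⟨j, hj.trans ?_⟩
    have : (0 : ℝ) ≤ j := Nat.cast_nonneg j
    linarith
  set g : ℝ := 1 / (2 * (j : ℝ) + 3) with hgj
  have hj0 : (0 : ℝ) < 2 * (j : ℝ) + 3 := by positivity
  have hg : 0 < g := by rw [hgj]; positivity
  have hg5 : g ≤ 1 / 20 := by
    rw [hgj]
    exact one_div_le_one_div_of_le (by norm_num) ((le_max_left _ _).trans hj)
  have hgε : 14 * g ≤ ε := by
    have h1 : 14 / ε ≤ 2 * (j : ℝ) + 3 := (le_max_right _ _).trans hj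
    rw [div_le_iff₀ hε] at h1
    rw [hgj, mul_one_div, div_le_iff₀ hj0]
    linarith
  obtain ⟨C1, hC1, hcore⟩ := core j f g hgj hg5
  obtain ⟨C2, hC2, hG⟩ := exactG ε hε
  set C : ℝ := C1 + C2 + 100 with hCdef
  have hC100 : 100 ≤ C := by rw [hCdef]; linarith
  refine ⟨C, by linarith, ?_⟩
  intro d ms hms hL'
  rcases Nat.eq_zero_or_pos d with hd0 | hdpos
  · have hz : ∀ m ∈ ms, m = 0 := by
      intro m hm
      have h1 := hms m hm
      rw [hd0, Nat.cast_zero] at h1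
      have h2 : (0 : ℝ) ≤ m := Nat.cast_nonneg m
      have h3 : (m : ℝ) ≤ 0 := by nlinarith
      have h4 : (m : ℝ) = 0 := le_antisymm h3 h2
      exact_mod_cast h4
    rw [cd_nil_of hz, Nat.zero_min]
    exact good_zero ℂ (tri d) ms
  -- the largest admissible `L`
  set L : ℕ := Nat.findGreatest (fun l : ℕ => C * ((l : ℝ) + 1) ^ (1 + ε) ≤ d) d with hLdef
  have hup : ∀ l : ℕ, C * ((l : ℝ) + 1) ^ (1 + ε) ≤ d → l ≤ L := by
    intro l hl
    refine Nat.le_findGreatest ?_ hl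
    have h1 : (1 : ℝ) ≤ (l : ℝ) + 1 := by
      have : (0 : ℝ) ≤ l := Nat.cast_nonneg l
      linarith
    have h2 : (l : ℝ) + 1 ≤ ((l : ℝ) + 1) ^ (1 + ε) := by
      calc (l : ℝ) + 1 = ((l : ℝ) + 1) ^ (1 : ℝ) := (Real.rpow_one _).symm
        _ ≤ _ := Real.rpow_le_rpow_of_exponent_le h1 (by linarith)
    have h3 : (l : ℝ) ≤ d := by nlinarith
    exact_mod_cast h3
  have hS := hL' L hup
  have hLpos : 1 ≤ L := by
    rcases Nat.eq_zero_or_pos L with h0 | h0
    · exfalso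
      have h1 : Sq (ms.filter fun m => m ≤ L) = 0 := by
        refine Sq_nil_of fun m hm => ?_
        rw [Multiset.mem_filter, h0] at hm
        omega
      rw [h1, Nat.mul_zero] at hS
      have : 0 < d ^ 2 := Nat.pow_pos hdpos
      omega
    · exact h0
  have hPL : C * ((L : ℝ) + 1) ^ (1 + ε) ≤ d :=
    Nat.findGreatest_of_ne_zero (P := fun l : ℕ => C * ((l : ℝ) + 1) ^ (1 + ε) ≤ d) (n := d)
      hLdef.symm (by omega)
  have hL1 : (1 : ℝ) ≤ L := by exact_mod_cast hLpos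
  have hpos : (1 : ℝ) ≤ ((L : ℝ) + 1) ^ (1 + ε) := Real.one_le_rpow (by linarith) (by linarith)
  have hd100 : 100 ≤ d := by
    have : (100 : ℝ) ≤ d := by nlinarith
    exact_mod_cast this
  have hLcore : C1 * (L : ℝ) ^ (1 + 14 * g) ≤ d := by
    refine le_trans ?_ hPL
    have h1 : (L : ℝ) ^ (1 + 14 * g) ≤ ((L : ℝ) + 1) ^ (1 + ε) := by
      calc (L : ℝ) ^ (1 + 14 * g) ≤ ((L : ℝ) + 1) ^ (1 + 14 * g) :=
            Real.rpow_le_rpow (by linarith) (by linarith) (by linarith)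
        _ ≤ _ := Real.rpow_le_rpow_of_exponent_le (by linarith) (by linarith)
    exact mul_le_mul (by linarith) h1 (by positivity) (by linarith)
  have hLG : C2 * ((L : ℝ) + 1) ^ (1 + ε) ≤ d := by
    refine le_trans ?_ hPL
    exact mul_le_mul_of_nonneg_right (by linarith) (by linarith)
  -- drop the zeros
  set m0 : Multiset ℕ := ms.filter fun m => 1 ≤ m with hm0
  set z0 : Multiset ℕ := ms.filter fun m => ¬ 1 ≤ m with hz0
  have hmz : m0 + z0 = ms := Multiset.filter_add_not _ _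
  have hz0' : ∀ m ∈ z0, m = 0 := by
    intro m hm
    rw [hz0, Multiset.mem_filter] at hm
    omega
  have hcdm : cd m0 = cd ms := by
    rw [← hmz, cd_add, cd_nil_of hz0', Nat.add_zero]
  set S : Multiset ℕ := m0.filter fun m => m ≤ L with hSdef
  set R : Multiset ℕ := m0.filter fun m => ¬ m ≤ L with hRdef
  have hSR : S + R = m0 := Multiset.filter_add_not _ _
  have hSqS : Sq (ms.filter fun m => m ≤ L) = Sq S := by
    rw [← hmz, Multiset.filter_add, Sq_add, Sq_nil_of (t := z0.filter fun m => m ≤ L) (by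
      intro m hm
      exact hz0' m (Multiset.mem_of_mem_filter hm)), Nat.add_zero]
  rw [hSqS] at hS
  have hm0' : ∀ m ∈ m0, 1 ≤ m ∧ C1 * (m : ℝ) ≤ d := by
    intro m hm
    rw [hm0, Multiset.mem_filter] at hm
    refine ⟨hm.2, le_trans ?_ (hms m hm.1)⟩
    exact mul_le_mul_of_nonneg_right (by linarith) (Nat.cast_nonneg m)
  have hkk : ∀ m ∈ m0, kk m ≤ kk (d / 100) := by
    intro m hm
    rw [hm0, Multiset.mem_filter] at hm
    refine kk_mono ?_
    have h1 := hms m hm.1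
    have h2 : (100 : ℝ) * m ≤ d := by
      have : (0 : ℝ) ≤ m := Nat.cast_nonneg m
      nlinarith
    have h3 : 100 * m ≤ d := by exact_mod_cast h2
    omega
  have hK : 4 * ((d + 2).choose 2 + kk (d / 100)) ≤ 5 * d ^ 2 := by
    have h1 := two_choose d
    have h2 := two_mul_kk (d / 100)
    have h3 : 100 * (d / 100) ≤ d := Nat.mul_div_le d 100
    set q := d / 100 with hq
    nlinarith
  have hvv : ∀ T : Multiset ℕ, (d + 2).choose 2 ≤ cd T → vv d T ≤ 0 := by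
    intro T hT
    have : (((d + 2).choose 2 : ℕ) : ℝ) ≤ ((cd T : ℕ) : ℝ) := by exact_mod_cast hT
    unfold vv
    linarith
  have hSqcd : ∀ T : Multiset ℕ, cd T ≤ (d + 2).choose 2 + kk (d / 100) → 2 * Sq T ≤ 5 * d ^ 2 := by
    intro T hT
    have := two_cd' T
    omega
  rcases Nat.le_total (cd ms) ((d + 2).choose 2) with hc | hc
  · -- add simple points
    set v : ℕ := (d + 2).choose 2 - cd ms with hv
    have hE : E d (m0 + Multiset.replicate v 1) := by
      refine hcore d L _ hLpos hLcore ?_ ?_ ?_ ?_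
      · intro m hm
        rcases Multiset.mem_add.1 hm with h1 | h1
        · exact hm0' m h1
        · rw [Multiset.eq_of_mem_replicate h1]
          refine ⟨le_refl _, ?_⟩
          rw [Nat.cast_one, mul_one]
          refine le_trans ?_ hPL
          nlinarith
      · refine hS.trans (Nat.mul_le_mul_left _ ?_)
        rw [Multiset.filter_add, Sq_add]
        exact Nat.le_add_right _ _
      · refine hSqcd _ ?_
        rw [cd_add, cd_ones, hcdm]
        omega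
      · refine hvv _ ?_
        rw [cd_add, cd_ones, hcdm]
        omega
    have hE2 : E d (ms + Multiset.replicate v 1) := by
      have h1 := hE.add z0
      have h2 : m0 + Multiset.replicate v 1 + z0 = ms + Multiset.replicate v 1 := by
        rw [← hmz]; abel
      rwa [h2] at h1
    have h3 := good_of_E_ones hE2
    rw [card_tri] at h3 ⊢
    rw [Nat.min_eq_left hc]
    have he : (d + 2).choose 2 - v = cd ms := by omega
    rwa [he] at h3
  · have hfin : ∀ T ≤ m0, E d T → Good ℂ (tri d) ms (min (cd ms) (tri d).card) := by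
      intro T hT hE
      rw [Nat.min_eq_right (by rw [card_tri]; exact hc)]
      obtain ⟨t, ht⟩ := Multiset.le_iff_exists_add.1 hT
      have h1 := hE.add (t + z0)
      have h2 : T + (t + z0) = ms := by rw [← add_assoc, ← ht, hmz]
      rw [h2] at h1
      exact h1
    rcases Nat.le_total ((d + 2).choose 2) (cd S) with hcS | hcS
    · -- the small ones suffice
      refine hfin S (Multiset.filter_le _ _) ?_
      have h1 := hG d L S (fun m hm => by
        rw [hSdef, Multiset.mem_filter] at hm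
        exact hm.2) hLG
      rw [Nat.min_eq_right (by rw [card_tri]; exact hcS)] at h1
      exact h1
    · have hR : (d + 2).choose 2 - cd S ≤ cd R := by
        have h1 : cd S + cd R = cd ms := by rw [← cd_add, hSR, hcdm]
        omega
      obtain ⟨gs, g1, g2, g3⟩ := pick (K := kk (d / 100)) R _ (fun m hm =>
        hkk m (Multiset.mem_of_mem_filter hm)) hR
      have hle : S + gs ≤ m0 := by
        rw [← hSR]
        exact Multiset.add_le_add_left g1
      refine hfin (S + gs) hle ?_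
      refine hcore d L _ hLpos hLcore ?_ ?_ ?_ ?_
      · intro m hm
        exact hm0' m (Multiset.mem_of_le hle hm)
      · refine hS.trans (Nat.mul_le_mul_left _ ?_)
        rw [Multiset.filter_add, Sq_add]
        have h1 : S.filter (fun m => m ≤ L) = S := by
          rw [Multiset.filter_eq_self]
          intro m hm
          rw [hSdef, Multiset.mem_filter] at hm
          exact hm.2
        rw [h1]
        exact Nat.le_add_right _ _
      · refine hSqcd _ ?_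
        rw [cd_add]
        omega
      · refine hvv _ ?_
        rw [cd_add]
        omega

end Pool.Agent.SG
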