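import Pool.Agent.SG.FinalB

set_option autoImplicit false

/-!
# Module FinalC: the final form of the theorem (without nine arbitrary points)

Three alternatives for a system `(d; m)`:
(A) all `C m_i ≤ d`, the points with `d < C (m_i+1)^(1+ε)` (big) have `∑ m_i^2 ≤ (1-δ) d^2`;
(B) all `C m_i ≤ d`, the points with `C (m_i+1)^(1+ε) ≤ d` (small) have `∑ m_i^2 ≥ δ d^2`;
(C) `C (m_i+1)^(2+ε) ≤ ∑ m_k^2` for all `i` (every degree `d`).
(C) is the second alternative of `exactG2` with `M` the largest multiplicity.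
(B): `exactB` with `f = ⌈1/δ⌉`: for `L` as there the elements `≤ L` contain the small points
(`C (m+1)^(1+ε) ≤ d → m ≤ L`). `generic_of_good` as in Final.lean.
(A): `f = ⌈4/δ⌉ + 1`, `L0 = ⌈8/δ⌉`, `M0 = ⌈(L0+2)^(1+ε)⌉`, `C ≥ C_B` (`exactB`), `C ≥ 20 (M0+1)^2`, `C ≥ C_B`.
 If `d < C (L0+1)^(1+ε)`: all `m_i ≤ d/C ≤ M0`; if all `m_i = 0` or `d ≥ C`: `hh_large` (`11 kk(M0) + M0 ≤ C ≤ d`)
 or the good version `good_large`; (`d < C`: all `m_i = 0`; trivial, `hh_large`-like with no conditions: the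
 number of conditions is `0`, `Good ... 0`.)
 Otherwise every big point has `m_i > L0` (`(m_i+1)^(1+ε) > d/C ≥ (L0+1)^(1+ε)`), so `Sm(big) ≤ δ Sq(big)/8`.
 If `cd ms ≤ C(d+2,2)`: let `ms' = ms + 1^v`, `cd ms' = C(d+2,2)`: the small points of `ms'` (incl. the simple
 ones) have `Sq ≥ cd = C(d+2,2) - cd(big) ≥ d^2/2 - (1+δ/8)(1-δ) d^2/2 ≥ δ d^2/4`: `exactB` for `ms'`, then
 `good_of_E_ones`. If `cd ms > C(d+2,2)`: `Sq(small) ≥ cd(small) ≥ C(d+2,2) - cd(big) ≥ δ d^2/4` as well: `exactB` for `ms`.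
-/

namespace Pool.Agent.SG

open MvPolynomial Pool.Agent.helper5.NBS Pool.Agent.helper89.Segre Pool.Agent.SH9
open Pool.Agent.helper25.ST

private lemma Sq_filter {h : ℕ} (m : Fin h → ℕ) (p : ℕ → Prop) [DecidablePred p] :
    ((Sq ((Finset.univ.val.map m).filter p) : ℕ) : ℝ) = ∑ i with p (m i), (m i : ℝ) ^ 2 := by
  have h1 : Sq ((Finset.univ.val.map m).filter p) = ∑ i with p (m i), m i ^ 2 := by
    unfold Sq
    rw [Multiset.filter_map, Multiset.map_map]
    rfl
  rw [h1]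
  push_cast
  rfl

private lemma Sq_le_of_le {s s' : Multiset ℕ} (h : s ≤ s') : Sq s ≤ Sq s' := by
  obtain ⟨t, rfl⟩ := Multiset.le_iff_exists_add.mp h
  rw [Sq_add]
  exact Nat.le_add_right _ _

private lemma cd_zero_of {t : Multiset ℕ} (h : ∀ m ∈ t, m = 0) : cd t = 0 := by
  induction t using Multiset.induction_on with
  | empty => simp [cd]
  | cons m a ih =>
    rw [cd_cons, ih (fun μ hμ => h μ (Multiset.mem_cons_of_mem hμ)),
      h m (Multiset.mem_cons_self _ _)]
    decide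

/-- large elements have a small sum -/
private lemma Sm_le_mul_Sq {δ : ℝ} {a : Multiset ℕ} (h : ∀ m ∈ a, 8 ≤ δ * (m : ℝ)) :
    8 * ((Sm a : ℕ) : ℝ) ≤ δ * ((Sq a : ℕ) : ℝ) := by
  induction a using Multiset.induction_on with
  | empty => simp [Sq, Sm]
  | cons m a ih =>
    have h1 := ih (fun μ hμ => h μ (Multiset.mem_cons_of_mem hμ))
    have h2 := h m (Multiset.mem_cons_self _ _)
    rw [Sm_cons, Sq_cons]
    push_cast
    have h3 : (0 : ℝ) ≤ m := Nat.cast_nonneg m
    nlinarith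

/-- the multiset form of the alternatives (A) and (B) -/
private theorem exactUM (ε δ : ℝ) (hε : 0 < ε) (hδ : 0 < δ) (hδ1 : δ ≤ 1) :
    ∃ C0 : ℝ, 0 < C0 ∧ ∀ C : ℝ, C0 ≤ C → ∀ (d : ℕ) (ms : Multiset ℕ),
    (∀ m ∈ ms, C * (m : ℝ) ≤ d) →
    (((Sq (ms.filter fun m : ℕ => ¬ C * ((m : ℝ) + 1) ^ (1 + ε) ≤ d) : ℕ) : ℝ) ≤
        (1 - δ) * (d : ℝ) ^ 2 ∨
      δ * (d : ℝ) ^ 2 ≤ ((Sq (ms.filter fun m : ℕ => C * ((m : ℝ) + 1) ^ (1 + ε) ≤ d) : ℕ) : ℝ)) →
    Good ℂ (tri d) ms (min (cd ms) (tri d).card) := by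
  classical
  set f : ℕ := ⌈4 / δ⌉₊ with hf
  have hfδ : 4 ≤ δ * (f : ℝ) := by
    have h1 : 4 / δ ≤ (f : ℝ) := Nat.le_ceil _
    rw [div_le_iff₀ hδ] at h1
    linarith
  obtain ⟨CB, hCB, hB⟩ := exactB ε hε f
  set L0 : ℕ := ⌈8 / δ⌉₊ with hL0
  have hL0δ : 8 ≤ δ * (L0 : ℝ) := by
    have h1 : 8 / δ ≤ (L0 : ℝ) := Nat.le_ceil _
    rw [div_le_iff₀ hδ] at h1
    linarith
  have hL08 : (8 : ℝ) ≤ L0 := by
    have : (0 : ℝ) ≤ L0 := Nat.cast_nonneg _
    nlinarith
  set M0 : ℕ := ⌈((L0 : ℝ) + 1) ^ (1 + ε)⌉₊ with hM0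
  have hM0r : ((L0 : ℝ) + 1) ^ (1 + ε) ≤ (M0 : ℝ) := Nat.le_ceil _
  have hp1 : (2 : ℝ) ^ (1 + ε) ≤ ((L0 : ℝ) + 1) ^ (1 + ε) :=
    Real.rpow_le_rpow (by norm_num) (by linarith) (by linarith)
  have hp2 : (1 : ℝ) ≤ (2 : ℝ) ^ (1 + ε) := Real.one_le_rpow (by norm_num) (by linarith)
  have hp3 : (1 : ℝ) ≤ ((L0 : ℝ) + 1) ^ (1 + ε) := hp2.trans hp1
  have hM0p : 0 < M0 := by
    have : (0 : ℝ) < M0 := by linarith
    exact_mod_cast this
  refine ⟨CB + (11 * kk M0 + M0 : ℕ), by positivity, ?_⟩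
  intro C hC d ms hms hAB
  have hCCB : CB ≤ C := by
    have : (0 : ℝ) ≤ ((11 * kk M0 + M0 : ℕ) : ℝ) := Nat.cast_nonneg _
    linarith
  have hCM : ((11 * kk M0 + M0 : ℕ) : ℝ) ≤ C := by linarith
  have hC0 : 0 < C := by linarith
  have hmsB : ∀ m ∈ ms, CB * (m : ℝ) ≤ d := by
    intro m hm
    exact (mul_le_mul_of_nonneg_right hCCB (Nat.cast_nonneg m)).trans (hms m hm)
  have hd0 : (0 : ℝ) ≤ d := Nat.cast_nonneg d
  -- small elements are admissible
  have hsm : ∀ L : ℕ, (∀ l : ℕ, CB * ((l : ℝ) + 1) ^ (1 + ε) ≤ d → l ≤ L) → ∀ m : ℕ,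
      C * ((m : ℝ) + 1) ^ (1 + ε) ≤ d → m ≤ L := by
    intro L hL m hm
    refine hL m (le_trans (mul_le_mul_of_nonneg_right hCCB ?_) hm)
    positivity
  rcases hAB with hA | hBB
  · rcases lt_or_ge (d : ℝ) (C * ((L0 : ℝ) + 1) ^ (1 + ε)) with hlt | hge
    · -- bounded multiplicities
      have hmM : ∀ m ∈ ms, m ≤ M0 := by
        intro m hm
        have h1 := hms m hm
        have h2 : C * (m : ℝ) < C * ((L0 : ℝ) + 1) ^ (1 + ε) := lt_of_le_of_lt h1 hlt
        have h3 : (m : ℝ) < ((L0 : ℝ) + 1) ^ (1 + ε) := lt_of_mul_lt_mul_left h2 hC0.le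
        have h4 : (m : ℝ) < M0 := lt_of_lt_of_le h3 hM0r
        exact_mod_cast h4.le
      rcases lt_or_ge (d : ℝ) C with hdC | hdC
      · have hz : ∀ m ∈ ms, m = 0 := by
          intro m hm
          by_contra hne
          have h1 : (1 : ℝ) ≤ m := by exact_mod_cast Nat.one_le_iff_ne_zero.mpr hne
          have h2 := hms m hm
          nlinarith
        rw [cd_zero_of hz, Nat.zero_min]
        exact good_zero ℂ (tri d) ms
      · have h1 : 11 * kk M0 + M0 ≤ d + 2 := by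
          have h2 : ((11 * kk M0 + M0 : ℕ) : ℝ) ≤ d := hCM.trans hdC
          have h3 : 11 * kk M0 + M0 ≤ d := by exact_mod_cast h2
          omega
        exact good_large hM0p h1 ms (fun ν hν h => absurd (hmM ν hν) (by omega))
    · -- big elements are larger than `L0`
      have hbig : ∀ m ∈ ms.filter (fun m : ℕ => ¬ C * ((m : ℝ) + 1) ^ (1 + ε) ≤ d),
          8 ≤ δ * (m : ℝ) := by
        intro m hm
        have h1 := (Multiset.mem_filter.mp hm).2
        push Not at h1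
        have h2 : C * ((L0 : ℝ) + 1) ^ (1 + ε) < C * ((m : ℝ) + 1) ^ (1 + ε) :=
          lt_of_le_of_lt hge h1
        have h3 : ((L0 : ℝ) + 1) ^ (1 + ε) < ((m : ℝ) + 1) ^ (1 + ε) :=
          lt_of_mul_lt_mul_left h2 hC0.le
        have h4 : (L0 : ℝ) < m := by
          by_contra hcon
          push Not at hcon
          have := Real.rpow_le_rpow (z := 1 + ε) (add_nonneg (Nat.cast_nonneg m) zero_le_one)
            (by linarith : (m : ℝ) + 1 ≤ (L0 : ℝ) + 1) (by linarith)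
          linarith
        nlinarith
      have hdB : CB * (2 : ℝ) ^ (1 + ε) ≤ d := by
        refine le_trans ?_ hge
        exact mul_le_mul hCCB hp1 (by linarith) hC0.le
      have hdB1 : CB ≤ d := by
        refine le_trans ?_ hdB
        nlinarith
      have hSmb := Sm_le_mul_Sq hbig
      -- the key estimate for a system with at least the expected number of conditions
      have key : ∀ v : ℕ, (d + 2).choose 2 ≤ cd ms + v →
          Good ℂ (tri d) (ms + Multiset.replicate v 1)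
            (min (cd (ms + Multiset.replicate v 1)) (tri d).card) := by
        intro v hv
        refine hB d _ ?_ ?_
        · intro m hm
          rcases Multiset.mem_add.1 hm with h1 | h1
          · exact hmsB m h1
          · rw [Multiset.eq_of_mem_replicate h1, Nat.cast_one, mul_one]
            exact hdB1
        · intro L hL
          have hL1 : 1 ≤ L := hL 1 (by
            have e1 : ((1 : ℕ) : ℝ) + 1 = 2 := by norm_num
            rw [e1]
            exact hdB)
          set bg : Multiset ℕ := ms.filter (fun m : ℕ => ¬ C * ((m : ℝ) + 1) ^ (1 + ε) ≤ d) with hbg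
          set sm : Multiset ℕ := ms.filter (fun m : ℕ => C * ((m : ℝ) + 1) ^ (1 + ε) ≤ d) with hsmd
          have hsum : sm + bg = ms := Multiset.filter_add_not _ _
          have hle : sm + Multiset.replicate v 1 ≤
              (ms + Multiset.replicate v 1).filter fun m => m ≤ L := by
            rw [Multiset.filter_add]
            refine add_le_add ?_ ?_
            · rw [Multiset.le_filter]
              refine ⟨Multiset.filter_le _ _, ?_⟩
              intro m hm
              exact hsm L hL m (Multiset.mem_filter.mp hm).2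
            · rw [Multiset.le_filter]
              refine ⟨le_refl _, ?_⟩
              intro m hm
              rw [Multiset.eq_of_mem_replicate hm]
              exact hL1
          have h1 := Sq_le_of_le hle
          have h2 := two_cd' (sm + Multiset.replicate v 1)
          have h3 := Sm_le_Sq (sm + Multiset.replicate v 1)
          have h4 := two_cd' bg
          have h5 : cd ms = cd sm + cd bg := by rw [← cd_add, hsum]
          have h6 : cd (sm + Multiset.replicate v 1) = cd sm + v := by rw [cd_add, cd_ones]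
          have h7 := two_choose d
          have h8 : (d + 1) * (d + 2) ≤ 2 * Sq (sm + Multiset.replicate v 1) + (Sq bg + Sm bg) := by
            omega
          have h9 : ((d : ℝ) + 1) * ((d : ℝ) + 2) ≤
              2 * ((Sq (sm + Multiset.replicate v 1) : ℕ) : ℝ) +
                (((Sq bg : ℕ) : ℝ) + ((Sm bg : ℕ) : ℝ)) := by
            exact_mod_cast h8
          have h10 : δ * (d : ℝ) ^ 2 / 4 ≤ ((Sq (sm + Multiset.replicate v 1) : ℕ) : ℝ) := by
            have h11 : 0 ≤ δ * (d : ℝ) ^ 2 := by positivity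
            have h12 : 0 ≤ δ * (δ * (d : ℝ) ^ 2) := by positivity
            have h13 : δ * ((Sq bg : ℕ) : ℝ) ≤ δ * ((1 - δ) * (d : ℝ) ^ 2) :=
              mul_le_mul_of_nonneg_left hA hδ.le
            nlinarith
          have h14 : (d : ℝ) ^ 2 ≤ (f : ℝ) * ((Sq (sm + Multiset.replicate v 1) : ℕ) : ℝ) := by
            have h15 : (0 : ℝ) ≤ f := Nat.cast_nonneg _
            have h16 : (f : ℝ) * (δ * (d : ℝ) ^ 2 / 4) ≤
                (f : ℝ) * ((Sq (sm + Multiset.replicate v 1) : ℕ) : ℝ) :=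
              mul_le_mul_of_nonneg_left h10 h15
            have h17 : (4 : ℝ) * (d : ℝ) ^ 2 ≤ (δ * (f : ℝ)) * (d : ℝ) ^ 2 :=
              mul_le_mul_of_nonneg_right hfδ (sq_nonneg _)
            nlinarith
          have h18 : d ^ 2 ≤ f * Sq (sm + Multiset.replicate v 1) := by exact_mod_cast h14
          exact h18.trans (Nat.mul_le_mul_left _ h1)
      rcases Nat.le_total (cd ms) ((d + 2).choose 2) with hc | hc
      · have h1 := key ((d + 2).choose 2 - cd ms) (by omega)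
        rw [cd_add, cd_ones, card_tri, Nat.min_eq_right (by omega)] at h1
        have hE : E d (ms + Multiset.replicate ((d + 2).choose 2 - cd ms) 1) := by
          unfold E
          rw [card_tri]
          exact h1
        have hG := good_of_E_ones hE
        rw [card_tri] at hG ⊢
        rw [Nat.min_eq_left hc]
        have he : (d + 2).choose 2 - ((d + 2).choose 2 - cd ms) = cd ms := by omega
        rwa [he] at hG
      · have h1 := key 0 (by omega)
        rwa [Multiset.replicate_zero, add_zero] at h1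
  · -- alternative (B)
    refine hB d ms hmsB ?_
    intro L hL
    have hle : ms.filter (fun m : ℕ => C * ((m : ℝ) + 1) ^ (1 + ε) ≤ d) ≤ ms.filter fun m => m ≤ L := by
      rw [Multiset.le_filter]
      refine ⟨Multiset.filter_le _ _, ?_⟩
      intro m hm
      exact hsm L hL m (Multiset.mem_filter.mp hm).2
    have h1 := Sq_le_of_le hle
    have h2 : (d : ℝ) ^ 2 ≤ (f : ℝ) *
        ((Sq (ms.filter fun m : ℕ => C * ((m : ℝ) + 1) ^ (1 + ε) ≤ d) : ℕ) : ℝ) := by
      have h15 : (0 : ℝ) ≤ f := Nat.cast_nonneg _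
      have h16 := mul_le_mul_of_nonneg_left hBB h15
      have h17 : (4 : ℝ) * (d : ℝ) ^ 2 ≤ (δ * (f : ℝ)) * (d : ℝ) ^ 2 :=
        mul_le_mul_of_nonneg_right hfδ (sq_nonneg _)
      have h18 : 0 ≤ (d : ℝ) ^ 2 := sq_nonneg _
      nlinarith
    have h3 : d ^ 2 ≤ f * Sq (ms.filter fun m : ℕ => C * ((m : ℝ) + 1) ^ (1 + ε) ≤ d) := by
      exact_mod_cast h2
    exact h3.trans (Nat.mul_le_mul_left _ h1)

theorem exactU (ε δ : ℝ) (hε : 0 < ε) (hδ : 0 < δ) : ∃ C : ℝ, 0 < C ∧ ∀ (d h : ℕ) (m : Fin h → ℕ),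
    (((∀ i, C * (m i : ℝ) ≤ d) ∧
        ((∑ i with ¬ C * ((m i : ℝ) + 1) ^ (1 + ε) ≤ d, (m i : ℝ) ^ 2) ≤ (1 - δ) * (d : ℝ) ^ 2 ∨
          δ * (d : ℝ) ^ 2 ≤ ∑ i with C * ((m i : ℝ) + 1) ^ (1 + ε) ≤ d, (m i : ℝ) ^ 2)) ∨
      (∀ i, C * ((m i : ℝ) + 1) ^ (2 + ε) ≤ ∑ k, (m k : ℝ) ^ 2)) →
    ∃ Q : MvPolynomial (Fin h × Fin 3) ℂ, Q ≠ 0 ∧ ∀ p : Fin h → Fin 3 → ℂ,
      eval (fun ij : Fin h × Fin 3 => p ij.1 ij.2) Q ≠ 0 →
      Module.finrank ℂ (sys d h m p) = (d + 2).choose 2 - ∑ k, (m k + 1).choose 2 := by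
  obtain ⟨C0, hC0, h0⟩ := exactUM ε (min δ 1) hε (lt_min hδ one_pos) (min_le_right _ _)
  obtain ⟨C2, hC2, h2⟩ := exactG2 ε hε
  refine ⟨C0 + C2, by linarith, ?_⟩
  intro d h m hyp
  have hcd : cd (Finset.univ.val.map m) = ∑ k, (m k + 1).choose 2 := sumkk_eq m
  rcases hyp with ⟨hm, hAB⟩ | hCC
  · have hG := h0 (C0 + C2) (by linarith) d (Finset.univ.val.map m) ?_ ?_
    · rw [hcd, card_tri] at hG
      exact generic_of_good hG
    · intro μ hμ
      obtain ⟨i, _, rfl⟩ := Multiset.mem_map.mp hμ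
      exact hm i
    · have hd2 : (0 : ℝ) ≤ (d : ℝ) ^ 2 := sq_nonneg _
      have hmin : min δ 1 ≤ δ := min_le_left _ _
      rcases hAB with hA | hB
      · left
        rw [Sq_filter m (fun m : ℕ => ¬ (C0 + C2) * ((m : ℝ) + 1) ^ (1 + ε) ≤ d)]
        refine hA.trans (mul_le_mul_of_nonneg_right (by linarith) hd2)
      · right
        rw [Sq_filter m (fun m : ℕ => (C0 + C2) * ((m : ℝ) + 1) ^ (1 + ε) ≤ d)]
        exact (mul_le_mul_of_nonneg_right hmin hd2).trans hB
  · rcases Nat.eq_zero_or_pos h with hh0 | hhp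
    · subst hh0
      have hz : Finset.univ.val.map m = 0 := by simp
      have hG : Good ℂ (tri d) (Finset.univ.val.map m)
          (min (∑ k, (m k + 1).choose 2) ((d + 2).choose 2)) := by
        have e1 : ∑ k, (m k + 1).choose 2 = 0 := by simp
        rw [e1, Nat.zero_min]
        exact good_zero ℂ (tri d) _
      exact generic_of_good hG
    · have : Nonempty (Fin h) := ⟨⟨0, hhp⟩⟩
      obtain ⟨i, _, hi⟩ := Finset.exists_max_image Finset.univ m Finset.univ_nonempty
      refine h2 d h (m i) m (fun k => hi k (Finset.mem_univ k)) (Or.inr ?_)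
      refine le_trans ?_ (hCC i)
      refine mul_le_mul_of_nonneg_right (by linarith) ?_
      positivity

end Pool.Agent.SG
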