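import Pool.Agent.SH9.Lsub

set_option autoImplicit false

/-!
# Module GPos: general position of two spaces of binary forms, with excess

`general_position` (SH9/Gl2.lean): if `dim V + dim W ≤ N + 1` then `V ∩ g^{-1} W = 0` for general `g`.
Here: in general `dim {f ∈ V : lact g f ∈ W} ≤ dim V + dim W - (N + 1)` (truncated): choose a subspace
`V' ≤ V` with `dim V' = min (dim V) (N + 1 - dim W)` (`dim W ≤ N + 1` as `W` is a space of binary forms of
degree `N`; `Submodule.exists_...finrank` or `LinearMap`); for general `g`, `V' ∩ {..} = 0`, so the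
dimension is at most `dim V - dim V'`.
-/

namespace Pool.Agent.SG

open MvPolynomial Pool.Agent.SH9

private lemma exists_sub (V : Submodule ℂ (MvPolynomial (Fin 2) ℂ)) (n : ℕ)
    (hn : n ≤ Module.finrank ℂ V) : ∃ V' : Submodule ℂ (MvPolynomial (Fin 2) ℂ), V' ≤ V ∧
      Module.finrank ℂ V' = n := by
  obtain ⟨f, hf⟩ := exists_linearIndependent_of_le_finrank hn
  refine ⟨(Submodule.span ℂ (Set.range f)).map V.subtype, Submodule.map_subtype_le _ _, ?_⟩
  rw [Submodule.finrank_map_subtype_eq, finrank_span_eq_card hf, Fintype.card_fin]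

theorem general_position_excess {N : ℕ} (V W : Submodule ℂ (MvPolynomial (Fin 2) ℂ))
    (hV : V ≤ homogeneousSubmodule (Fin 2) ℂ N) (hW : W ≤ homogeneousSubmodule (Fin 2) ℂ N) :
    ∃ Δ : MvPolynomial (Fin 2 × Fin 2) ℂ, Δ ≠ 0 ∧ ∀ g : Fin 2 × Fin 2 → ℂ, eval g Δ ≠ 0 →
      ∀ U : Submodule ℂ (MvPolynomial (Fin 2) ℂ), U ≤ V → (∀ f ∈ U, lact g f ∈ W) →
        Module.finrank ℂ U ≤ Module.finrank ℂ V + Module.finrank ℂ W - (N + 1) := by
  have hVf : FiniteDimensional ℂ V := Submodule.finiteDimensional_of_le hV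
  rcases Nat.lt_or_ge (N + 1) (Module.finrank ℂ W) with hw | hw
  · refine ⟨1, one_ne_zero, fun g _ U hU _ => ?_⟩
    have := Submodule.finrank_mono hU
    omega
  rcases Nat.lt_or_ge (N + 1) (Module.finrank ℂ V + Module.finrank ℂ W) with hd | hd
  · obtain ⟨V', hV', hf⟩ := exists_sub V (N + 1 - Module.finrank ℂ W) (by omega)
    obtain ⟨Δ, h1, h2⟩ := general_position V' W (hV'.trans hV) hW (by omega)
    refine ⟨Δ, h1, fun g hg U hU hUW => ?_⟩
    have : FiniteDimensional ℂ U := Submodule.finiteDimensional_of_le hU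
    have : FiniteDimensional ℂ V' := Submodule.finiteDimensional_of_le hV'
    have h3 : V' ⊓ U = ⊥ := by
      rw [Submodule.eq_bot_iff]
      intro f hf
      exact h2 g hg f hf.1 (hUW f hf.2)
    have h4 := Submodule.finrank_sup_add_finrank_inf_eq V' U
    have h5 : Module.finrank ℂ (V' ⊔ U : Submodule ℂ (MvPolynomial (Fin 2) ℂ)) ≤
        Module.finrank ℂ V := Submodule.finrank_mono (sup_le hV' hU)
    rw [h3, finrank_bot] at h4
    omega
  · obtain ⟨Δ, h1, h2⟩ := general_position V W hV hW hd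
    refine ⟨Δ, h1, fun g hg U hU hUW => ?_⟩
    have h3 : U = ⊥ := by
      rw [Submodule.eq_bot_iff]
      intro f hf
      exact h2 g hg f (hU hf) (hUW f hf)
    rw [h3, finrank_bot]
    exact Nat.zero_le _

end Pool.Agent.SG
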