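import Pool.Agent.SG.HHB

set_option autoImplicit false

/-!
# Module Grp: splitting a multiset into groups inside the dyadic classes

`cls i ms` = elements `m` with `Nat.clog 2 m = i`; for `m ≥ 1`: `m ≤ 2^i < 2 m` (`clsW`).
`grp`: strong induction on `card ms`: if some class has at least `t i ≥ N i ≥ 1` elements, choose `A` of
`N i` of them, `gs ≤ A` with `P i gs`, remove `gs`, and use the induction hypothesis for the rest (the last
conclusion: if `cls i` of the final rest equals the one of the intermediate multiset, this has at least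
`t i - N i` elements).
`Sq_cls`, `Sm_cls`: `Sq A ≤ ∑_i card (cls i A) 4^i`, `4 Sq B ≥ ∑_i card (cls i B) 4^i`,
`Sm A ≤ ∑_i card (cls i A) 2^i ≤ 2 Sm A` (`i < clog 2 M + 1`).
`geom`: geometric sum, `2^i ≤ 2 M` for `i ≤ clog 2 M`, ratio `2^θ ≥ 2`.
`rest_small`: `card (cls i B) ≤ N i ≤ c (2^i)^(2g)` gives `Sm B ≤ ∑ c (2^i)^(1+2g) ≤ 8 c M^(1+2g) ...`.
-/

namespace Pool.Agent.SG

open Pool.Agent.helper89.Segre Pool.Agent.SH9 Pool.Agent.helper25.ST

lemma clsW {i m : ℕ} (h : 1 ≤ m) (hi : Nat.clog 2 m = i) : m ≤ 2 ^ i ∧ 2 ^ i < 2 * m := by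
  subst hi
  refine ⟨Nat.le_pow_clog one_lt_two m, ?_⟩
  rcases Nat.lt_or_ge 1 m with h1 | h1
  · have h2 := Nat.pow_pred_clog_lt_self (b := 2) one_lt_two h1
    have h3 : 0 < Nat.clog 2 m := Nat.clog_pos one_lt_two h1
    have h4 : (2 : ℕ) ^ Nat.clog 2 m = 2 * 2 ^ (Nat.clog 2 m).pred := by
      rw [← pow_succ', ← Nat.succ_eq_add_one, Nat.succ_pred_eq_of_pos h3]
    omega
  · have h2 : m = 1 := by omega
    subst h2
    rw [Nat.clog_one_right]
    norm_num

private lemma cls_card_add (i : ℕ) (a b : Multiset ℕ) :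
    Multiset.card (cls i (a + b)) = Multiset.card (cls i a) + Multiset.card (cls i b) := by
  rw [cls, cls, cls, Multiset.filter_add, Multiset.card_add]

private lemma exists_sub (ms : Multiset ℕ) (n : ℕ) (h : n ≤ Multiset.card ms) :
    ∃ A ≤ ms, Multiset.card A = n := by
  have h1 : 0 < Multiset.card (Multiset.powersetCard n ms) := by
    rw [Multiset.card_powersetCard]
    exact Nat.choose_pos h
  obtain ⟨A, hA⟩ := Multiset.card_pos_iff_exists_mem.mp h1
  rw [Multiset.mem_powersetCard] at hA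
  exact ⟨A, hA.1, hA.2⟩

theorem grp (P : ℕ → Multiset ℕ → Prop) (N t : ℕ → ℕ) (hN : ∀ i, 1 ≤ N i) (ht : ∀ i, N i ≤ t i)
    (hP : ∀ (i : ℕ) (A : Multiset ℕ), (∀ m ∈ A, 1 ≤ m ∧ Nat.clog 2 m = i) →
      Multiset.card A = N i → ∃ gs ≤ A, gs ≠ 0 ∧ P i gs)
    (ms : Multiset ℕ) (h1 : ∀ m ∈ ms, 1 ≤ m) :
    ∃ (l : List (ℕ × Multiset ℕ)) (rest : Multiset ℕ),
      ms = (l.map Prod.snd).sum + rest ∧
      (∀ x ∈ l, P x.1 x.2 ∧ x.2 ≠ 0 ∧ Multiset.card x.2 ≤ N x.1 ∧
        ∀ m ∈ x.2, 1 ≤ m ∧ Nat.clog 2 m = x.1) ∧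
      (∀ i, Multiset.card (cls i rest) < t i) ∧
      (∀ i, cls i rest = cls i ms ∨ t i ≤ Multiset.card (cls i rest) + N i) := by
  induction hn : Multiset.card ms using Nat.strong_induction_on generalizing ms with
  | _ n ih =>
  by_cases hex : ∃ i, t i ≤ Multiset.card (cls i ms)
  · obtain ⟨i, hi⟩ := hex
    obtain ⟨A, hA, hcA⟩ := exists_sub (cls i ms) (N i) ((ht i).trans hi)
    have hmem : ∀ m ∈ A, 1 ≤ m ∧ Nat.clog 2 m = i := by
      intro m hm
      have h2 := Multiset.mem_filter.mp (Multiset.mem_of_le hA hm)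
      exact ⟨h1 m h2.1, h2.2⟩
    obtain ⟨gs, hgs, hgs0, hPg⟩ := hP i A hmem hcA
    have hle : gs ≤ ms := (hgs.trans hA).trans (Multiset.filter_le _ _)
    have hms : ms = gs + (ms - gs) := (add_tsub_cancel_of_le hle).symm
    have hcard : Multiset.card (ms - gs) < n := by
      have e1 : Multiset.card ms = Multiset.card gs + Multiset.card (ms - gs) := by
        rw [← Multiset.card_add, ← hms]
      have e2 : 0 < Multiset.card gs := Multiset.card_pos.mpr hgs0
      omega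
    obtain ⟨l, rest, hl, hx, hr, hlast⟩ := ih (Multiset.card (ms - gs)) hcard (ms - gs)
      (fun m hm => h1 m (Multiset.mem_of_le tsub_le_self hm)) rfl
    refine ⟨(i, gs) :: l, rest, ?_, ?_, hr, ?_⟩
    · rw [List.map_cons, List.sum_cons, add_assoc, ← hl]
      exact hms
    · intro x hxl
      rcases List.mem_cons.mp hxl with rfl | hxl
      · exact ⟨hPg, hgs0, (Multiset.card_le_card hgs).trans hcA.le,
          fun m hm => hmem m (Multiset.mem_of_le hgs hm)⟩
      · exact hx x hxl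
    · intro j
      rcases hlast j with h2 | h2
      · by_cases hij : j = i
        · right
          subst hij
          have e1 := cls_card_add j gs (ms - gs)
          rw [← hms, ← h2] at e1
          have e2 : Multiset.card (cls j gs) ≤ N j :=
            (Multiset.card_le_card (Multiset.filter_le _ _)).trans
              ((Multiset.card_le_card hgs).trans hcA.le)
          omega
        · left
          rw [h2]
          have e1 : cls j gs = 0 := by
            rw [cls, Multiset.filter_eq_nil]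
            intro m hm hj
            have := (hmem m (Multiset.mem_of_le hgs hm)).2
            omega
          have e2 : cls j ms = cls j gs + cls j (ms - gs) := by
            have e3 : cls j (gs + (ms - gs)) = cls j gs + cls j (ms - gs) :=
              Multiset.filter_add _ _ _
            rwa [← hms] at e3
          rw [e2, e1, zero_add]
      · exact Or.inr h2
  · push Not at hex
    exact ⟨[], ms, by simp, by simp, hex, fun i => Or.inl rfl⟩

theorem cls_bounds {M : ℕ} {B : Multiset ℕ} (hB : ∀ m ∈ B, 1 ≤ m ∧ m ≤ M) :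
    Sq B ≤ ∑ i ∈ Finset.range (Nat.clog 2 M + 1), Multiset.card (cls i B) * 4 ^ i ∧
    ∑ i ∈ Finset.range (Nat.clog 2 M + 1), Multiset.card (cls i B) * 4 ^ i ≤ 4 * Sq B ∧
    Sm B ≤ ∑ i ∈ Finset.range (Nat.clog 2 M + 1), Multiset.card (cls i B) * 2 ^ i ∧
    ∑ i ∈ Finset.range (Nat.clog 2 M + 1), Multiset.card (cls i B) * 2 ^ i ≤ 2 * Sm B := by
  induction B using Multiset.induction_on with
  | empty => simp [Sq, Sm, cls]
  | cons m B ih =>
    obtain ⟨i1, i2, i3, i4⟩ := ih (fun x hx => hB x (Multiset.mem_cons_of_mem hx))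
    obtain ⟨hm1, hmM⟩ := hB m (Multiset.mem_cons_self m B)
    obtain ⟨w1, w2⟩ := clsW hm1 (rfl : Nat.clog 2 m = Nat.clog 2 m)
    have hr : Nat.clog 2 m ∈ Finset.range (Nat.clog 2 M + 1) := by
      rw [Finset.mem_range]
      have := Nat.clog_mono_right 2 hmM
      omega
    have hc : ∀ i, Multiset.card (cls i (m ::ₘ B)) =
        Multiset.card (cls i B) + (if Nat.clog 2 m = i then 1 else 0) := by
      intro i
      rw [cls, cls]
      by_cases h : Nat.clog 2 m = i
      · rw [Multiset.filter_cons_of_pos (p := fun m => Nat.clog 2 m = i) B h, Multiset.card_cons,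
          if_pos h]
      · rw [Multiset.filter_cons_of_neg (p := fun m => Nat.clog 2 m = i) B h, if_neg h, add_zero]
    have hsum : ∀ f : ℕ → ℕ, ∑ i ∈ Finset.range (Nat.clog 2 M + 1),
        Multiset.card (cls i (m ::ₘ B)) * f i =
        ∑ i ∈ Finset.range (Nat.clog 2 M + 1), Multiset.card (cls i B) * f i +
          f (Nat.clog 2 m) := by
      intro f
      simp only [hc, add_mul, Finset.sum_add_distrib, ite_mul, one_mul, zero_mul]
      rw [Finset.sum_ite_eq, if_pos hr]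
    have e4 : (4 : ℕ) ^ Nat.clog 2 m = (2 ^ Nat.clog 2 m) ^ 2 := by
      rw [← pow_mul, mul_comm, pow_mul]
      norm_num
    rw [hsum, hsum, Sm_cons, Sq_cons, e4]
    have f1 : m ^ 2 ≤ (2 ^ Nat.clog 2 m) ^ 2 := Nat.pow_le_pow_left w1 2
    have f2 : (2 ^ Nat.clog 2 m) ^ 2 ≤ 4 * m ^ 2 := by
      calc (2 ^ Nat.clog 2 m) ^ 2 ≤ (2 * m) ^ 2 := Nat.pow_le_pow_left w2.le 2
        _ = 4 * m ^ 2 := by ring
    refine ⟨by omega, by omega, by omega, by omega⟩

/-- `∑_(i ≤ clog 2 M) (2^i)^θ ≤ 2 (2M)^θ` -/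
theorem geom {M : ℕ} (hM : 1 ≤ M) {θ : ℝ} (hθ : 1 ≤ θ) :
    ∑ i ∈ Finset.range (Nat.clog 2 M + 1), ((2 : ℝ) ^ i) ^ θ ≤ 2 * (2 * (M : ℝ)) ^ θ := by
  have h2θ : (2 : ℝ) ≤ (2 : ℝ) ^ θ := by
    calc (2 : ℝ) = (2 : ℝ) ^ (1 : ℝ) := (Real.rpow_one 2).symm
      _ ≤ (2 : ℝ) ^ θ := Real.rpow_le_rpow_of_exponent_le (by norm_num) hθ
  have key : ∀ n : ℕ, ∑ i ∈ Finset.range (n + 1), ((2 : ℝ) ^ i) ^ θ ≤ 2 * ((2 : ℝ) ^ n) ^ θ := by
    intro n
    induction n with
    | zero =>
      rw [Finset.sum_range_succ, Finset.sum_range_zero, pow_zero, Real.one_rpow]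
      norm_num
    | succ n ih =>
      rw [Finset.sum_range_succ]
      have h3 : ((2 : ℝ) ^ (n + 1)) ^ θ = ((2 : ℝ) ^ n) ^ θ * (2 : ℝ) ^ θ := by
        rw [pow_succ, Real.mul_rpow (by positivity) (by norm_num)]
      have h4 : 0 ≤ ((2 : ℝ) ^ n) ^ θ := by positivity
      have h5 : ((2 : ℝ) ^ n) ^ θ * 2 ≤ ((2 : ℝ) ^ n) ^ θ * (2 : ℝ) ^ θ :=
        mul_le_mul_of_nonneg_left h2θ h4
      rw [h3]
      linarith
  refine (key _).trans ?_
  have h6 := (clsW hM (rfl : Nat.clog 2 M = Nat.clog 2 M)).2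
  have h7 : (2 : ℝ) ^ Nat.clog 2 M ≤ 2 * (M : ℝ) := by exact_mod_cast h6.le
  have h8 : ((2 : ℝ) ^ Nat.clog 2 M) ^ θ ≤ (2 * (M : ℝ)) ^ θ :=
    Real.rpow_le_rpow (by positivity) h7 (by linarith)
  linarith

end Pool.Agent.SG
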