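import Pool.Agent.SG.Defs

set_option autoImplicit false

/-!
# Module HHB: basic properties of the generic dimension `hh`

`E d (ms + 1^s)` is monotone in `s` (`E.add`), and holds for `s = C(d+2,2)` (SH9 / helper89), so
`hh_le_iff` (`Nat.sInf_le`, `Nat.sInf_mem`).
`hh_eq_zero_iff`: `s = 0`. `hh_anti`: `E.add`. `hh_raise`: `Good.raise`.
`vv_le_hh`: `E d L` implies `C(d+2,2) ≤ cd L` (see the lemmas used in helper25/ST/Main.lean,
`Good` with rank at most the number of conditions).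
`hh_cons_le`: replacing a point of multiplicity `n + 1` by one of multiplicity `n` loses at most `n + 1`
conditions: in terms of `E`: `E d ((n+1) :: L)` implies `E d (n :: L + 1^(n+1))` (for example by
`Emp`: the space of curves with multiplicity `≥ n` has leading forms of degree `n`, a space of
dimension `≤ n + 1`; or from `Nag.hh_step` and Dim.lean). `hh_le_add` follows by induction
(`hh d ms ≤ hh d (m :: ms) + kk m`).
`hh_of_good`, `good_of_hh`: `E_ones_of_good`, `good_of_E_ones` (helper25/ST, helper7/SC).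
`reg_deg`: regular in degree `d` implies regular in degree `d' ≥ d` (for `Good`: `tri d ⊆ tri d'`,
`Good.mono_left`). `reg_sub`: regular is inherited by subsets (`hh_le_add`, `vv_le_hh`).
`E_deg`: empty in degree `d'` implies empty in degree `d ≤ d'` (`Emp`, `E.generic`, `E_of_emp`).
`hh_large`: `good_large` (helper89/Segre2/Large.lean) with no large element.
-/

namespace Pool.Agent.SG

open MvPolynomial Pool.Agent.helper5.NBS Pool.Agent.helper89.Segre Pool.Agent.SH9
open Pool.Agent.helper25.ST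

private lemma ex_ones (d : ℕ) (ms : Multiset ℕ) :
    E d (ms + Multiset.replicate (tri d).card 1) :=
  E_ones_of_good (good_zero ℂ (tri d) ms) (by omega)

private lemma hh_mem (d : ℕ) (ms : Multiset ℕ) : E d (ms + Multiset.replicate (hh d ms) 1) :=
  Nat.sInf_mem (s := {s | E d (ms + Multiset.replicate s 1)}) ⟨_, ex_ones d ms⟩

theorem hh_le_iff {d s : ℕ} {ms : Multiset ℕ} : hh d ms ≤ s ↔ E d (ms + Multiset.replicate s 1) := by
  constructor
  · intro h
    have h1 := (hh_mem d ms).add (Multiset.replicate (s - hh d ms) 1)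
    rwa [add_assoc, ← Multiset.replicate_add, Nat.add_sub_cancel' h] at h1
  · intro h
    exact Nat.sInf_le h

theorem hh_eq_zero_iff {d : ℕ} {ms : Multiset ℕ} : hh d ms = 0 ↔ E d ms := by
  rw [← Nat.le_zero, hh_le_iff, Multiset.replicate_zero, add_zero]

theorem hh_anti {d : ℕ} {ms ms' : Multiset ℕ} (h : ms ≤ ms') : hh d ms' ≤ hh d ms := by
  obtain ⟨t, rfl⟩ := Multiset.le_iff_exists_add.mp h
  rw [hh_le_iff]
  have h1 := (hh_mem d ms).add t
  rwa [add_right_comm] at h1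

theorem hh_raise {d m m' : ℕ} {ms : Multiset ℕ} (h : m ≤ m') : hh d (m' ::ₘ ms) ≤ hh d (m ::ₘ ms) := by
  rw [hh_le_iff, Multiset.cons_add]
  have h1 := hh_mem d (m ::ₘ ms)
  rw [Multiset.cons_add] at h1
  exact h1.raise h

private lemma E_lower {d n : ℕ} {L : Multiset ℕ} (h : E d ((n + 1) ::ₘ L)) :
    E d ((n ::ₘ L) + Multiset.replicate (n + 1) 1) := by
  classical
  obtain ⟨P, h1, h2, h3⟩ := h
  obtain ⟨x, hx, hx2, hx3⟩ := (Multiset.map_eq_cons _ _ _ _).mpr h1
  have hK : Kr (tri d) P = ⊥ := h3.kr_eq_bot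
  let g : (ℕ × ℕ → ℂ) →ₗ[ℂ] (Fin (n + 1) → ℂ) := LinearMap.pi fun i =>
    ∑ e ∈ tri d, (pw x.1 e * ((e.1.choose (i : ℕ) : ℕ) : ℂ) *
      ((e.2.choose (n - (i : ℕ)) : ℕ) : ℂ)) • LinearMap.proj (R := ℂ) (φ := fun _ => ℂ) e
  have hg : ∀ c i, g c i = ∑ e ∈ tri d, c e * (pw x.1 e * ((e.1.choose (i : ℕ) : ℕ) : ℂ) *
      ((e.2.choose (n - (i : ℕ)) : ℕ) : ℂ)) := by
    intro c i
    simp only [g, LinearMap.pi_apply, LinearMap.sum_apply, LinearMap.smul_apply,
      LinearMap.proj_apply, smul_eq_mul]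
    exact Finset.sum_congr rfl fun e _ => mul_comm _ _
  have hinj : Function.Injective (g.domRestrict (Kr (tri d) ((x.1, n) ::ₘ P.erase x))) := by
    rw [← LinearMap.ker_eq_bot, LinearMap.ker_eq_bot']
    rintro ⟨c, hc⟩ h0
    have h0' : g c = 0 := h0
    have hc' : c ∈ Kr (tri d) P := by
      have hcK := mem_Kr_iff.mp hc
      rw [mem_Kr_iff]
      refine ⟨hcK.1, fun z hz ij hij => ?_⟩
      rw [← Multiset.cons_erase hx] at hz
      rcases Multiset.mem_cons.mp hz with rfl | hz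
      · rw [hx2, mem_idx] at hij
        by_cases hlt : ij.1 + ij.2 < n
        · exact hcK.2 (z.1, n) (Multiset.mem_cons_self _ _) ij (mem_idx.mpr hlt)
        · have h5 := congrFun h0' ⟨ij.1, by omega⟩
          rw [hg] at h5
          have h6 : n - ij.1 = ij.2 := by omega
          simp only [h6] at h5
          exact h5
      · exact hcK.2 z (Multiset.mem_cons_of_mem hz) ij hij
    rw [hK, Submodule.mem_bot] at hc'
    exact Subtype.ext hc'
  have hfin := LinearMap.finrank_le_finrank_of_injective hinj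
  rw [Module.finrank_fin_fun] at hfin
  obtain ⟨Q, h5, h6, h7⟩ := exists_ones (tri d) (n + 1) ((x.1, n) ::ₘ P.erase x) hfin
  refine ⟨((x.1, n) ::ₘ P.erase x) + Q, ?_, ?_, hasRank_of_kr h7⟩
  · rw [Multiset.map_add, h5, Multiset.map_cons, hx3]
  · intro y hy
    rcases Multiset.mem_add.mp hy with hy | hy
    · rcases Multiset.mem_cons.mp hy with rfl | hy
      · exact h2 x hx
      · exact h2 y (Multiset.mem_of_mem_erase hy)
    · exact h6 y hy

theorem hh_cons_le (d n : ℕ) (ms : Multiset ℕ) : hh d (n ::ₘ ms) ≤ hh d ((n + 1) ::ₘ ms) + (n + 1) := by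
  rw [hh_le_iff]
  have h1 := hh_mem d ((n + 1) ::ₘ ms)
  rw [Multiset.cons_add] at h1
  have h2 := E_lower h1
  rwa [← Multiset.cons_add, add_assoc, ← Multiset.replicate_add] at h2

private lemma E_zero {d : ℕ} {L : Multiset ℕ} (h : E d (0 ::ₘ L)) : E d L := by
  classical
  obtain ⟨P, h1, h2, h3⟩ := h
  obtain ⟨x, hx, hx2, hx3⟩ := (Multiset.map_eq_cons _ _ _ _).mpr h1
  refine ⟨P.erase x, hx3, fun z hz => h2 z (Multiset.mem_of_mem_erase hz), h3.mono le_rfl ?_⟩
  unfold Pool.Agent.helper89.Segre.Phi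
  rw [Submodule.span_le]
  rintro φ ⟨z, hz, ij, hij, rfl⟩
  apply Submodule.subset_span
  refine ⟨z, ?_, ij, hij, rfl⟩
  rw [← Multiset.cons_erase hx] at hz
  rcases Multiset.mem_cons.mp hz with rfl | hz
  · exfalso
    rw [hx2, mem_idx] at hij
    omega
  · exact hz

/-- a point of multiplicity zero does not matter -/
theorem hh_zero_cons (d : ℕ) (ms : Multiset ℕ) : hh d (0 ::ₘ ms) = hh d ms := by
  apply le_antisymm
  · exact hh_anti (Multiset.le_cons_self _ _)
  · rw [hh_le_iff]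
    have h1 := hh_mem d (0 ::ₘ ms)
    rw [Multiset.cons_add] at h1
    exact E_zero h1

private lemma kk_succ' (m : ℕ) : kk (m + 1) = kk m + (m + 1) := by
  have h3 := two_mul_kk m
  have h4 := two_mul_kk (m + 1)
  have h5 : (m + 1) * (m + 1) + (m + 1) = (m * m + m) + 2 * (m + 1) := by ring
  omega

private lemma hh_le_cons (d m : ℕ) (ms : Multiset ℕ) : hh d ms ≤ hh d (m ::ₘ ms) + kk m := by
  induction m with
  | zero =>
    rw [hh_zero_cons]
    exact Nat.le_add_right _ _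
  | succ m ih =>
    have h1 := hh_cons_le d m ms
    have h2 := kk_succ' m
    omega

theorem hh_le_add (d : ℕ) (ms ns : Multiset ℕ) : hh d ms ≤ hh d (ms + ns) + cd ns := by
  induction ns using Multiset.induction_on with
  | empty =>
    rw [add_zero]
    exact Nat.le_add_right _ _
  | cons m ns ih =>
    have h1 := hh_le_cons d m (ms + ns)
    rw [Multiset.add_cons, cd_cons]
    omega

private lemma exq' {n : ℕ} (S : Set (PtRing n)) (hSc : S.Countable) (hS0 : ∀ P ∈ S, P ≠ 0) :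
    ∃ q : Fin n → Fin 2 → ℂ, ∀ P ∈ S, evP q P ≠ 0 := by
  obtain ⟨x, hx⟩ := Pool.Agent.helper7.SC.exists_avoid S hSc hS0
  exact ⟨fun i l => x (i, l), fun P hP => hx P hP⟩

private lemma two_cd_map' {n : ℕ} (m : Fin n → ℕ) :
    2 * cd (Finset.univ.val.map m) = ∑ l, m l * (m l + 1) := by
  have h1 : cd (Finset.univ.val.map m) = ∑ l, kk (m l) := by
    rw [cd, Multiset.map_map]
    rfl
  rw [h1, Finset.mul_sum]
  refine Finset.sum_congr rfl fun i _ => ?_
  rw [two_mul_kk]
  ring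

private theorem card_le' {d : ℕ} {gs : Multiset ℕ} (h : E d gs) : (d + 2).choose 2 ≤ cd gs := by
  obtain ⟨m, hm⟩ := exists_fin gs
  generalize Multiset.card gs = n at m hm
  subst hm
  obtain ⟨Q, hQ0, hQ⟩ := h.generic
  obtain ⟨T, hT, hT0, hTp⟩ := Pool.Agent.helper7.SC.wxu 1 n one_pos
  obtain ⟨q, hq⟩ := exq' (T ∪ {Q}) (hT.union (Set.countable_singleton _)) (by
    rintro P (hP | hP)
    · exact hT0 P hP
    · rw [Set.mem_singleton_iff] at hP
      rw [hP]
      exact hQ0)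
  obtain ⟨hinj, -⟩ := hTp q (fun P hP => hq P (Or.inl hP))
  have hemp := hQ q (hq Q (Or.inr rfl))
  have h1 := Pool.Agent.helper1.KV.finrank_inf_ker (Pool.Agent.helper1.KV.Vt d)
    (Pool.Agent.helper1.KV.jet q m)
  have h2 : (Pool.Agent.helper1.KV.Vt d ⊓ LinearMap.ker (Pool.Agent.helper1.KV.jet q m) :
      Submodule ℂ R2) = ⊥ := by
    rw [Submodule.eq_bot_iff]
    intro F hF
    rw [Submodule.mem_inf, Pool.Agent.helper1.KV.mem_Vt, Pool.Agent.helper1.KV.ker_jet hinj,
      Submodule.restrictScalars_mem, Pool.Agent.helper1.KV.mem_Jd hinj] at hF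
    exact hemp F hF.1 hF.2
  rw [h2, finrank_bot, zero_add] at h1
  have h3 : Module.finrank ℂ ((Pool.Agent.helper1.KV.Vt d).map (Pool.Agent.helper1.KV.jet q m)) ≤
      Module.finrank ℂ (Pool.Agent.helper1.KV.Jet q m) := Submodule.finrank_le _
  have h4 := Pool.Agent.helper1.KV.finrank_Vt d
  have h5 := Pool.Agent.helper1.KV.finrank_Jet q m
  have h6 := two_choose d
  have h7 := two_cd_map' m
  omega

private lemma choose_le_hh (d : ℕ) (ms : Multiset ℕ) : (d + 2).choose 2 ≤ cd ms + hh d ms := by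
  have h1 := card_le' (hh_mem d ms)
  rwa [cd_add, cd_ones] at h1

theorem vv_le_hh (d : ℕ) (ms : Multiset ℕ) : vv d ms ≤ hh d ms := by
  have h1 : (((d + 2).choose 2 : ℕ) : ℝ) ≤ ((cd ms + hh d ms : ℕ) : ℝ) := by
    exact_mod_cast choose_le_hh d ms
  rw [Nat.cast_add] at h1
  unfold vv
  linarith

theorem hh_big {d n : ℕ} (h : d < n) (ms : Multiset ℕ) : hh d (n ::ₘ ms) = 0 := by
  rw [hh_eq_zero_iff]
  have h1 : Emp d (fun _ : Fin 1 => n) (fun _ : Fin 1 => (0 : Fin 2 → ℂ)) := by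
    intro F hF hm
    by_contra hF0
    have h2 : n ≤ mult (0 : Fin 2 → ℂ) F := (mem_pow_iff_le_mult hF0).mp (hm 0)
    have h3 := Nef0aux.mult_le_deg (0 : Fin 2 → ℂ) hF0
    omega
  have h2 := (E_of_emp h1).add ms
  have h3 : (Finset.univ : Finset (Fin 1)).val.map (fun _ => n) = {n} := by simp
  rw [h3, Multiset.singleton_add] at h2
  exact h2

private lemma hh_of_good_nat {d : ℕ} {ms : Multiset ℕ} (h : Good ℂ (tri d) ms (cd ms)) :
    hh d ms + cd ms = (d + 2).choose 2 := by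
  have h1 : cd ms ≤ (tri d).card := by
    obtain ⟨L, _, _, h3⟩ := h
    have := h3.finrank_le
    omega
  have h2 : hh d ms ≤ (tri d).card - cd ms :=
    hh_le_iff.mpr (E_ones_of_good h (by omega))
  have h3 := choose_le_hh d ms
  rw [card_tri] at h1 h2
  omega

theorem hh_of_good {d : ℕ} {ms : Multiset ℕ} (h : Good ℂ (tri d) ms (cd ms)) :
    (hh d ms : ℝ) = vv d ms := by
  have h1 : ((hh d ms + cd ms : ℕ) : ℝ) = (((d + 2).choose 2 : ℕ) : ℝ) := by
    rw [hh_of_good_nat h]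
  rw [Nat.cast_add] at h1
  unfold vv
  linarith

theorem good_of_hh {d : ℕ} {ms : Multiset ℕ} (h : (hh d ms : ℝ) = vv d ms) :
    Good ℂ (tri d) ms (cd ms) := by
  have h1 : ((hh d ms + cd ms : ℕ) : ℝ) = (((d + 2).choose 2 : ℕ) : ℝ) := by
    rw [Nat.cast_add, h]
    unfold vv
    ring
  have h2 : hh d ms + cd ms = (d + 2).choose 2 := by exact_mod_cast h1
  have h3 := good_of_E_ones (hh_mem d ms)
  have h4 : (tri d).card - hh d ms = cd ms := by
    rw [card_tri]
    omega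
  rwa [h4] at h3

theorem reg_deg {d d' : ℕ} {ms : Multiset ℕ} (h : (hh d ms : ℝ) = vv d ms) (hd : d ≤ d') :
    (hh d' ms : ℝ) = vv d' ms := by
  refine hh_of_good ((good_of_hh h).mono_left ?_)
  intro e he
  rw [mem_tri] at he ⊢
  omega

theorem reg_sub {d : ℕ} {ms ms' : Multiset ℕ} (h : (hh d ms' : ℝ) = vv d ms') (hs : ms ≤ ms') :
    (hh d ms : ℝ) = vv d ms := by
  obtain ⟨t, rfl⟩ := Multiset.le_iff_exists_add.mp hs
  apply le_antisymm _ (vv_le_hh d ms)
  have h1 : ((hh d ms : ℕ) : ℝ) ≤ ((hh d (ms + t) + cd t : ℕ) : ℝ) := by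
    exact_mod_cast hh_le_add d ms t
  rw [Nat.cast_add, h] at h1
  unfold vv at h1 ⊢
  rw [cd_add, Nat.cast_add] at h1
  linarith

theorem E_deg {d d' : ℕ} {ms : Multiset ℕ} (h : E d' ms) (hd : d ≤ d') : E d ms :=
  h.mono hd

/-- systems of large degree are non-special (helper89) -/
theorem hh_large {d M : ℕ} {ms : Multiset ℕ} (hM : 1 ≤ M) (hms : ∀ m ∈ ms, m ≤ M)
    (hd : 11 * (M + 1).choose 2 + M ≤ d + 2) : (hh d ms : ℝ) = max (vv d ms) 0 := by
  have h1 : Good ℂ (tri d) ms (min (ms.map kk).sum (tri d).card) :=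
    good_large hM hd ms (fun ν hν h => absurd (hms ν hν) (by omega))
  change Good ℂ (tri d) ms (min (cd ms) (tri d).card) at h1
  rcases le_total (cd ms) (tri d).card with h2 | h2
  · rw [min_eq_left h2] at h1
    rw [hh_of_good h1, max_eq_left]
    rw [← hh_of_good h1]
    exact Nat.cast_nonneg _
  · rw [min_eq_right h2] at h1
    have h3 : hh d ms = 0 := hh_eq_zero_iff.mpr h1
    rw [h3, max_eq_right, Nat.cast_zero]
    rw [card_tri] at h2
    have h4 : (((d + 2).choose 2 : ℕ) : ℝ) ≤ ((cd ms : ℕ) : ℝ) := by exact_mod_cast h2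
    unfold vv
    linarith

lemma vv_add (d : ℕ) (ms ns : Multiset ℕ) : vv d (ms + ns) = vv d ms - (cd ns : ℕ) := by
  unfold vv
  rw [cd_add, Nat.cast_add]
  ring

lemma vv_cons (d m : ℕ) (ms : Multiset ℕ) : vv d (m ::ₘ ms) = vv d ms - (kk m : ℕ) := by
  unfold vv
  rw [cd_cons, Nat.cast_add]
  ring

private lemma two_cd_aux (ms : Multiset ℕ) : 2 * cd ms = Sq ms + Sm ms := by
  induction ms using Multiset.induction_on with
  | empty => simp [cd, Sq, Sm]
  | cons m ms ih =>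
    have h1 := two_mul_kk m
    have h2 : Sq (m ::ₘ ms) = m ^ 2 + Sq ms := by simp [Sq]
    have h3 : Sm (m ::ₘ ms) = m + Sm ms := by simp [Sm]
    rw [cd_cons, h2, h3, pow_two]
    omega

/-- `2 vv = (d+1)(d+2) - Sq - Sm` -/
lemma two_vv (d : ℕ) (ms : Multiset ℕ) :
    2 * vv d ms = ((d : ℝ) + 1) * (d + 2) - (Sq ms : ℕ) - (Sm ms : ℕ) := by
  have h1 : ((2 * (d + 2).choose 2 : ℕ) : ℝ) = (((d + 1) * (d + 2) : ℕ) : ℝ) := by
    rw [two_choose]
  have h2 : ((2 * cd ms : ℕ) : ℝ) = ((Sq ms + Sm ms : ℕ) : ℝ) := by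
    rw [two_cd_aux]
  push_cast at h1 h2
  unfold vv
  linarith

lemma two_cd' (ms : Multiset ℕ) : 2 * cd ms = Sq ms + Sm ms :=
  two_cd_aux ms

lemma Sm_add (a b : Multiset ℕ) : Sm (a + b) = Sm a + Sm b := by
  simp [Sm]

lemma Sq_add (a b : Multiset ℕ) : Sq (a + b) = Sq a + Sq b := by
  simp [Sq]

lemma Sm_cons (m : ℕ) (a : Multiset ℕ) : Sm (m ::ₘ a) = m + Sm a := by
  simp [Sm]

lemma Sq_cons (m : ℕ) (a : Multiset ℕ) : Sq (m ::ₘ a) = m ^ 2 + Sq a := by
  simp [Sq]

/-- `S1 = Sm + card` -/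
lemma S1_eq (ms : Multiset ℕ) : S1 ms = Sm ms + Multiset.card ms := by
  induction ms using Multiset.induction_on with
  | empty => simp [S1, Sm]
  | cons m ms ih =>
    rw [S1_cons, Sm_cons, Multiset.card_cons, ih]
    ring

lemma Sm_le_Sq (ms : Multiset ℕ) : Sm ms ≤ Sq ms := by
  induction ms using Multiset.induction_on with
  | empty => simp [Sq, Sm]
  | cons m ms ih =>
    rw [Sm_cons, Sq_cons]
    have h1 : m ≤ m ^ 2 := Nat.le_self_pow two_ne_zero m
    omega

/-- if all elements are at most `M` then `Sq ≤ M Sm` -/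
lemma Sq_le_mul_Sm {M : ℕ} {ms : Multiset ℕ} (h : ∀ m ∈ ms, m ≤ M) : Sq ms ≤ M * Sm ms := by
  induction ms using Multiset.induction_on with
  | empty => simp [Sq, Sm]
  | cons m ms ih =>
    rw [Sm_cons, Sq_cons, mul_add]
    have h1 := ih fun x hx => h x (Multiset.mem_cons_of_mem hx)
    have h2 : m ^ 2 ≤ M * m := by
      rw [pow_two]
      exact Nat.mul_le_mul_right m (h m (Multiset.mem_cons_self _ _))
    omega

end Pool.Agent.SG
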