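import Pool.Agent.SG.Dim

set_option autoImplicit false

/-!
# Module K1: the conditions of the collapsed group

`A_n` = space of the homogeneous components of degree `n` of the polynomials of degree `≤ n` with
multiplicities `gs` at general points, `dim A_n = hh n gs - hh (n-1) gs = hk gs (n+1) - hk gs n`
(kernel of `homogeneousComponent n` on degree `≤ n` is degree `≤ n - 1`), so
`0 ≤ dim A_n ≤ n + 1`, `cn gs n = n + 1 - dim A_n ∈ [0, n+1]`. Multiplication by `X 0`, `X 1` maps `A_n`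
to `A_(n+1)`, and `dim (X 0 A + X 1 A) ≥ dim A + 1` if `A ≠ 0` is a space of binary forms of degree `n`
(take `f ∈ A` not divisible by the highest possible... simply: `X 0 A` has dimension `dim A`; if
`X 1 A ≤ X 0 A` then every element of `A` is divisible by `X 0`, `A = X 0 A'`, `X 1 A' ≤ X 0 A'`, descent
in the degree).
So `cn gs (n+1) ≤ cn gs n` if `cn gs n < n + 1`, and `cn gs (n+1) / (n+2) ≤ cn gs n / (n+1)` always.
Dimensions in degrees `n-1, n, n+1` at ONE general configuration (`dim_generic`, `exists_ai`).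

`cn_lt`: `E n gs` gives `cn = n + 1`. `cn_ge`: regular in degrees `n` and `n - 1` gives `cn = 0`:
`C(n+2,2) - C(n+1,2) = n + 1` (`n ≥ b ≥ 1`).
`cn_sum`: `∑_(n < b) cn gs n = cd gs`: telescoping `∑ (n+1) - hk gs b`, `hk gs b = hh (b-1) gs =
C(b+1,2) - cd gs`, `kk b = C(b+1,2) = ∑_(n<b) (n+1)`.
-/

namespace Pool.Agent.SG

open MvPolynomial Pool.Agent.helper5.NBS Pool.Agent.helper89.Segre Pool.Agent.SH9
open Pool.Agent.helper25.ST

private lemma K1_fun (ms : Multiset ℕ) :
    ∃ (s : ℕ) (μ : Fin s → ℕ), ms = Finset.univ.val.map μ := by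
  induction ms using Quot.inductionOn with
  | _ l =>
    refine ⟨l.length, l.get, ?_⟩
    change (l : Multiset ℕ) = Multiset.map l.get (Finset.univ : Finset (Fin l.length)).val
    rw [Fin.univ_val_map, List.ofFn_get]

private lemma K1_cfg (gs : Multiset ℕ) : ∃ (r : ℕ) (m : Fin r → ℕ) (p : Fin r → Fin 2 → ℂ),
    gs = Finset.univ.val.map m ∧ ∀ d, Pool.Agent.helper9.Nag.hh d p m = hh d gs := by
  obtain ⟨r, m, hm⟩ := K1_fun gs
  choose Q hQ0 hQ using fun d : ℕ => dim_generic (d := d) m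
  obtain ⟨p, hp, -⟩ := exists_ai (Set.range Q) (Set.countable_range Q) (by
    rintro _ ⟨d, rfl⟩
    exact hQ0 d)
  exact ⟨r, m, p, hm, fun d => by rw [hm]; exact hQ d p (hp _ ⟨d, rfl⟩)⟩

section
variable {r : ℕ} (m : Fin r → ℕ) (p : Fin r → Fin 2 → ℂ)

/-- the leading forms at infinity -/
private noncomputable def K1A (n : ℕ) : Submodule ℂ R2 :=
  (Pool.Agent.helper9.Nag.HH n p m).map (homogeneousComponent n)

private lemma K1A_le (n : ℕ) : K1A m p n ≤ Pool.Agent.helper9.Nag.Hm n := by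
  rintro _ ⟨F, _, rfl⟩
  exact homogeneousComponent_mem n F

private lemma K1A_fin (n : ℕ) : Module.Finite ℂ (K1A m p n) := by
  have := Pool.Agent.helper9.Nag.finite_Hm n
  exact Submodule.finiteDimensional_of_le (K1A_le m p n)

private lemma K1A_finrank_le (n : ℕ) : Module.finrank ℂ (K1A m p n) ≤ n + 1 := by
  have := Pool.Agent.helper9.Nag.finite_Hm n
  have h := Submodule.finrank_mono (K1A_le m p n)
  rwa [Pool.Agent.helper9.Nag.finrank_Hm] at h

private lemma K1A_ker (n : ℕ) (K : Submodule ℂ R2)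
    (hK : ∀ F, F ∈ K ↔ F ∈ Pool.Agent.helper9.Nag.HH n p m ∧ homogeneousComponent n F = 0) :
    Module.finrank ℂ (K1A m p n) + Module.finrank ℂ K = Pool.Agent.helper9.Nag.hh n p m := by
  have hfin := Pool.Agent.helper9.Nag.finite_HH n p m
  set g := (homogeneousComponent (R := ℂ) (σ := Fin 2) n).domRestrict
    (Pool.Agent.helper9.Nag.HH n p m) with hg
  have h1 := LinearMap.finrank_range_add_finrank_ker g
  have h2 : LinearMap.range g = K1A m p n := by
    rw [hg, LinearMap.range_domRestrict]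
    rfl
  have h3 : (LinearMap.ker g).map (Pool.Agent.helper9.Nag.HH n p m).subtype = K := by
    ext F
    rw [Submodule.mem_map, hK]
    constructor
    · rintro ⟨G, hG, rfl⟩
      exact ⟨G.2, hG⟩
    · rintro ⟨hF, h0⟩
      exact ⟨⟨F, hF⟩, h0, rfl⟩
  rw [← h3, Submodule.finrank_map_subtype_eq, ← h2, h1]
  rfl

private lemma K1_hc {n : ℕ} {F : R2} (h : wdeg 1 F ≤ n) :
    homogeneousComponent n F = 0 ↔ ∀ u : Fin 2 →₀ ℕ, n ≤ u.degree → coeff u F = 0 := by
  classical
  rw [Pool.Agent.helper9.Nag.wdeg_le] at h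
  constructor
  · intro h0 u hu
    rcases Nat.lt_or_ge n u.degree with h1 | h1
    · exact h u h1
    · have h2 : u.degree = n := by omega
      have h3 := congrArg (coeff u) h0
      rwa [coeff_homogeneousComponent, if_pos h2, coeff_zero] at h3
  · intro h0
    ext u
    rw [coeff_homogeneousComponent, coeff_zero]
    split_ifs with h2
    · exact h0 u (by omega)
    · rfl

private lemma K1A_zero : Module.finrank ℂ (K1A m p 0) = Pool.Agent.helper9.Nag.hh 0 p m := by
  have h := K1A_ker m p 0 ⊥ (by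
    intro F
    rw [Submodule.mem_bot]
    constructor
    · rintro rfl
      exact ⟨zero_mem _, map_zero _⟩
    · rintro ⟨hF, h0⟩
      rw [Pool.Agent.helper9.Nag.mem_HH] at hF
      rw [K1_hc hF.1] at h0
      ext u
      rw [h0 u (Nat.zero_le _), coeff_zero])
  rwa [finrank_bot, add_zero] at h

private lemma K1A_succ (n : ℕ) : Module.finrank ℂ (K1A m p (n + 1)) +
    Pool.Agent.helper9.Nag.hh n p m = Pool.Agent.helper9.Nag.hh (n + 1) p m := by
  refine K1A_ker m p (n + 1) (Pool.Agent.helper9.Nag.HH n p m) ?_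
  intro F
  rw [Pool.Agent.helper9.Nag.mem_HH, Pool.Agent.helper9.Nag.mem_HH]
  constructor
  · rintro ⟨h1, h2⟩
    have h3 : wdeg 1 F ≤ n + 1 := by omega
    refine ⟨⟨h3, h2⟩, (K1_hc h3).mpr fun u hu => ?_⟩
    exact (Pool.Agent.helper9.Nag.wdeg_le.mp h1) u (by omega)
  · rintro ⟨⟨h1, h2⟩, h0⟩
    refine ⟨Pool.Agent.helper9.Nag.wdeg_le.mpr fun u hu => ?_, h2⟩
    exact (K1_hc h1).mp h0 u (by omega)

private lemma K1_X_mem (i : Fin 2) (n : ℕ) {f : R2} (hf : f ∈ K1A m p n) :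
    X i * f ∈ K1A m p (n + 1) := by
  classical
  obtain ⟨F, hF, rfl⟩ := hf
  refine ⟨X i * F, ?_, ?_⟩
  · change F ∈ Pool.Agent.helper9.Nag.HH n p m at hF
    change X i * F ∈ Pool.Agent.helper9.Nag.HH (n + 1) p m
    rw [Pool.Agent.helper9.Nag.mem_HH] at hF ⊢
    refine ⟨Pool.Agent.helper9.Nag.wdeg_le.mpr fun u hu => ?_, fun j =>
      Ideal.mul_mem_left _ _ (hF.2 j)⟩
    rw [coeff_X_mul']
    split_ifs with hi
    · apply (Pool.Agent.helper9.Nag.wdeg_le.mp hF.1)
      have h3 : (u - Finsupp.single i 1 + Finsupp.single i 1) = u := by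
        apply tsub_add_cancel_of_le
        rw [Finsupp.single_le_iff]
        exact Nat.one_le_iff_ne_zero.mpr (Finsupp.mem_support_iff.mp hi)
      have h4 : u.degree = (u - Finsupp.single i 1).degree + 1 := by
        conv_lhs => rw [← h3]
        rw [map_add, Finsupp.degree_single]
      omega
    · rfl
  · exact Pool.Agent.helper9.Nag.hc_X_mul n i F

private lemma K1_grow (n : ℕ) (h : K1A m p n ≠ ⊥) :
    Module.finrank ℂ (K1A m p n) + 1 ≤ Module.finrank ℂ (K1A m p (n + 1)) := by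
  classical
  by_contra hlt
  have hfin := K1A_fin m p (n + 1)
  have hinj : Function.Injective (LinearMap.mulLeft ℂ (X 0 : R2)) := by
    intro a b hab
    exact mul_left_cancel₀ (X_ne_zero 0) hab
  set A0 := (K1A m p n).map (LinearMap.mulLeft ℂ (X 0 : R2)) with hA0
  have hle : A0 ≤ K1A m p (n + 1) := by
    rintro _ ⟨f, hf, rfl⟩
    exact K1_X_mem m p 0 n hf
  have hr : Module.finrank ℂ A0 = Module.finrank ℂ (K1A m p n) :=
    (LinearEquiv.finrank_eq (Submodule.equivMapOfInjective _ hinj (K1A m p n))).symm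
  have heq : A0 = K1A m p (n + 1) := Submodule.eq_of_le_of_finrank_le hle
    (by rw [hr]; exact Nat.le_of_lt_succ (not_le.mp hlt))
  have hstep : ∀ f ∈ K1A m p n, ∃ g ∈ K1A m p n, X 1 * f = X 0 * g := by
    intro f hf
    have h1 := K1_X_mem m p 1 n hf
    rw [← heq] at h1
    obtain ⟨g, hg, hg2⟩ := h1
    exact ⟨g, hg, hg2.symm⟩
  have hall : ∀ k : ℕ, ∀ f ∈ K1A m p n, ∀ u : Fin 2 →₀ ℕ, u 0 < k → coeff u f = 0 := by
    intro k
    induction k with
    | zero => intro f _ u hu; omega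
    | succ k ih =>
      intro f hf u hu
      obtain ⟨g, hg, hfg⟩ := hstep f hf
      have h1 : coeff (Finsupp.single 1 1 + u) (X 1 * f) = coeff u f := coeff_X_mul u 1 f
      rw [← h1, hfg, coeff_X_mul']
      split_ifs with hi
      · apply ih g hg
        have h2 : (Finsupp.single (1 : Fin 2) 1 + u - Finsupp.single (0 : Fin 2) 1 : Fin 2 →₀ ℕ) 0 =
            u 0 - 1 := by
          simp
        have h3 : (Finsupp.single (1 : Fin 2) 1 + u : Fin 2 →₀ ℕ) 0 ≠ 0 :=
          Finsupp.mem_support_iff.mp hi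
        have h4 : (Finsupp.single (1 : Fin 2) 1 + u : Fin 2 →₀ ℕ) 0 = u 0 := by
          simp
        rw [h4] at h3
        rw [h2]
        omega
      · rfl
  apply h
  rw [Submodule.eq_bot_iff]
  intro f hf
  ext u
  rw [hall (u 0 + 1) f hf u (by omega), coeff_zero]

end

/-- `cn gs n = n + 1 - dim A_n`, `dim A_n ≤ n + 1`, `dim A_(n+1) ≥ dim A_n + 1` if `A_n ≠ 0` -/
private lemma K1_main (gs : Multiset ℕ) : ∃ α : ℕ → ℕ, (∀ n, cn gs n = (n : ℝ) + 1 - (α n : ℝ)) ∧
    (∀ n, α n ≤ n + 1) ∧ ∀ n, α n ≠ 0 → α n + 1 ≤ α (n + 1) := by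
  obtain ⟨r, m, p, -, hp⟩ := K1_cfg gs
  refine ⟨fun n => Module.finrank ℂ (K1A m p n), ?_, K1A_finrank_le m p, ?_⟩
  · intro n
    cases n with
    | zero =>
      have h1 := K1A_zero m p
      rw [hp] at h1
      rw [cn, hk, hk, if_neg (by omega), if_pos rfl]
      change _ = ((0 : ℕ) : ℝ) + 1 - ((Module.finrank ℂ (K1A m p 0) : ℕ) : ℝ)
      rw [h1]
      simp
    | succ n =>
      have h1 := K1A_succ m p n
      rw [hp, hp] at h1
      have h2 : ((Module.finrank ℂ (K1A m p (n + 1)) : ℕ) : ℝ) + (hh n gs : ℝ) =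
          (hh (n + 1) gs : ℝ) := by exact_mod_cast h1
      rw [cn, hk, hk, if_neg (by omega), if_neg (by omega), Nat.add_sub_cancel,
        Nat.add_sub_cancel]
      linarith
  · intro n hn
    apply K1_grow
    intro h0
    apply hn
    change Module.finrank ℂ (K1A m p n) = 0
    rw [h0, finrank_bot]

private lemma K1_choose (n : ℕ) : (((n + 2).choose 2 : ℕ) : ℝ) =
    (((n + 1).choose 2 : ℕ) : ℝ) + ((n : ℝ) + 1) := by
  have h : (n + 2).choose 2 = (n + 1).choose 1 + (n + 1).choose 2 := Nat.choose_succ_succ _ _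
  rw [h, Nat.choose_one_right]
  push_cast
  ring

theorem cn_nonneg (gs : Multiset ℕ) (n : ℕ) : 0 ≤ cn gs n := by
  obtain ⟨α, h1, h2, -⟩ := K1_main gs
  rw [h1]
  have h3 : (α n : ℝ) ≤ (n : ℝ) + 1 := by exact_mod_cast h2 n
  linarith

theorem cn_le (gs : Multiset ℕ) (n : ℕ) : cn gs n ≤ (n : ℝ) + 1 := by
  obtain ⟨α, h1, -, -⟩ := K1_main gs
  rw [h1]
  have h3 : (0 : ℝ) ≤ (α n : ℝ) := Nat.cast_nonneg _
  linarith

theorem cn_anti (gs : Multiset ℕ) (n : ℕ) :
    cn gs (n + 1) / ((n : ℝ) + 2) ≤ cn gs n / ((n : ℝ) + 1) := by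
  obtain ⟨α, h1, h2, h3⟩ := K1_main gs
  have hn : (0 : ℝ) ≤ (n : ℝ) := Nat.cast_nonneg _
  rw [h1, h1, div_le_div_iff₀ (by linarith) (by linarith)]
  push_cast
  by_cases h0 : α n = 0
  · rw [h0]
    have h4 : (0 : ℝ) ≤ (α (n + 1) : ℝ) := Nat.cast_nonneg _
    push_cast
    nlinarith
  · have h4 : (α n : ℝ) + 1 ≤ (α (n + 1) : ℝ) := by exact_mod_cast h3 n h0
    have h5 : (α n : ℝ) ≤ (n : ℝ) + 1 := by exact_mod_cast h2 n
    nlinarith

theorem cn_lt {gs : Multiset ℕ} {a b n : ℕ} (h : Zone gs a b) (hn : n < a) :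
    cn gs n = (n : ℝ) + 1 := by
  have h1 : ∀ k, k < a → hh k gs = 0 := fun k hk => hh_eq_zero_iff.mpr (h.emp k hk)
  have h2 : hk gs (n + 1) = 0 := by
    rw [hk, if_neg (by omega), Nat.add_sub_cancel, h1 n hn]
  have h3 : hk gs n = 0 := by
    rw [hk]
    split_ifs
    · rfl
    · exact h1 _ (by omega)
  rw [cn, h2, h3]
  simp

theorem cn_ge {gs : Multiset ℕ} {a b n : ℕ} (h : Zone gs a b) (hn : b ≤ n) :
    cn gs n = 0 := by
  have hb := h.hb
  obtain ⟨k, rfl⟩ : ∃ k, n = k + 1 := ⟨n - 1, by omega⟩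
  have h1 := h.reg (k + 1) (by omega)
  have h2 := h.reg k hn
  rw [cn, hk, hk, if_neg (by omega), if_neg (by omega), Nat.add_sub_cancel, Nat.add_sub_cancel,
    h1, h2, vv, vv, K1_choose (k + 1)]
  push_cast
  ring

theorem cn_sum {gs : Multiset ℕ} {a b : ℕ} (h : Zone gs a b) :
    ∑ n ∈ Finset.range b, cn gs n = (cd gs : ℕ) := by
  have h1 : ∀ c : ℕ, ∑ n ∈ Finset.range c, cn gs n =
      (((c + 1).choose 2 : ℕ) : ℝ) - (hk gs c : ℝ) := by
    intro c
    induction c with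
    | zero => simp [hk]
    | succ c ih =>
      rw [Finset.sum_range_succ, ih, cn, K1_choose c]
      ring
  have hb := h.hb
  obtain ⟨k, rfl⟩ : ∃ k, b = k + 1 := ⟨b - 1, by omega⟩
  rw [h1, hk, if_neg (by omega), Nat.add_sub_cancel, h.reg k le_rfl, vv]
  ring

end Pool.Agent.SG
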