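import Pool.Agent.SG.NefE

set_option autoImplicit false

/-!
# Module LZBig: the zone of a group of comparable multiplicities, large multiplicities

`N = card gs`, `N W / 2 ≤ Sm ≤ N W`, `N W^2 / 4 ≤ Sq ≤ N W^2`, `S1 = Sm + N ≤ 2 Sm ≤ 2 N W`,
`2 cd = Sq + Sm` (`two_cd'`). `C W^2 ≤ N^(a+2)` with `C` large gives `N ≥ N0` (any constant) and
`N^(a+2) ≥ (2 * 8^a * C0)^2 W^2`, i.e. `N * sqrt N ^ a ≥ 2 * 8^a * C0 * W`.
Upper end: `n0` = smallest `n` with `cd + S1 ≤ C(n+2,2)`, `b = n0 + 1` (`kk b = C(n0+2,2)`,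
`Nat.find`). `(n0+2)^2 ≥ Sq ≥ N W^2/4`, so `n0 ≥ sqrt N * W / 4` (`N ≥ N0`); minimality:
`n0 (n0+1) < 2 cd + 2 S1 ≤ 6 Sq`. `regN` (`f = 6`, filter = everything) in degree `n0`:
`C0 W^(a+2) ≤ (N W / 2) (sqrt N W / 4)^a`. `reg_deg` for `n ≥ n0`. `kk b ≤ cd + S1 + b`.
Lower end: `n1` = largest `n` with `(n+1)^2 + S1 ≤ Sq`, `a' = n1 + 1`. `empN` (`f = 1`, `A = 2`,
`X = S1`) in degree `n1`, `E_deg` for `n ≤ n1`. `(a'+1)^2 + S1 > Sq`, so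
`2 kk a' ≥ Sq - S1 - a' - 1`, `cd - kk a' ≤ (Sm + S1 + a' + 1)/2`.
So `kk b - kk a' ≤ Z := 12 N W` (`a' ≤ sqrt N W ≤ N W`, `b ≤ 3 sqrt N W + 2`). `nL` = largest with
`kk nL + 2Z ≤ kk a'`, `nR` = smallest with `kk b + 2 Z ≤ kk nR`; `kk nR - kk nL ≤ 5 Z + nR + nL + 2 ≤
100 N W`. With `W ≥ W0`: `N W ≤ 4 Sq / W` is tiny compared with `Sq`, and so are `nL`, `nR`, `a'`, `b`:
`nL^2 ≥ 0.8 Sq`, `nR^2 ≤ 1.2 Sq`.
-/

namespace Pool.Agent.SG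

open MvPolynomial Pool.Agent.helper5.NBS Pool.Agent.helper89.Segre Pool.Agent.SH9
open Pool.Agent.helper25.ST

private lemma lz_last (p : ℕ → Prop) (h0 : p 0) (h : ∃ n, ¬ p n) : ∃ n, p n ∧ ¬ p (n + 1) := by
  by_contra hcon
  push Not at hcon
  obtain ⟨n, hn⟩ := h
  exact hn (Nat.rec h0 (fun k hk => hcon k hk) n)

private lemma lz_le {k n c N W : ℕ} (h : n * n ≤ c * (N * W ^ 2)) (hN : k ^ 2 * c ≤ N) :
    k * n ≤ N * W := by
  have h1 : (k * n) ^ 2 ≤ (N * W) ^ 2 := by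
    calc (k * n) ^ 2 = k ^ 2 * (n * n) := by ring
      _ ≤ k ^ 2 * (c * (N * W ^ 2)) := Nat.mul_le_mul_left _ h
      _ = (k ^ 2 * c) * (N * W ^ 2) := by ring
      _ ≤ N * (N * W ^ 2) := Nat.mul_le_mul_right _ hN
      _ = (N * W) ^ 2 := by ring
  exact (Nat.pow_le_pow_iff_left two_ne_zero).1 h1

private lemma lz_pow {a C0 K N W T n : ℕ} (hK : C0 ≤ K) (hK1 : 1 ≤ K)
    (hC : (64 * K ^ 2) ^ (a + 2) * W ^ 2 ≤ N ^ (a + 2)) (hT : N * W ≤ 2 * T)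
    (hn : N * W ^ 2 ≤ 16 * n ^ 2) : C0 * W ^ (a + 2) ≤ T * n ^ a := by
  have h0 : 4 * 16 ^ a * C0 ^ 2 ≤ (64 * K ^ 2) ^ (a + 2) := by
    have h1 : (16 : ℕ) ^ a ≤ (64 * K ^ 2) ^ a := by
      apply Nat.pow_le_pow_left
      have : 1 ≤ K ^ 2 := Nat.one_le_pow _ _ hK1
      omega
    have h2 : 4 * C0 ^ 2 ≤ (64 * K ^ 2) ^ 2 := by
      have h3 : C0 ^ 2 ≤ K ^ 2 := Nat.pow_le_pow_left hK 2
      have h4 : 1 ≤ K ^ 2 := Nat.one_le_pow _ _ hK1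
      nlinarith
    calc 4 * 16 ^ a * C0 ^ 2 = 16 ^ a * (4 * C0 ^ 2) := by ring
      _ ≤ (64 * K ^ 2) ^ a * (64 * K ^ 2) ^ 2 := Nat.mul_le_mul h1 h2
      _ = (64 * K ^ 2) ^ (a + 2) := by rw [pow_add]
  have h1 : 4 * 16 ^ a * (C0 * W ^ (a + 2)) ^ 2 ≤ 4 * 16 ^ a * (T * n ^ a) ^ 2 := by
    calc 4 * 16 ^ a * (C0 * W ^ (a + 2)) ^ 2
        = (4 * 16 ^ a * C0 ^ 2) * (W ^ (a + 2)) ^ 2 := by ring
      _ ≤ (64 * K ^ 2) ^ (a + 2) * (W ^ (a + 2)) ^ 2 := Nat.mul_le_mul_right _ h0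
      _ = ((64 * K ^ 2) ^ (a + 2) * W ^ 2) * (W ^ 2) ^ (a + 1) := by ring
      _ ≤ N ^ (a + 2) * (W ^ 2) ^ (a + 1) := Nat.mul_le_mul_right _ hC
      _ = (N * W) ^ 2 * (N * W ^ 2) ^ a := by ring
      _ ≤ (2 * T) ^ 2 * (16 * n ^ 2) ^ a :=
          Nat.mul_le_mul (Nat.pow_le_pow_left hT 2) (Nat.pow_le_pow_left hn a)
      _ = 4 * 16 ^ a * (T * n ^ a) ^ 2 := by ring
  have h2 : (C0 * W ^ (a + 2)) ^ 2 ≤ (T * n ^ a) ^ 2 :=
    Nat.le_of_mul_le_mul_left h1 (by positivity)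
  exact (Nat.pow_le_pow_iff_left two_ne_zero).1 h2

private lemma lz_bounds {W : ℕ} {gs : Multiset ℕ} (h : ∀ m ∈ gs, W < 2 * m ∧ m ≤ W) :
    Multiset.card gs * W ≤ 2 * Sm gs ∧ Sm gs ≤ Multiset.card gs * W ∧
    Multiset.card gs * W ^ 2 ≤ 4 * Sq gs ∧ Sq gs ≤ Multiset.card gs * W ^ 2 ∧
    Multiset.card gs ≤ Sm gs := by
  induction gs using Multiset.induction_on with
  | empty => simp [Sm, Sq]
  | cons m gs ih =>
    obtain ⟨i1, i2, i3, i4, i5⟩ := ih (fun x hx => h x (Multiset.mem_cons_of_mem hx))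
    obtain ⟨h1, h2⟩ := h m (Multiset.mem_cons_self _ _)
    have h3 : W ^ 2 ≤ 4 * m ^ 2 := by
      calc W ^ 2 ≤ (2 * m) ^ 2 := Nat.pow_le_pow_left h1.le 2
        _ = 4 * m ^ 2 := by ring
    have h4 : m ^ 2 ≤ W ^ 2 := Nat.pow_le_pow_left h2 2
    rw [Sm_cons, Sq_cons, Multiset.card_cons]
    refine ⟨?_, ?_, ?_, ?_, ?_⟩
    · rw [Nat.add_mul]; omega
    · rw [Nat.add_mul]; omega
    · rw [Nat.add_mul]; omega
    · rw [Nat.add_mul]; omega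
    · omega

private lemma lz_sq50 (n : ℕ) : 100 * n ≤ n * n + 2500 := by
  zify
  nlinarith [sq_nonneg ((n : ℤ) - 50)]

private lemma lz_n0 {P S s T c : ℕ} (hs : s ≤ P) (hT : T ≤ 2 * P) (hT0 : 1 ≤ T)
    (hc : 2 * c = S + s) :
    ∃ n0 : ℕ, kk n0 < c + T ∧ c + T ≤ kk (n0 + 1) ∧ n0 * n0 + n0 < S + 5 * P ∧
      S ≤ n0 * n0 + 4 * n0 + 4 := by
  obtain ⟨n0, h1, h2⟩ := lz_last (fun n => kk n < c + T)
    (by have := two_mul_kk 0; omega)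
    ⟨c + T, by have := two_mul_kk (c + T); push Not; nlinarith⟩
  simp only [not_lt] at h1 h2
  have k0 := two_mul_kk n0
  have k0' := two_mul_kk (n0 + 1)
  have k0'' : (n0 + 1) * (n0 + 1) = n0 * n0 + 2 * n0 + 1 := by ring
  rw [k0''] at k0'
  refine ⟨n0, h1, h2, ?_, ?_⟩
  · generalize n0 * n0 = x at *
    omega
  · generalize n0 * n0 = x at *
    omega

private lemma lz_n1 {P S T : ℕ} (hP : 100000 ≤ P) (hS : 750 * P ≤ S) (hT : T ≤ 2 * P) :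
    ∃ n1 : ℕ, n1 * n1 + 2 * n1 + 1 + T ≤ S ∧ S < n1 * n1 + 4 * n1 + 4 + T ∧
      S ≤ 2 * (n1 * n1) := by
  obtain ⟨n1, h3, h4⟩ := lz_last (fun n => n * n + 2 * n + 1 + T ≤ S) (by omega)
    ⟨S, by push Not; nlinarith⟩
  simp only [not_le] at h3 h4
  have k1' : (n1 + 1) * (n1 + 1) = n1 * n1 + 2 * n1 + 1 := by ring
  rw [k1'] at h4
  clear k1'
  have e3 := lz_sq50 n1
  refine ⟨n1, h3, ?_, ?_⟩
  · generalize n1 * n1 = x at *
    omega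
  · generalize n1 * n1 = x at *
    omega

private lemma lz_nL {P S T n1 : ℕ} (hP : 100000 ≤ P) (hS : 750 * P ≤ S) (hT : T ≤ 2 * P)
    (h1 : S < n1 * n1 + 4 * n1 + 4 + T) (h2 : n1 * n1 + 2 * n1 + 1 + T ≤ S) :
    ∃ nL : ℕ, kk nL + 24 * P ≤ kk (n1 + 1) ∧ kk (n1 + 1) < kk (nL + 1) + 24 * P ∧
      S ≤ 2 * (nL * nL) := by
  have e3 := lz_sq50 n1
  have k1 := two_mul_kk (n1 + 1)
  have k1' : (n1 + 1) * (n1 + 1) = n1 * n1 + 2 * n1 + 1 := by ring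
  rw [k1'] at k1
  obtain ⟨nL, h5, h6⟩ := lz_last (fun n => kk n + 24 * P ≤ kk (n1 + 1))
    (by
      have := two_mul_kk 0
      generalize n1 * n1 = x at *
      omega) ⟨n1 + 1, by omega⟩
  simp only [not_le] at h5 h6
  have kL := two_mul_kk (nL + 1)
  have kL' : (nL + 1) * (nL + 1) = nL * nL + 2 * nL + 1 := by ring
  rw [kL'] at kL
  have e6 := lz_sq50 nL
  refine ⟨nL, h5, h6, ?_⟩
  generalize kk (n1 + 1) = u at *
  generalize kk (nL + 1) = v at *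
  generalize n1 * n1 = x at *
  generalize nL * nL = y at *
  have h7 : x + 3 * n1 + 2 < y + 3 * nL + 2 + 48 * P := by omega
  have h8 : S < y + 3 * nL + 49 * P + n1 + 6 + T := by omega
  have h9 : 100 * n1 ≤ S + 2500 := by omega
  by_contra hcon
  push Not at hcon
  omega

private lemma lz_r {P S n0 : ℕ} (hP : 100000 ≤ P) (hS : 750 * P ≤ S)
    (h1 : n0 * n0 + n0 < S + 5 * P) :
    ∃ r : ℕ, kk r < kk (n0 + 1) + 24 * P ∧ kk (n0 + 1) + 24 * P ≤ kk (r + 1) ∧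
      r * r + 2 * r + 1 ≤ 3 * S ∧ r * r ≤ 2 * S := by
  obtain ⟨r, h7, h8⟩ := lz_last (fun n => kk n < kk (n0 + 1) + 24 * P)
    (by have := two_mul_kk 0; omega)
    ⟨kk (n0 + 1) + 24 * P, by
      have := two_mul_kk (kk (n0 + 1) + 24 * P)
      push Not; nlinarith⟩
  simp only [not_lt] at h7 h8
  have kr := two_mul_kk r
  have e7 := lz_sq50 r
  have e5 := lz_sq50 n0
  have k0' := two_mul_kk (n0 + 1)
  have k0'' : (n0 + 1) * (n0 + 1) = n0 * n0 + 2 * n0 + 1 := by ring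
  rw [k0''] at k0'
  refine ⟨r, h7, h8, ?_⟩
  generalize kk (n0 + 1) = u at *
  generalize kk r = v at *
  generalize n0 * n0 = x at *
  generalize r * r = y at *
  have h9 : y + r < x + 3 * n0 + 2 + 48 * P := by omega
  have h10 : 100 * n0 ≤ S + 5 * P + 2500 := by omega
  have h11 : y ≤ 2 * S := by omega
  exact ⟨by omega, h11⟩
/-- the numbers: `P = N W`, `S = Sq`, `s = Sm`, `T = S1`, `c = cd` -/
private lemma lz_num {P S s T c : ℕ} (hP : 100000 ≤ P) (hS : 750 * P ≤ S) (hs : s ≤ P)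
    (hT : T ≤ 2 * P) (hT0 : 1 ≤ T) (hc : 2 * c = S + s) :
    ∃ n0 n1 nL r : ℕ, kk n0 < c + T ∧ c + T ≤ kk (n0 + 1) ∧
      n1 * n1 + 2 * n1 + 1 + T ≤ S ∧ S < n1 * n1 + 4 * n1 + 4 + T ∧
      kk nL + 24 * P ≤ kk (n1 + 1) ∧ kk (n1 + 1) < kk (nL + 1) + 24 * P ∧
      kk r < kk (n0 + 1) + 24 * P ∧ kk (n0 + 1) + 24 * P ≤ kk (r + 1) ∧
      S ≤ 2 * (n1 * n1) ∧ S ≤ 2 * (nL * nL) ∧ r * r + 2 * r + 1 ≤ 3 * S ∧
      S ≤ n0 * n0 + 4 * n0 + 4 ∧ n0 * n0 + n0 < S + 5 * P ∧ r * r ≤ 2 * S := by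
  obtain ⟨n0, h1, h2, h3, h4⟩ := lz_n0 hs hT hT0 hc
  obtain ⟨n1, i1, i2, i3⟩ := lz_n1 hP hS hT
  obtain ⟨nL, j1, j2, j3⟩ := lz_nL hP hS hT i2 i1
  obtain ⟨r, l1, l2, l3, l4⟩ := lz_r hP hS h3
  exact ⟨n0, n1, nL, r, h1, h2, i1, i2, j1, j2, l1, l2, i3, j3, l3, h4, h3, l4⟩

private lemma kk_mono' {m n : ℕ} (h : kk m ≤ kk n) : m ≤ n := by
  by_contra hcon
  push Not at hcon
  have h1 := two_mul_kk m
  have h2 := two_mul_kk n
  nlinarith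

private lemma lz_pos {P S n : ℕ} (hP : 100000 ≤ P) (hS : 750 * P ≤ S) (h : S ≤ 2 * (n * n)) :
    1 ≤ n := by
  rcases Nat.eq_zero_or_pos n with h0 | h0
  · exfalso
    rw [h0] at h
    omega
  · exact h0

theorem lzBig {a : ℕ} (h : NN a) : ∃ W0 C : ℕ, ∀ (W : ℕ) (gs : Multiset ℕ), 1 ≤ W → W0 ≤ W →
    (∀ m ∈ gs, W < 2 * m ∧ m ≤ W) → C * W ^ 2 ≤ Multiset.card gs ^ (a + 2) →
    ∃ nL nR : ℕ, Win gs nL nR (100 * (Multiset.card gs : ℝ) * W) ∧ 1 ≤ nL ∧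
      Sq gs ≤ 2 * nL ^ 2 ∧ nR ^ 2 ≤ 3 * Sq gs := by
  obtain ⟨C0, hC0, hreg⟩ := regN h 6
  obtain ⟨C1, hC1, hemp⟩ := empN h 1 2
  obtain ⟨K, hKdef⟩ : ∃ K : ℕ, K = C0 + C1 + 2 := ⟨_, rfl⟩
  refine ⟨3000, (64 * K ^ 2) ^ (a + 2), fun W gs hW hW0 hm hC => ?_⟩
  obtain ⟨N, hN⟩ : ∃ N : ℕ, N = Multiset.card gs := ⟨_, rfl⟩
  obtain ⟨b1, b2, b3, b4, b5⟩ := lz_bounds hm
  rw [← hN] at hC b1 b2 b3 b4 b5
  have hfil : gs.filter (fun m => m ≤ W) = gs :=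
    Multiset.filter_eq_self.2 fun m hm' => (hm m hm').2
  have hK1 : 1 ≤ K := by omega
  have hNK : 64 * K ^ 2 ≤ N := by
    have h1 : (64 * K ^ 2) ^ (a + 2) ≤ N ^ (a + 2) := by
      refine le_trans ?_ hC
      exact Nat.le_mul_of_pos_right _ (by positivity)
    exact (Nat.pow_le_pow_iff_left (by omega)).1 h1
  have hN256 : 256 ≤ N := by
    have : 2 ^ 2 ≤ K ^ 2 := Nat.pow_le_pow_left (by omega) 2
    omega
  obtain ⟨P, hP⟩ : ∃ P : ℕ, P = N * W := ⟨_, rfl⟩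
  have hS1 : S1 gs = Sm gs + N := by rw [S1_eq, hN]
  have hcd : 2 * cd gs = Sq gs + Sm gs := two_cd' gs
  have hPbig : 100000 ≤ P := by
    rw [hP]
    calc 100000 ≤ 256 * 3000 := by norm_num
      _ ≤ N * W := Nat.mul_le_mul hN256 hW0
  have hPW : P * W = N * W ^ 2 := by rw [hP]; ring
  have hS750 : 750 * P ≤ Sq gs := by
    have h1 : P * 3000 ≤ P * W := Nat.mul_le_mul_left _ hW0
    generalize N * W ^ 2 = x at *
    omega
  rw [← hP] at b1 b2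
  have hT2 : S1 gs ≤ 2 * P := by omega
  have hT1 : P ≤ 2 * S1 gs := by omega
  obtain ⟨n0, n1, nL, r, q1, q2, q3, q4, q5, q6, q7, q8, q9, q10, q11, q12, q13, q14⟩ :=
    lz_num hPbig hS750 b2 hT2 (by omega) hcd
  obtain ⟨D, hD⟩ : ∃ D : ℕ, D = N * W ^ 2 := ⟨_, rfl⟩
  obtain ⟨S, hS⟩ : ∃ S : ℕ, S = Sq gs := ⟨_, rfl⟩
  have hD1 : D ≤ 4 * S := by rw [hD, hS]; exact b3
  have hD2 : S ≤ D := by rw [hD, hS]; exact b4
  rw [← hS] at hS750 q3 q4 q9 q10 q11 q12 q13 q14 hcd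
  -- lower bounds for `n0`, `n1`
  have hn0 : D ≤ 16 * (n0 * n0) := by
    have h1 := lz_sq50 n0
    clear hC hNK q1 q2 q3 q4 q5 q6 q7 q8 q9 q10 q11
    generalize n0 * n0 = x at *
    omega
  have hn1 : D ≤ 16 * (n1 * n1) := by
    clear hC hNK q1 q2 q3 q4 q5 q6 q7 q8 q10 q11 q12 q13
    generalize n1 * n1 = x at *
    omega
  have hn0' : N * W ^ 2 ≤ 16 * n0 ^ 2 := by rw [← hD, sq n0]; exact hn0
  have hn1' : N * W ^ 2 ≤ 16 * n1 ^ 2 := by rw [← hD, sq n1]; exact hn1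
  have hKn : ∀ n : ℕ, N * W ^ 2 ≤ 16 * n ^ 2 → K * W ≤ n := by
    intro n hn
    have h1 : 16 * (K * W) ^ 2 ≤ 16 * n ^ 2 := by
      calc 16 * (K * W) ^ 2 = (16 * K ^ 2) * W ^ 2 := by ring
        _ ≤ N * W ^ 2 := Nat.mul_le_mul_right _ (by omega)
        _ ≤ 16 * n ^ 2 := hn
    exact (Nat.pow_le_pow_iff_left two_ne_zero).1 (Nat.le_of_mul_le_mul_left h1 (by norm_num))
  have hKn0 := hKn n0 hn0'
  have hKn1 := hKn n1 hn1'
  have hC0n0 : C0 * W ≤ n0 := le_trans (Nat.mul_le_mul_right _ (by omega)) hKn0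
  have hC1n1 : C1 * W ≤ n1 := le_trans (Nat.mul_le_mul_right _ (by omega)) hKn1
  have hP2 : N * W ≤ 2 * S1 gs := by rw [← hP]; exact hT1
  -- regular in degree `n0`
  have hR : (hh n0 gs : ℝ) = vv n0 gs := by
    refine hreg n0 W gs hW hC0n0 (fun m hm' => le_trans (Nat.mul_le_mul_left _ (hm m hm').2) hC0n0)
      ?_ ?_ ?_
    · rw [hfil, ← hS, sq]
      clear hC hNK q1 q2 q3 q4 q5 q6 q7 q8 q9 q10 q11 q12 hKn
      generalize n0 * n0 = x at *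
      omega
    · calc C0 * W ^ (a + 2) ≤ S1 gs * n0 ^ a := lz_pow (by omega) hK1 hC hP2 hn0'
        _ ≤ (S1 gs + n0) * n0 ^ a := Nat.mul_le_mul_right _ (Nat.le_add_right _ _)
    · have h1 : cd gs + S1 gs ≤ (n0 + 2).choose 2 := q2
      have h2 : ((cd gs : ℕ) : ℝ) + ((S1 gs : ℕ) : ℝ) ≤ (((n0 + 2).choose 2 : ℕ) : ℝ) := by
        exact_mod_cast h1
      unfold vv
      linarith
  -- empty in degree `n1`
  have hE : E n1 gs := by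
    refine hemp n1 W (S1 gs) gs hW hC1n1
      (fun m hm' => le_trans (Nat.mul_le_mul_left _ (hm m hm').2) hC1n1) ?_ ?_ ?_ ?_
    · rw [hfil, ← hS, sq, one_mul]
      clear hC hNK q1 q2 q4 q5 q6 q7 q8 q9 q10 q11 q12 q13 hKn
      generalize n1 * n1 = x at *
      omega
    · rw [← hS, sq]
      exact q9
    · exact lz_pow (by omega) hK1 hC hP2 hn1'
    · rw [← hS, sq]
      clear hC hNK q1 q2 q4 q5 q6 q7 q8 q9 q10 q11 q12 q13 hKn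
      generalize n1 * n1 = x at *
      omega
  -- sizes
  have s1 : 2 * (n0 + 1) ≤ P := by
    rw [hP]
    refine lz_le (c := 8) ?_ (by omega)
    rw [← hD]
    have h1 : (n0 + 1) * (n0 + 1) = n0 * n0 + 2 * n0 + 1 := by ring
    have h2 := lz_sq50 n0
    rw [h1]
    clear h1 hC hNK q1 q2 q3 q4 q5 q6 q7 q8 q9 q10 q11 q12 hKn hn0 hn1
    generalize n0 * n0 = x at *
    omega
  have s2 : 2 * (n1 + 2) ≤ P := by
    rw [hP]
    refine lz_le (c := 8) ?_ (by omega)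
    rw [← hD]
    have h1 : (n1 + 2) * (n1 + 2) = n1 * n1 + 4 * n1 + 4 := by ring
    have h2 := lz_sq50 n1
    rw [h1]
    clear h1 hC hNK q1 q2 q4 q5 q6 q7 q8 q9 q10 q11 q12 hKn hn0 hn1
    generalize n1 * n1 = x at *
    omega
  have s3 : 2 * r ≤ P := by
    rw [hP]
    refine lz_le (c := 8) ?_ (by omega)
    rw [← hD]
    clear hC hNK q1 q2 q3 q4 q5 q6 q7 q8 q9 q10 q11 q12 hKn hn0 hn1
    generalize r * r = x at *
    omega
  have s4 : nL ≤ n1 + 1 := kk_mono' (by omega)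
  have s5 : n0 + 1 ≤ r + 1 := kk_mono' (by omega)
  have k0 := two_mul_kk n0
  have k0' := two_mul_kk (n0 + 1)
  have k1 := two_mul_kk (n1 + 1)
  have kL := two_mul_kk nL
  have kL' := two_mul_kk (nL + 1)
  have kr := two_mul_kk r
  have kr' := two_mul_kk (r + 1)
  have x0 : (n0 + 1) * (n0 + 1) = n0 * n0 + 2 * n0 + 1 := by ring
  have x1 : (n1 + 1) * (n1 + 1) = n1 * n1 + 2 * n1 + 1 := by ring
  have xL : (nL + 1) * (nL + 1) = nL * nL + 2 * nL + 1 := by ring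
  have xr : (r + 1) * (r + 1) = r * r + 2 * r + 1 := by ring
  rw [x0] at k0'
  rw [x1] at k1
  rw [xL] at kL'
  rw [xr] at kr'
  clear x0 x1 xL xr
  have s6 : kk (n0 + 1) ≤ kk (n1 + 1) + 12 * P := by
    clear hC hNK q3 q5 q6 q7 q8 q9 q10 q11 q12 q14 hKn hn0 hn1 kL kL' kr kr' s4 s5 s3
    generalize n0 * n0 = x at *
    generalize n1 * n1 = y at *
    generalize kk n0 = u at *
    generalize kk (n0 + 1) = v at *
    generalize kk (n1 + 1) = w at *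
    omega
  have s7 : kk (r + 1) ≤ kk nL + 100 * P := by
    clear hC hNK q1 q2 q3 q4 q5 q8 q9 q10 q11 q12 q13 q14 hKn hn0 hn1 k0 k0' k1
    generalize nL * nL = x at *
    generalize r * r = y at *
    generalize kk nL = u at *
    generalize kk (nL + 1) = v at *
    generalize kk r = w at *
    generalize kk (r + 1) = z at *
    generalize kk (n0 + 1) = v' at *
    generalize kk (n1 + 1) = w' at *
    omega
  have s8 : n1 + 1 ≤ n0 + 1 := by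
    apply kk_mono'
    clear hC hNK q4 q5 q6 q7 q8 q9 q10 q11 q12 q13 q14 hKn hn0 hn1 kL kL' kr kr' s4 s5 s3
    generalize n0 * n0 = x at *
    generalize n1 * n1 = y at *
    generalize kk n0 = u at *
    generalize kk (n0 + 1) = v at *
    generalize kk (n1 + 1) = w at *
    omega
  have hPr : (P : ℝ) = (Multiset.card gs : ℝ) * W := by
    rw [hP, hN]
    push_cast
    ring
  refine ⟨nL, r + 1, ⟨⟨n1 + 1, n0 + 1, 12 * (P : ℝ), ⟨s8, by omega, fun n hn => ?_, fun n hn => ?_⟩,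
    s4, s5, by positivity, ?_, ?_, ?_⟩, ?_⟩, ?_, ?_, ?_⟩
  · exact E_deg hE (by omega)
  · exact reg_deg hR (by omega)
  · have : (kk (n0 + 1) : ℝ) ≤ kk (n1 + 1) + 12 * P := by exact_mod_cast s6
    linarith
  · have : (kk nL : ℝ) + 24 * P ≤ kk (n1 + 1) := by exact_mod_cast q5
    linarith
  · have : (kk (n0 + 1) : ℝ) + 24 * P ≤ kk (r + 1) := by exact_mod_cast q8
    linarith
  · have : (kk (r + 1) : ℝ) ≤ kk nL + 100 * P := by exact_mod_cast s7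
    rw [hPr] at this
    linarith
  · exact lz_pos hPbig hS750 q10
  · rw [← hS, sq]
    exact q10
  · have h1 : (r + 1) ^ 2 = r * r + 2 * r + 1 := by ring
    rw [← hS, h1]
    exact q11

end Pool.Agent.SG
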