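import Pool.Agent.SG.HHB

set_option autoImplicit false

/-!
# Module LZSmall: the zone of a group of comparable multiplicities, bounded multiplicities

`N = card gs ≥ C(W0)` large. `n0` with `kk n0 ≤ cd gs < kk (n0 + 1)` (`Nat.find`), `n0` is large:
`cd ≥ N`. `Zone gs n0 (n0+1)`: `hh_large` in the degrees `n0 - 1` (`vv (n0-1) gs = kk n0 - cd ≤ 0`, so
`hh = 0`; `E_deg` for the smaller degrees) and `n0` (`vv n0 gs = kk (n0+1) - cd > 0`, regular; `reg_deg` for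
the larger ones). `Z = n0 + 1`, `nL = n0 - 3`, `nR = n0 + 4`:
`kk n0 - kk (n0-3) = 3 n0 - 3 ≥ 2 Z`, `kk (n0+4) - kk (n0+1) = 3 n0 + 9 ≥ 2 Z`, width `7 n0 + 7 ≤ 100 N W`
(`n0^2 ≤ 2 cd ≤ 2 N W^2`, so `n0 ≤ 2 N W`). `cd ≤ Sq ≤ 2 cd` (`Sm ≤ Sq`), so
`Sq ≤ 2 cd < (n0+1)(n0+2) ≤ 2 (n0-3)^2` and `(n0+4)^2 ≤ 3 cd ≤ 3 Sq` for `n0` large (`n0 (n0+1) ≤ 2 cd`).
-/

namespace Pool.Agent.SG

open MvPolynomial Pool.Agent.helper5.NBS Pool.Agent.helper89.Segre Pool.Agent.SH9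
open Pool.Agent.helper25.ST

private lemma lz_cd_lower {W : ℕ} : ∀ gs : Multiset ℕ, (∀ m ∈ gs, W < 2 * m ∧ m ≤ W) →
    Multiset.card gs ≤ cd gs ∧ cd gs ≤ Multiset.card gs * W ^ 2 := by
  intro gs
  induction gs using Multiset.induction_on with
  | empty => intro _; simp [cd]
  | cons m gs ih =>
    intro h
    have hm := h m (Multiset.mem_cons_self m gs)
    have ih' := ih fun m' hm' => h m' (Multiset.mem_cons_of_mem hm')
    rw [cd_cons, Multiset.card_cons]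
    have h1 : 1 ≤ m := by omega
    have hk := two_mul_kk m
    have h2 : m ≤ m * m := Nat.le_mul_self m
    have h3 : m * m ≤ W * W := Nat.mul_le_mul hm.2 hm.2
    have h4 : (Multiset.card gs + 1) * W ^ 2 = Multiset.card gs * W ^ 2 + W * W := by ring
    constructor
    · omega
    · rw [h4]; omega

private lemma two_kk_real (n : ℕ) : 2 * ((kk n : ℕ) : ℝ) = (n : ℝ) * n + n := by
  exact_mod_cast two_mul_kk n

private lemma lz_kk_pos (n : ℕ) : 0 < kk (n + 1) := by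
  have := two_mul_kk (n + 1)
  omega

/-- the degree in which the zone sits -/
private lemma lz_deg (K : ℕ) (gs : Multiset ℕ) (hC : kk (K + 1) ≤ cd gs) :
    ∃ n, K < n ∧ cd gs < kk (n + 1) ∧ kk n ≤ cd gs := by
  have hex : ∃ n, cd gs < kk (n + 1) := ⟨cd gs, by have := two_mul_kk (cd gs + 1); nlinarith⟩
  have h1 := Nat.find_spec hex
  refine ⟨Nat.find hex, ?_, h1, ?_⟩
  · by_contra hcon
    have : kk (Nat.find hex + 1) ≤ kk (K + 1) := kk_mono (by omega)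
    omega
  · rcases Nat.eq_zero_or_pos (Nat.find hex) with h | h
    · rw [h]; exact Nat.zero_le _
    · have := Nat.find_min hex (m := Nat.find hex - 1) (by omega)
      rw [Nat.sub_add_cancel h] at this
      omega

private lemma lz_zone {M n : ℕ} {gs : Multiset ℕ} (hM : 1 ≤ M) (hms : ∀ m ∈ gs, m ≤ M)
    (hn : 11 * (M + 1).choose 2 + M ≤ n + 1) (hn1 : 1 ≤ n) (h1 : cd gs < kk (n + 1))
    (h2 : kk n ≤ cd gs) : Zone gs n (n + 1) := by
  have hE : E (n - 1) gs := by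
    rw [← hh_eq_zero_iff]
    have h := hh_large (d := n - 1) hM hms (by omega)
    have hv : vv (n - 1) gs ≤ 0 := by
      unfold vv
      have e : (n - 1 + 2).choose 2 = kk n := by
        unfold kk
        congr 1
        omega
      rw [e]
      have : ((kk n : ℕ) : ℝ) ≤ (cd gs : ℕ) := by exact_mod_cast h2
      linarith
    rw [max_eq_right hv] at h
    exact_mod_cast h
  have hreg : (hh n gs : ℝ) = vv n gs := by
    have h := hh_large (d := n) hM hms (by omega)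
    have hv : 0 ≤ vv n gs := by
      unfold vv
      have e : (n + 2).choose 2 = kk (n + 1) := rfl
      rw [e]
      have : ((cd gs : ℕ) : ℝ) ≤ (kk (n + 1) : ℕ) := by exact_mod_cast h1.le
      linarith
    rwa [max_eq_left hv] at h
  exact ⟨by omega, by omega, fun k hk => E_deg hE (by omega), fun k hk => reg_deg hreg (by omega)⟩

private lemma lz_win {n : ℕ} {gs : Multiset ℕ} {Y : ℝ} (hn : 20 ≤ n) (hz : Zone gs n (n + 1))
    (hY : 7 * (n : ℝ) + 7 ≤ Y) : Win gs (n - 3) (n + 4) Y := by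
  have hc : ((n - 3 : ℕ) : ℝ) = (n : ℝ) - 3 := by rw [Nat.cast_sub (by omega)]; norm_num
  have r1 := two_kk_real n
  have r2 := two_kk_real (n + 1)
  have r3 := two_kk_real (n - 3)
  have r4 := two_kk_real (n + 4)
  rw [hc] at r3
  push_cast at r2 r4
  have hj : (20 : ℝ) ≤ (n : ℝ) := by exact_mod_cast hn
  refine ⟨⟨n, n + 1, (n : ℝ) + 1, hz, by omega, by omega, by positivity, ?_, ?_, ?_⟩, ?_⟩
  · linarith
  · linarith
  · linarith
  · linarith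

private lemma lz_arith {n N W c k k' sq sm : ℝ} (hn : 20 ≤ n) (hN : 1 ≤ N) (hW : 1 ≤ W)
    (r1 : 2 * k = n * n + n) (r2 : 2 * k' = (n + 1) * (n + 1) + (n + 1)) (a1 : k ≤ c) (a2 : c ≤ N * W ^ 2)
    (a3 : c ≤ k') (a4 : sm ≤ sq) (a5 : 2 * c = sq + sm) (a6 : 0 ≤ sm) :
    7 * n + 7 ≤ 100 * N * W ∧ sq ≤ 2 * (n - 3) ^ 2 ∧ (n + 4) ^ 2 ≤ 3 * sq := by
  refine ⟨?_, by nlinarith, by nlinarith⟩
  have hb : n ≤ 2 * N * W := by
    have b1 : n ^ 2 ≤ 2 * (N * W ^ 2) := by nlinarith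
    have b3 : 2 * (N * W ^ 2) ≤ (2 * N * W) ^ 2 := by
      have : N * W ^ 2 ≤ N * (N * W ^ 2) :=
        mul_le_mul_of_nonneg_left (le_mul_of_one_le_left (by positivity) hN) (by positivity)
      have h0 : 0 ≤ N * (N * W ^ 2) := by positivity
      calc _ ≤ 4 * (N * (N * W ^ 2)) := by linarith
        _ = _ := by ring
    exact le_of_sq_le_sq (b1.trans b3) (by positivity)
  have hNW : 1 ≤ N * W := by nlinarith
  nlinarith

private lemma lz_fin {n W : ℕ} {gs : Multiset ℕ} (hn : 20 ≤ n) (hN : 1 ≤ Multiset.card gs)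
    (hW : 1 ≤ W) (hz : Zone gs n (n + 1)) (h1 : cd gs < kk (n + 1)) (h2 : kk n ≤ cd gs)
    (hc2 : cd gs ≤ Multiset.card gs * W ^ 2) :
    ∃ nL nR : ℕ, Win gs nL nR (100 * (Multiset.card gs : ℝ) * W) ∧ 1 ≤ nL ∧
      Sq gs ≤ 2 * nL ^ 2 ∧ nR ^ 2 ≤ 3 * Sq gs := by
  have r2 := two_kk_real (n + 1)
  push_cast at r2
  obtain ⟨c1, c2, c3⟩ := lz_arith (n := (n : ℝ)) (N := (Multiset.card gs : ℝ)) (W := (W : ℝ))
    (c := ((cd gs : ℕ) : ℝ)) (k := ((kk n : ℕ) : ℝ)) (k' := ((kk (n + 1) : ℕ) : ℝ))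
    (sq := ((Sq gs : ℕ) : ℝ)) (sm := ((Sm gs : ℕ) : ℝ)) (by exact_mod_cast hn) (by exact_mod_cast hN)
    (by exact_mod_cast hW) (two_kk_real n) r2 (by exact_mod_cast h2) (by exact_mod_cast hc2)
    (by exact_mod_cast h1.le) (by exact_mod_cast Sm_le_Sq gs) (by exact_mod_cast two_cd' gs)
    (Nat.cast_nonneg _)
  refine ⟨n - 3, n + 4, lz_win hn hz c1, by omega, ?_, ?_⟩
  · have hc : ((n - 3 : ℕ) : ℝ) = (n : ℝ) - 3 := by rw [Nat.cast_sub (by omega)]; norm_num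
    have : ((Sq gs : ℕ) : ℝ) ≤ 2 * ((n - 3 : ℕ) : ℝ) ^ 2 := by rw [hc]; exact c2
    exact_mod_cast this
  · exact_mod_cast c3

theorem lzSmall (W0 : ℕ) : ∃ C : ℕ, ∀ (W : ℕ) (gs : Multiset ℕ), 1 ≤ W → W ≤ W0 →
    (∀ m ∈ gs, W < 2 * m ∧ m ≤ W) → C ≤ Multiset.card gs →
    ∃ nL nR : ℕ, Win gs nL nR (100 * (Multiset.card gs : ℝ) * W) ∧ 1 ≤ nL ∧
      Sq gs ≤ 2 * nL ^ 2 ∧ nR ^ 2 ≤ 3 * Sq gs := by
  refine ⟨kk (11 * (W0 + 1 + 1).choose 2 + (W0 + 1) + 20 + 1), fun W gs hW hWW hgs hC => ?_⟩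
  obtain ⟨hc1, hc2⟩ := lz_cd_lower gs hgs
  obtain ⟨n, hn, h1, h2⟩ := lz_deg _ gs (hC.trans hc1)
  have hms : ∀ m ∈ gs, m ≤ W0 + 1 := fun m hm => (hgs m hm).2.trans (hWW.trans (Nat.le_succ _))
  have hN : 0 < Multiset.card gs := lt_of_lt_of_le (lz_kk_pos _) hC
  clear hC
  have hz := lz_zone (M := W0 + 1) (n := n) (by omega) hms (by omega) (by omega) h1 h2
  exact lz_fin (by omega) hN hW hz h1 h2 hc2

end Pool.Agent.SG
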