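import Pool.Agent.SG.Defs

set_option autoImplicit false

/-!
# Module LemS: the one-step stability lemma (pure analysis)

`τ_i = kk i` (`kk (i+1) = kk i + i + 1`), `s_n = (h n - h (n+1)) / (n+1) ∈ [0,1]` nonincreasing,
`γ_n = c n / (n+1) ∈ [0,1]` nonincreasing, `1` for `n < a`, `0` for `n ≥ b`. Put `γ_(a-1) = 1` and
`p_i = γ_(i-1) - γ_i ≥ 0` for `a ≤ i ≤ b` (`∑ p_i = 1`, `∑ p_i τ_i = kk a + ∑_(a ≤ n < b) c n = y0`, Abel).
If `a = b`: `y0 = kk a`, the sum is `h b ≤ Φ(vr - kk b)`, `c0 ≤ 0`. Let `a < b`.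
1. The sum is `V = ∑_(a ≤ n < b) (n+1) (s_n - γ_n)^+ + h b` (terms `n < a` vanish, `n ≥ b` telescope; if
   `N < b` the terms `n ≥ N` vanish anyway).
2. `(s - γ)^+ ≤ s (1 - γ) - γ (1 - γ) min(s, 1 - s)`.
3. `h b + ∑_(a≤n<b) (n+1) s_n (1 - γ_n) = ∑_i p_i h i` (Abel).
4. `η_i = Φ(vr - τ_i) - h i ≥ 0`, `Eη = ∑ p_i η_i`, `Γ = ∑_(a≤n<b) (n+1) γ_n (1 - γ_n)`.
   `∑ p_i Φ(vr - τ_i) ≤ Φ(vr - y0) + ε ∑ p_i |τ_i - y0|` (`stab` with `v' = vr - y0`; mean zero).
5. `∑_i p_i |τ_i - y0| ≤ ∑_(i,j) p_i p_j |τ_i - τ_j| = 2 Γ` (`|τ_i - τ_j| = ∑_n (n+1) [i ≤ n < j or j ≤ n < i]`,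
   `∑_(i ≤ n) p_i = 1 - γ_n`), also `Γ ≤ Z / 4` and `c0 ≤ ∑ p_i |τ_i - y0| ≤ 2 Γ`.
6. For every node `i ∈ [a,b]` and level `n ∈ [a,b)`: `|s_n - φ| ≤ 5 ε + 2 η_i / Z`. Let `A = s_a - φ - ε`,
   `B = φ - ε - s_(b-1)`, `l = kk a - kk nL ≥ 2Z`, `r = kk nR - kk b ≥ 2Z`. From
   `h nL ≤ Φ(vr - kk nL) ≤ h i + η_i + (φ+ε)(τ_i - kk nL)` and
   `h nL - h i ≥ l s_a + (τ_i - kk a) s_(b-1)`: `l A ≤ η_i + (τ_i - kk a)(B + 2ε)`; from
   `h nR ≤ h i + η_i - (φ-ε)(kk nR - τ_i)` and `h i - h nR ≤ (kk b - τ_i) s_a + r s_(b-1)`: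
   `r B ≤ η_i + (kk b - τ_i)(A + 2ε)`. So `2Z A⁺ ≤ η_i + 2Zε + Z B⁺`, `2Z B⁺ ≤ η_i + 2Zε + Z A⁺`, sum:
   `A⁺ + B⁺ ≤ 2η_i/Z + 4ε`. Average over `i`: `|s_n - φ| ≤ 5ε + 2 Eη / Z`.
7. `min(s_n, 1 - s_n) ≥ θ - |s_n - φ|`, so the gain `∑ (n+1) γ_n (1-γ_n) min(s_n, 1-s_n) ≥
   Γ(θ - 5ε) - 2 (Γ/Z) Eη ≥ Γ(θ - 5ε) - Eη/2`.
8. `V ≤ ∑ p_i h_i - gain ≤ Φ(vr - y0) + 2εΓ - Eη - Γ(θ - 5ε) + Eη/2 ≤ Φ(vr - y0) - Γ(θ - 7ε)
   ≤ Φ(vr - y0) - Γ θ/2 ≤ Φ(vr - y0) - θ c0 / 4`.
-/

namespace Pool.Agent.SG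

open Pool.Agent.helper89.Segre Pool.Agent.SH9

private lemma kkS (n : ℕ) : (kk (n + 1) : ℝ) = (kk n : ℝ) + ((n : ℝ) + 1) := by
  have h1 := two_mul_kk n
  have h2 := two_mul_kk (n + 1)
  have h1' : 2 * (kk n : ℝ) = (n : ℝ) * n + n := by exact_mod_cast h1
  have h2' : 2 * (kk (n + 1) : ℝ) = ((n : ℝ) + 1) * ((n : ℝ) + 1) + ((n : ℝ) + 1) := by
    exact_mod_cast h2
  nlinarith

private lemma kk0 : (kk 0 : ℝ) = 0 := by
  have h1 := two_mul_kk 0
  have h1' : 2 * (kk 0 : ℝ) = (0 : ℝ) := by exact_mod_cast (by simpa using h1)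
  linarith

private lemma kkM {m n : ℕ} (h : m ≤ n) : (kk m : ℝ) ≤ (kk n : ℝ) := by
  exact_mod_cast kk_mono h

private lemma abel (G f : ℕ → ℝ) (M : ℕ) :
    ∑ i ∈ Finset.range (M + 1), (G i - G (i + 1)) * f i =
      G 0 * f 0 - G (M + 1) * f M + ∑ n ∈ Finset.range M, G (n + 1) * (f (n + 1) - f n) := by
  induction M with
  | zero => simp; ring
  | succ M ih =>
    rw [Finset.sum_range_succ, ih, Finset.sum_range_succ]
    ring

private def GG (γ : ℕ → ℝ) : ℕ → ℝ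
  | 0 => 1
  | n + 1 => γ n

/-- expectation -/
private noncomputable def EE (γ : ℕ → ℝ) (b : ℕ) (f : ℕ → ℝ) : ℝ :=
  ∑ i ∈ Finset.range (b + 1), (GG γ i - GG γ (i + 1)) * f i

private lemma EE_abel {γ : ℕ → ℝ} {b : ℕ} (hb : γ b = 0) (f : ℕ → ℝ) :
    EE γ b f = f 0 + ∑ n ∈ Finset.range b, γ n * (f (n + 1) - f n) := by
  unfold EE
  rw [abel]
  simp [GG, hb]

private lemma EE_add {γ : ℕ → ℝ} {b : ℕ} (f g : ℕ → ℝ) :
    EE γ b (fun i => f i + g i) = EE γ b f + EE γ b g := by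
  unfold EE
  rw [← Finset.sum_add_distrib]
  exact Finset.sum_congr rfl fun i _ => by ring

private lemma EE_smul {γ : ℕ → ℝ} {b : ℕ} (c : ℝ) (f : ℕ → ℝ) :
    EE γ b (fun i => c * f i) = c * EE γ b f := by
  unfold EE
  rw [Finset.mul_sum]
  exact Finset.sum_congr rfl fun i _ => by ring

private lemma EE_const {γ : ℕ → ℝ} {b : ℕ} (hb : γ b = 0) (c : ℝ) :
    EE γ b (fun _ => c) = c := by
  rw [EE_abel hb]
  simp

private lemma EE_mono {γ : ℕ → ℝ} {a b : ℕ} (h1 : ∀ n, γ n ≤ 1) (hanti : Antitone γ)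
    (ha : ∀ n, n < a → γ n = 1) {f g : ℕ → ℝ}
    (hfg : ∀ i, a ≤ i → i ≤ b → f i ≤ g i) : EE γ b f ≤ EE γ b g := by
  unfold EE
  refine Finset.sum_le_sum fun i hi => ?_
  rw [Finset.mem_range] at hi
  by_cases hia : a ≤ i
  · refine mul_le_mul_of_nonneg_left (hfg i hia (by omega)) ?_
    cases i with
    | zero => simpa [GG] using h1 0
    | succ i => simpa [GG] using hanti (Nat.le_succ i)
  · push Not at hia
    have h0 : GG γ i - GG γ (i + 1) = 0 := by
      cases i with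
      | zero => simp [GG, ha 0 hia]
      | succ i => simp [GG, ha (i + 1) hia, ha i (by omega)]
    rw [h0]
    simp

/-- the sum of absolute differences -/
private lemma EE_abs {γ : ℕ → ℝ} {a b : ℕ} (hb : ∀ n, b ≤ n → γ n = 0) (h1 : ∀ n, γ n ≤ 1)
    (hanti : Antitone γ) (ha : ∀ n, n < a → γ n = 1) {y : ℝ}
    (hy : y = ∑ n ∈ Finset.range b, ((n : ℝ) + 1) * γ n) :
    EE γ b (fun i => |(kk i : ℝ) - y|) ≤
      2 * ∑ n ∈ Finset.range b, ((n : ℝ) + 1) * (γ n * (1 - γ n)) := by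
  have hbb := hb b le_rfl
  have hy' : EE γ b (fun i => (kk i : ℝ)) = y := by
    rw [EE_abel hbb, hy]
    simp only [kkS, kk0, zero_add]
    exact Finset.sum_congr rfl fun i _ => by ring
  have hD : ∀ i, i ≤ b → EE γ b (fun j => |(kk i : ℝ) - (kk j : ℝ)|) =
      (kk i : ℝ) + ∑ n ∈ Finset.range b, γ n * (((n : ℝ) + 1) * (if i ≤ n then 1 else -1)) := by
    intro i hi
    rw [EE_abel hbb]
    have h0 : |(kk i : ℝ) - (kk 0 : ℝ)| = (kk i : ℝ) := by
      rw [kk0, sub_zero, abs_of_nonneg]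
      positivity
    rw [h0]
    congr 1
    refine Finset.sum_congr rfl fun n _ => ?_
    congr 1
    by_cases hin : i ≤ n
    · have h2 := kkM hin
      have h3 := kkM (show i ≤ n + 1 by omega)
      rw [abs_of_nonpos (by linarith), abs_of_nonpos (by linarith), kkS, if_pos hin]
      ring
    · have h2 := kkM (show n ≤ i by omega)
      have h3 := kkM (show n + 1 ≤ i by omega)
      rw [abs_of_nonneg (by linarith), abs_of_nonneg (by linarith), kkS, if_neg hin]
      ring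
  have hJ : ∀ i, |(kk i : ℝ) - y| ≤ EE γ b (fun j => |(kk i : ℝ) - (kk j : ℝ)|) := by
    intro i
    have e1 : (kk i : ℝ) - y = EE γ b (fun j => (kk i : ℝ) + (-1) * (kk j : ℝ)) := by
      rw [EE_add, EE_smul, EE_const hbb, hy']
      ring
    rw [abs_le]
    constructor
    · have e2 : -EE γ b (fun j => |(kk i : ℝ) - (kk j : ℝ)|) =
          EE γ b (fun j => (-1) * |(kk i : ℝ) - (kk j : ℝ)|) := by
        rw [EE_smul]; ring
      rw [e1, e2]
      refine EE_mono h1 hanti ha fun j _ _ => ?_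
      have := neg_abs_le ((kk i : ℝ) - (kk j : ℝ))
      linarith
    · rw [e1]
      refine EE_mono h1 hanti ha fun j _ _ => ?_
      have := le_abs_self ((kk i : ℝ) - (kk j : ℝ))
      linarith
  have hS : ∀ n, n < b → EE γ b (fun i => if i ≤ n then (1 : ℝ) else -1) = 1 - 2 * γ n := by
    intro n hn
    rw [EE_abel hbb]
    have : ∀ m ∈ Finset.range b, γ m * ((if m + 1 ≤ n then (1 : ℝ) else -1) -
        (if m ≤ n then (1 : ℝ) else -1)) = if m = n then -2 * γ n else 0 := by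
      intro m _
      rcases lt_trichotomy m n with h | h | h
      · rw [if_pos (by omega), if_pos (by omega), if_neg (by omega)]; ring
      · subst h
        rw [if_neg (by omega), if_pos le_rfl, if_pos rfl]; ring
      · rw [if_neg (by omega), if_neg (by omega), if_neg (by omega)]; ring
    rw [Finset.sum_congr rfl this, Finset.sum_ite_eq' , if_pos (Finset.mem_range.mpr hn)]
    simp
    ring
  calc EE γ b (fun i => |(kk i : ℝ) - y|)
      ≤ EE γ b (fun i => (kk i : ℝ) +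
          ∑ n ∈ Finset.range b, γ n * (((n : ℝ) + 1) * (if i ≤ n then 1 else -1))) := by
        refine EE_mono h1 hanti ha fun i _ hi => ?_
        rw [← hD i hi]
        exact hJ i
    _ = y + ∑ n ∈ Finset.range b, γ n * (((n : ℝ) + 1) * (1 - 2 * γ n)) := by
        rw [EE_add, hy']
        congr 1
        unfold EE
        simp only [Finset.mul_sum]
        rw [Finset.sum_comm]
        refine Finset.sum_congr rfl fun n hn => ?_
        rw [← hS n (Finset.mem_range.mp hn)]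
        unfold EE
        simp only [Finset.mul_sum]
        exact Finset.sum_congr rfl fun i _ => by ring
    _ = 2 * ∑ n ∈ Finset.range b, ((n : ℝ) + 1) * (γ n * (1 - γ n)) := by
        rw [hy, ← Finset.sum_add_distrib, Finset.mul_sum]
        exact Finset.sum_congr rfl fun i _ => by ring

private lemma lowS {h s : ℕ → ℝ} (hs : ∀ n, h n - h (n + 1) = ((n : ℝ) + 1) * s n) {m n : ℕ}
    (hmn : m ≤ n) {S : ℝ} (hS : ∀ k, m ≤ k → k < n → S ≤ s k) :
    ((kk n : ℝ) - (kk m : ℝ)) * S ≤ h m - h n := by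
  induction n, hmn using Nat.le_induction with
  | base => simp
  | succ n hmn ih =>
    have h1 := ih fun k hk hk' => hS k hk (by omega)
    have h2 := hS n hmn (by omega)
    have h3 := hs n
    rw [kkS]
    have h4 : ((n : ℝ) + 1) * S ≤ ((n : ℝ) + 1) * s n :=
      mul_le_mul_of_nonneg_left h2 (by positivity)
    linarith

private lemma upS {h s : ℕ → ℝ} (hs : ∀ n, h n - h (n + 1) = ((n : ℝ) + 1) * s n) {m n : ℕ}
    (hmn : m ≤ n) {S : ℝ} (hS : ∀ k, m ≤ k → k < n → s k ≤ S) :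
    h m - h n ≤ ((kk n : ℝ) - (kk m : ℝ)) * S := by
  induction n, hmn using Nat.le_induction with
  | base => simp
  | succ n hmn ih =>
    have h1 := ih fun k hk hk' => hS k hk (by omega)
    have h2 := hS n hmn (by omega)
    have h3 := hs n
    rw [kkS]
    have h4 : ((n : ℝ) + 1) * s n ≤ ((n : ℝ) + 1) * S :=
      mul_le_mul_of_nonneg_left h2 (by positivity)
    linarith

/-- step 2 -/
private lemma stepTwo {s g : ℝ} (hs0 : 0 ≤ s) (hs1 : s ≤ 1) (hg0 : 0 ≤ g) (hg1 : g ≤ 1) :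
    max (s - g) 0 ≤ s * (1 - g) - g * (1 - g) * min s (1 - s) := by
  have hm1 : min s (1 - s) ≤ s := min_le_left _ _
  have hm2 : min s (1 - s) ≤ 1 - s := min_le_right _ _
  have hm0 : 0 ≤ min s (1 - s) := le_min hs0 (by linarith)
  set m := min s (1 - s) with hm
  refine max_le ?_ ?_
  · have : g * ((1 - g) * m) ≤ g * (1 - s) := by
      refine mul_le_mul_of_nonneg_left ?_ hg0
      nlinarith
    nlinarith
  · have h1 : g * m ≤ s := by nlinarith
    have : 0 ≤ (1 - g) * (s - g * m) := mul_nonneg (by linarith) (by linarith)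
    nlinarith

/-- step 6, arithmetic -/
private lemma stepSix {sa sb sn φ ε Z l r ti tj η : ℝ} (hZ : 0 < Z) (hl : 2 * Z ≤ l)
    (hr : 2 * Z ≤ r) (hti : 0 ≤ ti) (htj : 0 ≤ tj) (htiZ : ti ≤ Z) (htjZ : tj ≤ Z)
    (hη : 0 ≤ η) (hε : 0 ≤ ε)
    (h1 : l * (sa - φ - ε) ≤ η + ti * ((φ - ε - sb) + 2 * ε))
    (h2 : r * (φ - ε - sb) ≤ η + tj * ((sa - φ - ε) + 2 * ε))
    (hna : sn ≤ sa) (hnb : sb ≤ sn) : |sn - φ| ≤ 5 * ε + 2 * η / Z := by
  set A := sa - φ - ε with hA
  set B := φ - ε - sb with hB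
  have hAp : 0 ≤ max A 0 := le_max_right _ _
  have hBp : 0 ≤ max B 0 := le_max_right _ _
  have hA' : A ≤ max A 0 := le_max_left _ _
  have hB' : B ≤ max B 0 := le_max_left _ _
  have k1 : 2 * Z * max A 0 ≤ η + 2 * Z * ε + Z * max B 0 := by
    rcases le_total A 0 with h | h
    · rw [max_eq_right h]
      have : 0 ≤ Z * ε := by positivity
      have : 0 ≤ Z * max B 0 := by positivity
      linarith
    · rw [max_eq_left h]
      have a1 : 2 * Z * A ≤ l * A := mul_le_mul_of_nonneg_right hl h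
      have a2 : ti * (B + 2 * ε) ≤ ti * (max B 0 + 2 * ε) :=
        mul_le_mul_of_nonneg_left (by linarith) hti
      have a3 : ti * (max B 0 + 2 * ε) ≤ Z * (max B 0 + 2 * ε) :=
        mul_le_mul_of_nonneg_right htiZ (by linarith)
      linarith
  have k2 : 2 * Z * max B 0 ≤ η + 2 * Z * ε + Z * max A 0 := by
    rcases le_total B 0 with h | h
    · rw [max_eq_right h]
      have : 0 ≤ Z * ε := by positivity
      have : 0 ≤ Z * max A 0 := by positivity
      linarith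
    · rw [max_eq_left h]
      have a1 : 2 * Z * B ≤ r * B := mul_le_mul_of_nonneg_right hr h
      have a2 : tj * (A + 2 * ε) ≤ tj * (max A 0 + 2 * ε) :=
        mul_le_mul_of_nonneg_left (by linarith) htj
      have a3 : tj * (max A 0 + 2 * ε) ≤ Z * (max A 0 + 2 * ε) :=
        mul_le_mul_of_nonneg_right htjZ (by linarith)
      linarith
  have k3 : Z * (max A 0 + max B 0) ≤ 2 * η + 4 * ε * Z := by linarith
  have k4 : max A 0 + max B 0 ≤ 2 * η / Z + 4 * ε := by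
    have : 2 * η / Z + 4 * ε = (2 * η + 4 * ε * Z) / Z := by field_simp
    rw [this, le_div_iff₀ hZ]
    linarith
  rw [abs_le]
  constructor <;> linarith


theorem lemS {h c : ℕ → ℝ} {a b nL nR N : ℕ} {Φ : ℝ → ℝ} {vr φ θ ε Z y0 c0 : ℝ}
    (hmono : ∀ n, 0 ≤ h n - h (n + 1)) (hle : ∀ n, h n - h (n + 1) ≤ (n : ℝ) + 1)
    (hconv : ∀ n, (h (n + 1) - h (n + 2)) / ((n : ℝ) + 2) ≤ (h n - h (n + 1)) / ((n : ℝ) + 1))
    (hN : ∀ n, N ≤ n → h n = 0)
    (hc0 : ∀ n, 0 ≤ c n) (hc1 : ∀ n, c n ≤ (n : ℝ) + 1)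
    (hanti : ∀ n, c (n + 1) / ((n : ℝ) + 2) ≤ c n / ((n : ℝ) + 1))
    (ha : ∀ n, n < a → c n = (n : ℝ) + 1) (hb : ∀ n, b ≤ n → c n = 0)
    (hLa : nL ≤ a) (hab : a ≤ b) (hbR : b ≤ nR) (hZ : 0 < Z)
    (hZab : (kk b : ℝ) - (kk a : ℝ) ≤ Z) (hL : (kk nL : ℝ) + 2 * Z ≤ (kk a : ℝ))
    (hR : (kk b : ℝ) + 2 * Z ≤ (kk nR : ℝ))
    (H : ∀ n, nL ≤ n → n ≤ nR → h n ≤ Φ (vr - (kk n : ℝ)))
    (stab : ∀ v v' : ℝ, vr - (kk nR : ℝ) ≤ v → v ≤ vr - (kk nL : ℝ) → vr - (kk nR : ℝ) ≤ v' →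
      v' ≤ vr - (kk nL : ℝ) → |Φ v - Φ v' - φ * (v - v')| ≤ ε * |v - v'|)
    (hθ1 : θ ≤ φ) (hθ2 : θ ≤ 1 - φ) (hε0 : 0 ≤ ε) (hε : 20 * ε ≤ θ)
    (hy0 : y0 = ∑ n ∈ Finset.range b, c n)
    (hc0' : ∀ n, a ≤ n → n ≤ b → c0 ≤ |y0 - (kk n : ℝ)|) :
    ∑ n ∈ Finset.range N, max (h n - h (n + 1) - c n) 0 ≤ Φ (vr - y0) - θ * c0 / 4 := by
  have hθ0 : 0 ≤ θ := by linarith
  set s : ℕ → ℝ := fun n => (h n - h (n + 1)) / ((n : ℝ) + 1) with hsdef
  set γ : ℕ → ℝ := fun n => c n / ((n : ℝ) + 1) with hγdef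
  have hs : ∀ n, h n - h (n + 1) = ((n : ℝ) + 1) * s n := by
    intro n
    have : ((n : ℝ) + 1) ≠ 0 := by positivity
    simp only [hsdef]
    field_simp
  have hγ : ∀ n, c n = ((n : ℝ) + 1) * γ n := by
    intro n
    have : ((n : ℝ) + 1) ≠ 0 := by positivity
    simp only [hγdef]
    field_simp
  have hs0 : ∀ n, 0 ≤ s n := fun n => div_nonneg (hmono n) (by positivity)
  have hs1 : ∀ n, s n ≤ 1 := fun n => div_le_one_of_le₀ (hle n) (by positivity)
  have hγ0 : ∀ n, 0 ≤ γ n := fun n => div_nonneg (hc0 n) (by positivity)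
  have hγ1 : ∀ n, γ n ≤ 1 := fun n => div_le_one_of_le₀ (hc1 n) (by positivity)
  have hsA : Antitone s := by
    refine antitone_nat_of_succ_le fun n => ?_
    have := hconv n
    simp only [hsdef]
    push_cast
    rw [show (n : ℝ) + 1 + 1 = (n : ℝ) + 2 by ring]
    exact this
  have hγA : Antitone γ := by
    refine antitone_nat_of_succ_le fun n => ?_
    have := hanti n
    simp only [hγdef]
    push_cast
    rw [show (n : ℝ) + 1 + 1 = (n : ℝ) + 2 by ring]
    exact this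
  have hγa : ∀ n, n < a → γ n = 1 := by
    intro n hn
    simp only [hγdef, ha n hn]
    exact div_self (by positivity)
  have hγb : ∀ n, b ≤ n → γ n = 0 := by
    intro n hn
    simp [hγdef, hb n hn]
  have hbb := hγb b le_rfl
  -- the quantities
  have hy : y0 = ∑ n ∈ Finset.range b, ((n : ℝ) + 1) * γ n := by
    rw [hy0]
    exact Finset.sum_congr rfl fun n _ => hγ n
  have hEk : EE γ b (fun i => (kk i : ℝ)) = y0 := by
    rw [EE_abel hbb, hy]
    simp only [kkS, kk0, zero_add]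
    exact Finset.sum_congr rfl fun i _ => by ring
  have hya : (kk a : ℝ) ≤ y0 := by
    rw [← hEk, ← EE_const hbb (kk a : ℝ)]
    exact EE_mono hγ1 hγA hγa fun i hi _ => kkM hi
  have hyb : y0 ≤ (kk b : ℝ) := by
    rw [← hEk, ← EE_const hbb (kk b : ℝ)]
    exact EE_mono hγ1 hγA hγa fun i _ hi => kkM hi
  set Γ : ℝ := ∑ n ∈ Finset.range b, ((n : ℝ) + 1) * (γ n * (1 - γ n)) with hΓ
  set Ab : ℝ := EE γ b (fun i => |(kk i : ℝ) - y0|) with hAb
  have hAbΓ : Ab ≤ 2 * Γ := EE_abs hγb hγ1 hγA hγa hy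
  have hΓ0 : 0 ≤ Γ := Finset.sum_nonneg fun n _ =>
    mul_nonneg (by positivity) (mul_nonneg (hγ0 n) (by linarith [hγ1 n]))
  have hcAb : c0 ≤ Ab := by
    rw [hAb, ← EE_const hbb c0]
    refine EE_mono hγ1 hγA hγa fun i hi hi' => ?_
    have := hc0' i hi hi'
    rwa [abs_sub_comm] at this
  have hΓZ : Γ ≤ Z / 4 := by
    have e1 : Γ ≤ ((kk b : ℝ) - (kk a : ℝ)) / 4 := by
      have e2 : ∀ m, a ≤ m → ∑ n ∈ Finset.range m, ((n : ℝ) + 1) * (γ n * (1 - γ n)) ≤
          ((kk m : ℝ) - (kk a : ℝ)) / 4 := by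
        intro m hm
        induction m, hm using Nat.le_induction with
        | base =>
          have : ∑ n ∈ Finset.range a, ((n : ℝ) + 1) * (γ n * (1 - γ n)) = 0 := by
            refine Finset.sum_eq_zero fun n hn => ?_
            rw [hγa n (Finset.mem_range.mp hn)]
            ring
          rw [this]
          simp
        | succ m hm ih =>
          rw [Finset.sum_range_succ, kkS]
          have h4 : ((m : ℝ) + 1) * (γ m * (1 - γ m)) ≤ ((m : ℝ) + 1) * (1 / 4) := by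
            refine mul_le_mul_of_nonneg_left ?_ (by positivity)
            nlinarith [sq_nonneg (γ m - 1 / 2)]
          linarith
      exact e2 b hab
    linarith
  -- the value
  have hV : ∑ n ∈ Finset.range N, max (h n - h (n + 1) - c n) 0 =
      h b + ∑ n ∈ Finset.range b, max (h n - h (n + 1) - c n) 0 := by
    have e1 : ∀ M, N ≤ M → ∑ n ∈ Finset.range M, max (h n - h (n + 1) - c n) 0 =
        ∑ n ∈ Finset.range N, max (h n - h (n + 1) - c n) 0 := by
      intro M hM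
      induction M, hM using Nat.le_induction with
      | base => rfl
      | succ M hM ih =>
        rw [Finset.sum_range_succ, ih, hN M hM, hN (M + 1) (by omega)]
        rw [max_eq_right (by linarith [hc0 M])]
        ring
    have e2 : ∀ M, b ≤ M → ∑ n ∈ Finset.range M, max (h n - h (n + 1) - c n) 0 =
        h b - h M + ∑ n ∈ Finset.range b, max (h n - h (n + 1) - c n) 0 := by
      intro M hM
      induction M, hM using Nat.le_induction with
      | base => ring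
      | succ M hM ih =>
        rw [Finset.sum_range_succ, ih, hb M hM]
        rw [max_eq_left (by linarith [hmono M])]
        ring
    rw [← e1 (max N b) (le_max_left _ _), e2 (max N b) (le_max_right _ _),
      hN (max N b) (le_max_left _ _)]
    ring
  have hEh : EE γ b h = h b + ∑ n ∈ Finset.range b, ((n : ℝ) + 1) * (s n * (1 - γ n)) := by
    rw [EE_abel hbb]
    have e3 : ∀ m, h 0 = h m + ∑ n ∈ Finset.range m, ((n : ℝ) + 1) * s n := by
      intro m
      induction m with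
      | zero => simp
      | succ m ih =>
        rw [Finset.sum_range_succ, ← hs m]
        linarith
    have e4 : ∑ n ∈ Finset.range b, γ n * (h (n + 1) - h n) =
        ∑ n ∈ Finset.range b, (((n : ℝ) + 1) * (s n * (1 - γ n)) - ((n : ℝ) + 1) * s n) := by
      refine Finset.sum_congr rfl fun n _ => ?_
      have : h (n + 1) - h n = -(((n : ℝ) + 1) * s n) := by rw [← hs n]; ring
      rw [this]
      ring
    rw [e4, Finset.sum_sub_distrib]
    linarith [e3 b]
  set gain : ℝ := ∑ n ∈ Finset.range b, ((n : ℝ) + 1) * (γ n * (1 - γ n) * min (s n) (1 - s n))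
    with hgain
  have hV1 : ∑ n ∈ Finset.range N, max (h n - h (n + 1) - c n) 0 ≤ EE γ b h - gain := by
    rw [hV, hEh, hgain, add_sub_assoc, ← Finset.sum_sub_distrib]
    refine add_le_add le_rfl (Finset.sum_le_sum fun n _ => ?_)
    have e5 : max (h n - h (n + 1) - c n) 0 = ((n : ℝ) + 1) * max (s n - γ n) 0 := by
      rw [mul_max_of_nonneg _ _ (by positivity), hs n, hγ n]
      congr 1
      · ring
      · ring
    rw [e5, ← mul_sub]
    exact mul_le_mul_of_nonneg_left (stepTwo (hs0 n) (hs1 n) (hγ0 n) (hγ1 n)) (by positivity)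
  -- the deficiency
  set η : ℕ → ℝ := fun i => Φ (vr - (kk i : ℝ)) - h i with hη
  have hη0 : ∀ i, nL ≤ i → i ≤ nR → 0 ≤ η i := fun i h1 h2 => by
    have := H i h1 h2
    simp only [hη]
    linarith
  set Eη : ℝ := EE γ b η with hEη
  have hEη0 : 0 ≤ Eη := by
    rw [hEη, ← EE_const hbb (0 : ℝ)]
    exact EE_mono hγ1 hγA hγa fun i hi hi' => hη0 i (by omega) (by omega)
  have hkL := kkM hLa
  have hkR := kkM hbR
  have hEh2 : EE γ b h ≤ Φ (vr - y0) + ε * Ab - Eη := by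
    have e6 : EE γ b h ≤ EE γ b (fun i => Φ (vr - y0) + ((φ * y0 + (-φ) * (kk i : ℝ)) +
        (ε * |(kk i : ℝ) - y0| + (-1) * η i))) := by
      refine EE_mono hγ1 hγA hγa fun i hi hi' => ?_
      have k1 := kkM hi
      have k2 := kkM hi'
      have e7 := stab (vr - (kk i : ℝ)) (vr - y0) (by linarith) (by linarith) (by linarith)
        (by linarith)
      have e8 : vr - (kk i : ℝ) - (vr - y0) = -((kk i : ℝ) - y0) := by ring
      rw [e8, abs_neg] at e7
      have e9 := (abs_le.mp e7).2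
      simp only [hη]
      linarith
    have e6' : EE γ b (fun i => (-1) * η i) = (-1) * Eη := EE_smul (-1) η
    have e6a : EE γ b (fun i => ε * |(kk i : ℝ) - y0|) = ε * Ab := EE_smul ε _
    have e6b : EE γ b (fun i => (-φ) * (kk i : ℝ)) = (-φ) * y0 := by rw [EE_smul, hEk]
    rw [EE_add, EE_add, EE_add, EE_add, e6', e6a, e6b, EE_const hbb, EE_const hbb] at e6
    linarith
  -- all levels
  have hlev : ∀ n, a ≤ n → n < b → |s n - φ| ≤ 5 * ε + 2 * Eη / Z := by
    intro n hna hnb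
    have e10 : |s n - φ| ≤ EE γ b (fun i => 5 * ε + (2 / Z) * η i) := by
      rw [← EE_const hbb (|s n - φ|)]
      refine EE_mono hγ1 hγA hγa fun i hi hi' => ?_
      have hin := kkM hi
      have hin' := kkM hi'
      have l1 := lowS hs hLa (S := s a) (fun k _ hk => hsA (by omega))
      have l2 := lowS hs hi (S := s (b - 1)) (fun k _ hk => hsA (by omega))
      have u1 := upS hs hi' (S := s a) (fun k hk _ => hsA (by omega))
      have u2 := upS hs hbR (S := s (b - 1)) (fun k hk _ => hsA (by omega))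
      have st1 := stab (vr - (kk nL : ℝ)) (vr - (kk i : ℝ)) (by linarith) (by linarith)
        (by linarith) (by linarith)
      have st2 := stab (vr - (kk nR : ℝ)) (vr - (kk i : ℝ)) (by linarith) (by linarith)
        (by linarith) (by linarith)
      have HL := H nL le_rfl (by omega)
      have HR := H nR (by omega) le_rfl
      have st1' := (abs_le.mp st1).2
      have st2' := (abs_le.mp st2).2
      rw [abs_of_nonneg (by linarith)] at st1'
      rw [abs_of_nonpos (by linarith)] at st2'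
      have g1 := hη0 i (by omega) (by omega)
      have key := stepSix (sa := s a) (sb := s (b - 1)) (sn := s n) (φ := φ) (ε := ε) (Z := Z)
        (l := (kk a : ℝ) - (kk nL : ℝ)) (r := (kk nR : ℝ) - (kk b : ℝ))
        (ti := (kk i : ℝ) - (kk a : ℝ)) (tj := (kk b : ℝ) - (kk i : ℝ)) (η := η i) hZ
        (by linarith) (by linarith) (by linarith) (by linarith) (by linarith) (by linarith)
        g1 hε0 (by simp only [hη]; linarith) (by simp only [hη]; linarith)
        (hsA hna) (hsA (by omega))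
      have : 2 * η i / Z = (2 / Z) * η i := by ring
      linarith
    have e10a : EE γ b (fun i => (2 / Z) * η i) = (2 / Z) * Eη := EE_smul (2 / Z) η
    rw [EE_add, e10a, EE_const hbb] at e10
    have : 2 * Eη / Z = (2 / Z) * Eη := by ring
    linarith
  have hgain1 : Γ * (θ - 5 * ε - 2 * Eη / Z) ≤ gain := by
    rw [hΓ, hgain, Finset.sum_mul]
    refine Finset.sum_le_sum fun n hn => ?_
    rw [Finset.mem_range] at hn
    rw [mul_assoc]
    refine mul_le_mul_of_nonneg_left ?_ (by positivity)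
    by_cases hna : a ≤ n
    · have e11 := hlev n hna hn
      have e12 := abs_le.mp (le_refl |s n - φ|)
      refine mul_le_mul_of_nonneg_left ?_ (mul_nonneg (hγ0 n) (by linarith [hγ1 n]))
      refine le_min ?_ ?_ <;> linarith [e12.1, e12.2]
    · rw [hγa n (by omega)]
      simp
  have hfin : Γ * (2 * Eη / Z) ≤ Eη / 2 := by
    have e13 : Γ * (2 * Eη / Z) ≤ Z / 4 * (2 * Eη / Z) :=
      mul_le_mul_of_nonneg_right hΓZ (by positivity)
    have e14 : Z / 4 * (2 * Eη / Z) = Eη / 2 := by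
      field_simp
      ring
    linarith
  have e15 : ε * Ab ≤ ε * (2 * Γ) := mul_le_mul_of_nonneg_left hAbΓ hε0
  have e16 : Γ * (20 * ε) ≤ Γ * θ := mul_le_mul_of_nonneg_left hε hΓ0
  have e17 : θ * c0 ≤ θ * (2 * Γ) := mul_le_mul_of_nonneg_left (hcAb.trans hAbΓ) hθ0
  have e18 : 0 ≤ Γ * ε := mul_nonneg hΓ0 hε0
  nlinarith [hV1, hEh2, hgain1, hfin]

end Pool.Agent.SG
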