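import Pool.Agent.SG.LZBig
import Pool.Agent.SG.LZSmall

set_option autoImplicit false

/-!
# Module LocalZone: `lzBig` and `lzSmall` together

`C = C_big + C_small ^ (a+2)`-ish: `C W^2 ≤ N^(a+2)` and `W ≥ 1` give `C_small ≤ N`.
-/

namespace Pool.Agent.SG

open MvPolynomial Pool.Agent.helper5.NBS Pool.Agent.helper89.Segre Pool.Agent.SH9
open Pool.Agent.helper25.ST

theorem localZone {a : ℕ} (h : NN a) : ∃ C : ℕ, 1 ≤ C ∧ ∀ (W : ℕ) (gs : Multiset ℕ), 1 ≤ W →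
    (∀ m ∈ gs, W < 2 * m ∧ m ≤ W) → C * W ^ 2 ≤ Multiset.card gs ^ (a + 2) →
    ∃ nL nR : ℕ, Win gs nL nR (100 * (Multiset.card gs : ℝ) * W) ∧ 1 ≤ nL ∧
      Sq gs ≤ 2 * nL ^ 2 ∧ nR ^ 2 ≤ 3 * Sq gs := by
  obtain ⟨W0, C1, h1⟩ := lzBig h
  obtain ⟨C2, h2⟩ := lzSmall W0
  refine ⟨C1 + C2 ^ (a + 2) + 1, by omega, fun W gs hW hgs hC => ?_⟩
  have hW2 : 1 ≤ W ^ 2 := Nat.one_le_pow _ _ hW
  rcases le_total W0 W with hWW | hWW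
  · exact h1 W gs hW hWW hgs (le_trans (Nat.mul_le_mul_right _ (by omega)) hC)
  · refine h2 W gs hW hWW hgs ?_
    have h3 : C2 ^ (a + 2) ≤ Multiset.card gs ^ (a + 2) :=
      calc C2 ^ (a + 2) ≤ C1 + C2 ^ (a + 2) + 1 := by omega
        _ ≤ (C1 + C2 ^ (a + 2) + 1) * W ^ 2 := Nat.le_mul_of_pos_right _ hW2
        _ ≤ _ := hC
    exact (Nat.pow_le_pow_iff_left (by omega)).1 h3

end Pool.Agent.SG
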