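import Pool.Agent.SG.K1
import Pool.Agent.SG.CollideAll
import Pool.Agent.SG.GPos
import Pool.Agent.SH9.CW

set_option autoImplicit false

/-!
# Module Master: the collision inequality for an arbitrary group

`hh d (gs + ms) ≤ ∑_(n ≤ d) max (u_n - cn gs n) 0`, `u_n = hh d (n :: ms) - hh d ((n+1) :: ms)`.

All terms are integers; `r := ` the right hand side. Suppose `¬ E d (gs + ms + 1^r)`. Follow `cw_gen`
(SH9/CW.lean) with `collideAll` instead of `collide`: `gs = univ.val.map ν` (`q` points, which collide to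
`q0`), `ms = univ.val.map μ`, `r` simple points (the points of `ms` and the simple points stay apart:
`π` injective on them). Choose
* `cG` (positions of the group) with `P(c) ≠ 0` and `Nag.hh n cG ν = hh n gs` for all `n ≤ d`
  (`dim_generic`, finitely many conditions): so `A_n` = homogeneous components of degree `n` of
  `HH n cG ν` has dimension `hk gs (n+1) - hk gs n` (kernel = `HH (n-1) cG ν`),
* `q0, p` with `Nag.hh d (q0, p) (n, μ) = hh d (n :: ms)` for all `n ≤ d + 1`: `G_n` = leading forms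
  (`homogeneousComponent n ∘ trans q0`) of the `F ∈ HH d (q0, p) (n, μ)` has dimension `u_n`
  (`Nag.hh_step`, `Nag.uu`),
* `g` invertible, general for `general_position_excess` for all pairs `(G_n, A_n)`, `n ≤ d`
  (`lact` in the same direction as in `cw_gen`) and with `P(c') ≠ 0`, `c'` the configuration with the
  group moved by `g`.
The space `Y` of all `F`, `wdeg F ≤ d`, multiplicities `μ` at `p`, whose component of degree `n` at `q0` is
in `g A_n` for all `n`, has dimension `≤ ∑_n dim (G_n ∩ g A_n) ≤ ∑ (u_n + dim A_n - (n+1))^+ = r`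
(filter by the order at `q0`: `Y_n = Y ∩ {ord ≥ n}`, `Y_n / Y_(n+1)` embeds in `G_n ∩ g A_n`,
`Y_(d+1) = 0`). So there are `r` points `z` at which only `0 ∈ Y` vanishes (choose successively). The
curve `F ≠ 0` given by `collideAll` for `q0, p, z` is in `Y` and vanishes at `z`: contradiction
(the multiplicity at `p j` and `z j`: for `N < μ j` the `g` of degree `≤ N` with multiplicity `μ j` at a
point is `0`, so the components of degree `N` vanish).
-/

namespace Pool.Agent.SG

open MvPolynomial Pool.Agent.helper5.NBS Pool.Agent.helper89.Segre Pool.Agent.SH9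
open Pool.Agent.helper25.ST

/-- a space of dimension at most `r` has `r` points at which only zero vanishes -/
private lemma exists_points (r : ℕ) : ∀ (Y : Submodule ℂ R2) [Module.Finite ℂ Y],
    Module.finrank ℂ Y ≤ r → ∃ z : Fin r → Fin 2 → ℂ, ∀ F ∈ Y,
      (∀ j, F ∈ ptIdeal (z j) ^ 1) → F = 0 := by
  induction r with
  | zero =>
    intro Y _ h
    refine ⟨fun j => j.elim0, fun F hF _ => ?_⟩
    have h1 : Module.finrank ℂ Y = 0 := by omega
    rw [Submodule.finrank_eq_zero] at h1
    rw [h1] at hF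
    exact (Submodule.mem_bot ℂ).1 hF
  | succ r ih =>
    intro Y hfin h
    by_cases h0 : Y = ⊥
    · refine ⟨fun _ _ => 0, fun F hF _ => ?_⟩
      rw [h0] at hF
      exact (Submodule.mem_bot ℂ).1 hF
    · obtain ⟨F0, hF0, hne⟩ := Submodule.exists_mem_ne_zero_of_ne_bot h0
      obtain ⟨x, hx⟩ : ∃ x : Fin 2 → ℂ, eval x F0 ≠ 0 := by
        by_contra hcon
        push Not at hcon
        exact hne (MvPolynomial.funext (fun x => by rw [hcon x, map_zero]))
      let Z : Submodule ℂ R2 := (ptIdeal x ^ 1).restrictScalars ℂ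
      have hlt : Y ⊓ Z < Y := by
        refine lt_of_le_of_ne inf_le_left ?_
        intro he
        have h1 : F0 ∈ Y ⊓ Z := by rw [he]; exact hF0
        have h2 : F0 ∈ ptIdeal x ^ 1 := h1.2
        rw [pow_one, mem_ptIdeal_iff] at h2
        exact hx h2
      have hfin' : Module.Finite ℂ (Y ⊓ Z : Submodule ℂ R2) :=
        Submodule.finiteDimensional_of_le inf_le_left
      have h3 := Submodule.finrank_lt_finrank_of_lt hlt
      obtain ⟨z, hz⟩ := ih (Y ⊓ Z) (by omega)
      refine ⟨Fin.cons x z, fun F hF hF2 => ?_⟩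
      apply hz F
      · refine ⟨hF, ?_⟩
        have := hF2 0
        rw [Fin.cons_zero] at this
        exact this
      · intro j
        have := hF2 j.succ
        rw [Fin.cons_succ] at this
        exact this

/-- dimension of a space filtered by the order at a point -/
private lemma filt (q0 : Fin 2 → ℂ) (d : ℕ) (Y : Submodule ℂ R2) [Module.Finite ℂ Y]
    (hY : ∀ F ∈ Y, wdeg 1 F ≤ d) (U : ℕ → Submodule ℂ R2) (hUf : ∀ n, Module.Finite ℂ (U n))
    (hU : ∀ n, ∀ F ∈ Y, F ∈ ptIdeal q0 ^ n → Pool.Agent.helper9.Nag.lam q0 n F ∈ U n) (k : ℕ)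
    (hk : k ≤ d + 1) :
    Module.finrank ℂ (Y ⊓ (ptIdeal q0 ^ (d + 1 - k)).restrictScalars ℂ : Submodule ℂ R2) ≤
      ∑ n ∈ Finset.Ico (d + 1 - k) (d + 1), Module.finrank ℂ (U n) := by
  induction k with
  | zero =>
    have h1 : (Y ⊓ (ptIdeal q0 ^ (d + 1 - 0)).restrictScalars ℂ : Submodule ℂ R2) = ⊥ := by
      rw [eq_bot_iff]
      rintro F ⟨hF, hF2⟩
      rw [Submodule.mem_bot]
      by_contra hne
      have h2 : F ∈ ptIdeal q0 ^ (d + 1) := hF2
      rw [mem_pow_iff_le_mult hne] at h2
      have h3 := CWaux.mult_le_deg q0 hne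
      have h4 := hY F hF
      omega
    rw [h1, finrank_bot]
    exact Nat.zero_le _
  | succ k ih =>
    have ih := ih (by omega)
    set n := d + 1 - (k + 1) with hn
    have hn1 : d + 1 - k = n + 1 := by omega
    rw [hn1] at ih
    have hs : ∑ n ∈ Finset.Ico n (d + 1), Module.finrank ℂ (U n) =
        Module.finrank ℂ (U n) + ∑ n ∈ Finset.Ico (n + 1) (d + 1), Module.finrank ℂ (U n) := by
      rw [Finset.sum_eq_sum_Ico_succ_bot (by omega)]
    rw [hs]
    set Yn : Submodule ℂ R2 := Y ⊓ (ptIdeal q0 ^ n).restrictScalars ℂ with hYn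
    have hfin : Module.Finite ℂ Yn := Submodule.finiteDimensional_of_le inf_le_left
    set g := (Pool.Agent.helper9.Nag.lam q0 n).domRestrict Yn with hg
    have h1 := LinearMap.finrank_range_add_finrank_ker g
    have h2 : LinearMap.range g ≤ U n := by
      rintro _ ⟨F, rfl⟩
      exact hU n F F.2.1 F.2.2
    have h3 : (LinearMap.ker g).map Yn.subtype ≤
        (Y ⊓ (ptIdeal q0 ^ (n + 1)).restrictScalars ℂ : Submodule ℂ R2) := by
      rintro _ ⟨F, hF, rfl⟩
      refine ⟨F.2.1, ?_⟩
      have h4 : Pool.Agent.helper9.Nag.lam q0 n (F : R2) = 0 := hF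
      have h5 : (F : R2) ∈ ptIdeal q0 ^ n := F.2.2
      rw [Pool.Agent.helper9.Nag.lam_eq_zero_iff h5] at h4
      exact h4
    have hfin2 : Module.Finite ℂ
        (Y ⊓ (ptIdeal q0 ^ (n + 1)).restrictScalars ℂ : Submodule ℂ R2) :=
      Submodule.finiteDimensional_of_le inf_le_left
    have h6 := Submodule.finrank_mono h3
    rw [Submodule.finrank_map_subtype_eq] at h6
    have := hUf n
    have h7 := Submodule.finrank_mono h2
    omega

/-- the components of degree `n` of the polynomials of degree `≤ n` -/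
private lemma comp_le {q : ℕ} (n : ℕ) (c : Fin q → Fin 2 → ℂ) (ν : Fin q → ℕ) :
    Module.finrank ℂ ((Pool.Agent.helper9.Nag.HH n c ν).map (homogeneousComponent n)) +
      (if n = 0 then 0 else Pool.Agent.helper9.Nag.hh (n - 1) c ν) ≤
      Pool.Agent.helper9.Nag.hh n c ν := by
  have hfin := Pool.Agent.helper9.Nag.finite_HH n c ν
  set H := Pool.Agent.helper9.Nag.HH n c ν with hH
  set g := (homogeneousComponent n : R2 →ₗ[ℂ] R2).domRestrict H with hg
  have h1 := LinearMap.finrank_range_add_finrank_ker g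
  have h2 : LinearMap.range g = H.map (homogeneousComponent n) := by
    rw [hg, LinearMap.range_domRestrict]
  rw [h2] at h1
  have h1' : Module.finrank ℂ (H.map (homogeneousComponent n : R2 →ₗ[ℂ] R2)) +
      Module.finrank ℂ (LinearMap.ker g) = Module.finrank ℂ H := h1
  rcases Nat.eq_zero_or_pos n with h0 | h0
  · rw [if_pos h0, Pool.Agent.helper9.Nag.hh, ← hH]
    omega
  · rw [if_neg (by omega)]
    have h3 : Pool.Agent.helper9.Nag.HH (n - 1) c ν ≤ (LinearMap.ker g).map H.subtype := by
      intro F hF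
      rw [Pool.Agent.helper9.Nag.mem_HH] at hF
      have hF' : F ∈ H := by
        rw [hH, Pool.Agent.helper9.Nag.mem_HH]
        exact ⟨hF.1.trans (by omega), hF.2⟩
      refine ⟨⟨F, hF'⟩, ?_, rfl⟩
      show homogeneousComponent n F = 0
      ext x
      rw [coeff_homogeneousComponent, coeff_zero]
      split_ifs with h4
      · exact (Pool.Agent.helper9.Nag.wdeg_le.1 hF.1) x (by omega)
      · rfl
    have hfin3 : Module.Finite ℂ ((LinearMap.ker g).map H.subtype) :=
      inferInstance
    have h4 := Submodule.finrank_mono h3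
    have h5 : Module.finrank ℂ ((LinearMap.ker g).map H.subtype) =
        Module.finrank ℂ (LinearMap.ker g) := Submodule.finrank_map_subtype_eq _ _
    rw [Pool.Agent.helper9.Nag.hh, Pool.Agent.helper9.Nag.hh, ← hH]
    omega

theorem master (d : ℕ) (gs ms : Multiset ℕ) :
    (hh d (gs + ms) : ℝ) ≤ ∑ n ∈ Finset.range (d + 1),
      max ((hh d (n ::ₘ ms) : ℝ) - (hh d ((n + 1) ::ₘ ms) : ℝ) - cn gs n) 0 := by
  classical
  obtain ⟨s, μ, hms⟩ := CWaux.exists_fun ms
  obtain ⟨q, ν, hgs⟩ := CWaux.exists_fun gs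
  -- the generic configuration of the group
  choose Qa hQa0 hQa using fun n : ℕ => dim_generic (d := n) ν
  set QA : PtRing q := ∏ n ∈ Finset.range (d + 1), Qa n with hQA
  have hQA0 : QA ≠ 0 := Finset.prod_ne_zero_iff.2 fun n _ => hQa0 n
  -- the generic configuration `(q0, p)`
  choose Qb hQb0 hQb using fun n : ℕ => dim_generic (d := d) (Fin.cons n μ : Fin (s + 1) → ℕ)
  set QB : PtRing (s + 1) := ∏ n ∈ Finset.range (d + 2), Qb n with hQB
  have hQB0 : QB ≠ 0 := Finset.prod_ne_zero_iff.2 fun n _ => hQb0 n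
  obtain ⟨y, hy, -, -⟩ := CWaux.exists_pt3 (ι := Fin (s + 1)) hQB0 hQB0 hQB0 id id id
    Function.injective_id Function.injective_id Function.injective_id
  have hyn : ∀ n, n ≤ d + 1 → Pool.Agent.helper9.Nag.hh d y (Fin.cons n μ : Fin (s + 1) → ℕ) =
      hh d (n ::ₘ ms) := by
    intro n hn
    rw [hQb n y, hms, CWaux.map_cons]
    intro h0
    apply hy
    show evP y QB = 0
    rw [hQB, map_prod]
    exact Finset.prod_eq_zero (Finset.mem_range.2 (by omega)) h0
  set q0 : Fin 2 → ℂ := y 0 with hq0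
  set p : Fin s → Fin 2 → ℂ := fun i => y i.succ with hp
  have hyc : (Fin.cons q0 p : Fin (s + 1) → Fin 2 → ℂ) = y := by
    funext i
    refine Fin.cases ?_ (fun i => ?_) i
    · rw [Fin.cons_zero]
    · rw [Fin.cons_succ]
  -- leading forms at `q0`
  set G : ℕ → Submodule ℂ R2 := fun n =>
    Pool.Agent.helper9.Nag.UU d y (Fin.cons n μ : Fin (s + 1) → ℕ) 0 with hG
  have hGf : ∀ n, Module.Finite ℂ (G n) := fun n => Pool.Agent.helper9.Nag.finite_UU _ _ _ _
  have hGh : ∀ n, G n ≤ homogeneousSubmodule (Fin 2) ℂ n := fun n =>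
    Pool.Agent.helper9.Nag.UU_le _ _ _ _
  have hGd : ∀ n, n ≤ d → Module.finrank ℂ (G n) + hh d ((n + 1) ::ₘ ms) = hh d (n ::ₘ ms) := by
    intro n hn
    have h1 := Pool.Agent.helper9.Nag.hh_step d y (Fin.cons n μ : Fin (s + 1) → ℕ) 0
    have h2 : Function.update (Fin.cons n μ : Fin (s + 1) → ℕ) 0
        ((Fin.cons n μ : Fin (s + 1) → ℕ) 0 + 1) = Fin.cons (n + 1) μ := by
      rw [Fin.cons_zero, Fin.update_cons_zero]
    rw [h2, hyn n (by omega), hyn (n + 1) (by omega)] at h1
    have h3 : Module.finrank ℂ (G n) =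
        Pool.Agent.helper9.Nag.uu d y (Fin.cons n μ : Fin (s + 1) → ℕ) 0 := rfl
    rw [h3]
    omega
  -- the group: choose its configuration later; numerical data
  set a : ℕ → ℕ := fun n => hh n gs - (if n = 0 then 0 else hh (n - 1) gs) with ha
  set r : ℕ := ∑ n ∈ Finset.range (d + 1), (Module.finrank ℂ (G n) + a n - (n + 1)) with hr
  -- the configuration of the group exists independently of `P`; dimensions
  have hmono : ∀ n, n ≤ d → (if n = 0 then 0 else hh (n - 1) gs) ≤ hh n gs := by
    intro n hn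
    obtain ⟨x, hx, -, -⟩ := CWaux.exists_pt3 (ι := Fin q) hQA0 hQA0 hQA0 id id id
      Function.injective_id Function.injective_id Function.injective_id
    have hxn : ∀ n, n ≤ d → Pool.Agent.helper9.Nag.hh n x ν = hh n gs := by
      intro n hn
      rw [hQa n x, hgs]
      intro h0
      apply hx
      show evP x QA = 0
      rw [hQA, map_prod]
      exact Finset.prod_eq_zero (Finset.mem_range.2 (by omega)) h0
    have h1 := comp_le n x ν
    rw [hxn n hn] at h1
    by_cases h0 : n = 0
    · rw [if_pos h0]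
      exact Nat.zero_le _
    · rw [if_neg h0] at h1 ⊢
      rw [hxn (n - 1) (by omega)] at h1
      omega
  suffices hmain : hh d (gs + ms) ≤ r by
    have h1 : (hh d (gs + ms) : ℝ) ≤ (r : ℝ) := by exact_mod_cast hmain
    refine h1.trans ?_
    rw [hr, Nat.cast_sum]
    refine Finset.sum_le_sum fun n hn => ?_
    have hn' : n ≤ d := by
      rw [Finset.mem_range] at hn
      omega
    have h2 := hGd n hn'
    have h3 := hmono n hn'
    have h4 : (a n : ℝ) = (hh n gs : ℝ) - ((if n = 0 then 0 else hh (n - 1) gs : ℕ) : ℝ) := by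
      rw [ha]
      simp only
      rw [Nat.cast_sub h3]
    have h5 : (Module.finrank ℂ (G n) : ℝ) =
        (hh d (n ::ₘ ms) : ℝ) - (hh d ((n + 1) ::ₘ ms) : ℝ) := by
      have : ((Module.finrank ℂ (G n) + hh d ((n + 1) ::ₘ ms) : ℕ) : ℝ) = (hh d (n ::ₘ ms) : ℝ) := by
        exact_mod_cast h2
      push_cast at this
      linarith
    have h6 : cn gs n = (n : ℝ) + 1 - (a n : ℝ) := by
      have e1 : hk gs (n + 1) = hh n gs := by
        rw [hk, if_neg (Nat.succ_ne_zero n), Nat.add_sub_cancel]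
      have e2 : hk gs n = (if n = 0 then 0 else hh (n - 1) gs) := rfl
      rw [cn, e1, e2, h4]
    rcases Nat.lt_or_ge (Module.finrank ℂ (G n) + a n) (n + 1) with h7 | h7
    · rw [Nat.sub_eq_zero_of_le h7.le, Nat.cast_zero]
      exact le_max_right _ _
    · refine le_max_of_le_left ?_
      rw [Nat.cast_sub h7, ← h5, h6]
      push_cast
      linarith
  rw [hh_le_iff]
  by_contra hcon
  have hN : ∀ c : Fin (q + s + r) → Fin 2 → ℂ,
      ¬ Emp d (Fin.append (Fin.append ν μ) (fun _ : Fin r => 1)) c := by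
    intro c hc
    apply hcon
    have h1 := E_of_emp hc
    rw [CWaux.map_append, CWaux.map_append, CWaux.map_const'] at h1
    rw [hgs, hms]
    exact h1
  obtain ⟨P, hP0, hP⟩ := collideAll hN
  obtain ⟨c, hcP, hcA, -⟩ := CWaux.exists_pt3 (ι := Fin (q + s + r)) hP0 hQA0 hQA0
    id (fun i : Fin q => Fin.castAdd r (Fin.castAdd s i))
    (fun i : Fin q => Fin.castAdd r (Fin.castAdd s i)) Function.injective_id
    ((Fin.castAdd_injective _ _).comp (Fin.castAdd_injective _ _))
    ((Fin.castAdd_injective _ _).comp (Fin.castAdd_injective _ _))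
  set cG : Fin q → Fin 2 → ℂ := fun i => c (Fin.castAdd r (Fin.castAdd s i)) with hcG
  have hcn : ∀ n, n ≤ d → Pool.Agent.helper9.Nag.hh n cG ν = hh n gs := by
    intro n hn
    rw [hQa n cG, hgs]
    intro h0
    apply hcA
    show evP cG QA = 0
    rw [hQA, map_prod]
    exact Finset.prod_eq_zero (Finset.mem_range.2 (by omega)) h0
  set A : ℕ → Submodule ℂ R2 := fun n =>
    (Pool.Agent.helper9.Nag.HH n cG ν).map (homogeneousComponent n) with hA
  have hAh : ∀ n, A n ≤ homogeneousSubmodule (Fin 2) ℂ n := by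
    rintro n _ ⟨F, _, rfl⟩
    rw [mem_homogeneousSubmodule]
    exact homogeneousComponent_isHomogeneous _ _
  have hAd : ∀ n, n ≤ d → Module.finrank ℂ (A n) ≤ a n := by
    intro n hn
    have h1 := comp_le n cG ν
    rw [hcn n hn] at h1
    show Module.finrank ℂ (A n) ≤ hh n gs - (if n = 0 then 0 else hh (n - 1) gs)
    by_cases h0 : n = 0
    · rw [if_pos h0] at h1 ⊢
      have h2 : Module.finrank ℂ (A n) + 0 ≤ hh n gs := h1
      omega
    · rw [if_neg h0] at h1 ⊢
      rw [hcn (n - 1) (by omega)] at h1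
      have h2 : Module.finrank ℂ (A n) + hh (n - 1) gs ≤ hh n gs := h1
      omega
  -- the matrix
  choose Δ hΔ0 hΔ using fun n : ℕ => general_position_excess (N := n) (G n) (A n) (hGh n) (hAh n)
  set D : MvPolynomial (Fin 2 × Fin 2) ℂ := ∏ n ∈ Finset.range (d + 1), Δ n with hD
  have hD0 : D ≠ 0 := Finset.prod_ne_zero_iff.2 fun n _ => hΔ0 n
  obtain ⟨P', hP'⟩ := exists_pull P c (fun i => (i : ℕ) < q)
  have hP'0 : P' ≠ 0 := by
    intro h
    have h5 := hP' (fun ij => if ij.1 = ij.2 then 1 else 0)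
    rw [h, map_zero] at h5
    apply hcP
    rw [h5]
    show evP c P = _
    congr 1
    congr 1
    funext i
    by_cases hi : (i : ℕ) < q
    · rw [if_pos hi, CWaux.gpt_one]
    · rw [if_neg hi]
  obtain ⟨g, hg⟩ : ∃ g : Fin 2 × Fin 2 → ℂ, eval g (D * P') ≠ 0 := by
    by_contra hcon
    push Not at hcon
    exact mul_ne_zero hD0 hP'0 (MvPolynomial.funext (fun x => by rw [hcon x, map_zero]))
  rw [map_mul] at hg
  have hgD : ∀ n, n ≤ d → eval g (Δ n) ≠ 0 := by
    intro n hn h0
    apply hg
    rw [hD, map_prod, Finset.prod_eq_zero (Finset.mem_range.2 (by omega)) h0, zero_mul]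
  have hgP : eval g P' ≠ 0 := fun h => hg (by rw [h]; ring)
  rw [hP'] at hgP
  -- the space `Y`
  set Y : Submodule ℂ R2 := Pool.Agent.helper9.Nag.HH d p μ ⊓
    ⨅ n : ℕ, (A n).comap ((lact g).toLinearMap ∘ₗ Pool.Agent.helper9.Nag.lam q0 n) with hY
  have hYmem : ∀ F : R2, F ∈ Y ↔ (wdeg 1 F ≤ d ∧ ∀ i, F ∈ ptIdeal (p i) ^ μ i) ∧
      ∀ n, lact g (Pool.Agent.helper9.Nag.lam q0 n F) ∈ A n := by
    intro F
    rw [hY, Submodule.mem_inf, Pool.Agent.helper9.Nag.mem_HH, Submodule.mem_iInf]
    rfl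
  have hHf := Pool.Agent.helper9.Nag.finite_HH d p μ
  have hYf : Module.Finite ℂ Y := Submodule.finiteDimensional_of_le (inf_le_left :
    Y ≤ Pool.Agent.helper9.Nag.HH d p μ)
  set U : ℕ → Submodule ℂ R2 := fun n => G n ⊓ (A n).comap (lact g).toLinearMap with hU
  have hUf : ∀ n, Module.Finite ℂ (U n) := fun n =>
    have := hGf n
    Submodule.finiteDimensional_of_le (inf_le_left : U n ≤ G n)
  have hUd : ∀ n, n ≤ d → Module.finrank ℂ (U n) ≤ Module.finrank ℂ (G n) + a n - (n + 1) := by
    intro n hn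
    have h1 : Module.finrank ℂ (U n) ≤
        Module.finrank ℂ (G n) + Module.finrank ℂ (A n) - (n + 1) :=
      hΔ n g (hgD n hn) (U n) inf_le_left (fun f hf => hf.2)
    have h2 := hAd n hn
    omega
  have hYU : ∀ n, ∀ F ∈ Y, F ∈ ptIdeal q0 ^ n → Pool.Agent.helper9.Nag.lam q0 n F ∈ U n := by
    intro n F hF hFn
    rw [hYmem] at hF
    refine ⟨?_, hF.2 n⟩
    refine ⟨F, ?_, ?_⟩
    · show F ∈ Pool.Agent.helper9.Nag.HH d y (Fin.cons n μ : Fin (s + 1) → ℕ)
      rw [Pool.Agent.helper9.Nag.mem_HH]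
      refine ⟨hF.1.1, fun i => ?_⟩
      refine Fin.cases ?_ (fun i => ?_) i
      · rw [Fin.cons_zero]
        exact hFn
      · rw [Fin.cons_succ]
        exact hF.1.2 i
    · rfl
  have hYr : Module.finrank ℂ Y ≤ r := by
    have h1 := filt q0 d Y (fun F hF => ((hYmem F).1 hF).1.1) U hUf hYU (d + 1) le_rfl
    have h2 : (Y ⊓ (ptIdeal q0 ^ (d + 1 - (d + 1))).restrictScalars ℂ : Submodule ℂ R2) = Y := by
      rw [inf_eq_left]
      intro F _
      show F ∈ ptIdeal q0 ^ (d + 1 - (d + 1))
      rw [Nat.sub_self, pow_zero, Ideal.one_eq_top]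
      exact Submodule.mem_top
    rw [h2, Nat.sub_self, ← Finset.range_eq_Ico] at h1
    refine h1.trans ?_
    rw [hr]
    refine Finset.sum_le_sum fun n hn => hUd n ?_
    rw [Finset.mem_range] at hn
    omega
  obtain ⟨z, hz⟩ := exists_points r Y hYr
  -- collision
  obtain ⟨F, hF0, hFd, hF⟩ := hP _ hgP (s + r + 1)
    (Fin.append (Fin.append (fun _ : Fin q => (0 : Fin (s + r + 1)))
      (fun i : Fin s => (Fin.castAdd r i).succ)) (fun j : Fin r => (Fin.natAdd s j).succ))
    (Fin.cons q0 (Fin.append p z) : Fin (s + r + 1) → Fin 2 → ℂ)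
  apply hF0
  apply hz F
  · rw [hYmem]
    refine ⟨⟨hFd, fun j => ?_⟩, fun n => ?_⟩
    · rw [mem_ptIdeal_pow]
      intro x hx
      obtain ⟨f, hf1, hf2, hf3⟩ := hF (Fin.castAdd r j).succ x.degree
      have h5 := hf2 (Fin.castAdd r (Fin.natAdd q j)) (by
        rw [Fin.append_left, Fin.append_right])
      rw [Fin.append_left, Fin.append_right] at h5
      have h6 : f = 0 := by
        by_contra hne
        rw [mem_pow_iff_le_mult hne] at h5
        have h8 := h5.trans ((CWaux.mult_le_deg _ hne).trans hf1)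
        omega
      have h7 := hf3 x rfl
      rw [Fin.cons_succ, Fin.append_left, h6, coeff_zero] at h7
      exact h7.symm
    · obtain ⟨f, hf1, hf2, hf3⟩ := hF 0 n
      rw [Fin.cons_zero] at hf3
      have hfm : ∀ i : Fin q, lact g f ∈ ptIdeal (cG i) ^ ν i := by
        intro i
        apply lact_mem
        have h5 := hf2 (Fin.castAdd r (Fin.castAdd s i)) (by
          rw [Fin.append_left, Fin.append_left])
        rw [Fin.append_left, Fin.append_left, if_pos (by
          rw [Fin.val_castAdd, Fin.val_castAdd]; exact i.2)] at h5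
        exact h5
      have heq : Pool.Agent.helper9.Nag.lam q0 n F = homogeneousComponent n f := by
        rw [Pool.Agent.helper9.Nag.lam_apply]
        ext x
        rw [coeff_homogeneousComponent, coeff_homogeneousComponent]
        split_ifs with h5
        · exact (hf3 x h5).symm
        · rfl
      rw [heq, ← hom_lact]
      refine ⟨lact g f, ?_, rfl⟩
      show lact g f ∈ Pool.Agent.helper9.Nag.HH n cG ν
      rw [Pool.Agent.helper9.Nag.mem_HH]
      exact ⟨(wdeg_lact g f).trans hf1, hfm⟩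
  · intro j
    rw [mem_ptIdeal_pow]
    intro x hx
    obtain ⟨f, hf1, hf2, hf3⟩ := hF (Fin.natAdd s j).succ x.degree
    have h5 := hf2 (Fin.natAdd (q + s) j) (by rw [Fin.append_right])
    rw [Fin.append_right] at h5
    have h6 : f = 0 := by
      by_contra hne
      rw [mem_pow_iff_le_mult hne] at h5
      have h8 := h5.trans ((CWaux.mult_le_deg _ hne).trans hf1)
      omega
    have h7 := hf3 x rfl
    rw [Fin.cons_succ, Fin.append_right, h6, coeff_zero] at h7
    exact h7.symm

end Pool.Agent.SG
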