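import Pool.Agent.SG.HHB
import Pool.Agent.helper25.ST.FinN

set_option autoImplicit false

/-!
# Module NefE: empty and regular systems from the nefness `NN a`

`empN`: `D = Nat.sqrt (Sq + X) + 1`; `numN` (ST/FinN.lean) with `Δ = X`, `Sg = Sq ms`: `D d < Sq`,
`d ≤ D`, `Sq + X ≤ D^2`. `X ≤ Sq`, so `(D-1)^2 ≤ 2 Sq ≤ 2 A d^2`, `D^2 ≤ 2 (D-1)^2 + 2 ≤ (4A+2) d^2`
(`d ≥ 1`), so `D^2 ≤ (4A+2) f Sq(filter)`: `NN a` for `(4A+2) f`, then `finN'` (ST/FinP.lean).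
(`ms = univ.val.map m`: `exists_fin`; `Sq (ms.filter (· ≤ W)) = ∑ i with m i ≤ W, m i ^ 2`.)

`regN`: `goodR'` (ST/FinP.lean) with the class `(d+3; m+1)`: `NN a` for `16 f` with `W + 1`,
`X' = S1 + 3d + 7`: `S2 + X' ≤ (d+3)^2` because `S2 + S1 = 2 cd + 2 S1 ≤ (d+1)(d+2)` (`two_cd`);
`C = 2^(a+2) C0 + 2 C0 + 1`: `C0 (W+1) ≤ 2 C0 W ≤ d`, `C0 (m+1) ≤ d` (`m ≥ 1`: `m + 1 ≤ 2m`; `m = 0`:
`C0 ≤ C W ≤ d`), `(d+3)^2 ≤ 16 d^2`, `C0 (W+1)^(a+2) ≤ C0 2^(a+2) W^(a+2) ≤ (S1 + d) d^a ≤ X' (d+3)^a`.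
Then `hh_of_good`.
-/

namespace Pool.Agent.SG

open MvPolynomial Pool.Agent.helper5.NBS Pool.Agent.helper89.Segre Pool.Agent.SH9
open Pool.Agent.helper25.ST

private lemma exF (ms : Multiset ℕ) : ∃ n : ℕ, ∃ m : Fin n → ℕ, Finset.univ.val.map m = ms :=
  ⟨_, exists_fin ms⟩

private lemma Sq_map {n : ℕ} (m : Fin n → ℕ) : Sq (Finset.univ.val.map m) = ∑ i, m i ^ 2 := by
  rw [Sq, Multiset.map_map]
  rfl

private lemma Sq_filter_map {n : ℕ} (m : Fin n → ℕ) (W : ℕ) :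
    Sq ((Finset.univ.val.map m).filter fun x => x ≤ W) = ∑ i with m i ≤ W, m i ^ 2 := by
  rw [Multiset.filter_map, Sq, Multiset.map_map]
  rfl

theorem empN {a : ℕ} (h : NN a) (f A : ℕ) : ∃ C : ℕ, 1 ≤ C ∧ ∀ (d W X : ℕ) (ms : Multiset ℕ), 1 ≤ W →
    C * W ≤ d → (∀ m ∈ ms, C * m ≤ d) → d ^ 2 ≤ f * Sq (ms.filter fun m => m ≤ W) →
    Sq ms ≤ A * d ^ 2 → C * W ^ (a + 2) ≤ X * d ^ a → d ^ 2 + 2 * d + X + 1 ≤ Sq ms → E d ms := by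
  obtain ⟨C0, hC0⟩ := h ((4 * A + 2) * f)
  refine ⟨C0 + 1, by omega, ?_⟩
  intro d W X ms hW hCW hCm hf hA hX hS
  obtain ⟨n, m, rfl⟩ := exF ms
  rw [Sq_filter_map] at hf
  rw [Sq_map] at hA hS
  obtain ⟨n1, n2, n3⟩ := numN hS
  have hd : 1 ≤ d := by nlinarith
  have hq1 := Nat.sqrt_le' (∑ i, m i ^ 2 + X)
  generalize Nat.sqrt (∑ i, m i ^ 2 + X) = q at n1 n2 n3 hq1
  have hD2 : (q + 1) ^ 2 ≤ (4 * A + 2) * d ^ 2 := by
    have h1 : q ^ 2 ≤ 2 * (A * d ^ 2) := by omega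
    have h2 : 1 ≤ d ^ 2 := Nat.one_le_pow _ _ hd
    have h3 : (q + 1) ^ 2 ≤ 2 * q ^ 2 + 2 := by
      zify
      nlinarith [sq_nonneg ((q : ℤ) - 1)]
    nlinarith
  refine finN' (D := q + 1) (hC0 n m (q + 1) W X hW ?_ ?_ ?_ ?_ n3) n1
  · nlinarith
  · intro i
    have h1 := hCm (m i) (Multiset.mem_map_of_mem m (Finset.mem_univ_val i))
    nlinarith
  · calc (q + 1) ^ 2 ≤ (4 * A + 2) * d ^ 2 := hD2
      _ ≤ (4 * A + 2) * (f * ∑ i with m i ≤ W, m i ^ 2) := Nat.mul_le_mul_left _ hf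
      _ = (4 * A + 2) * f * ∑ i with m i ≤ W, m i ^ 2 := by ring
  · calc C0 * W ^ (a + 2) ≤ (C0 + 1) * W ^ (a + 2) := Nat.mul_le_mul_right _ (by omega)
      _ ≤ X * d ^ a := hX
      _ ≤ X * (q + 1) ^ a := Nat.mul_le_mul_left _ (Nat.pow_le_pow_left n2 a)

theorem regN {a : ℕ} (h : NN a) (f : ℕ) : ∃ C : ℕ, 1 ≤ C ∧ ∀ (d W : ℕ) (ms : Multiset ℕ), 1 ≤ W →
    C * W ≤ d → (∀ m ∈ ms, C * m ≤ d) → d ^ 2 ≤ f * Sq (ms.filter fun m => m ≤ W) →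
    C * W ^ (a + 2) ≤ (S1 ms + d) * d ^ a → ((S1 ms : ℕ) : ℝ) ≤ vv d ms →
    (hh d ms : ℝ) = vv d ms := by
  obtain ⟨C0, hC0⟩ := h (16 * f)
  refine ⟨2 ^ (a + 2) * C0 + 2 * C0 + 1, by omega, ?_⟩
  intro d W ms hW hCW hCm hf hX hS
  obtain ⟨n, m, rfl⟩ := exF ms
  rw [Sq_filter_map] at hf
  have hP : 0 ≤ 2 ^ (a + 2) * C0 := Nat.zero_le _
  have hd : 1 ≤ d := by nlinarith
  have hd0 : 2 * C0 * W ≤ d := by nlinarith
  have s1 : ∑ i, (m i + 1) ^ 2 = S2 (Finset.univ.val.map m) := by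
    rw [S2, Multiset.map_map]
    rfl
  have hR : cd (Finset.univ.val.map m) + S1 (Finset.univ.val.map m) ≤ (d + 2).choose 2 := by
    unfold vv at hS
    have h1 : ((cd (Finset.univ.val.map m) + S1 (Finset.univ.val.map m) : ℕ) : ℝ) ≤
        (((d + 2).choose 2 : ℕ) : ℝ) := by
      rw [Nat.cast_add]
      linarith
    exact_mod_cast h1
  have e1 := two_cd (Finset.univ.val.map m)
  have e2 := two_choose d
  refine hh_of_good (goodR' (hC0 n (fun i => m i + 1) (d + 3) (W + 1)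
    (S1 (Finset.univ.val.map m) + 3 * d + 7) (by omega) ?_ ?_ ?_ ?_ ?_) hR)
  · nlinarith
  · intro i
    have h1 := hCm (m i) (Multiset.mem_map_of_mem m (Finset.mem_univ_val i))
    rcases Nat.eq_zero_or_pos (m i) with h0 | h0
    · simp only [h0]
      nlinarith
    · have h2 := h0
      nlinarith
  · have h1 : (d + 3) ^ 2 ≤ 16 * d ^ 2 := by nlinarith
    have h2 : ∑ i with m i ≤ W, m i ^ 2 ≤ ∑ i with m i + 1 ≤ W + 1, (m i + 1) ^ 2 := by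
      have h3 : (Finset.univ.filter fun i => m i + 1 ≤ W + 1) =
          Finset.univ.filter fun i => m i ≤ W := by
        apply Finset.filter_congr
        intro i _
        omega
      rw [h3]
      apply Finset.sum_le_sum
      intro i _
      exact Nat.pow_le_pow_left (by omega) 2
    calc (d + 3) ^ 2 ≤ 16 * d ^ 2 := h1
      _ ≤ 16 * (f * ∑ i with m i ≤ W, m i ^ 2) := Nat.mul_le_mul_left _ hf
      _ = 16 * f * ∑ i with m i ≤ W, m i ^ 2 := by ring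
      _ ≤ 16 * f * ∑ i with m i + 1 ≤ W + 1, (m i + 1) ^ 2 := Nat.mul_le_mul_left _ h2
  · have h1 : (W + 1) ^ (a + 2) ≤ 2 ^ (a + 2) * W ^ (a + 2) := by
      rw [← mul_pow]
      exact Nat.pow_le_pow_left (by omega) _
    calc C0 * (W + 1) ^ (a + 2) ≤ C0 * (2 ^ (a + 2) * W ^ (a + 2)) := Nat.mul_le_mul_left _ h1
      _ = 2 ^ (a + 2) * C0 * W ^ (a + 2) := by ring
      _ ≤ (2 ^ (a + 2) * C0 + 2 * C0 + 1) * W ^ (a + 2) := Nat.mul_le_mul_right _ (by omega)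
      _ ≤ (S1 (Finset.univ.val.map m) + d) * d ^ a := hX
      _ ≤ (S1 (Finset.univ.val.map m) + 3 * d + 7) * (d + 3) ^ a :=
          Nat.mul_le_mul (by omega) (Nat.pow_le_pow_left (by omega) a)
  · rw [s1]
    have h3 : (d + 1) * (d + 2) = d ^ 2 + 3 * d + 2 := by ring
    have h4 : (d + 3) ^ 2 = d ^ 2 + 6 * d + 9 := by ring
    omega

end Pool.Agent.SG
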