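import Pool.Agent.SG.Defs

set_option autoImplicit false

/-!
# Module PhiL: the Laplace mixture `Phi` (pure analysis)

For one width `b`: `F(v) = max v 0 + b exp(-|v|/b)/2` is differentiable, `F'(v) = exp(v/b)/2` for
`v ≤ 0`, `1 - exp(-v/b)/2` for `v ≥ 0`, so with `θ_b(v) = exp(-|v|/b)/2`: `θ_b ≤ F'`, `θ_b ≤ 1 - F'`.
`phi_stab`: `φ = F'(v0)`; for `|v - v0| ≤ Y`, `22 Y ≤ b`: `|F'(v) - F'(v0)| ≤ (Y/b) exp(Y/b) θ_b(v0) ≤
θ_b(v0)/20` (same sign: `|exp x - 1| ≤ |x| exp |x|`; different signs, `x = |v0|/b`, `y = |v|/b`,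
`x + y ≤ Y/b`: `1 - exp(-x)/2 - exp(-y)/2 ≤ (x+y)/2 ≤ (Y/b) exp(Y/b) exp(-x)/2`), mean value theorem.
(Alternatively avoid derivatives: `F` is convex with one-sided slopes..) For the mixture take the
corresponding mixtures of `φ` and `θ`.
`phi_contract`: `Phi q - Phi q' = (q - q') (b1 exp(-|v|/b1) - b2 exp(-|v|/b2)) / 2 ≤
(q - q') b1 exp(-|v|/b1)/2`, with `q - q' = q c/(4 b1)`: `≤ q c exp(-|v|/b1) / 8 ≤ θ c/4`.
`phi_mono_q`: `b exp(-|v|/b)` is nondecreasing in `b`.
-/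

namespace Pool.Agent.SG

/-- one width -/
private noncomputable def PhiL_G (b v : ℝ) : ℝ := max v 0 + b * Real.exp (-|v| / b) / 2

private noncomputable def PhiL_D (b v : ℝ) : ℝ :=
  if v ≤ 0 then Real.exp (v / b) / 2 else 1 - Real.exp (-v / b) / 2

private theorem PhiL_mix (q b1 b2 v : ℝ) :
    Phi q b1 b2 v = q * PhiL_G b1 v + (1 - q) * PhiL_G b2 v := by
  unfold Phi PhiL_G; ring

private theorem PhiL_exp_mono {b1 b2 v : ℝ} (hb2 : 0 < b2) (hb : b2 ≤ b1) :
    Real.exp (-|v| / b2) ≤ Real.exp (-|v| / b1) := by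
  apply Real.exp_le_exp.mpr
  have hb1 : 0 < b1 := lt_of_lt_of_le hb2 hb
  rw [neg_div, neg_div]
  exact neg_le_neg (div_le_div_of_nonneg_left (abs_nonneg v) hb2 hb)

private theorem PhiL_bexp_mono {b1 b2 v : ℝ} (hb2 : 0 < b2) (hb : b2 ≤ b1) :
    b2 * Real.exp (-|v| / b2) ≤ b1 * Real.exp (-|v| / b1) :=
  mul_le_mul hb (PhiL_exp_mono hb2 hb) (Real.exp_pos _).le (lt_of_lt_of_le hb2 hb).le

private theorem PhiL_hasDeriv {b v : ℝ} (hb : 0 < b) :
    HasDerivAt (PhiL_G b) (PhiL_D b v) v := by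
  have hb' : b ≠ 0 := hb.ne'
  have h1 : ∀ u : ℝ, HasDerivAt (fun u : ℝ => b * Real.exp (u / b) / 2) (Real.exp (u / b) / 2) u := by
    intro u
    have := ((((hasDerivAt_id u).div_const b).exp).const_mul b).div_const 2
    have e : b * (Real.exp (id u / b) * (1 / b)) / 2 = Real.exp (u / b) / 2 := by
      simp only [id]; field_simp
    rw [e] at this
    exact this
  have h2 : ∀ u : ℝ, HasDerivAt (fun u : ℝ => u + b * Real.exp (-u / b) / 2)
      (1 - Real.exp (-u / b) / 2) u := by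
    intro u
    have := (hasDerivAt_id u).add
      ((((((hasDerivAt_id u).neg).div_const b).exp).const_mul b).div_const 2)
    have e : 1 + b * (Real.exp ((-id) u / b) * (-1 / b)) / 2 = 1 - Real.exp (-u / b) / 2 := by
      simp only [id, Pi.neg_apply]; field_simp; ring
    rw [e] at this
    exact this
  have e1 : ∀ u : ℝ, u ≤ 0 → PhiL_G b u = b * Real.exp (u / b) / 2 := by
    intro u hu
    unfold PhiL_G
    rw [max_eq_right hu, abs_of_nonpos hu, neg_neg, zero_add]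
  have e2 : ∀ u : ℝ, 0 ≤ u → PhiL_G b u = u + b * Real.exp (-u / b) / 2 := by
    intro u hu
    unfold PhiL_G
    rw [max_eq_left hu, abs_of_nonneg hu]
  rcases lt_trichotomy v 0 with hv | hv | hv
  · have : PhiL_D b v = Real.exp (v / b) / 2 := by unfold PhiL_D; rw [if_pos hv.le]
    rw [this]
    refine (h1 v).congr_of_eventuallyEq ?_
    filter_upwards [Iio_mem_nhds hv] with u hu
    exact e1 u (le_of_lt hu)
  · subst hv
    have hD : PhiL_D b 0 = 1 / 2 := by unfold PhiL_D; simp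
    rw [hD, ← hasDerivWithinAt_univ, ← Set.Iic_union_Ici (a := (0 : ℝ))]
    apply HasDerivWithinAt.union
    · have := (h1 0).hasDerivWithinAt (s := Set.Iic 0)
      rw [zero_div, Real.exp_zero] at this
      exact this.congr (fun u hu => e1 u hu) (e1 0 le_rfl)
    · have := (h2 0).hasDerivWithinAt (s := Set.Ici 0)
      rw [neg_zero, zero_div, Real.exp_zero, show (1 : ℝ) - 1 / 2 = 1 / 2 by norm_num] at this
      exact this.congr (fun u hu => e2 u hu) (e2 0 le_rfl)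
  · have : PhiL_D b v = 1 - Real.exp (-v / b) / 2 := by
      unfold PhiL_D; rw [if_neg (not_le.mpr hv)]
    rw [this]
    refine (h2 v).congr_of_eventuallyEq ?_
    filter_upwards [Ioi_mem_nhds hv] with u hu
    exact e2 u (le_of_lt hu)

private theorem PhiL_exp_sub_one {x : ℝ} (hx : |x| ≤ 1 / 22) : |Real.exp x - 1| ≤ 1 / 20 := by
  have h := abs_le.mp hx
  have h1 : x + 1 ≤ Real.exp x := Real.add_one_le_exp x
  have h2 : -x + 1 ≤ Real.exp (-x) := Real.add_one_le_exp (-x)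
  have h3 : Real.exp x * Real.exp (-x) = 1 := by rw [← Real.exp_add]; simp
  have h4 : 0 < Real.exp x := Real.exp_pos x
  rw [abs_le]
  constructor
  · linarith
  · have h5 : Real.exp x * (21 / 22) ≤ 1 := by
      rw [← h3]
      exact mul_le_mul_of_nonneg_left (by linarith) h4.le
    linarith

/-- variation of the derivative -/
private theorem PhiL_D_var {b v v0 Y : ℝ} (hb : 0 < b) (hY2 : 22 * Y ≤ b) (hv : |v - v0| ≤ Y) :
    |PhiL_D b v - PhiL_D b v0| ≤ Real.exp (-|v0| / b) / 2 / 20 := by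
  have hx : |(v - v0) / b| ≤ 1 / 22 := by
    rw [abs_div, abs_of_pos hb, div_le_iff₀ hb]
    linarith
  have hx2 := abs_le.mp hx
  have hsub : (v - v0) / b = v / b - v0 / b := sub_div _ _ _
  rw [hsub] at hx2
  have hE := PhiL_exp_sub_one hx
  have hE' := PhiL_exp_sub_one (x := -((v - v0) / b)) (by rwa [abs_neg])
  unfold PhiL_D
  by_cases h0 : v0 ≤ 0
  · rw [if_pos h0, abs_of_nonpos h0, neg_neg]
    have hp : 0 < Real.exp (v0 / b) := Real.exp_pos _
    by_cases h1 : v ≤ 0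
    · rw [if_pos h1]
      have : Real.exp (v / b) = Real.exp (v0 / b) * Real.exp ((v - v0) / b) := by
        rw [← Real.exp_add]; congr 1; rw [hsub]; ring
      rw [this, show Real.exp (v0 / b) * Real.exp ((v - v0) / b) / 2 - Real.exp (v0 / b) / 2 =
        Real.exp (v0 / b) / 2 * (Real.exp ((v - v0) / b) - 1) by ring, abs_mul,
        abs_of_pos (by positivity : (0 : ℝ) < Real.exp (v0 / b) / 2)]
      calc _ ≤ Real.exp (v0 / b) / 2 * (1 / 20) :=
            mul_le_mul_of_nonneg_left hE (by positivity)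
        _ = _ := by ring
    · rw [if_neg h1]
      push Not at h1
      have a1 : -v / b + 1 ≤ Real.exp (-v / b) := Real.add_one_le_exp _
      have a2 : v0 / b + 1 ≤ Real.exp (v0 / b) := Real.add_one_le_exp _
      have a3 : 0 < v / b := div_pos h1 hb
      have a4 : v0 / b ≤ 0 := div_nonpos_of_nonpos_of_nonneg h0 hb.le
      have a5 : Real.exp (-v / b) ≤ 1 := by
        apply Real.exp_le_one_iff.mpr
        rw [neg_div]; linarith
      have a6 : Real.exp (v0 / b) ≤ 1 := Real.exp_le_one_iff.mpr a4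
      rw [neg_div] at a1 a5 ⊢
      rw [abs_le]
      constructor
      · linarith
      · linarith
  · rw [if_neg h0]
    push Not at h0
    rw [abs_of_pos h0]
    have hp : 0 < Real.exp (-v0 / b) := Real.exp_pos _
    by_cases h1 : v ≤ 0
    · rw [if_pos h1]
      have a1 : v / b + 1 ≤ Real.exp (v / b) := Real.add_one_le_exp _
      have a2 : -v0 / b + 1 ≤ Real.exp (-v0 / b) := Real.add_one_le_exp _
      have a3 : 0 < v0 / b := div_pos h0 hb
      have a4 : v / b ≤ 0 := div_nonpos_of_nonpos_of_nonneg h1 hb.le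
      have a5 : Real.exp (-v0 / b) ≤ 1 := by
        apply Real.exp_le_one_iff.mpr
        rw [neg_div]; linarith
      have a6 : Real.exp (v / b) ≤ 1 := Real.exp_le_one_iff.mpr a4
      rw [neg_div] at a2 a5 ⊢
      rw [abs_le]
      constructor
      · linarith
      · linarith
    · rw [if_neg h1]
      have : Real.exp (-v / b) = Real.exp (-v0 / b) * Real.exp (-((v - v0) / b)) := by
        rw [← Real.exp_add]; congr 1; rw [hsub]; ring
      rw [this, show 1 - Real.exp (-v0 / b) * Real.exp (-((v - v0) / b)) / 2 -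
        (1 - Real.exp (-v0 / b) / 2) =
        -(Real.exp (-v0 / b) / 2 * (Real.exp (-((v - v0) / b)) - 1)) by ring, abs_neg, abs_mul,
        abs_of_pos (by positivity : (0 : ℝ) < Real.exp (-v0 / b) / 2)]
      calc _ ≤ Real.exp (-v0 / b) / 2 * (1 / 20) :=
            mul_le_mul_of_nonneg_left hE' (by positivity)
        _ = _ := by ring

private theorem PhiL_one_width {b Y v0 : ℝ} (hY2 : 22 * Y ≤ b) (hb : 0 < b) :
    Real.exp (-|v0| / b) / 2 ≤ PhiL_D b v0 ∧ Real.exp (-|v0| / b) / 2 ≤ 1 - PhiL_D b v0 ∧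
      ∀ v v' : ℝ, |v - v0| ≤ Y → |v' - v0| ≤ Y →
        |PhiL_G b v - PhiL_G b v' - PhiL_D b v0 * (v - v')| ≤
          Real.exp (-|v0| / b) / 2 / 20 * |v - v'| := by
  refine ⟨?_, ?_, ?_⟩
  · unfold PhiL_D
    by_cases h0 : v0 ≤ 0
    · rw [if_pos h0, abs_of_nonpos h0, neg_neg]
    · rw [if_neg h0]
      push Not at h0
      rw [abs_of_pos h0]
      have : Real.exp (-v0 / b) ≤ 1 := by
        apply Real.exp_le_one_iff.mpr
        rw [neg_div]
        have := div_pos h0 hb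
        linarith
      linarith
  · unfold PhiL_D
    by_cases h0 : v0 ≤ 0
    · rw [if_pos h0, abs_of_nonpos h0, neg_neg]
      have : Real.exp (v0 / b) ≤ 1 :=
        Real.exp_le_one_iff.mpr (div_nonpos_of_nonpos_of_nonneg h0 hb.le)
      linarith
    · rw [if_neg h0]
      push Not at h0
      rw [abs_of_pos h0]
      linarith
  · intro v v' hv hv'
    have hconv : Convex ℝ (Set.Icc (v0 - Y) (v0 + Y)) := convex_Icc _ _
    have hm : v ∈ Set.Icc (v0 - Y) (v0 + Y) := by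
      have := abs_le.mp hv; constructor <;> linarith
    have hm' : v' ∈ Set.Icc (v0 - Y) (v0 + Y) := by
      have := abs_le.mp hv'; constructor <;> linarith
    have hder : ∀ x ∈ Set.Icc (v0 - Y) (v0 + Y),
        HasDerivWithinAt (fun u => PhiL_G b u - PhiL_D b v0 * u) (PhiL_D b x - PhiL_D b v0)
          (Set.Icc (v0 - Y) (v0 + Y)) x := by
      intro x _
      have h := (PhiL_hasDeriv (v := x) hb).sub ((hasDerivAt_id x).const_mul (PhiL_D b v0))
      rw [mul_one] at h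
      exact h.hasDerivWithinAt
    have hbd : ∀ x ∈ Set.Icc (v0 - Y) (v0 + Y),
        ‖PhiL_D b x - PhiL_D b v0‖ ≤ Real.exp (-|v0| / b) / 2 / 20 := by
      intro x hx
      rw [Real.norm_eq_abs]
      apply PhiL_D_var hb hY2
      rw [abs_le]; constructor <;> linarith [hx.1, hx.2]
    have key := hconv.norm_image_sub_le_of_norm_hasDerivWithin_le hder hbd hm' hm
    rw [Real.norm_eq_abs, Real.norm_eq_abs] at key
    calc _ = |PhiL_G b v - PhiL_D b v0 * v - (PhiL_G b v' - PhiL_D b v0 * v')| := by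
          congr 1; ring
      _ ≤ _ := key

/-- the slope and the second moment function of `Phi` at `v0` -/
theorem phi_stab {q b1 b2 Y v0 : ℝ} (hq0 : 0 ≤ q) (hq1 : q ≤ 1) (hY : 0 ≤ Y) (hY2 : 22 * Y ≤ b2)
    (hb2 : 0 < b2) (hb : b2 ≤ b1) :
    ∃ φ θ : ℝ, 0 ≤ θ ∧ θ ≤ φ ∧ θ ≤ 1 - φ ∧ q * Real.exp (-|v0| / b1) / 2 ≤ θ ∧
      ∀ v v' : ℝ, |v - v0| ≤ Y → |v' - v0| ≤ Y →
        |Phi q b1 b2 v - Phi q b1 b2 v' - φ * (v - v')| ≤ θ / 20 * |v - v'| := by
  have hb1 : 0 < b1 := lt_of_lt_of_le hb2 hb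
  obtain ⟨a1, a2, a3⟩ := PhiL_one_width (v0 := v0) (hY2.trans hb) hb1
  obtain ⟨c1, c2, c3⟩ := PhiL_one_width (v0 := v0) hY2 hb2
  have hq2 : 0 ≤ 1 - q := by linarith
  have p1 : 0 < Real.exp (-|v0| / b1) := Real.exp_pos _
  have p2 : 0 < Real.exp (-|v0| / b2) := Real.exp_pos _
  refine ⟨q * PhiL_D b1 v0 + (1 - q) * PhiL_D b2 v0,
    q * (Real.exp (-|v0| / b1) / 2) + (1 - q) * (Real.exp (-|v0| / b2) / 2), ?_, ?_, ?_, ?_, ?_⟩
  · positivity
  · exact add_le_add (mul_le_mul_of_nonneg_left a1 hq0) (mul_le_mul_of_nonneg_left c1 hq2)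
  · have := add_le_add (mul_le_mul_of_nonneg_left a2 hq0) (mul_le_mul_of_nonneg_left c2 hq2)
    calc _ ≤ _ := this
      _ = _ := by ring
  · have : 0 ≤ (1 - q) * (Real.exp (-|v0| / b2) / 2) := by positivity
    linarith
  · intro v v' hv hv'
    have h1 := mul_le_mul_of_nonneg_left (a3 v v' hv hv') hq0
    have h2 := mul_le_mul_of_nonneg_left (c3 v v' hv hv') hq2
    rw [PhiL_mix, PhiL_mix]
    calc _ = |q * (PhiL_G b1 v - PhiL_G b1 v' - PhiL_D b1 v0 * (v - v')) +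
          (1 - q) * (PhiL_G b2 v - PhiL_G b2 v' - PhiL_D b2 v0 * (v - v'))| := by
          congr 1; ring
      _ ≤ |q * (PhiL_G b1 v - PhiL_G b1 v' - PhiL_D b1 v0 * (v - v'))| +
          |(1 - q) * (PhiL_G b2 v - PhiL_G b2 v' - PhiL_D b2 v0 * (v - v'))| := abs_add_le _ _
      _ ≤ _ := by
          rw [abs_mul, abs_mul, abs_of_nonneg hq0, abs_of_nonneg hq2]
          refine (add_le_add h1 h2).trans (le_of_eq ?_)
          ring

theorem phi_contract {q b1 b2 c v θ : ℝ} (hq0 : 0 ≤ q) (hb2 : 0 < b2) (hb : b2 ≤ b1) (hc : 0 ≤ c)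
    (hθ : q * Real.exp (-|v| / b1) / 2 ≤ θ) :
    Phi q b1 b2 v - θ * c / 4 ≤ Phi (q * (1 - c / (4 * b1))) b1 b2 v := by
  have hb1 : 0 < b1 := lt_of_lt_of_le hb2 hb
  have p2 : 0 ≤ b2 * Real.exp (-|v| / b2) := by positivity
  have h1 := mul_le_mul_of_nonneg_right hθ hc
  have h2 : 0 ≤ q * (c / (4 * b1)) * (b2 * Real.exp (-|v| / b2)) := by positivity
  have h3 : q * (c / (4 * b1)) * (b1 * Real.exp (-|v| / b1)) =
      q * Real.exp (-|v| / b1) * c / 4 := by
    field_simp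
  unfold Phi
  linarith

theorem phi_mono_q {q q' b1 b2 v : ℝ} (hqq : q ≤ q') (hb2 : 0 < b2) (hb : b2 ≤ b1) :
    Phi q b1 b2 v ≤ Phi q' b1 b2 v := by
  have h := mul_le_mul_of_nonneg_left (PhiL_bexp_mono (v := v) hb2 hb) (sub_nonneg.mpr hqq)
  unfold Phi
  linarith

theorem le_phi {q b1 b2 v : ℝ} (hq0 : 0 ≤ q) (hq1 : q ≤ 1) (hb2 : 0 < b2) (hb : b2 ≤ b1) :
    max v 0 ≤ Phi q b1 b2 v := by
  have hb1 : 0 < b1 := lt_of_lt_of_le hb2 hb
  have hq2 : 0 ≤ 1 - q := by linarith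
  have h1 : 0 ≤ q * b1 * Real.exp (-|v| / b1) := by positivity
  have h2 : 0 ≤ (1 - q) * b2 * Real.exp (-|v| / b2) := by positivity
  unfold Phi
  linarith

/-- `q b1 ≤ 1/8`, `|v| ≥ b2 log (8 b2)`: the error is at most `1/8` -/
theorem phi_le_eighth {q b1 b2 v : ℝ} (hq0 : 0 ≤ q) (hq1 : q ≤ 1) (hb2 : 1 ≤ b2) (hb : b2 ≤ b1)
    (hq : q * b1 ≤ 1 / 8) (hv : b2 * Real.log (8 * b2) ≤ |v|) :
    Phi q b1 b2 v ≤ max v 0 + 1 / 8 := by
  have hb2' : 0 < b2 := by linarith
  have hb1 : 0 < b1 := lt_of_lt_of_le hb2' hb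
  have e1 : Real.exp (-|v| / b1) ≤ 1 := by
    apply Real.exp_le_one_iff.mpr
    rw [neg_div]
    have := div_nonneg (abs_nonneg v) hb1.le
    linarith
  have h1 : q * b1 * Real.exp (-|v| / b1) ≤ 1 / 8 := by
    have := mul_le_mul_of_nonneg_left e1 (by positivity : 0 ≤ q * b1)
    linarith
  have e2 : Real.exp (-|v| / b2) ≤ 1 / (8 * b2) := by
    have h8 : 0 < 8 * b2 := by positivity
    have : -|v| / b2 ≤ -Real.log (8 * b2) := by
      rw [neg_div]
      apply neg_le_neg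
      rw [le_div_iff₀ hb2']
      linarith
    calc _ ≤ Real.exp (-Real.log (8 * b2)) := Real.exp_le_exp.mpr this
      _ = _ := by rw [Real.exp_neg, Real.exp_log h8, one_div]
  have h2 : (1 - q) * b2 * Real.exp (-|v| / b2) ≤ 1 / 8 := by
    have h3 : b2 * Real.exp (-|v| / b2) ≤ 1 / 8 := by
      calc _ ≤ b2 * (1 / (8 * b2)) := mul_le_mul_of_nonneg_left e2 hb2'.le
        _ = _ := by field_simp
    have h4 : 0 ≤ b2 * Real.exp (-|v| / b2) := by positivity
    nlinarith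
  unfold Phi
  linarith

/-- the error of a single width -/
theorem phi_one {b v : ℝ} : Phi 1 b b v = max v 0 + b * Real.exp (-|v| / b) / 2 := by
  unfold Phi
  ring

end Pool.Agent.SG
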