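import Pool.Agent.SG.Step
import Pool.Agent.SG.BaseA
import Pool.Agent.SG.LocalZone
import Pool.Agent.SG.Grp

set_option autoImplicit false

/-!
# Module PropE: the systems of the violating curves are empty

`g = 1/(a+2)`, real exponents via `Real.rpow`. Let `ms'` be the positive elements of `ms` (`Sq` and all
hypotheses are the same; `E e ms'` implies `E e ms`, `E.add`). `sm = ms'.filter (· ≤ μ)`.

Groups. `N i = ⌈c1 (2^i)^(2g)⌉₊` with `c1` so large that `C_LZ 4^i ≤ N i ^ (a+2)` (`localZone`) and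
`N i ≥ 48`; `N i ≤ 2 c1 (2^i)^(2g)`. `grp` for `sm` with `P i gs` := `card gs = N i`-groups having a window as
in `localZone` (`W = 2^i`; take all of `A`), `t i = (n_i + 1)/2 + N i`, `n_i = card (cls i sm)`.
So `sm = ∑ gs_j + rest`, `n_i ≤ 2 card (cls i rest)`, hence (`cls_bounds`) `Sq sm ≤ 8 Sq rest`; and
`card (cls i rest) ≤ n_i/2 + 1 + N i`, hence `∑_j Sm gs_j = Sm sm - Sm rest ≥ Sm sm / 4 - 2 ∑_i N i 2^i`
(merged elements in class `i`: at least `n_i/2 - 1 - N i`, each `≥ 2^i/2`), `∑_(i ≤ clog μ) N i 2^i ≤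
c2 μ^(1+2g)` (`geom`).

Windows: `Y = 100 max N i 2^i ≤ c3 μ^(1+2g)`; for `nL ≤ n ≤ nR`: `n ≤ nR ≤ sqrt(3 Sq gs) ≤ sqrt 3 sqrt(N i) 2^i`,
so `n ≤ Sm gs / 2` (`Sm gs ≥ N i 2^i / 2`, `N i ≥ 48`) and `n ≤ c4 μ^(1+g)`.

Base states: `B = ns + rest + big`, `big` = elements `> μ`. `baseA` (for `f' = 8 f`, degree `e`) with
`X = Sm sm / 40`: `C0 m ≤ e` for all elements (`C0 c4 μ^(1+g) ≤ e` follows from `C μ^(a+2) ≤ e^(a+1)`:
`e ≥ C^(1/(a+1)) μ^(1 + 1/(a+1))`), `Sq B ≤ 3 Sq ms ≤ 6 e^2`, `e^2 ≤ 8 f Sq (B.filter ≤ μ)`,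
`C0 μ^(a+2) ≤ X e^a`: `Sm sm ≥ Sq sm / μ ≥ e^2/(f μ)`, so `X ≥ e^2/(80 f μ)`, and
`e^(a+2) ≥ C e μ^(a+2) ≥ 80 f C0 μ^(a+3)`. So `hh e B ≤ max (vv e B + w) 0 ≤ Phi 1 b b (vv e B + w)` with
`w = (Sm ms - (1/2) ∑ Sm gs_j + X)/2 + C0 e` (`Sm B ≤ Sm ms - (1/2) ∑_j Sm gs_j`).

`unmerge` (`q = 1`, `c = 0`, `b1 = b2 = b = 22 Y + 1`): `hh e ms' ≤ Phi 1 b b (vv e ms' + w)`.
`2 vv e ms' = (e+1)(e+2) - Sq - Sm ≤ 3 e + 2 - Sm ms` (`e^2 ≤ Sq`), so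
`vv + w ≤ (3e+2)/2 - (1/4) ∑ Sm gs_j + X/2 + C0 e ≤ -Sm sm/16 + c2 μ^(1+2g) + Sm sm/80 + (C0+3) e ≤
-Sm sm / 50` because `Sm sm ≥ e^2/(f μ)` is much larger than `e` (`e ≥ C' μ`) and than `μ^(1+2g)`
(`e^2 ≥ C^(2/(a+1)) μ^(2 + 2/(a+1))`). So `hh < 1`, i.e. `E`, if `b exp(-Sm sm/(50 b)) / 2 < 1`, i.e. if
`Sm sm ≥ 50 b log b`: `b log b ≤ c5 μ^(1+2g) (1 + log μ)`, and
`Sm sm ≥ (C^(2/(a+1)) / f) μ^(1 + 2/(a+1))`, `2/(a+1) - 2g = 2/((a+1)(a+2)) > 0`, `log μ ≤ μ^κ/κ`.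
-/

namespace Pool.Agent.SG

open MvPolynomial Pool.Agent.helper5.NBS Pool.Agent.helper89.Segre Pool.Agent.SH9
open Pool.Agent.helper25.ST

/-! ### The size of the groups -/

private lemma propE_N (a Clz : ℕ) : ∃ (c1 : ℕ) (N : ℕ → ℕ), 48 ≤ c1 ∧ (∀ i, 48 ≤ N i) ∧
    (∀ i, Clz * (2 ^ i) ^ 2 ≤ N i ^ (a + 2)) ∧
    (∀ i, (N i : ℝ) ≤ 2 * c1 * ((2 : ℝ) ^ i) ^ (2 / ((a : ℝ) + 2))) := by
  obtain ⟨g, hg⟩ : ∃ g : ℝ, g = 2 / ((a : ℝ) + 2) := ⟨_, rfl⟩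
  have ha : (0 : ℝ) < (a : ℝ) + 2 := by positivity
  have hg0 : 0 < g := by rw [hg]; positivity
  have h1 : ∀ i : ℕ, (1 : ℝ) ≤ ((2 : ℝ) ^ i) ^ g := fun i =>
    Real.one_le_rpow (one_le_pow₀ (by norm_num)) hg0.le
  refine ⟨Clz + 48, fun i => ⌈((Clz + 48 : ℕ) : ℝ) * ((2 : ℝ) ^ i) ^ g⌉₊, by omega, ?_, ?_, ?_⟩
  · intro i
    have h2 : (48 : ℝ) ≤ ((Clz + 48 : ℕ) : ℝ) * ((2 : ℝ) ^ i) ^ g := by
      have h3 : (48 : ℝ) ≤ ((Clz + 48 : ℕ) : ℝ) := by exact_mod_cast Nat.le_add_left 48 Clz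
      calc (48 : ℝ) = 48 * 1 := by ring
        _ ≤ _ := mul_le_mul h3 (h1 i) (by norm_num) (by positivity)
    exact_mod_cast h2.trans (Nat.le_ceil _)
  · intro i
    have h2 : ((Clz + 48 : ℕ) : ℝ) * ((2 : ℝ) ^ i) ^ g ≤
        (⌈((Clz + 48 : ℕ) : ℝ) * ((2 : ℝ) ^ i) ^ g⌉₊ : ℝ) := Nat.le_ceil _
    have h3 : (((2 : ℝ) ^ i) ^ g) ^ (a + 2) = ((2 : ℝ) ^ i) ^ 2 := by
      rw [← Real.rpow_natCast, ← Real.rpow_mul (by positivity), hg]
      have h4 : 2 / ((a : ℝ) + 2) * ((a + 2 : ℕ) : ℝ) = (2 : ℕ) := by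
        push_cast
        rw [div_mul_cancel₀ _ ha.ne']
      rw [h4, Real.rpow_natCast]
    have h5 : ((Clz : ℝ)) * ((2 : ℝ) ^ i) ^ 2 ≤
        (⌈((Clz + 48 : ℕ) : ℝ) * ((2 : ℝ) ^ i) ^ g⌉₊ : ℝ) ^ (a + 2) := by
      calc ((Clz : ℝ)) * ((2 : ℝ) ^ i) ^ 2
          ≤ ((Clz + 48 : ℕ) : ℝ) ^ (a + 2) * ((2 : ℝ) ^ i) ^ 2 := by
            refine mul_le_mul_of_nonneg_right ?_ (by positivity)
            have h6 : (1 : ℝ) ≤ ((Clz + 48 : ℕ) : ℝ) := by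
              exact_mod_cast (by omega : 1 ≤ Clz + 48)
            calc (Clz : ℝ) ≤ ((Clz + 48 : ℕ) : ℝ) := by exact_mod_cast Nat.le_add_right _ _
              _ = ((Clz + 48 : ℕ) : ℝ) ^ 1 := (pow_one _).symm
              _ ≤ _ := pow_le_pow_right₀ h6 (by omega)
        _ = (((Clz + 48 : ℕ) : ℝ) * ((2 : ℝ) ^ i) ^ g) ^ (a + 2) := by rw [mul_pow, h3]
        _ ≤ _ := pow_le_pow_left₀ (by positivity) h2 _
    exact_mod_cast h5
  · intro i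
    rw [← hg]
    have h2 : (1 : ℝ) ≤ ((Clz + 48 : ℕ) : ℝ) * ((2 : ℝ) ^ i) ^ g := by
      have h3 : (1 : ℝ) ≤ ((Clz + 48 : ℕ) : ℝ) := by exact_mod_cast (by omega : 1 ≤ Clz + 48)
      calc (1 : ℝ) = 1 * 1 := by ring
        _ ≤ _ := mul_le_mul h3 (h1 i) (by norm_num) (by positivity)
    have h4 := (Nat.ceil_lt_add_one (zero_le_one.trans h2)).le
    linarith

/-! ### Windows and multisets -/

private lemma propE_win {gs : Multiset ℕ} {nL nR : ℕ} {Y Y' : ℝ} (h : Win gs nL nR Y)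
    (hY : Y ≤ Y') : Win gs nL nR Y' := ⟨h.ex, h.wid.trans hY⟩

private lemma propE_cls_add (i : ℕ) (A B : Multiset ℕ) : cls i (A + B) = cls i A + cls i B :=
  Multiset.filter_add _ _ _

private lemma propE_filter (μ : ℕ) (ms : Multiset ℕ) :
    Sq (ms.filter fun m => m ≤ μ) ≤ Sq (ms.filter fun m => 1 ≤ m ∧ m ≤ μ) := by
  induction ms using Multiset.induction_on with
  | empty => simp
  | cons m s ih =>
    by_cases h1 : m ≤ μ
    · rw [Multiset.filter_cons_of_pos (p := fun m => m ≤ μ) _ h1, Sq_cons]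
      by_cases h2 : 1 ≤ m
      · rw [Multiset.filter_cons_of_pos (p := fun m => 1 ≤ m ∧ m ≤ μ) _ ⟨h2, h1⟩, Sq_cons]
        omega
      · have h3 : m = 0 := by omega
        rw [Multiset.filter_cons_of_neg (p := fun m => 1 ≤ m ∧ m ≤ μ) _ (fun h => h2 h.1), h3]
        simpa using ih
    · rw [Multiset.filter_cons_of_neg (p := fun m => m ≤ μ) _ h1,
        Multiset.filter_cons_of_neg (p := fun m => 1 ≤ m ∧ m ≤ μ) _ (fun h => h1 h.2)]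
      exact ih

/-- a group of elements of the class `i`: sizes -/
private lemma propE_group {i : ℕ} {gs : Multiset ℕ} (h : ∀ m ∈ gs, m ≤ 2 ^ i ∧ 2 ^ i < 2 * m) :
    Sq gs ≤ Multiset.card gs * (2 ^ i) ^ 2 ∧ Multiset.card gs * 2 ^ i ≤ 2 * Sm gs := by
  induction gs using Multiset.induction_on with
  | empty => simp [Sq, Sm]
  | cons m s ih =>
    obtain ⟨h1, h2⟩ := ih fun m hm => h m (Multiset.mem_cons_of_mem hm)
    obtain ⟨h3, h4⟩ := h m (Multiset.mem_cons_self m s)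
    have h5 : m ^ 2 ≤ (2 ^ i) ^ 2 := Nat.pow_le_pow_left h3 2
    rw [Sq_cons, Sm_cons, Multiset.card_cons]
    constructor
    · calc m ^ 2 + Sq s ≤ (2 ^ i) ^ 2 + Multiset.card s * (2 ^ i) ^ 2 := Nat.add_le_add h5 h1
        _ = _ := by ring
    · calc (Multiset.card s + 1) * 2 ^ i = Multiset.card s * 2 ^ i + 2 ^ i := by ring
        _ ≤ 2 * Sm s + 2 * m := Nat.add_le_add h2 h4.le
        _ = _ := by ring

/-- the window of a group is short compared with the group -/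
private lemma propE_half {i N : ℕ} {gs : Multiset ℕ} (h : ∀ m ∈ gs, m ≤ 2 ^ i ∧ 2 ^ i < 2 * m)
    (hN : Multiset.card gs = N) (h48 : 48 ≤ N) {nR : ℕ} (hR : nR ^ 2 ≤ 3 * Sq gs) :
    2 * nR ≤ Sm gs ∧ nR ^ 2 ≤ 3 * N * (2 ^ i) ^ 2 := by
  obtain ⟨h1, h2⟩ := propE_group h
  rw [hN] at h1 h2
  have h3 : nR ^ 2 ≤ 3 * N * (2 ^ i) ^ 2 := by
    calc nR ^ 2 ≤ 3 * Sq gs := hR
      _ ≤ 3 * (N * (2 ^ i) ^ 2) := Nat.mul_le_mul_left _ h1
      _ = _ := by ring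
  refine ⟨?_, h3⟩
  have h4 : (2 * (2 * nR)) ^ 2 ≤ (2 * Sm gs) ^ 2 := by
    calc (2 * (2 * nR)) ^ 2 = 16 * nR ^ 2 := by ring
      _ ≤ 16 * (3 * N * (2 ^ i) ^ 2) := Nat.mul_le_mul_left _ h3
      _ = 48 * (N * (2 ^ i) ^ 2) := by ring
      _ ≤ N * (N * (2 ^ i) ^ 2) := Nat.mul_le_mul_right _ h48
      _ = (N * 2 ^ i) ^ 2 := by ring
      _ ≤ (2 * Sm gs) ^ 2 := Nat.pow_le_pow_left h2 2
  have h5 := (Nat.pow_le_pow_iff_left (by norm_num : (2 : ℕ) ≠ 0)).1 h4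
  omega

/-! ### The grouping -/

private lemma propE_split (P : ℕ → Multiset ℕ → Prop) (N : ℕ → ℕ) (hN : ∀ i, 48 ≤ N i)
    (hP : ∀ (i : ℕ) (A : Multiset ℕ), (∀ m ∈ A, 1 ≤ m ∧ Nat.clog 2 m = i) →
      Multiset.card A = N i → P i A) (μ : ℕ) (sm : Multiset ℕ) (hsm : ∀ m ∈ sm, 1 ≤ m ∧ m ≤ μ) :
    ∃ (l : List (ℕ × Multiset ℕ)) (rest : Multiset ℕ),
      sm = (l.map Prod.snd).sum + rest ∧
      (∀ x ∈ l, P x.1 x.2 ∧ x.2 ≠ 0 ∧ Multiset.card x.2 = N x.1 ∧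
        ∀ m ∈ x.2, m ≤ 2 ^ x.1 ∧ 2 ^ x.1 < 2 * m) ∧
      Sq sm ≤ 8 * Sq rest ∧
      Sm sm ≤ 4 * Sm (l.map Prod.snd).sum +
        2 * ∑ i ∈ Finset.range (Nat.clog 2 μ + 1), N i * 2 ^ i := by
  obtain ⟨l, rest, h1, h2, h3, h4⟩ := grp (fun i gs => P i gs ∧ Multiset.card gs = N i) N
    (fun i => (Multiset.card (cls i sm) + 1) / 2 + N i) (fun i => (by norm_num : 1 ≤ 48).trans (hN i))
    (fun i => Nat.le_add_left _ _)
    (fun i A hA hc => ⟨A, le_refl _, by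
      intro h0
      rw [h0, Multiset.card_zero] at hc
      have := hN i
      omega, hP i A hA hc, hc⟩) sm (fun m hm => (hsm m hm).1)
  obtain ⟨mg, hmg⟩ : ∃ mg, mg = (l.map Prod.snd).sum := ⟨_, rfl⟩
  rw [← hmg] at h1
  have hrest : ∀ m ∈ rest, 1 ≤ m ∧ m ≤ μ := fun m hm =>
    hsm m (by rw [h1]; exact Multiset.mem_add.2 (Or.inr hm))
  have hmgm : ∀ m ∈ mg, 1 ≤ m ∧ m ≤ μ := fun m hm =>
    hsm m (by rw [h1]; exact Multiset.mem_add.2 (Or.inl hm))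
  obtain ⟨a1, -, a3, -⟩ := cls_bounds hsm
  obtain ⟨-, b2, -, -⟩ := cls_bounds hrest
  obtain ⟨-, -, -, c4⟩ := cls_bounds hmgm
  have hcard : ∀ i, Multiset.card (cls i sm) =
      Multiset.card (cls i mg) + Multiset.card (cls i rest) := by
    intro i
    rw [h1, propE_cls_add, Multiset.card_add]
  have hr : ∀ i, Multiset.card (cls i sm) ≤ 2 * Multiset.card (cls i rest) := by
    intro i
    rcases h4 i with h5 | h5
    · rw [h5]; omega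
    · omega
  have hm : ∀ i, Multiset.card (cls i sm) ≤ 2 * Multiset.card (cls i mg) + 2 * N i := by
    intro i
    have h5 := h3 i
    have h6 := hcard i
    omega
  refine ⟨l, rest, by rw [← hmg]; exact h1, ?_, ?_, ?_⟩
  · intro x hx
    obtain ⟨⟨h5, h6⟩, h7, -, h8⟩ := h2 x hx
    exact ⟨h5, h7, h6, fun m hm => clsW (h8 m hm).1 (h8 m hm).2⟩
  · calc Sq sm ≤ ∑ i ∈ Finset.range (Nat.clog 2 μ + 1), Multiset.card (cls i sm) * 4 ^ i := a1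
      _ ≤ ∑ i ∈ Finset.range (Nat.clog 2 μ + 1), 2 * (Multiset.card (cls i rest) * 4 ^ i) := by
        refine Finset.sum_le_sum fun i _ => ?_
        rw [← mul_assoc]
        exact Nat.mul_le_mul_right _ (hr i)
      _ = 2 * ∑ i ∈ Finset.range (Nat.clog 2 μ + 1), Multiset.card (cls i rest) * 4 ^ i := by
        rw [Finset.mul_sum]
      _ ≤ 2 * (4 * Sq rest) := Nat.mul_le_mul_left _ b2
      _ = 8 * Sq rest := by ring
  · rw [← hmg]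
    calc Sm sm ≤ ∑ i ∈ Finset.range (Nat.clog 2 μ + 1), Multiset.card (cls i sm) * 2 ^ i := a3
      _ ≤ ∑ i ∈ Finset.range (Nat.clog 2 μ + 1),
          (2 * (Multiset.card (cls i mg) * 2 ^ i) + 2 * (N i * 2 ^ i)) := by
        refine Finset.sum_le_sum fun i _ => ?_
        calc Multiset.card (cls i sm) * 2 ^ i
            ≤ (2 * Multiset.card (cls i mg) + 2 * N i) * 2 ^ i := Nat.mul_le_mul_right _ (hm i)
          _ = _ := by ring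
      _ = 2 * ∑ i ∈ Finset.range (Nat.clog 2 μ + 1), Multiset.card (cls i mg) * 2 ^ i +
          2 * ∑ i ∈ Finset.range (Nat.clog 2 μ + 1), N i * 2 ^ i := by
        rw [Finset.sum_add_distrib, Finset.mul_sum, Finset.mul_sum]
      _ ≤ 4 * Sm mg + 2 * ∑ i ∈ Finset.range (Nat.clog 2 μ + 1), N i * 2 ^ i := by
        omega

/-- admissible multiplicities -/
private lemma propE_forall2 {C0 e : ℕ} : ∀ (l : List Tup) (ns : List ℕ),
    List.Forall₂ (fun (n : ℕ) (x : Tup) => x.nL ≤ n ∧ n ≤ x.nR) ns l →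
    (∀ x ∈ l, 2 * x.nR ≤ Sm x.gs ∧ x.nR ^ 2 ≤ 3 * Sq x.gs ∧ C0 * x.nR ≤ e) →
    2 * Sm (ns : Multiset ℕ) ≤ Sm (l.map Tup.gs).sum ∧
      Sq (ns : Multiset ℕ) ≤ 3 * Sq (l.map Tup.gs).sum ∧ ∀ n ∈ ns, C0 * n ≤ e := by
  intro l ns h
  induction h with
  | nil => intro _; simp [Sm, Sq]
  | @cons n x ns l hn _ ih =>
    intro hl
    obtain ⟨h1, h2, h3⟩ := ih fun y hy => hl y (List.mem_cons_of_mem _ hy)
    obtain ⟨h4, h5, h6⟩ := hl x List.mem_cons_self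
    rw [← Multiset.cons_coe, Sm_cons, Sq_cons, List.map_cons, List.sum_cons, Sm_add, Sq_add]
    refine ⟨by omega, ?_, ?_⟩
    · have h7 : n ^ 2 ≤ x.nR ^ 2 := Nat.pow_le_pow_left hn.2 2
      omega
    · intro m hm
      rcases List.mem_cons.1 hm with rfl | hm
      · exact (Nat.mul_le_mul_left _ hn.2).trans h6
      · exact h3 m hm

/-! ### Numbers -/

private lemma propE_x (a μ : ℕ) (hμ : 1 ≤ μ) : ∃ x : ℝ, 1 ≤ x ∧
    x ^ ((a + 1) * (a + 2)) = (μ : ℝ) ∧ (μ : ℝ) ^ (2 / ((a : ℝ) + 2)) = (x ^ (a + 1)) ^ 2 := by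
  have hμ' : (1 : ℝ) ≤ (μ : ℝ) := by exact_mod_cast hμ
  have hn : (a + 1) * (a + 2) ≠ 0 := by positivity
  obtain ⟨x, hx⟩ : ∃ x : ℝ, x = (μ : ℝ) ^ ((((a + 1) * (a + 2) : ℕ) : ℝ)⁻¹) := ⟨_, rfl⟩
  have h1 : 1 ≤ x := by
    rw [hx]
    exact Real.one_le_rpow hμ' (by positivity)
  have h2 : x ^ ((a + 1) * (a + 2)) = (μ : ℝ) := by
    rw [hx]
    exact Real.rpow_inv_natCast_pow (by positivity) hn
  refine ⟨x, h1, h2, ?_⟩
  have hx0 : 0 ≤ x := zero_le_one.trans h1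
  rw [← h2, ← Real.rpow_natCast, ← Real.rpow_mul hx0, ← pow_mul, ← Real.rpow_natCast]
  congr 1
  push_cast
  field_simp

/-- the bound of the size of the groups in the classes up to `clog μ` -/
private lemma propE_Nle {c1 : ℕ} {N : ℕ → ℕ} {a μ : ℕ} {A : ℝ}
    (hN : ∀ i, (N i : ℝ) ≤ 2 * c1 * ((2 : ℝ) ^ i) ^ (2 / ((a : ℝ) + 2)))
    (hA : (μ : ℝ) ^ (2 / ((a : ℝ) + 2)) = A ^ 2) (i : ℕ) (hi : 2 ^ i ≤ 2 * μ) :
    (N i : ℝ) ≤ 4 * c1 * A ^ 2 := by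
  have h0 : (0 : ℝ) ≤ 2 / ((a : ℝ) + 2) := by positivity
  have hi' : (2 : ℝ) ^ i ≤ 2 * (μ : ℝ) := by exact_mod_cast hi
  have h1 : ((2 : ℝ) ^ i) ^ (2 / ((a : ℝ) + 2)) ≤ (2 * (μ : ℝ)) ^ (2 / ((a : ℝ) + 2)) :=
    Real.rpow_le_rpow (by positivity) hi' h0
  have h2 : (2 * (μ : ℝ)) ^ (2 / ((a : ℝ) + 2)) = 2 ^ (2 / ((a : ℝ) + 2)) * A ^ 2 := by
    rw [Real.mul_rpow (by norm_num) (by positivity), hA]
  have h3 : (2 : ℝ) ^ (2 / ((a : ℝ) + 2)) ≤ 2 := by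
    have h4 : 2 / ((a : ℝ) + 2) ≤ 1 := by
      rw [div_le_one (by positivity)]
      have : (0 : ℝ) ≤ (a : ℝ) := by positivity
      linarith
    calc (2 : ℝ) ^ (2 / ((a : ℝ) + 2)) ≤ 2 ^ (1 : ℝ) :=
          Real.rpow_le_rpow_of_exponent_le (by norm_num) h4
      _ = 2 := Real.rpow_one 2
  calc (N i : ℝ) ≤ 2 * c1 * ((2 : ℝ) ^ i) ^ (2 / ((a : ℝ) + 2)) := hN i
    _ ≤ 2 * c1 * (2 * A ^ 2) := by
      refine mul_le_mul_of_nonneg_left ?_ (by positivity)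
      rw [h2] at h1
      exact h1.trans (mul_le_mul_of_nonneg_right h3 (by positivity))
    _ = 4 * c1 * A ^ 2 := by ring

private lemma propE_geom (n : ℕ) : ∑ i ∈ Finset.range n, 2 ^ i ≤ 2 ^ n := by
  induction n with
  | zero => simp
  | succ n ih =>
    rw [Finset.sum_range_succ, pow_succ]
    omega

private lemma propE_sum {c1 : ℕ} {N : ℕ → ℕ} {μ : ℕ} {A : ℝ} (hμ : 1 ≤ μ)
    (hN : ∀ i, 2 ^ i ≤ 2 * μ → (N i : ℝ) ≤ 4 * c1 * A ^ 2) :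
    ((∑ i ∈ Finset.range (Nat.clog 2 μ + 1), N i * 2 ^ i : ℕ) : ℝ) ≤ 16 * c1 * μ * A ^ 2 := by
  have h1 := (clsW hμ rfl).2
  have h2 : ∀ i ∈ Finset.range (Nat.clog 2 μ + 1), 2 ^ i ≤ 2 * μ := by
    intro i hi
    have h3 : i ≤ Nat.clog 2 μ := Nat.lt_succ_iff.1 (Finset.mem_range.1 hi)
    exact (Nat.pow_le_pow_right (by norm_num) h3).trans h1.le
  have h4 := propE_geom (Nat.clog 2 μ + 1)
  have h5 : ∑ i ∈ Finset.range (Nat.clog 2 μ + 1), 2 ^ i ≤ 4 * μ := by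
    rw [pow_succ] at h4
    omega
  have h5' : ((∑ i ∈ Finset.range (Nat.clog 2 μ + 1), 2 ^ i : ℕ) : ℝ) ≤ 4 * μ := by
    exact_mod_cast h5
  calc ((∑ i ∈ Finset.range (Nat.clog 2 μ + 1), N i * 2 ^ i : ℕ) : ℝ)
      = ∑ i ∈ Finset.range (Nat.clog 2 μ + 1), (N i : ℝ) * 2 ^ i := by push_cast; rfl
    _ ≤ ∑ i ∈ Finset.range (Nat.clog 2 μ + 1), (4 * c1 * A ^ 2) * 2 ^ i :=
      Finset.sum_le_sum fun i hi => mul_le_mul_of_nonneg_right (hN i (h2 i hi)) (by positivity)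
    _ = (4 * c1 * A ^ 2) * ((∑ i ∈ Finset.range (Nat.clog 2 μ + 1), 2 ^ i : ℕ) : ℝ) := by
      rw [← Finset.mul_sum]; push_cast; rfl
    _ ≤ (4 * c1 * A ^ 2) * (4 * μ) := mul_le_mul_of_nonneg_left h5' (by positivity)
    _ = 16 * c1 * μ * A ^ 2 := by ring

/-- the error term is small -/
private lemma propE_exp {b V S : ℝ} (hb : 1 ≤ b) (hV : V ≤ -S / 50) (hS : 0 ≤ S)
    (hlog : 50 * (b * Real.log b) ≤ S) : Phi 1 b b V < 1 := by
  have hb0 : 0 < b := lt_of_lt_of_le one_pos hb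
  have hV0 : V ≤ 0 := hV.trans (by linarith)
  rw [phi_one, max_eq_right hV0, abs_of_nonpos hV0, neg_neg]
  have h1 : V / b ≤ -Real.log b := by
    rw [div_le_iff₀ hb0]
    linarith
  have h2 : Real.exp (V / b) ≤ b⁻¹ := by
    calc Real.exp (V / b) ≤ Real.exp (-Real.log b) := Real.exp_le_exp.2 h1
      _ = b⁻¹ := by rw [Real.exp_neg, Real.exp_log hb0]
  have h3 : b * Real.exp (V / b) ≤ 1 := by
    calc b * Real.exp (V / b) ≤ b * b⁻¹ := mul_le_mul_of_nonneg_left h2 hb0.le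
      _ = 1 := mul_inv_cancel₀ hb0.ne'
  linarith

/-- `50 b log b ≤ S` -/
private lemma propE_log {a c1 c5 c6 : ℕ} {μ x A b : ℝ} (h5 : c5 = 17601 * c1)
    (h6 : c6 = c5 + (a + 1) * (a + 4)) (hc1 : 1 ≤ c1) (hx : 1 ≤ x)
    (hμ : x ^ ((a + 1) * (a + 2)) = μ) (hA : x ^ (a + 1) = A)
    (hb : b = 22 * (800 * c1 * μ * A ^ 2) + 1) :
    1 ≤ b ∧ b * Real.log b ≤ c5 * c6 * (μ * A ^ 2 * x ^ 2) := by
  have hx0 : 0 < x := lt_of_lt_of_le one_pos hx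
  have hμ1 : 1 ≤ μ := by rw [← hμ]; exact one_le_pow₀ hx
  have hA1 : 1 ≤ A := by rw [← hA]; exact one_le_pow₀ hx
  have hc1' : (1 : ℝ) ≤ c1 := by exact_mod_cast hc1
  have hA2 : 1 ≤ A ^ 2 := one_le_pow₀ hA1
  have hμA : 1 ≤ μ * A ^ 2 := one_le_mul_of_one_le_of_one_le hμ1 hA2
  have hcμA : 1 ≤ c1 * (μ * A ^ 2) := one_le_mul_of_one_le_of_one_le hc1' hμA
  have hb1 : 1 ≤ b := by
    rw [hb]
    nlinarith
  have hb2 : b ≤ c5 * (μ * A ^ 2) := by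
    rw [hb, h5]
    push_cast
    nlinarith
  refine ⟨hb1, ?_⟩
  have hc5 : (1 : ℝ) ≤ c5 := by
    have h7 : 1 ≤ c5 := by omega
    exact_mod_cast h7
  have hlx : Real.log x ≤ x := (Real.log_le_sub_one_of_pos hx0).trans (by linarith)
  have hl5 : Real.log c5 ≤ c5 :=
    (Real.log_le_sub_one_of_pos (by linarith)).trans (by linarith)
  have hlb : Real.log b ≤ c6 * x ^ 2 := by
    have h7 : Real.log b ≤ Real.log (c5 * (μ * A ^ 2)) :=
      Real.log_le_log (by linarith) hb2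
    have h8 : Real.log (c5 * (μ * A ^ 2)) =
        Real.log c5 + (((a + 1) * (a + 2) : ℕ) : ℝ) * Real.log x +
          2 * (((a + 1 : ℕ) : ℝ) * Real.log x) := by
      rw [Real.log_mul (by positivity) (by positivity), Real.log_mul (by positivity)
        (by positivity), Real.log_pow, ← hμ, ← hA, Real.log_pow, Real.log_pow]
      push_cast
      ring
    have h9 : x ≤ x ^ 2 := by nlinarith
    have h10 : (1 : ℝ) ≤ x ^ 2 := one_le_pow₀ hx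
    have h11 : (((a + 1) * (a + 2) : ℕ) : ℝ) * Real.log x ≤ (((a + 1) * (a + 2) : ℕ) : ℝ) * x ^ 2 :=
      mul_le_mul_of_nonneg_left (hlx.trans h9) (by positivity)
    have h12 : ((a + 1 : ℕ) : ℝ) * Real.log x ≤ ((a + 1 : ℕ) : ℝ) * x ^ 2 :=
      mul_le_mul_of_nonneg_left (hlx.trans h9) (by positivity)
    have h13 : (c5 : ℝ) ≤ c5 * x ^ 2 := le_mul_of_one_le_right (by positivity) h10
    rw [h6]
    push_cast at h8 h11 h12 ⊢
    nlinarith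
  have hlb0 : 0 ≤ Real.log b := Real.log_nonneg hb1
  calc b * Real.log b ≤ (c5 * (μ * A ^ 2)) * (c6 * x ^ 2) :=
        mul_le_mul hb2 hlb hlb0 (by positivity)
    _ = c5 * c6 * (μ * A ^ 2 * x ^ 2) := by ring

/-- membership in the sum of the groups -/
private lemma propE_mem {z : ℕ × Multiset ℕ} {m : ℕ} :
    ∀ (l : List (ℕ × Multiset ℕ)), z ∈ l → m ∈ z.2 → m ∈ (l.map Prod.snd).sum
  | [], h, _ => absurd h List.not_mem_nil
  | y :: l, h, hm => by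
    rw [List.map_cons, List.sum_cons, Multiset.mem_add]
    rcases List.mem_cons.1 h with h | h
    · left
      rw [← h]
      exact hm
    · right
      exact propE_mem l h hm

/-- consequences of `e ≥ K μ A x`, `e^2 ≤ f μ S` -/
private lemma propE_S {f K : ℕ} {e μ x A S : ℝ} (hμ : 1 ≤ μ) (hx : 1 ≤ x) (hA : 1 ≤ A)
    (he0 : 0 ≤ e) (hKe : (K : ℝ) * μ * (A * x) ≤ e) (hS : e ^ 2 ≤ f * (μ * S)) :
    (K : ℝ) * e ≤ f * S ∧ (K : ℝ) ^ 2 * (μ * A ^ 2 * x ^ 2) ≤ f * S := by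
  have hμ0 : 0 < μ := lt_of_lt_of_le one_pos hμ
  have hAx : 1 ≤ A * x := one_le_mul_of_one_le_of_one_le hA hx
  have hK0 : (0 : ℝ) ≤ K := Nat.cast_nonneg K
  constructor
  · have h1 : ((K : ℝ) * e) * μ ≤ (f * S) * μ := by
      calc ((K : ℝ) * e) * μ = e * (K * μ * 1) := by ring
        _ ≤ e * (K * μ * (A * x)) :=
          mul_le_mul_of_nonneg_left (mul_le_mul_of_nonneg_left hAx (by positivity)) he0
        _ ≤ e * e := mul_le_mul_of_nonneg_left hKe he0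
        _ = e ^ 2 := by ring
        _ ≤ f * (μ * S) := hS
        _ = (f * S) * μ := by ring
    exact le_of_mul_le_mul_right h1 hμ0
  · have h1 : ((K : ℝ) ^ 2 * (μ * A ^ 2 * x ^ 2)) * μ ≤ (f * S) * μ := by
      calc ((K : ℝ) ^ 2 * (μ * A ^ 2 * x ^ 2)) * μ = ((K : ℝ) * μ * (A * x)) ^ 2 := by ring
        _ ≤ e ^ 2 := pow_le_pow_left₀ (by positivity) hKe 2
        _ ≤ f * (μ * S) := hS
        _ = (f * S) * μ := by ring
    exact le_of_mul_le_mul_right h1 hμ0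

/-- the final shift -/
private lemma propE_V {f c1 C0 K : ℕ} {e μ x A S G X T V : ℝ} (hf : (0 : ℝ) < f) (hμ : 1 ≤ μ)
    (hx : 1 ≤ x) (hA : 1 ≤ A) (he : 1 ≤ e) (h1 : (K : ℝ) * e ≤ f * S)
    (h2 : (K : ℝ) ^ 2 * (μ * A ^ 2 * x ^ 2) ≤ f * S) (hK1 : 100 * f * (C0 + 3) ≤ K)
    (hK2 : 100 * c1 * f ≤ K) (hK : 1 ≤ K) (hT : T ≤ 16 * c1 * μ * A ^ 2)
    (hG : S ≤ 4 * G + 2 * T) (hX : X ≤ S / 40)
    (hV : V ≤ (3 * e + 2) / 2 - G / 4 + X / 2 + C0 * e) : V ≤ -S / 50 := by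
  have hK' : (1 : ℝ) ≤ K := by exact_mod_cast hK
  have hK1' : (100 : ℝ) * f * (C0 + 3) ≤ K := by exact_mod_cast hK1
  have hK2' : (100 : ℝ) * c1 * f ≤ K := by exact_mod_cast hK2
  have hM0 : 0 ≤ μ * A ^ 2 := by positivity
  -- `(C0 + 3) e ≤ S / 100`
  have h3 : 100 * ((C0 : ℝ) + 3) * e ≤ S := by
    have h4 : f * (100 * ((C0 : ℝ) + 3) * e) ≤ f * S := by
      calc f * (100 * ((C0 : ℝ) + 3) * e) = (100 * f * (C0 + 3)) * e := by ring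
        _ ≤ K * e := mul_le_mul_of_nonneg_right hK1' (by linarith)
        _ ≤ f * S := h1
    exact le_of_mul_le_mul_left h4 hf
  -- `2 c1 μ A^2 ≤ S / 50`
  have h5 : 100 * (c1 : ℝ) * (μ * A ^ 2) ≤ S := by
    have h4 : f * (100 * (c1 : ℝ) * (μ * A ^ 2)) ≤ f * S := by
      calc f * (100 * (c1 : ℝ) * (μ * A ^ 2)) = (100 * c1 * f) * (μ * A ^ 2) := by ring
        _ ≤ K * (μ * A ^ 2) := mul_le_mul_of_nonneg_right hK2' hM0
        _ ≤ K ^ 2 * (μ * A ^ 2 * x ^ 2) := by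
          have h6 : (K : ℝ) ≤ K ^ 2 := by nlinarith
          have h7 : μ * A ^ 2 ≤ μ * A ^ 2 * x ^ 2 :=
            le_mul_of_one_le_right hM0 (one_le_pow₀ hx)
          exact mul_le_mul h6 h7 hM0 (by positivity)
        _ ≤ f * S := h2
    exact le_of_mul_le_mul_left h4 hf
  have h8 : T ≤ 16 * (c1 * (μ * A ^ 2)) := by
    calc T ≤ 16 * c1 * μ * A ^ 2 := hT
      _ = _ := by ring
  nlinarith

/-- conditions of `baseA` -/
private lemma propE_X {a f C0 K e μ S : ℕ} (hμ : 1 ≤ μ) (hf : 1 ≤ f)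
    (hCe : K ^ (a + 1) * μ ^ (a + 2) ≤ e ^ (a + 1)) (hKμ : K * μ ≤ e)
    (hfS : e ^ 2 ≤ f * (μ * S)) (hS : 80 ≤ S) (hK : 80 * f * C0 ≤ K) (hK1 : 1 ≤ K) :
    C0 * μ ^ (a + 2) ≤ S / 40 * e ^ a := by
  have h1 : S ≤ 80 * (S / 40) := by omega
  have h2 : (80 * f * μ) * (C0 * μ ^ (a + 2)) ≤ (80 * f * μ) * (S / 40 * e ^ a) := by
    calc (80 * f * μ) * (C0 * μ ^ (a + 2)) = (80 * f * C0) * 1 * (μ * μ ^ (a + 2)) := by ring
      _ ≤ K * K ^ (a + 1) * (μ * μ ^ (a + 2)) :=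
        Nat.mul_le_mul_right _ (Nat.mul_le_mul hK (Nat.one_le_pow _ _ hK1))
      _ = (K * μ) * (K ^ (a + 1) * μ ^ (a + 2)) := by ring
      _ ≤ e * e ^ (a + 1) := Nat.mul_le_mul hKμ hCe
      _ = e ^ 2 * e ^ a := by ring
      _ ≤ (f * (μ * S)) * e ^ a := Nat.mul_le_mul_right _ hfS
      _ ≤ (f * (μ * (80 * (S / 40)))) * e ^ a :=
        Nat.mul_le_mul_right _ (Nat.mul_le_mul_left _ (Nat.mul_le_mul_left _ h1))
      _ = (80 * f * μ) * (S / 40 * e ^ a) := by ring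
  exact Nat.le_of_mul_le_mul_left h2 (by positivity)

theorem propE {a : ℕ} (h : NN a) (f : ℕ) : ∃ C : ℕ, 1 ≤ C ∧ ∀ (e μ : ℕ) (ms : Multiset ℕ), 1 ≤ μ →
    C * μ ^ (a + 2) ≤ e ^ (a + 1) → e ^ 2 ≤ f * Sq (ms.filter fun m => m ≤ μ) →
    (∀ m ∈ ms, C * m ≤ e) → e ^ 2 ≤ Sq ms → Sq ms ≤ 2 * e ^ 2 → E e ms := by
  classical
  obtain ⟨Clz, hClz, hLZ⟩ := localZone h
  obtain ⟨C0, hC0, hBase⟩ := baseA h (8 * f)
  obtain ⟨c1, N, hc1, hN48, hNlz, hNub⟩ := propE_N a Clz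
  obtain ⟨c5, h5⟩ : ∃ c5, c5 = 17601 * c1 := ⟨_, rfl⟩
  obtain ⟨c6, h6⟩ : ∃ c6, c6 = c5 + (a + 1) * (a + 4) := ⟨_, rfl⟩
  obtain ⟨K, hK⟩ : ∃ K, K = 80 * f * C0 + 100 * f * (C0 + 3) + 100 * c1 * f + 50 * c5 * c6 * f +
    7 * c1 * C0 + C0 + 80 * f + 1 := ⟨_, rfl⟩
  have hKfC : 80 * f * C0 ≤ K := by rw [hK]; omega
  have hKf3 : 100 * f * (C0 + 3) ≤ K := by rw [hK]; omega
  have hKcf : 100 * c1 * f ≤ K := by rw [hK]; omega
  have hKcc : 50 * c5 * c6 * f ≤ K := by rw [hK]; omega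
  have hK7 : 7 * c1 * C0 ≤ K := by rw [hK]; omega
  have hKC0 : C0 ≤ K := by rw [hK]; omega
  have hK80 : 80 * f ≤ K := by rw [hK]; omega
  have hK1 : 1 ≤ K := by rw [hK]; omega
  clear hK
  refine ⟨K ^ (a + 1), Nat.one_le_pow _ _ hK1, ?_⟩
  intro e μ ms hμ hCe hfe hCm hSq1 hSq2
  have hKC : K ≤ K ^ (a + 1) := by
    calc K = K ^ 1 := (pow_one K).symm
      _ ≤ K ^ (a + 1) := Nat.pow_le_pow_right hK1 (by omega)
  -- `K μ ≤ e`
  have hKμ : K * μ ≤ e := by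
    refine (Nat.pow_le_pow_iff_left (by omega : a + 1 ≠ 0)).1 ?_
    calc (K * μ) ^ (a + 1) = K ^ (a + 1) * μ ^ (a + 1) := mul_pow _ _ _
      _ ≤ K ^ (a + 1) * μ ^ (a + 2) :=
        Nat.mul_le_mul_left _ (Nat.pow_le_pow_right hμ (by omega))
      _ ≤ e ^ (a + 1) := hCe
  have he1 : 1 ≤ e := (Nat.mul_le_mul hK1 hμ).trans hKμ
  have hf1 : 1 ≤ f := by
    rcases Nat.eq_zero_or_pos f with h0 | h0
    · rw [h0, zero_mul] at hfe
      have := Nat.one_le_pow 2 e he1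
      omega
    · exact h0
  -- the small elements
  obtain ⟨sm, hsm⟩ : ∃ sm, sm = ms.filter (fun m => 1 ≤ m ∧ m ≤ μ) := ⟨_, rfl⟩
  obtain ⟨ot, hot⟩ : ∃ ot, ot = ms.filter (fun m => ¬ (1 ≤ m ∧ m ≤ μ)) := ⟨_, rfl⟩
  have hms : ms = sm + ot := by rw [hsm, hot, Multiset.filter_add_not]
  have hsm1 : ∀ m ∈ sm, 1 ≤ m ∧ m ≤ μ := by
    intro m hm
    rw [hsm] at hm
    exact (Multiset.mem_filter.1 hm).2
  have hSqsm : e ^ 2 ≤ f * Sq sm :=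
    hfe.trans (Nat.mul_le_mul_left _ (by rw [hsm]; exact propE_filter μ ms))
  have hfS : e ^ 2 ≤ f * (μ * Sm sm) :=
    hSqsm.trans (Nat.mul_le_mul_left _ (Sq_le_mul_Sm fun m hm => (hsm1 m hm).2))
  -- the groups
  obtain ⟨P, hP⟩ : ∃ P : ℕ → Multiset ℕ → Prop, P = fun i gs => ∃ nL nR : ℕ,
      Win gs nL nR (100 * (Multiset.card gs : ℝ) * ((2 ^ i : ℕ) : ℝ)) ∧ nR ^ 2 ≤ 3 * Sq gs :=
    ⟨_, rfl⟩
  have hPA : ∀ (i : ℕ) (A : Multiset ℕ), (∀ m ∈ A, 1 ≤ m ∧ Nat.clog 2 m = i) →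
      Multiset.card A = N i → P i A := by
    intro i A hA hc
    rw [hP]
    obtain ⟨nL, nR, hw, -, -, hR⟩ := hLZ (2 ^ i) A (Nat.one_le_pow _ _ (by norm_num))
      (fun m hm => ⟨(clsW (hA m hm).1 (hA m hm).2).2, (clsW (hA m hm).1 (hA m hm).2).1⟩)
      (by rw [hc]; exact hNlz i)
    exact ⟨nL, nR, hw, hR⟩
  obtain ⟨l, rest, hl1, hl2, hl3, hl4⟩ := propE_split P N hN48 hPA μ sm hsm1
  obtain ⟨mg, hmg⟩ : ∃ mg, mg = (l.map Prod.snd).sum := ⟨_, rfl⟩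
  rw [← hmg] at hl1 hl4
  have hT : ∀ x : ℕ × Multiset ℕ, ∃ y : Tup, y.gs = x.2 ∧ y.c = 0 ∧
      (P x.1 x.2 → Win x.2 y.nL y.nR (100 * (Multiset.card x.2 : ℝ) * ((2 ^ x.1 : ℕ) : ℝ)) ∧
        y.nR ^ 2 ≤ 3 * Sq x.2) := by
    intro x
    by_cases hx : P x.1 x.2
    · have hx' := hx
      rw [hP] at hx'
      obtain ⟨nL, nR, h1, h2⟩ := hx'
      exact ⟨⟨x.2, nL, nR, 0⟩, rfl, rfl, fun _ => ⟨h1, h2⟩⟩
    · exact ⟨⟨x.2, 0, 0, 0⟩, rfl, rfl, fun h => absurd h hx⟩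
  choose T hT1 hT2 hT3 using hT
  -- real numbers
  obtain ⟨x, hx1, hxμ, hxA⟩ := propE_x a μ hμ
  obtain ⟨A, hA⟩ : ∃ A, x ^ (a + 1) = A := ⟨_, rfl⟩
  rw [hA] at hxA
  have hA1 : 1 ≤ A := by rw [← hA]; exact one_le_pow₀ hx1
  have hμ' : (1 : ℝ) ≤ (μ : ℝ) := by exact_mod_cast hμ
  have he' : (1 : ℝ) ≤ (e : ℝ) := by exact_mod_cast he1
  have hf' : (0 : ℝ) < (f : ℝ) := by exact_mod_cast hf1
  have hKe : (K : ℝ) * μ * (A * x) ≤ e := by
    have h1 : ((K : ℝ) * μ * (A * x)) ^ (a + 1) ≤ (e : ℝ) ^ (a + 1) := by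
      have h2 : ((K : ℝ) * μ * (A * x)) ^ (a + 1) = ((K ^ (a + 1) * μ ^ (a + 2) : ℕ) : ℝ) := by
        push_cast
        rw [← hA, ← pow_succ, mul_pow, mul_pow, ← pow_mul, mul_comm (a + 1 + 1) (a + 1)]
        have h3 : x ^ ((a + 1) * (a + 1 + 1)) = (μ : ℝ) := hxμ
        rw [h3]
        ring
      rw [h2]
      exact_mod_cast hCe
    exact le_of_pow_le_pow_left₀ (by omega) (by positivity) h1
  have hfS' : (e : ℝ) ^ 2 ≤ f * (μ * (Sm sm : ℝ)) := by exact_mod_cast hfS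
  obtain ⟨hS1, hS2⟩ := propE_S hμ' hx1 hA1 (zero_le_one.trans he') hKe hfS'
  have hNle : ∀ i, 2 ^ i ≤ 2 * μ → (N i : ℝ) ≤ 4 * c1 * A ^ 2 :=
    fun i hi => propE_Nle hNub hxA i hi
  -- `Sm sm ≥ 80`
  have hS80 : 80 ≤ Sm sm := by
    have h1 : K * e ≤ f * Sm sm := by exact_mod_cast hS1
    have h2 : f * 80 ≤ f * Sm sm := by
      calc f * 80 = 80 * f := mul_comm _ _
        _ ≤ K := hK80
        _ = K * 1 := (mul_one K).symm
        _ ≤ K * e := Nat.mul_le_mul_left _ he1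
        _ ≤ f * Sm sm := h1
    exact Nat.le_of_mul_le_mul_left h2 hf1
  obtain ⟨X, hX⟩ : ∃ X, X = Sm sm / 40 := ⟨_, rfl⟩
  have hXbase : C0 * μ ^ (a + 2) ≤ X * e ^ a := by
    rw [hX]
    exact propE_X hμ hf1 hCe hKμ hfS hS80 hKfC hK1
  have hXe : X ≤ e ^ 2 := by
    have h1 : Sm sm ≤ Sq ms := by
      rw [hms, Sq_add]
      exact (Sm_le_Sq sm).trans (Nat.le_add_right _ _)
    omega
  -- the tuples
  obtain ⟨Y, hY⟩ : ∃ Y : ℝ, Y = 800 * c1 * μ * A ^ 2 := ⟨_, rfl⟩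
  have hgrp : ∀ y ∈ l.map T, Win y.gs y.nL y.nR Y ∧ 2 * y.nR ≤ Sm y.gs ∧
      y.nR ^ 2 ≤ 3 * Sq y.gs ∧ C0 * y.nR ≤ e := by
    intro y hy
    obtain ⟨z, hz, rfl⟩ := List.mem_map.1 hy
    obtain ⟨z1, z2, z3, z4⟩ := hl2 z hz
    obtain ⟨w1, w2⟩ := hT3 z z1
    rw [hT1]
    obtain ⟨v1, v2⟩ := propE_half z4 z3 (hN48 z.1) w2
    -- the class is at most `2 μ`
    obtain ⟨m, hm⟩ := Multiset.exists_mem_of_ne_zero z2
    have hmμ : m ≤ μ := by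
      refine (hsm1 m ?_).2
      rw [hl1, hmg]
      refine Multiset.mem_add.2 (Or.inl ?_)
      exact propE_mem l hz hm
    have h2i : 2 ^ z.1 ≤ 2 * μ := by
      have := (z4 m hm).2
      omega
    have hNz := hNle z.1 h2i
    have h2i' : (2 : ℝ) ^ z.1 ≤ 2 * (μ : ℝ) := by exact_mod_cast h2i
    refine ⟨propE_win w1 ?_, v1, w2, ?_⟩
    · rw [z3, hY]
      push_cast
      calc 100 * (N z.1 : ℝ) * 2 ^ z.1 ≤ 100 * (4 * c1 * A ^ 2) * (2 * μ) :=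
            mul_le_mul (mul_le_mul_of_nonneg_left hNz (by norm_num)) h2i' (by positivity)
              (by positivity)
        _ = 800 * c1 * μ * A ^ 2 := by ring
    · have h1 : ((T z).nR : ℝ) ^ 2 ≤ (7 * c1 * (μ * A)) ^ 2 := by
        have h2 : ((T z).nR : ℝ) ^ 2 ≤ 3 * (N z.1 : ℝ) * (2 ^ z.1) ^ 2 := by exact_mod_cast v2
        have h3 : (1 : ℝ) ≤ c1 := by exact_mod_cast (by omega : 1 ≤ c1)
        calc ((T z).nR : ℝ) ^ 2 ≤ 3 * (N z.1 : ℝ) * (2 ^ z.1) ^ 2 := h2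
          _ ≤ 3 * (4 * c1 * A ^ 2) * (2 * μ) ^ 2 :=
            mul_le_mul (mul_le_mul_of_nonneg_left hNz (by norm_num))
              (pow_le_pow_left₀ (by positivity) h2i' 2) (by positivity) (by positivity)
          _ = 48 * c1 * (μ * A) ^ 2 := by ring
          _ ≤ 49 * (c1 * c1) * (μ * A) ^ 2 := by
            refine mul_le_mul_of_nonneg_right ?_ (by positivity)
            nlinarith
          _ = (7 * c1 * (μ * A)) ^ 2 := by ring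
      have h4 : ((T z).nR : ℝ) ≤ 7 * c1 * (μ * A) :=
        le_of_pow_le_pow_left₀ (by norm_num) (by positivity) h1
      have h5 : ((C0 * (T z).nR : ℕ) : ℝ) ≤ (e : ℝ) := by
        push_cast
        calc (C0 : ℝ) * (T z).nR ≤ C0 * (7 * c1 * (μ * A)) :=
              mul_le_mul_of_nonneg_left h4 (by positivity)
          _ = (7 * c1 * C0) * (μ * A) := by ring
          _ ≤ K * (μ * A) := by
            refine mul_le_mul_of_nonneg_right ?_ (by positivity)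
            exact_mod_cast hK7
          _ ≤ K * μ * (A * x) := by
            have h7 : A ≤ A * x := le_mul_of_one_le_right (by positivity) hx1
            calc (K : ℝ) * (μ * A) = K * μ * A := by ring
              _ ≤ K * μ * (A * x) := mul_le_mul_of_nonneg_left h7 (by positivity)
          _ ≤ e := hKe
      exact_mod_cast h5
  have hgs : (l.map T).map Tup.gs = l.map Prod.snd := by
    rw [List.map_map]
    exact List.map_congr_left fun z _ => hT1 z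
  have hcs : ((l.map T).map Tup.c).sum = 0 := by
    rw [List.map_map]
    have h1 : l.map (Tup.c ∘ T) = l.map fun _ => (0 : ℝ) := List.map_congr_left fun z _ => hT2 z
    rw [h1]
    simp
  -- the shift `w`
  obtain ⟨w, hw⟩ : ∃ w : ℝ, w = ((Sm ms : ℝ) - (Sm mg : ℝ) / 2 + (X : ℝ)) / 2 + (C0 : ℝ) * (e : ℝ) :=
    ⟨_, rfl⟩
  obtain ⟨b, hb⟩ : ∃ b : ℝ, b = 22 * Y + 1 := ⟨_, rfl⟩
  rw [hY] at hb
  obtain ⟨hb1, hblog⟩ := propE_log h5 h6 (by omega : 1 ≤ c1) hx1 hxμ hA hb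
  rw [← hY] at hb
  have hb0 : 0 < b := lt_of_lt_of_le one_pos hb1
  have hSmms : (Sm ms : ℝ) = Sm mg + Sm rest + Sm ot := by
    rw [hms, hl1, Sm_add, Sm_add]
    push_cast
    ring
  have hun := unmerge (d := e) (Y := Y) (b1 := b) (b2 := b) (w := w) (by rw [hb]; linarith) hb0
    le_rfl (l.map T) 1 (rest + ot) zero_le_one le_rfl
    (fun y hy => by
      obtain ⟨z, -, rfl⟩ := List.mem_map.1 hy
      exact ⟨(hgrp _ hy).1, by rw [hT2], fun n => by rw [hT2]; exact abs_nonneg _⟩)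
    (fun ns hns => by
      obtain ⟨n1, n2, n3⟩ := propE_forall2 (C0 := C0) (e := e) (l.map T) ns hns
        (fun y hy => (hgrp y hy).2)
      rw [hgs, ← hmg] at n1 n2
      have hB := hBase e μ X ((ns : Multiset ℕ) + (rest + ot)) hμ
        ((Nat.mul_le_mul_right _ hKC0).trans hKμ)
        (by
          intro m hm
          rcases Multiset.mem_add.1 hm with hm | hm
          · exact n3 m (Multiset.mem_coe.1 hm)
          · have hm' : m ∈ ms := by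
              rw [hms, hl1]
              rcases Multiset.mem_add.1 hm with hm | hm
              · exact Multiset.mem_add.2 (Or.inl (Multiset.mem_add.2 (Or.inr hm)))
              · exact Multiset.mem_add.2 (Or.inr hm)
            exact (Nat.mul_le_mul_right _ (hKC0.trans hKC)).trans
              (hCm m hm'))
        (by
          have h1 : rest.filter (fun m => m ≤ μ) = rest := by
            rw [Multiset.filter_eq_self]
            intro m hm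
            exact (hsm1 m (by rw [hl1]; exact Multiset.mem_add.2 (Or.inr hm))).2
          rw [Multiset.filter_add, Multiset.filter_add, Sq_add, Sq_add, h1]
          calc e ^ 2 ≤ f * Sq sm := hSqsm
            _ ≤ f * (8 * Sq rest) := Nat.mul_le_mul_left _ hl3
            _ = 8 * f * Sq rest := by ring
            _ ≤ _ := Nat.mul_le_mul_left _ (by omega))
        (by
          rw [Sq_add, Sq_add]
          have h1 : Sq ms = Sq mg + Sq rest + Sq ot := by rw [hms, hl1, Sq_add, Sq_add]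
          omega)
        hXbase hXe
      refine hB.trans (le_trans (max_le_max ?_ le_rfl) (le_phi zero_le_one le_rfl hb0 le_rfl))
      rw [hw, add_assoc]
      have h2 : (Sm ((ns : Multiset ℕ) + (rest + ot)) : ℝ) ≤ (Sm ms : ℝ) - (Sm mg : ℝ) / 2 := by
        rw [hSmms, Sm_add, Sm_add]
        have h3 : (2 : ℝ) * (Sm (ns : Multiset ℕ) : ℝ) ≤ Sm mg := by exact_mod_cast n1
        push_cast
        linarith
      linarith)
  rw [hgs, hcs, ← hmg, ← add_assoc, ← hl1, ← hms, neg_zero, zero_div, Real.exp_zero,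
    mul_one] at hun
  -- the final estimate
  have hV : vv e ms + w ≤ -(Sm sm : ℝ) / 50 := by
    refine propE_V (c1 := c1) (C0 := C0) (K := K) (e := e) (X := X) (G := Sm mg)
      (T := ((∑ i ∈ Finset.range (Nat.clog 2 μ + 1), N i * 2 ^ i : ℕ) : ℝ)) hf' hμ' hx1 hA1 he'
      hS1 hS2 hKf3 hKcf hK1 (propE_sum hμ hNle)
      (by exact_mod_cast hl4) ?_ ?_
    · rw [hX, le_div_iff₀ (by norm_num)]
      exact_mod_cast Nat.div_mul_le_self _ _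
    · have h1 := two_vv e ms
      have h2 : (e : ℝ) ^ 2 ≤ (Sq ms : ℝ) := by exact_mod_cast hSq1
      rw [hw]
      nlinarith
  have hfin : 50 * (b * Real.log b) ≤ (Sm sm : ℝ) := by
    have h1 : (f : ℝ) * (50 * (b * Real.log b)) ≤ f * (Sm sm : ℝ) := by
      have h2' : (50 : ℝ) * c5 * c6 * f ≤ K := by exact_mod_cast hKcc
      have h3 : (1 : ℝ) ≤ K := by exact_mod_cast hK1
      have h4 : (0 : ℝ) ≤ μ * A ^ 2 * x ^ 2 := by positivity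
      calc (f : ℝ) * (50 * (b * Real.log b))
          ≤ f * (50 * (c5 * c6 * (μ * A ^ 2 * x ^ 2))) :=
            mul_le_mul_of_nonneg_left (mul_le_mul_of_nonneg_left hblog (by norm_num)) hf'.le
        _ = (50 * c5 * c6 * f) * (μ * A ^ 2 * x ^ 2) := by ring
        _ ≤ K * (μ * A ^ 2 * x ^ 2) := mul_le_mul_of_nonneg_right h2' h4
        _ ≤ K ^ 2 * (μ * A ^ 2 * x ^ 2) := mul_le_mul_of_nonneg_right (by nlinarith) h4
        _ ≤ f * (Sm sm : ℝ) := hS2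
    exact le_of_mul_le_mul_left h1 hf'
  have hlt := lt_of_le_of_lt hun (propE_exp hb1 hV (Nat.cast_nonneg _) hfin)
  rw [← hh_eq_zero_iff]
  have h9 : hh e ms < 1 := by exact_mod_cast hlt
  omega

end Pool.Agent.SG
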