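import Pool.Agent.SG.WW
import Pool.Agent.SG.Cube

set_option autoImplicit false

/-!
# Module SW: strong two-sided width (stage 2)

`a = 2j+1`, `g = 1/(a+2) = 1/(2j+3) ≤ 1/3`, `ℓ = log (d+3) ≥ 1`, `ms` the small elements (`≤ M`), `bg` the big
ones (which are never merged). `v = vv d (ms + bg)`. The elements `≤ L ≤ M` carry the proportion `1/f` of `d^2`
(usually `L = M`; the case `L < M` allows many big points).
Groups: `N i = ⌈c1 (2^i)^(2g)⌉₊`, `grp` for `ms` with `t i = N i` and `P i gs` := the group `gs` (`W = 2^i`,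
`card gs ≤ N i ≤ 2 card gs`) has a window as in `localZone` (`C_LZ W^2 ≤ (N i / 2)^(a+2)`) and
`∀ n, c0 sqrt(N i) 2^i ≤ |cd gs - kk n|` (`cube` applied to `A`). `rest`: `card (cls i rest) < N i`,
`Sm rest ≤ c2 M^(1+2g)`, `Sq rest ≤ c2' M^(2+2g)`.
`Y = 100 max N i 2^i ≤ c3 M^(1+2g)`, `b2 = 22 Y + 1 ≤ c3' M^(1+2g)`. `V = ⌈c4 M^(1+g)⌉ ≥` all `nR` and `M`.
For `nL ≤ n ≤ nR`: `Sq gs ≤ 2 n^2`, `n^2 ≤ 3 Sq gs`, so with `T_j = sqrt(N i) 2^i`: `T_j/4 ≤ n ≤ 2 T_j`,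
`c_j = c0 T_j`.
States `ms1 = ns + rest`: `Sq ms1 ≥ Sq ms / 2 ≥ d^2/(2f)`, `Sq (ms1 + bg) ≤ 3 Sq (ms + bg) ≤ 9 d^2 ≤ 10 d^2`;
`Sm ms1 ≤ 2 ∑ T_j + c2 M^(1+2g)`. `ww` (`2 f`, `M := V`) with `K = C8 ℓ` and
`b1 = C_ww ((2 ∑ T_j + c2 M^(1+2g))/K + Sm bg + d + K^2 V^(1+2g))` (a fixed number): `hh d (ms1 + bg) ≤
Phi 1 b1 b1 (v) = Phi 1 b1 b2 (v)`. Growth condition of `ww`: `C_ww K^(a+2) V^(a+3) ≤ d^(a+1)`:
`(1+g)(a+3) = 1/g + 2 + g`, `(1+5g)(a+1) = 1/g + 4 - 5g`, and `4(a+1) ≥ a+2`, so it follows from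
`A ℓ^4 M^(1+5g) ≤ d`.
`∑ T_j`: take only the groups in the classes `i ≤ clog 2 L`: `∑ T_j^2 ≥ ∑ Sq gs_j ≥ d^2/f - c2' M^(2+2g) ≥
d^2/(2f)` (all elements `≤ L` are in these groups or in `rest`), `T_j ≤ c4 L^(1+g) =: V'`, so
`∑ T_j ≥ d^2/(2 f V')`. By the growth hypotheses `K (Sm bg + d + K^2 V^(1+2g) + c2 M^(1+2g)) ≤ ∑ T_j`
(`Sm bg`: hypothesis `A ℓ L^(1+g) Sm bg ≤ d^2`; `d`: `K V' ≤ c d`; `K^3 V^(1+2g) V' ≤ K^3 V^(2+2g) ≤ c d^2` as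
`(1+g)(2+2g) ≤ 2(1+5g)`), so `b1 ≤ 4 C_ww ∑ T_j / K`.
`unmerge` (`w = 0`, `q = 1`): `hh d (ms + bg) ≤ Phi q b1 b2 v`, `q = exp(-c0 ∑ T_j/(4 b1)) ≤
exp(-c0 K/(16 C_ww)) = exp(-c0 C8 ℓ/(16 C_ww)) ≤ 1/(8 b1)` for `C8` large (`b1 ≤ C (d+3)^2` because
`∑ T_j ≤ 4 Sm ms ≤ 12 d^2`). (`b2 ≤ b1`: `K^2 V^(1+2g)` term, `C8` large.)
`phi_le_eighth`: if `|v| ≥ b2 log(8 b2)`, in particular if `|v| ≥ B M^(1+2g) ℓ`, then
`hh ≤ max v 0 + 1/8`; `hh` and `v` are integers and `hh ≥ max v 0` (`vv_le_hh`), so `hh = max v 0`.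
-/

namespace Pool.Agent.SG

open MvPolynomial Pool.Agent.helper5.NBS Pool.Agent.helper89.Segre Pool.Agent.SH9
open Pool.Agent.helper25.ST

/-! ### sizes of the groups -/

private noncomputable def NS (c1 : ℕ) (g : ℝ) (i : ℕ) : ℕ := ⌈(c1 : ℝ) * ((2 : ℝ) ^ i) ^ (2 * g)⌉₊

private noncomputable def TS (c1 : ℕ) (g : ℝ) (i : ℕ) : ℝ := √(NS c1 g i : ℝ) * 2 ^ i

private lemma p2_ge {g : ℝ} (hg : 0 < g) (i : ℕ) : 1 ≤ ((2 : ℝ) ^ i) ^ (2 * g) :=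
  Real.one_le_rpow (one_le_pow₀ (by norm_num)) (by positivity)

private lemma NS_ge (c1 : ℕ) (g : ℝ) (i : ℕ) :
    (c1 : ℝ) * ((2 : ℝ) ^ i) ^ (2 * g) ≤ NS c1 g i := Nat.le_ceil _

private lemma NS_le {c1 : ℕ} {g : ℝ} (hc : 1 ≤ c1) (hg : 0 < g) (i : ℕ) :
    (NS c1 g i : ℝ) ≤ 2 * c1 * ((2 : ℝ) ^ i) ^ (2 * g) := by
  have h1 := p2_ge hg i
  have hc' : (1 : ℝ) ≤ c1 := by exact_mod_cast hc
  have h2 : 1 ≤ (c1 : ℝ) * ((2 : ℝ) ^ i) ^ (2 * g) := by nlinarith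
  have h3 := Nat.ceil_lt_add_one (a := (c1 : ℝ) * ((2 : ℝ) ^ i) ^ (2 * g)) (by linarith)
  unfold NS
  linarith

private lemma NS_one {c1 : ℕ} {g : ℝ} (hc : 1 ≤ c1) (hg : 0 < g) (i : ℕ) : 1 ≤ NS c1 g i := by
  have h1 := p2_ge hg i
  have hc' : (1 : ℝ) ≤ c1 := by exact_mod_cast hc
  have h2 : 1 ≤ (c1 : ℝ) * ((2 : ℝ) ^ i) ^ (2 * g) := by nlinarith
  have h3 := h2.trans (NS_ge c1 g i)
  exact_mod_cast h3

private lemma NS_pw {j C n i : ℕ} {g y : ℝ} (hgj : g * (2 * (j : ℝ) + 3) = 1)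
    (hy : 1 ≤ y) (hC : (C : ℝ) ≤ y) (hn : y * ((2 : ℝ) ^ i) ^ (2 * g) ≤ n) :
    C * (2 ^ i) ^ 2 ≤ n ^ (2 * j + 3) := by
  have h1 : (y * ((2 : ℝ) ^ i) ^ (2 * g)) ^ (2 * j + 3) ≤ (n : ℝ) ^ (2 * j + 3) :=
    pow_le_pow_left₀ (by positivity) hn _
  have h2 : (((2 : ℝ) ^ i) ^ (2 * g)) ^ (2 * j + 3) = ((2 : ℝ) ^ i) ^ 2 := by
    rw [← Real.rpow_natCast, ← Real.rpow_mul (by positivity)]
    have : 2 * g * ((2 * j + 3 : ℕ) : ℝ) = ((2 : ℕ) : ℝ) := by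
      push_cast
      linear_combination 2 * hgj
    rw [this, Real.rpow_natCast]
  rw [mul_pow, h2] at h1
  have h3 : y ≤ y ^ (2 * j + 3) := le_self_pow₀ hy (by omega)
  have h4 : (C : ℝ) * ((2 : ℝ) ^ i) ^ 2 ≤ (n : ℝ) ^ (2 * j + 3) :=
    (mul_le_mul_of_nonneg_right (hC.trans h3) (by positivity)).trans h1
  exact_mod_cast h4

private lemma TS_pos {c1 : ℕ} {g : ℝ} (hc : 1 ≤ c1) (hg : 0 < g) (i : ℕ) : 0 < TS c1 g i := by
  have h1 : (0 : ℝ) < NS c1 g i := by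
    have := NS_one hc hg i
    positivity
  unfold TS
  positivity

private lemma TS_sq (c1 : ℕ) (g : ℝ) (i : ℕ) : TS c1 g i ^ 2 = NS c1 g i * 4 ^ i := by
  unfold TS
  rw [mul_pow, Real.sq_sqrt (Nat.cast_nonneg _), ← pow_mul, mul_comm i 2, pow_mul]
  norm_num

private lemma TS_le_N {c1 : ℕ} {g : ℝ} (hc : 1 ≤ c1) (hg : 0 < g) (i : ℕ) :
    TS c1 g i ≤ NS c1 g i * 2 ^ i := by
  have h1 : (1 : ℝ) ≤ NS c1 g i := by exact_mod_cast NS_one hc hg i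
  unfold TS
  apply mul_le_mul_of_nonneg_right _ (by positivity)
  rw [Real.sqrt_le_left (by linarith)]
  nlinarith

private lemma TS_le {c1 : ℕ} {g : ℝ} (hc : 1 ≤ c1) (hg : 0 < g) (i : ℕ) :
    TS c1 g i ≤ 2 * c1 * ((2 : ℝ) ^ i) ^ (1 + g) := by
  have hc' : (1 : ℝ) ≤ c1 := by exact_mod_cast hc
  have h1 := NS_le hc hg i
  have hp : (0 : ℝ) < (2 : ℝ) ^ i := by positivity
  have h2 : ((2 : ℝ) ^ i) ^ (2 * g) = (((2 : ℝ) ^ i) ^ g) ^ 2 := by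
    rw [← Real.rpow_natCast (((2 : ℝ) ^ i) ^ g), ← Real.rpow_mul hp.le]
    congr 1
    push_cast; ring
  have h3 : √(NS c1 g i : ℝ) ≤ 2 * c1 * ((2 : ℝ) ^ i) ^ g := by
    rw [Real.sqrt_le_left (by positivity)]
    refine h1.trans ?_
    rw [h2, mul_pow]
    have h4 : 0 ≤ (((2 : ℝ) ^ i) ^ g) ^ 2 := by positivity
    have h5 : 2 * (c1 : ℝ) ≤ (2 * c1) ^ 2 := by nlinarith
    exact mul_le_mul_of_nonneg_right h5 h4
  have h4 : ((2 : ℝ) ^ i) ^ (1 + g) = (2 : ℝ) ^ i * ((2 : ℝ) ^ i) ^ g := by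
    rw [Real.rpow_add hp, Real.rpow_one]
  unfold TS
  rw [h4]
  calc √(NS c1 g i : ℝ) * 2 ^ i ≤ 2 * c1 * ((2 : ℝ) ^ i) ^ g * 2 ^ i :=
        mul_le_mul_of_nonneg_right h3 hp.le
    _ = _ := by ring

/-- `x^θ ≤ 4 M^θ` for `x ≤ 2M`, `θ ≤ 2` -/
private lemma rp4 {x M θ : ℝ} (hx0 : 0 ≤ x) (hx : x ≤ 2 * M) (hM : 0 ≤ M) (hθ0 : 0 ≤ θ)
    (hθ : θ ≤ 2) : x ^ θ ≤ 4 * M ^ θ := by
  have h1 : x ^ θ ≤ (2 * M) ^ θ := Real.rpow_le_rpow hx0 hx hθ0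
  rw [Real.mul_rpow (by norm_num) hM] at h1
  have h2 : (2 : ℝ) ^ θ ≤ 2 ^ (2 : ℝ) := Real.rpow_le_rpow_of_exponent_le (by norm_num) hθ
  norm_num at h2
  exact h1.trans (mul_le_mul_of_nonneg_right h2 (by positivity))

/-- `x^θ ≤ 8 M^θ` for `x ≤ 2M`, `θ ≤ 3` -/
private lemma rp8 {x M θ : ℝ} (hx0 : 0 ≤ x) (hx : x ≤ 2 * M) (hM : 0 ≤ M) (hθ0 : 0 ≤ θ)
    (hθ : θ ≤ 3) : x ^ θ ≤ 8 * M ^ θ := by
  have h1 : x ^ θ ≤ (2 * M) ^ θ := Real.rpow_le_rpow hx0 hx hθ0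
  rw [Real.mul_rpow (by norm_num) hM] at h1
  have h2 : (2 : ℝ) ^ θ ≤ 2 ^ (3 : ℝ) := Real.rpow_le_rpow_of_exponent_le (by norm_num) hθ
  norm_num at h2
  exact h1.trans (mul_le_mul_of_nonneg_right h2 (by positivity))

/-- `N i 2^i ≤ 2 c1 (2^i)^(1+2g)` -/
private lemma NS1 {c1 : ℕ} {g : ℝ} (hc : 1 ≤ c1) (hg : 0 < g) (i : ℕ) :
    (NS c1 g i : ℝ) * 2 ^ i ≤ 2 * c1 * ((2 : ℝ) ^ i) ^ (1 + 2 * g) := by
  have h1 := NS_le hc hg i
  have hp : (0 : ℝ) < (2 : ℝ) ^ i := by positivity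
  have h4 : ((2 : ℝ) ^ i) ^ (1 + 2 * g) = (2 : ℝ) ^ i * ((2 : ℝ) ^ i) ^ (2 * g) := by
    rw [Real.rpow_add hp, Real.rpow_one]
  rw [h4]
  calc (NS c1 g i : ℝ) * 2 ^ i ≤ 2 * c1 * ((2 : ℝ) ^ i) ^ (2 * g) * 2 ^ i :=
        mul_le_mul_of_nonneg_right h1 hp.le
    _ = _ := by ring

/-- `N i 4^i ≤ 2 c1 (2^i)^(2+2g)` -/
private lemma NS2 {c1 : ℕ} {g : ℝ} (hc : 1 ≤ c1) (hg : 0 < g) (i : ℕ) :
    (NS c1 g i : ℝ) * 4 ^ i ≤ 2 * c1 * ((2 : ℝ) ^ i) ^ (2 + 2 * g) := by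
  have h1 := NS_le hc hg i
  have hp : (0 : ℝ) < (2 : ℝ) ^ i := by positivity
  have h4 : ((2 : ℝ) ^ i) ^ (2 + 2 * g) = (4 : ℝ) ^ i * ((2 : ℝ) ^ i) ^ (2 * g) := by
    rw [Real.rpow_add hp]
    congr 1
    rw [Real.rpow_two, ← pow_mul, mul_comm i 2, pow_mul]
    norm_num
  rw [h4]
  calc (NS c1 g i : ℝ) * 4 ^ i ≤ 2 * c1 * ((2 : ℝ) ^ i) ^ (2 * g) * 4 ^ i :=
        mul_le_mul_of_nonneg_right h1 (by positivity)
    _ = _ := by ring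


/-! ### the groups -/

/-- the properties of a group -/
private structure SL (c1 : ℕ) (c0 g : ℝ) (M : ℕ) (x : Tup) : Prop where
  ok : Tup.Ok x (800 * c1 * (M : ℝ) ^ (1 + 2 * g))
  l1 : 1 ≤ x.nL
  l2 : Sq x.gs ≤ 2 * x.nL ^ 2
  r1 : (x.nR : ℝ) ≤ 2 * (x.c / c0)
  r2 : x.nR ^ 2 ≤ 3 * Sq x.gs
  T0 : 0 ≤ x.c / c0
  cM : x.c / c0 ≤ 8 * c1 * (M : ℝ) ^ (1 + g)
  cS : x.c / c0 ≤ 4 * (Sm x.gs : ℝ)
  cL : ∀ L : ℕ, 1 ≤ L →
    ((Sq (x.gs.filter fun m => m ≤ L) : ℕ) : ℝ) ≤ 8 * c1 * (L : ℝ) ^ (1 + g) * (x.c / c0)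

private lemma Sq_le_card {W : ℕ} {ms : Multiset ℕ} (h : ∀ m ∈ ms, m ≤ W) :
    Sq ms ≤ Multiset.card ms * W ^ 2 := by
  have h1 := Multiset.sum_le_card_nsmul (ms.map fun m => m ^ 2) (W ^ 2) (by
    intro x hx
    rw [Multiset.mem_map] at hx
    obtain ⟨m, hm, rfl⟩ := hx
    exact Nat.pow_le_pow_left (h m hm) 2)
  rw [Multiset.card_map, smul_eq_mul] at h1
  exact h1

private lemma Sm_ge_card {W : ℕ} {ms : Multiset ℕ} (h : ∀ m ∈ ms, W < 2 * m) :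
    Multiset.card ms * W ≤ 2 * Sm ms := by
  have h1 := Multiset.card_nsmul_le_sum (s := ms.map fun m => 2 * m) (a := W) (by
    intro x hx
    rw [Multiset.mem_map] at hx
    obtain ⟨m, hm, rfl⟩ := hx
    exact (h m hm).le)
  rw [Multiset.card_map, smul_eq_mul, Multiset.sum_map_mul_left, Multiset.map_id'] at h1
  exact h1

private lemma Sq_filter_le (ms : Multiset ℕ) (p : ℕ → Prop) [DecidablePred p] :
    Sq (ms.filter p) ≤ Sq ms := by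
  have h := Sq_add (ms.filter p) (ms.filter fun m => ¬ p m)
  rw [Multiset.filter_add_not] at h
  omega

private lemma mem_list_sum {l : List (ℕ × Multiset ℕ)} {x : ℕ × Multiset ℕ} (hx : x ∈ l) {m : ℕ}
    (hm : m ∈ x.2) : m ∈ (l.map Prod.snd).sum := by
  induction l with
  | nil => simp at hx
  | cons y l ih =>
    rw [List.map_cons, List.sum_cons, Multiset.mem_add]
    rcases List.mem_cons.1 hx with h | h
    · left; rw [← h]; exact hm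
    · right; exact ih h

private lemma list_choose {Q : Tup → Prop} : ∀ (l : List (ℕ × Multiset ℕ)),
    (∀ x ∈ l, ∃ y : Tup, y.gs = x.2 ∧ Q y) →
    ∃ l' : List Tup, (l'.map Tup.gs).sum = (l.map Prod.snd).sum ∧ ∀ y ∈ l', Q y
  | [], _ => ⟨[], rfl, by simp⟩
  | x :: l, h => by
    obtain ⟨l', h1, h2⟩ := list_choose l fun z hz => h z (List.mem_cons_of_mem _ hz)
    obtain ⟨y, hy, hQ⟩ := h x List.mem_cons_self
    refine ⟨y :: l', ?_, ?_⟩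
    · rw [List.map_cons, List.sum_cons, List.map_cons, List.sum_cons, h1, hy]
    · intro z hz
      rcases List.mem_cons.1 hz with h | h
      · rw [h]; exact hQ
      · exact h2 z h

private theorem sw_grp (j : ℕ) (h : NN (2 * j + 1)) {g : ℝ} (hg : 0 < g) (hg3 : g ≤ 1 / 3)
    (hgj : g * (2 * (j : ℝ) + 3) = 1) : ∃ (c1 : ℕ) (c0 : ℝ), 1 ≤ c1 ∧ 0 < c0 ∧
    ∀ (M : ℕ) (ms : Multiset ℕ), 1 ≤ M → (∀ m ∈ ms, 1 ≤ m ∧ m ≤ M) →
    ∃ (l : List Tup) (rest : Multiset ℕ), ms = (l.map Tup.gs).sum + rest ∧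
      (∀ x ∈ l, SL c1 c0 g M x) ∧ (Sm rest : ℝ) ≤ 16 * c1 * (M : ℝ) ^ (1 + 2 * g) ∧
      (Sq rest : ℝ) ≤ 32 * c1 * (M : ℝ) ^ (2 + 2 * g) := by
  obtain ⟨Cl, hCl1, hCl⟩ := localZone h
  obtain ⟨Cu, c0, hCu1, hc0, hCu⟩ := cube j
  refine ⟨2 * Cl + Cu, c0, by omega, hc0, fun M ms hM hms => ?_⟩
  obtain ⟨c1, hc1⟩ : ∃ c1, c1 = 2 * Cl + Cu := ⟨_, rfl⟩
  have hc11 : 1 ≤ c1 := by omega
  rw [← hc1]
  have hM' : (1 : ℝ) ≤ M := by exact_mod_cast hM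
  obtain ⟨l, rest, hl, hlP, hcard, -⟩ := grp
    (fun i gs => (∃ nL nR : ℕ, Win gs nL nR (100 * (Multiset.card gs : ℝ) * ((2 ^ i : ℕ) : ℝ)) ∧
      1 ≤ nL ∧ Sq gs ≤ 2 * nL ^ 2 ∧ nR ^ 2 ≤ 3 * Sq gs) ∧ NS c1 g i ≤ 2 * Multiset.card gs ∧
      ∀ n : ℕ, c0 * TS c1 g i ≤ |((cd gs : ℕ) : ℝ) - (kk n : ℝ)|)
    (NS c1 g) (NS c1 g) (NS_one hc11 hg) (fun _ => le_rfl) (by
      intro i A hA hcA
      have hA' : ∀ m ∈ A, 2 ^ i < 2 * m ∧ m ≤ 2 ^ i := fun m hm => by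
        obtain ⟨h1, h2⟩ := clsW (hA m hm).1 (hA m hm).2
        exact ⟨h2, h1⟩
      have hN1 := NS_one hc11 hg i
      have hNge := NS_ge c1 g i
      have hc1r : (c1 : ℝ) = 2 * Cl + Cu := by rw [hc1]; push_cast; ring
      have hClr : (1 : ℝ) ≤ Cl := by exact_mod_cast hCl1
      have hCur : (1 : ℝ) ≤ Cu := by exact_mod_cast hCu1
      obtain ⟨gs', hle, hc2, hdist⟩ := hCu (2 ^ i) A Nat.one_le_two_pow hA' (by
        rw [hcA]
        exact NS_pw (y := (c1 : ℝ)) hgj (by linarith) (by linarith) hNge)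
      rw [hcA] at hc2
      have hgs' : ∀ m ∈ gs', 2 ^ i < 2 * m ∧ m ≤ 2 ^ i := fun m hm =>
        hA' m (Multiset.mem_of_le hle hm)
      have hc2r : (NS c1 g i : ℝ) ≤ 2 * (Multiset.card gs' : ℝ) := by exact_mod_cast hc2
      have hp := p2_ge hg i
      refine ⟨gs', hle, ?_, hCl (2 ^ i) gs' Nat.one_le_two_pow hgs' ?_, hc2, ?_⟩
      · rintro rfl
        simp at hc2
        omega
      · refine NS_pw (y := (Cl : ℝ)) hgj (by linarith) le_rfl ?_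
        nlinarith
      · intro n
        have h1 := hdist n
        rw [hcA] at h1
        unfold TS
        refine le_trans (le_of_eq ?_) h1
        push_cast
        ring) ms (fun m hm => (hms m hm).1)
  have hrest : ∀ m ∈ rest, 1 ≤ m ∧ m ≤ M := fun m hm => hms m (by
    rw [hl, Multiset.mem_add]; right; exact hm)
  obtain ⟨l', hl', hlS⟩ := list_choose (Q := SL c1 c0 g M) l (by
    intro x hx
    obtain ⟨⟨⟨nL, nR, hw, w1, w2, w3⟩, hN2, hd⟩, hne, hcN, hcl⟩ := hlP x hx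
    refine ⟨⟨x.2, nL, nR, c0 * TS c1 g x.1⟩, rfl, ?_⟩
    have hTp := TS_pos hc11 hg x.1
    have hTc : c0 * TS c1 g x.1 / c0 = TS c1 g x.1 := by field_simp
    have hc1r : (1 : ℝ) ≤ c1 := by exact_mod_cast hc11
    have hx' : ∀ m ∈ x.2, 2 ^ x.1 < 2 * m ∧ m ≤ 2 ^ x.1 := fun m hm => by
      obtain ⟨h1, h2⟩ := clsW (hcl m hm).1 (hcl m hm).2
      exact ⟨h2, h1⟩
    have h2M : ((2 : ℝ) ^ x.1) ≤ 2 * M := by
      obtain ⟨m, hm⟩ := Multiset.exists_mem_of_ne_zero hne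
      have h1 := (hx' m hm).1
      have h2 := (hms m (by rw [hl, Multiset.mem_add]; left; exact mem_list_sum hx hm)).2
      have h3 : 2 ^ x.1 ≤ 2 * M := by omega
      exact_mod_cast h3
    have hcNr : (Multiset.card x.2 : ℝ) ≤ NS c1 g x.1 := by exact_mod_cast hcN
    have hN2r : (NS c1 g x.1 : ℝ) ≤ 2 * (Multiset.card x.2 : ℝ) := by exact_mod_cast hN2
    have hSq : ((Sq x.2 : ℕ) : ℝ) ≤ TS c1 g x.1 ^ 2 := by
      rw [TS_sq]
      have h1 := Sq_le_card fun m hm => (hx' m hm).2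
      have h2 : ((Sq x.2 : ℕ) : ℝ) ≤ (Multiset.card x.2 : ℝ) * (2 ^ x.1) ^ 2 := by exact_mod_cast h1
      have e4 : ((2 : ℝ) ^ x.1) ^ 2 = 4 ^ x.1 := by
        rw [← pow_mul, mul_comm x.1 2, pow_mul]
        norm_num
      rw [e4] at h2
      exact h2.trans (mul_le_mul_of_nonneg_right hcNr (by positivity))
    refine ⟨⟨⟨hw.ex, hw.wid.trans ?_⟩, ?_, hd⟩, w1, w2, ?_, w3, ?_, ?_, ?_, ?_⟩
    · have h1 := NS1 hc11 hg x.1
      have h2 := rp4 (θ := 1 + 2 * g) (by positivity) h2M (by positivity) (by positivity)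
        (by linarith)
      push_cast
      calc 100 * (Multiset.card x.2 : ℝ) * 2 ^ x.1 ≤ 100 * (NS c1 g x.1 * 2 ^ x.1) := by
            rw [mul_assoc]
            gcongr
        _ ≤ 100 * (2 * c1 * ((2 : ℝ) ^ x.1) ^ (1 + 2 * g)) := by gcongr
        _ ≤ 100 * (2 * c1 * (4 * (M : ℝ) ^ (1 + 2 * g))) := by gcongr
        _ = _ := by ring
    · show 0 ≤ c0 * TS c1 g x.1
      positivity
    · show (nR : ℝ) ≤ 2 * (c0 * TS c1 g x.1 / c0)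
      rw [hTc]
      have h1 : ((nR : ℝ)) ^ 2 ≤ 3 * ((Sq x.2 : ℕ) : ℝ) := by exact_mod_cast w3
      have h2 : (nR : ℝ) ^ 2 ≤ (2 * TS c1 g x.1) ^ 2 := by
        rw [mul_pow]
        have := sq_nonneg (TS c1 g x.1)
        linarith
      exact le_of_sq_le_sq h2 (by positivity)
    · show 0 ≤ c0 * TS c1 g x.1 / c0
      rw [hTc]; exact hTp.le
    · show c0 * TS c1 g x.1 / c0 ≤ 8 * c1 * (M : ℝ) ^ (1 + g)
      rw [hTc]
      have h1 := TS_le hc11 hg x.1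
      have h2 := rp4 (θ := 1 + g) (by positivity) h2M (by positivity) (by positivity) (by linarith)
      calc TS c1 g x.1 ≤ 2 * c1 * ((2 : ℝ) ^ x.1) ^ (1 + g) := h1
        _ ≤ 2 * c1 * (4 * (M : ℝ) ^ (1 + g)) := by gcongr
        _ = _ := by ring
    · show c0 * TS c1 g x.1 / c0 ≤ 4 * (Sm x.2 : ℝ)
      rw [hTc]
      have h1 := TS_le_N hc11 hg x.1
      have h2 := Sm_ge_card fun m hm => (hx' m hm).1
      have h3 : (Multiset.card x.2 : ℝ) * 2 ^ x.1 ≤ 2 * (Sm x.2 : ℝ) := by exact_mod_cast h2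
      have h4 : (NS c1 g x.1 : ℝ) * 2 ^ x.1 ≤ 2 * (Multiset.card x.2 : ℝ) * 2 ^ x.1 :=
        mul_le_mul_of_nonneg_right hN2r (by positivity)
      linarith
    · intro L hL
      show ((Sq (x.2.filter fun m => m ≤ L) : ℕ) : ℝ) ≤
        8 * c1 * (L : ℝ) ^ (1 + g) * (c0 * TS c1 g x.1 / c0)
      rw [hTc]
      by_cases hz : (x.2.filter fun m => m ≤ L) = 0
      · rw [hz]
        simp [Sq]
        positivity
      · obtain ⟨m, hm⟩ := Multiset.exists_mem_of_ne_zero hz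
        rw [Multiset.mem_filter] at hm
        have h1 := (hx' m hm.1).1
        have h3 : 2 ^ x.1 ≤ 2 * L := by omega
        have h2L : ((2 : ℝ) ^ x.1) ≤ 2 * L := by exact_mod_cast h3
        have h4 := TS_le hc11 hg x.1
        have h5 := rp4 (θ := 1 + g) (by positivity) h2L (by positivity) (by positivity)
          (by linarith)
        have h6 : TS c1 g x.1 ≤ 8 * c1 * (L : ℝ) ^ (1 + g) := by
          calc TS c1 g x.1 ≤ 2 * c1 * ((2 : ℝ) ^ x.1) ^ (1 + g) := h4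
            _ ≤ 2 * c1 * (4 * (L : ℝ) ^ (1 + g)) := by gcongr
            _ = _ := by ring
        have h7 : ((Sq (x.2.filter fun m => m ≤ L) : ℕ) : ℝ) ≤ Sq x.2 := by
          exact_mod_cast Sq_filter_le x.2 _
        calc ((Sq (x.2.filter fun m => m ≤ L) : ℕ) : ℝ) ≤ TS c1 g x.1 ^ 2 := h7.trans hSq
          _ = TS c1 g x.1 * TS c1 g x.1 := by ring
          _ ≤ _ := mul_le_mul_of_nonneg_right h6 hTp.le)
  have hcr : (1 : ℝ) ≤ c1 := by exact_mod_cast hc11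
  obtain ⟨b1, -, b3, -⟩ := cls_bounds hrest
  refine ⟨l', rest, by rw [hl']; exact hl, hlS, ?_, ?_⟩
  · have h1 := geom hM (θ := 1 + 2 * g) (by linarith)
    have h2 := rp4 (x := 2 * (M : ℝ)) (θ := 1 + 2 * g) (by positivity) le_rfl (by positivity)
      (by positivity) (by linarith)
    have h3 : (Sm rest : ℝ) ≤ ∑ i ∈ Finset.range (Nat.clog 2 M + 1),
        2 * c1 * ((2 : ℝ) ^ i) ^ (1 + 2 * g) := by
      have h4 : (Sm rest : ℝ) ≤ ∑ i ∈ Finset.range (Nat.clog 2 M + 1),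
          (Multiset.card (cls i rest) : ℝ) * 2 ^ i := by exact_mod_cast b3
      refine h4.trans (Finset.sum_le_sum fun i _ => ?_)
      have h5 : (Multiset.card (cls i rest) : ℝ) ≤ NS c1 g i := by exact_mod_cast (hcard i).le
      exact (mul_le_mul_of_nonneg_right h5 (by positivity)).trans (NS1 hc11 hg i)
    rw [← Finset.mul_sum] at h3
    calc (Sm rest : ℝ) ≤ 2 * c1 * (2 * (2 * (M : ℝ)) ^ (1 + 2 * g)) := h3.trans (by gcongr)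
      _ ≤ 2 * c1 * (2 * (4 * (M : ℝ) ^ (1 + 2 * g))) := by gcongr
      _ = _ := by ring
  · have h1 := geom hM (θ := 2 + 2 * g) (by linarith)
    have h2 := rp8 (x := 2 * (M : ℝ)) (θ := 2 + 2 * g) (by positivity) le_rfl (by positivity)
      (by positivity) (by linarith)
    have h3 : (Sq rest : ℝ) ≤ ∑ i ∈ Finset.range (Nat.clog 2 M + 1),
        2 * c1 * ((2 : ℝ) ^ i) ^ (2 + 2 * g) := by
      have h4 : (Sq rest : ℝ) ≤ ∑ i ∈ Finset.range (Nat.clog 2 M + 1),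
          (Multiset.card (cls i rest) : ℝ) * 4 ^ i := by exact_mod_cast b1
      refine h4.trans (Finset.sum_le_sum fun i _ => ?_)
      have h5 : (Multiset.card (cls i rest) : ℝ) ≤ NS c1 g i := by exact_mod_cast (hcard i).le
      exact (mul_le_mul_of_nonneg_right h5 (by positivity)).trans (NS2 hc11 hg i)
    rw [← Finset.mul_sum] at h3
    calc (Sq rest : ℝ) ≤ 2 * c1 * (2 * (2 * (M : ℝ)) ^ (2 + 2 * g)) := h3.trans (by gcongr)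
      _ ≤ 2 * c1 * (2 * (8 * (M : ℝ) ^ (2 + 2 * g))) := by gcongr
      _ = _ := by ring

/-! ### sums over the groups -/

section

variable {c1 : ℕ} {c0 g : ℝ} {M : ℕ}

private lemma sum_T0 {l : List Tup} (h : ∀ x ∈ l, SL c1 c0 g M x) :
    0 ≤ (l.map Tup.c).sum / c0 := by
  induction l with
  | nil => simp
  | cons x l ih =>
    rw [List.map_cons, List.sum_cons, add_div]
    exact add_nonneg (h x List.mem_cons_self).T0 (ih fun y hy => h y (List.mem_cons_of_mem _ hy))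

private lemma sum_cL {l : List Tup} (h : ∀ x ∈ l, SL c1 c0 g M x) {L : ℕ} (hL : 1 ≤ L) :
    ((Sq ((l.map Tup.gs).sum.filter fun m => m ≤ L) : ℕ) : ℝ) ≤
      8 * c1 * (L : ℝ) ^ (1 + g) * ((l.map Tup.c).sum / c0) := by
  induction l with
  | nil => simp [Sq]
  | cons x l ih =>
    rw [List.map_cons, List.sum_cons, List.map_cons, List.sum_cons, add_div, Multiset.filter_add,
      Sq_add, mul_add]
    push_cast
    exact add_le_add ((h x List.mem_cons_self).cL L hL)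
      (ih fun y hy => h y (List.mem_cons_of_mem _ hy))

private lemma sum_cS {l : List Tup} (h : ∀ x ∈ l, SL c1 c0 g M x) :
    (l.map Tup.c).sum / c0 ≤ 4 * (Sm (l.map Tup.gs).sum : ℝ) := by
  induction l with
  | nil => simp [Sm]
  | cons x l ih =>
    rw [List.map_cons, List.sum_cons, List.map_cons, List.sum_cons, add_div, Sm_add]
    push_cast
    rw [mul_add]
    exact add_le_add (h x List.mem_cons_self).cS
      (ih fun y hy => h y (List.mem_cons_of_mem _ hy))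

private lemma sum_ns {ns : List ℕ} {l : List Tup}
    (hns : List.Forall₂ (fun (n : ℕ) (x : Tup) => x.nL ≤ n ∧ n ≤ x.nR) ns l)
    (h : ∀ x ∈ l, SL c1 c0 g M x) :
    (Sm (ns : Multiset ℕ) : ℝ) ≤ 2 * ((l.map Tup.c).sum / c0) ∧
    Sq (l.map Tup.gs).sum ≤ 2 * Sq (ns : Multiset ℕ) ∧
    Sq (ns : Multiset ℕ) ≤ 3 * Sq (l.map Tup.gs).sum ∧
    ∀ n ∈ (ns : Multiset ℕ), 1 ≤ n ∧ (n : ℝ) ≤ 16 * c1 * (M : ℝ) ^ (1 + g) := by
  induction hns with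
  | nil => simp [Sm, Sq]
  | cons hx _ ih =>
    rename_i n x ns l _
    obtain ⟨i1, i2, i3, i4⟩ := ih fun y hy => h y (List.mem_cons_of_mem _ hy)
    have hX := h x List.mem_cons_self
    rw [List.map_cons, List.sum_cons, List.map_cons, List.sum_cons, add_div, Sq_add,
      ← Multiset.cons_coe, Sm_cons, Sq_cons]
    have r1 := hX.r1
    have hn : (n : ℝ) ≤ x.nR := by exact_mod_cast hx.2
    have q1 : x.nL ^ 2 ≤ n ^ 2 := Nat.pow_le_pow_left hx.1 2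
    have q2 : n ^ 2 ≤ x.nR ^ 2 := Nat.pow_le_pow_left hx.2 2
    have q3 := hX.l2
    have q4 := hX.r2
    refine ⟨?_, by omega, by omega, ?_⟩
    · push_cast
      linarith
    · intro m hm
      rcases Multiset.mem_cons.1 hm with h1 | h1
      · rw [h1]
        refine ⟨hX.l1.trans hx.1, ?_⟩
        have := hX.cM
        linarith
      · exact i4 m h1

end

/-! ### numbers -/

private lemma grow0 {A l M g : ℝ} (hM : 1 ≤ M) :
    (A * l ^ 4 * M ^ (1 + 5 * g)) ^ 2 = A ^ 2 * l ^ 8 * M ^ (2 + 10 * g) := by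
  have h1 : M ^ (2 + 10 * g) = M ^ (1 + 5 * g) * M ^ (1 + 5 * g) := by
    rw [← Real.rpow_add (by linarith)]
    congr 1; ring
  rw [h1]; ring

private lemma grow1 {A l M g d θ : ℝ} (hA : 1 ≤ A) (hl : 1 ≤ l) (hM : 1 ≤ M)
    (hd : A * l ^ 4 * M ^ (1 + 5 * g) ≤ d) (hθ : θ ≤ 1 + 5 * g) : A * l * M ^ θ ≤ d := by
  refine le_trans ?_ hd
  have h1 : M ^ θ ≤ M ^ (1 + 5 * g) := Real.rpow_le_rpow_of_exponent_le hM hθ
  have h2 : l ≤ l ^ 4 := le_self_pow₀ hl (by norm_num)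
  gcongr

private lemma grow2 {A l M g d θ : ℝ} (hA : 1 ≤ A) (hl : 1 ≤ l) (hM : 1 ≤ M)
    (hd : A * l ^ 4 * M ^ (1 + 5 * g) ≤ d) (hθ : θ ≤ 2 + 10 * g) : A * l ^ 3 * M ^ θ ≤ d ^ 2 := by
  have h0 : (A * l ^ 4 * M ^ (1 + 5 * g)) ^ 2 ≤ d ^ 2 := pow_le_pow_left₀ (by positivity) hd 2
  rw [grow0 hM] at h0
  refine le_trans ?_ h0
  have h1 : M ^ θ ≤ M ^ (2 + 10 * g) := Real.rpow_le_rpow_of_exponent_le hM hθ
  have h2 : l ^ 3 ≤ l ^ 8 := pow_le_pow_right₀ hl (by norm_num)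
  have h3 : A ≤ A ^ 2 := le_self_pow₀ hA (by norm_num)
  gcongr

private lemma grow3 {j : ℕ} {A l M g d Cw K0 V0 V : ℝ} (hg3 : g ≤ 1 / 3)
    (hgj : g * (2 * (j : ℝ) + 3) = 1) (hA : 1 ≤ A) (hl : 1 ≤ l) (hM : 1 ≤ M)
    (hd : A * l ^ 4 * M ^ (1 + 5 * g) ≤ d) (hCw : 0 ≤ Cw) (hK0 : 0 ≤ K0) (hV0 : 0 ≤ V)
    (hV : V ≤ V0 * M ^ (1 + g)) (hAc : Cw * K0 ^ (2 * j + 3) * V0 ^ (2 * j + 4) ≤ A) :
    Cw * (K0 * l) ^ (2 * j + 1 + 2) * V ^ (2 * j + 1 + 3) ≤ d ^ (2 * j + 1 + 1) := by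
  have hM0 : 0 < M := by linarith
  have h0 : (A * l ^ 4 * M ^ (1 + 5 * g)) ^ (2 * j + 1 + 1) ≤ d ^ (2 * j + 1 + 1) :=
    pow_le_pow_left₀ (by positivity) hd _
  refine le_trans ?_ h0
  have h1 : V ^ (2 * j + 1 + 3) ≤ (V0 * M ^ (1 + g)) ^ (2 * j + 1 + 3) :=
    pow_le_pow_left₀ hV0 hV _
  have h2 : (M ^ (1 + g)) ^ (2 * j + 1 + 3) = M ^ ((1 + g) * (2 * j + 4)) := by
    rw [← Real.rpow_natCast, ← Real.rpow_mul hM0.le]
    congr 1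
    push_cast; ring
  have h3 : (M ^ (1 + 5 * g)) ^ (2 * j + 1 + 1) = M ^ ((1 + 5 * g) * (2 * j + 2)) := by
    rw [← Real.rpow_natCast, ← Real.rpow_mul hM0.le]
    congr 1
    push_cast; ring
  have h4 : M ^ ((1 + g) * (2 * (j : ℝ) + 4)) ≤ M ^ ((1 + 5 * g) * (2 * (j : ℝ) + 2)) := by
    apply Real.rpow_le_rpow_of_exponent_le hM
    nlinarith
  have h5 : A ≤ A ^ (2 * j + 1 + 1) := le_self_pow₀ hA (by omega)
  have h6 : l ^ (2 * j + 1 + 2) ≤ (l ^ 4) ^ (2 * j + 1 + 1) := by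
    rw [← pow_mul]
    exact pow_le_pow_right₀ hl (by omega)
  calc Cw * (K0 * l) ^ (2 * j + 1 + 2) * V ^ (2 * j + 1 + 3)
      ≤ Cw * (K0 * l) ^ (2 * j + 1 + 2) * (V0 * M ^ (1 + g)) ^ (2 * j + 1 + 3) := by gcongr
    _ = (Cw * K0 ^ (2 * j + 3) * V0 ^ (2 * j + 4)) * l ^ (2 * j + 1 + 2) *
        M ^ ((1 + g) * (2 * j + 4)) := by rw [← h2, mul_pow, mul_pow]; ring
    _ ≤ A ^ (2 * j + 1 + 1) * (l ^ 4) ^ (2 * j + 1 + 1) * M ^ ((1 + 5 * g) * (2 * j + 2)) := by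
        have h7 := hAc.trans h5
        gcongr
    _ = _ := by rw [← h3, mul_pow, mul_pow]

private lemma half {P Z S D : ℝ} (h0 : 0 < P) (h1 : 32 * P * Z ≤ D) (h2 : D ≤ 16 * P * S) :
    Z ≤ S / 2 := by
  have h3 : P * (2 * Z) ≤ P * S := by linarith
  have h4 := le_of_mul_le_mul_left h3 h0
  linarith

/-- `16 c1 M^(1+2g) + K Sm bg + K d + K^3 V^(1+2g) ≤ 2 S` -/
private lemma b1_num {f c1 C8 A l M L g d S SB V : ℝ} (hg : 0 < g) (hg3 : g ≤ 1 / 3) (hf : 1 ≤ f)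
    (hc1 : 1 ≤ c1) (hC8 : 1 ≤ C8) (hA : 1 ≤ A) (hl : 1 ≤ l) (hM : 1 ≤ M) (hL : 1 ≤ L) (hLM : L ≤ M)
    (hd0 : 0 ≤ d) (hd : A * l ^ 4 * M ^ (1 + 5 * g) ≤ d) (hV0 : 0 ≤ V)
    (hV : V ≤ 17 * c1 * M ^ (1 + g)) (hSB : 0 ≤ SB) (hB : A * l * L ^ (1 + g) * SB ≤ d ^ 2)
    (hS : d ^ 2 ≤ 16 * (f * c1 * L ^ (1 + g)) * S)
    (hA4 : 512 * f * c1 ^ 2 ≤ A) (hA5 : 32 * f * c1 * C8 ≤ A)
    (hA6 : 32 * f * c1 * C8 ^ 3 * (17 * c1) ^ 2 ≤ A) :
    16 * c1 * M ^ (1 + 2 * g) + C8 * l * SB + C8 * l * d + (C8 * l) ^ 3 * V ^ (1 + 2 * g) ≤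
      2 * S := by
  have hM0 : 0 < M := by linarith
  have hL0 : 0 < L := by linarith
  have hP : 0 < f * c1 * L ^ (1 + g) := by positivity
  have hLg : L ^ (1 + g) ≤ M ^ (1 + g) := Real.rpow_le_rpow hL0.le hLM (by linarith)
  have hl3 : (1 : ℝ) ≤ l ^ 3 := one_le_pow₀ hl
  -- (i)
  have i1 : 16 * c1 * M ^ (1 + 2 * g) ≤ S / 2 := by
    refine half hP ?_ hS
    have h1 := grow2 (θ := (1 + g) + (1 + 2 * g)) hA hl hM hd (by linarith)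
    rw [Real.rpow_add hM0] at h1
    refine le_trans ?_ h1
    calc 32 * (f * c1 * L ^ (1 + g)) * (16 * c1 * M ^ (1 + 2 * g))
        = (512 * f * c1 ^ 2) * 1 * (L ^ (1 + g) * M ^ (1 + 2 * g)) := by ring
      _ ≤ A * l ^ 3 * (M ^ (1 + g) * M ^ (1 + 2 * g)) := by gcongr
  -- (ii)
  have i2 : C8 * l * SB ≤ S / 2 := by
    refine half hP ?_ hS
    refine le_trans ?_ hB
    calc 32 * (f * c1 * L ^ (1 + g)) * (C8 * l * SB)
        = (32 * f * c1 * C8) * l * L ^ (1 + g) * SB := by ring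
      _ ≤ A * l * L ^ (1 + g) * SB := by gcongr
  -- (iii)
  have i3 : C8 * l * d ≤ S / 2 := by
    refine half hP ?_ hS
    have h1 := grow1 (θ := 1 + g) hA hl hM hd (by linarith)
    calc 32 * (f * c1 * L ^ (1 + g)) * (C8 * l * d)
        = (32 * f * c1 * C8) * l * L ^ (1 + g) * d := by ring
      _ ≤ A * l * M ^ (1 + g) * d := by gcongr
      _ ≤ d * d := mul_le_mul_of_nonneg_right h1 hd0
      _ = d ^ 2 := by ring
  -- (iv)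
  have i4 : (C8 * l) ^ 3 * V ^ (1 + 2 * g) ≤ S / 2 := by
    refine half hP ?_ hS
    have h1 := grow2 (θ := (1 + g) + (1 + g) * (1 + 2 * g)) hA hl hM hd (by nlinarith)
    rw [Real.rpow_add hM0] at h1
    refine le_trans ?_ h1
    have h2 : V ^ (1 + 2 * g) ≤ (17 * c1) ^ 2 * M ^ ((1 + g) * (1 + 2 * g)) := by
      have h3 : V ^ (1 + 2 * g) ≤ (17 * c1 * M ^ (1 + g)) ^ (1 + 2 * g) :=
        Real.rpow_le_rpow hV0 hV (by linarith)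
      rw [Real.mul_rpow (by positivity) (by positivity), ← Real.rpow_mul hM0.le] at h3
      have h4 : (17 * c1) ^ (1 + 2 * g) ≤ (17 * c1) ^ (2 : ℝ) :=
        Real.rpow_le_rpow_of_exponent_le (by linarith) (by linarith)
      rw [Real.rpow_two] at h4
      exact h3.trans (mul_le_mul_of_nonneg_right h4 (by positivity))
    calc 32 * (f * c1 * L ^ (1 + g)) * ((C8 * l) ^ 3 * V ^ (1 + 2 * g))
        ≤ 32 * (f * c1 * L ^ (1 + g)) *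
          ((C8 * l) ^ 3 * ((17 * c1) ^ 2 * M ^ ((1 + g) * (1 + 2 * g)))) := by gcongr
      _ = (32 * f * c1 * C8 ^ 3 * (17 * c1) ^ 2) * l ^ 3 *
          (L ^ (1 + g) * M ^ ((1 + g) * (1 + 2 * g))) := by ring
      _ ≤ A * l ^ 3 * (M ^ (1 + g) * M ^ ((1 + g) * (1 + 2 * g))) := by gcongr
  linarith

/-- `q b1 ≤ 1/8` -/
private lemma q_num {c0 S b1 Cw C8 l d : ℝ} (hc0 : 0 < c0) (hCw : 1 ≤ Cw) (hb1 : 0 < b1)
    (hS : C8 * l * b1 ≤ 4 * Cw * S) (hC8 : 16 * Cw / c0 * (2 + 384 * Cw) ≤ C8)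
    (hl : l = Real.log (d + 3)) (hl1 : 1 ≤ l) (hbd : b1 ≤ 48 * Cw * d ^ 2) (hd0 : 0 ≤ d) :
    Real.exp (-(c0 * S) / (4 * b1)) * b1 ≤ 1 / 8 := by
  have h1 : (2 + 384 * Cw) * l ≤ c0 * S / (4 * b1) := by
    rw [le_div_iff₀ (by positivity)]
    have h2 : 16 * Cw * (2 + 384 * Cw) ≤ C8 * c0 := by
      have h3 := mul_le_mul_of_nonneg_right hC8 hc0.le
      have h4 : 16 * Cw / c0 * (2 + 384 * Cw) * c0 = 16 * Cw * (2 + 384 * Cw) := by field_simp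
      rw [h4] at h3
      exact h3
    have h5 : 0 ≤ l * b1 := by positivity
    have h6 := mul_le_mul_of_nonneg_right h2 h5
    have h7 := mul_le_mul_of_nonneg_left hS hc0.le
    have h8 : 4 * Cw * ((2 + 384 * Cw) * l * (4 * b1)) ≤ 4 * Cw * (c0 * S) := by
      calc 4 * Cw * ((2 + 384 * Cw) * l * (4 * b1))
          = 16 * Cw * (2 + 384 * Cw) * (l * b1) := by ring
        _ ≤ C8 * c0 * (l * b1) := h6
        _ = c0 * (C8 * l * b1) := by ring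
        _ ≤ c0 * (4 * Cw * S) := h7
        _ = _ := by ring
    exact le_of_mul_le_mul_left h8 (by positivity)
  have h2 : Real.exp (-(c0 * S) / (4 * b1)) ≤ Real.exp (-((2 + 384 * Cw) * l)) := by
    apply Real.exp_le_exp.2
    rw [neg_div]
    exact neg_le_neg h1
  have h3 : Real.exp (-((2 + 384 * Cw) * l)) = Real.exp (-l) * Real.exp (-l) *
      Real.exp (-(384 * Cw * l)) := by
    rw [← Real.exp_add, ← Real.exp_add]
    congr 1; ring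
  have h4 : Real.exp (-l) = (d + 3)⁻¹ := by
    rw [Real.exp_neg, hl, Real.exp_log (by linarith)]
  have h5 : Real.exp (-(384 * Cw * l)) ≤ (384 * Cw)⁻¹ := by
    rw [Real.exp_neg]
    apply inv_anti₀ (by positivity)
    have h6 := Real.add_one_le_exp (384 * Cw * l)
    have h7 : 384 * Cw * 1 ≤ 384 * Cw * l := mul_le_mul_of_nonneg_left hl1 (by positivity)
    linarith
  rw [h3, h4] at h2
  have hd3 : 0 < d + 3 := by linarith
  have h8 : d ^ 2 ≤ (d + 3) ^ 2 := pow_le_pow_left₀ hd0 (by linarith) 2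
  calc Real.exp (-(c0 * S) / (4 * b1)) * b1
      ≤ ((d + 3)⁻¹ * (d + 3)⁻¹ * (384 * Cw)⁻¹) * (48 * Cw * d ^ 2) := by
        refine mul_le_mul (h2.trans ?_) hbd hb1.le (by positivity)
        exact mul_le_mul_of_nonneg_left h5 (by positivity)
    _ ≤ ((d + 3)⁻¹ * (d + 3)⁻¹ * (384 * Cw)⁻¹) * (48 * Cw * (d + 3) ^ 2) := by gcongr
    _ = 1 / 8 := by
        field_simp
        norm_num

/-- `b2 log (8 b2) ≤ B M^(1+2g) l` -/
private lemma b2_num {c3 M g l b2 : ℝ} (hc3 : 1 ≤ c3) (hg : 0 < g) (hg3 : g ≤ 1 / 3) (hM : 1 ≤ M)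
    (hl1 : 1 ≤ l) (hlM : Real.log M ≤ l) (hb2 : 1 ≤ b2) (hb : b2 ≤ c3 * M ^ (1 + 2 * g)) :
    b2 * Real.log (8 * b2) ≤ c3 * (Real.log (8 * c3) + 2) * M ^ (1 + 2 * g) * l := by
  have hM0 : 0 < M := by linarith
  have h1 : Real.log (8 * b2) ≤ Real.log (8 * c3) + (1 + 2 * g) * Real.log M := by
    have h2 : Real.log (8 * b2) ≤ Real.log (8 * c3 * M ^ (1 + 2 * g)) :=
      Real.log_le_log (by linarith) (by linarith)
    refine h2.trans (le_of_eq ?_)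
    rw [Real.log_mul (by positivity) (by positivity), Real.log_rpow hM0]
  have h3 : 0 ≤ Real.log M := Real.log_nonneg hM
  have h4 : 0 ≤ Real.log (8 * c3) := Real.log_nonneg (by linarith)
  have h5 : Real.log (8 * b2) ≤ (Real.log (8 * c3) + 2) * l := by
    have h6 : (1 + 2 * g) * Real.log M ≤ 2 * l := mul_le_mul (by linarith) hlM h3 (by norm_num)
    have h7 : Real.log (8 * c3) * 1 ≤ Real.log (8 * c3) * l := mul_le_mul_of_nonneg_left hl1 h4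
    linarith
  have h6 : 0 ≤ Real.log (8 * b2) := Real.log_nonneg (by linarith)
  calc b2 * Real.log (8 * b2) ≤ (c3 * M ^ (1 + 2 * g)) * ((Real.log (8 * c3) + 2) * l) :=
        mul_le_mul hb h5 h6 (by positivity)
    _ = _ := by ring

private lemma phi_one' {b1 b2 v : ℝ} : Phi 1 b1 b2 v = Phi 1 b1 b1 v := by
  unfold Phi
  ring

/-- integrality -/
private lemma hh_int {d : ℕ} {ms : Multiset ℕ} (h : (hh d ms : ℝ) ≤ max (vv d ms) 0 + 1 / 8) :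
    (hh d ms : ℝ) = max (vv d ms) 0 := by
  have h1 := vv_le_hh d ms
  obtain ⟨z, hz⟩ : ∃ z : ℤ, z = (((d + 2).choose 2 : ℕ) : ℤ) - ((cd ms : ℕ) : ℤ) := ⟨_, rfl⟩
  have hv : vv d ms = (z : ℝ) := by
    unfold vv
    rw [hz]
    push_cast
    ring
  rw [hv] at h h1 ⊢
  have h2 : max (z : ℝ) 0 = ((max z 0 : ℤ) : ℝ) := by push_cast; rfl
  rw [h2] at h ⊢
  have h3 : ((hh d ms : ℤ) : ℝ) < ((max z 0 + 1 : ℤ) : ℝ) := by
    push_cast
    push_cast at h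
    linarith
  have h4 : (hh d ms : ℤ) < max z 0 + 1 := by exact_mod_cast h3
  have h5 : z ≤ (hh d ms : ℤ) := by exact_mod_cast h1
  have h6 : (hh d ms : ℤ) = max z 0 := by
    apply le_antisymm (by omega)
    exact max_le h5 (by positivity)
  have h7 : ((hh d ms : ℤ) : ℝ) = ((max z 0 : ℤ) : ℝ) := by exact_mod_cast h6
  exact_mod_cast h7

theorem sw (j : ℕ) (h : NN (2 * j + 1)) (f : ℕ) : ∃ A B : ℝ, 1 ≤ A ∧ 1 ≤ B ∧
    ∀ (d L M : ℕ) (ms bg : Multiset ℕ), 1 ≤ L → L ≤ M → (∀ m ∈ ms, 1 ≤ m ∧ m ≤ M) →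
    (∀ m ∈ bg, 1 ≤ m ∧ A * (m : ℝ) ≤ d) → d ^ 2 ≤ f * Sq (ms.filter fun m => m ≤ L) →
    Sq (ms + bg) ≤ 3 * d ^ 2 →
    A * Real.log ((d : ℝ) + 3) ^ 4 * (M : ℝ) ^ (1 + 5 / (2 * (j : ℝ) + 3)) ≤ d →
    A * Real.log ((d : ℝ) + 3) * (L : ℝ) ^ (1 + 1 / (2 * (j : ℝ) + 3)) * (Sm bg : ℝ) ≤ (d : ℝ) ^ 2 →
    B * (M : ℝ) ^ (1 + 2 / (2 * (j : ℝ) + 3)) * Real.log ((d : ℝ) + 3) ≤ |vv d (ms + bg)| →
    (hh d (ms + bg) : ℝ) = max (vv d (ms + bg)) 0 := by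
  obtain ⟨g, hgd⟩ : ∃ g : ℝ, g = 1 / (2 * (j : ℝ) + 3) := ⟨_, rfl⟩
  have hj0 : (0 : ℝ) ≤ j := Nat.cast_nonneg j
  have hj3 : (3 : ℝ) ≤ 2 * (j : ℝ) + 3 := by linarith
  have hg : 0 < g := by rw [hgd]; positivity
  have hg3 : g ≤ 1 / 3 := by rw [hgd]; exact one_div_le_one_div_of_le (by norm_num) hj3
  have hgj : g * (2 * (j : ℝ) + 3) = 1 := by rw [hgd]; field_simp
  have e5 : 5 / (2 * (j : ℝ) + 3) = 5 * g := by rw [hgd]; ring
  have e2 : 2 / (2 * (j : ℝ) + 3) = 2 * g := by rw [hgd]; ring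
  have e2' : 2 / (((2 * j + 1 : ℕ) : ℝ) + 2) = 2 * g := by
    rw [← e2]
    push_cast
    congr 1
    ring
  obtain ⟨c1, c0, hc1, hc0, HG⟩ := sw_grp j h hg hg3 hgj
  obtain ⟨Cw, hCw, HW⟩ := ww h (2 * f)
  rw [e2'] at HW
  have hc1r : (1 : ℝ) ≤ c1 := by exact_mod_cast hc1
  obtain ⟨C8, hC8⟩ : ∃ C8 : ℝ, C8 = 17601 * c1 + 16 * Cw / c0 * (2 + 384 * Cw) := ⟨_, rfl⟩
  have hC80 : 0 ≤ 16 * Cw / c0 * (2 + 384 * Cw) := by positivity
  have hC81 : 1 ≤ C8 := by rw [hC8]; linarith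
  have hC8c : 17601 * c1 ≤ C8 := by rw [hC8]; linarith
  have hC8q : 16 * Cw / c0 * (2 + 384 * Cw) ≤ C8 := by rw [hC8]; linarith
  have hfr : (0 : ℝ) ≤ f := Nat.cast_nonneg f
  obtain ⟨A, hA⟩ : ∃ A : ℝ, A = 1 + Cw + 64 * f * c1 + 512 * f * c1 ^ 2 + 32 * f * c1 * C8 +
      32 * f * c1 * C8 ^ 3 * (17 * c1) ^ 2 + Cw * C8 ^ (2 * j + 3) * (17 * c1) ^ (2 * j + 4) :=
    ⟨_, rfl⟩
  have a1 : 0 ≤ 64 * f * (c1 : ℝ) := by positivity
  have a2 : 0 ≤ 512 * f * (c1 : ℝ) ^ 2 := by positivity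
  have a3 : 0 ≤ 32 * f * c1 * C8 := by positivity
  have a4 : 0 ≤ 32 * f * c1 * C8 ^ 3 * (17 * (c1 : ℝ)) ^ 2 := by positivity
  have a5 : 0 ≤ Cw * C8 ^ (2 * j + 3) * (17 * (c1 : ℝ)) ^ (2 * j + 4) := by positivity
  have hA1 : 1 ≤ A := by rw [hA]; linarith
  have hAw : Cw ≤ A := by rw [hA]; linarith
  have hA3 : 64 * f * (c1 : ℝ) ≤ A := by rw [hA]; linarith
  have hA4 : 512 * f * (c1 : ℝ) ^ 2 ≤ A := by rw [hA]; linarith
  have hA5 : 32 * f * c1 * C8 ≤ A := by rw [hA]; linarith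
  have hA6 : 32 * f * c1 * C8 ^ 3 * (17 * (c1 : ℝ)) ^ 2 ≤ A := by rw [hA]; linarith
  have hA7 : Cw * C8 ^ (2 * j + 3) * (17 * (c1 : ℝ)) ^ (2 * j + 4) ≤ A := by rw [hA]; linarith
  obtain ⟨c3, hc3⟩ : ∃ c3 : ℝ, c3 = 17601 * c1 := ⟨_, rfl⟩
  have hc31 : 1 ≤ c3 := by rw [hc3]; linarith
  have hlc3 : 0 ≤ Real.log (8 * c3) := Real.log_nonneg (by linarith)
  refine ⟨A, c3 * (Real.log (8 * c3) + 2), hA1, by nlinarith, ?_⟩
  rw [e5, e2, ← hgd]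
  intro d L M ms bg hL hLM hms hbg hf hSq hd hB hv
  obtain ⟨l, hl⟩ : ∃ l, l = Real.log ((d : ℝ) + 3) := ⟨_, rfl⟩
  rw [← hl] at hd hB hv
  have hd0 : (0 : ℝ) ≤ d := Nat.cast_nonneg d
  have hl1 : 1 ≤ l := by
    rw [hl, Real.le_log_iff_exp_le (by linarith)]
    have := Real.exp_one_lt_d9
    linarith
  have hM : 1 ≤ M := hL.trans hLM
  have hMr : (1 : ℝ) ≤ M := by exact_mod_cast hM
  have hLr : (1 : ℝ) ≤ L := by exact_mod_cast hL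
  have hLMr : (L : ℝ) ≤ M := by exact_mod_cast hLM
  have hdpos : (0 : ℝ) < d := lt_of_lt_of_le (by positivity) hd
  have hf1 : 1 ≤ f := by
    by_contra hh0
    have hf0 : f = 0 := by omega
    rw [hf0, zero_mul] at hf
    have hd1 : 0 < d := by exact_mod_cast hdpos
    have := pow_pos hd1 2
    omega
  have hf1r : (1 : ℝ) ≤ f := by exact_mod_cast hf1
  -- `M ≤ d`
  have hMd : (M : ℝ) ≤ d := by
    have h1 := grow1 (θ := 1) hA1 hl1 hMr hd (by linarith)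
    rw [Real.rpow_one] at h1
    have h2 : 1 * 1 * (M : ℝ) ≤ A * l * M := by gcongr
    linarith
  have hlM : Real.log M ≤ l := by
    rw [hl]
    exact Real.log_le_log (by linarith) (by linarith)
  obtain ⟨gr, rest, hgr, hSL, hr1, hr2⟩ := HG M ms hM hms
  obtain ⟨S, hS⟩ : ∃ S, S = (gr.map Tup.c).sum / c0 := ⟨_, rfl⟩
  have hS0 : 0 ≤ S := by rw [hS]; exact sum_T0 hSL
  have hrest : ∀ m ∈ rest, 1 ≤ m ∧ m ≤ M := fun m hm => hms m (by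
    rw [hgr, Multiset.mem_add]; right; exact hm)
  obtain ⟨V, hVd⟩ : ∃ V : ℕ, V = ⌈16 * c1 * (M : ℝ) ^ (1 + g)⌉₊ := ⟨_, rfl⟩
  have hMg : 1 ≤ (M : ℝ) ^ (1 + g) := Real.one_le_rpow hMr (by positivity)
  have hMM : (M : ℝ) ≤ (M : ℝ) ^ (1 + g) := by
    calc (M : ℝ) = (M : ℝ) ^ (1 : ℝ) := (Real.rpow_one _).symm
      _ ≤ _ := Real.rpow_le_rpow_of_exponent_le hMr (by linarith)
  have hV1 : 16 * c1 * (M : ℝ) ^ (1 + g) ≤ V := by rw [hVd]; exact Nat.le_ceil _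
  have hV2 : (V : ℝ) ≤ 17 * c1 * (M : ℝ) ^ (1 + g) := by
    have h1 := (Nat.ceil_lt_add_one (a := 16 * c1 * (M : ℝ) ^ (1 + g)) (by positivity)).le
    rw [← hVd] at h1
    have h2 : 1 * 1 ≤ (c1 : ℝ) * (M : ℝ) ^ (1 + g) := by gcongr
    linarith
  have hMV : (M : ℝ) ≤ V := by
    refine le_trans ?_ hV1
    have h2 : 1 * (M : ℝ) ≤ (16 * c1) * (M : ℝ) ^ (1 + g) := by
      apply mul_le_mul (by linarith) hMM (by positivity) (by positivity)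
    linarith
  have hMVn : M ≤ V := by exact_mod_cast hMV
  -- lower bound of `S`
  have hSlow : (d : ℝ) ^ 2 ≤ 16 * (f * c1 * (L : ℝ) ^ (1 + g)) * S := by
    have h1 : (d : ℝ) ^ 2 ≤ f * ((Sq (ms.filter fun m => m ≤ L) : ℕ) : ℝ) := by exact_mod_cast hf
    have h2 : ((Sq (ms.filter fun m => m ≤ L) : ℕ) : ℝ) ≤
        8 * c1 * (L : ℝ) ^ (1 + g) * S + 32 * c1 * (M : ℝ) ^ (2 + 2 * g) := by
      rw [hgr, Multiset.filter_add, Sq_add]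
      push_cast
      rw [hS]
      refine add_le_add (sum_cL hSL hL) (le_trans ?_ hr2)
      exact_mod_cast Sq_filter_le rest _
    have h3 := grow2 (θ := 2 + 2 * g) hA1 hl1 hMr hd (by linarith)
    have h4 : 64 * f * c1 * (M : ℝ) ^ (2 + 2 * g) ≤ (d : ℝ) ^ 2 := by
      refine le_trans ?_ h3
      calc 64 * f * c1 * (M : ℝ) ^ (2 + 2 * g) = 64 * f * c1 * 1 * (M : ℝ) ^ (2 + 2 * g) := by ring
        _ ≤ A * l ^ 3 * (M : ℝ) ^ (2 + 2 * g) := by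
            have := one_le_pow₀ hl1 (n := 3)
            gcongr
    have h5 := mul_le_mul_of_nonneg_left h2 hfr
    linarith
  obtain ⟨K, hK⟩ : ∃ K, K = C8 * l := ⟨_, rfl⟩
  have hK1 : 1 ≤ K := by
    rw [hK]
    have : 1 * 1 ≤ C8 * l := mul_le_mul hC81 hl1 (by norm_num) (by linarith)
    linarith
  have hKC : C8 ≤ K := by
    rw [hK]
    exact le_mul_of_one_le_right (by linarith) hl1
  obtain ⟨b1, hb1⟩ : ∃ b1, b1 = Cw * ((2 * S + 16 * c1 * (M : ℝ) ^ (1 + 2 * g)) / K + (Sm bg : ℝ) +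
      d + K ^ 2 * (V : ℝ) ^ (1 + 2 * g)) := ⟨_, rfl⟩
  have hKb : K * b1 ≤ 4 * Cw * S := by
    have h1 := b1_num (C8 := C8) (SB := (Sm bg : ℝ)) hg hg3 hf1r hc1r hC81 hA1 hl1 hMr hLr hLMr hd0
      hd (Nat.cast_nonneg V) hV2 (Nat.cast_nonneg _) hB hSlow hA4 hA5 hA6
    rw [← hK] at h1
    have h2 : K * b1 = Cw * (2 * S + (16 * c1 * (M : ℝ) ^ (1 + 2 * g) + K * (Sm bg : ℝ) + K * d +
        K ^ 3 * (V : ℝ) ^ (1 + 2 * g))) := by
      rw [hb1]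
      have hK0 : K ≠ 0 := by positivity
      field_simp
      ring
    rw [h2]
    have h3 := mul_le_mul_of_nonneg_left h1 (by linarith : 0 ≤ Cw)
    linarith
  obtain ⟨b2, hb2⟩ : ∃ b2, b2 = 22 * (800 * c1 * (M : ℝ) ^ (1 + 2 * g)) + 1 := ⟨_, rfl⟩
  have hM2g : 1 ≤ (M : ℝ) ^ (1 + 2 * g) := Real.one_le_rpow hMr (by positivity)
  have hb21 : 1 ≤ b2 := by
    rw [hb2]
    have : 0 ≤ 22 * (800 * c1 * (M : ℝ) ^ (1 + 2 * g)) := by positivity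
    linarith
  have hb2c : b2 ≤ c3 * (M : ℝ) ^ (1 + 2 * g) := by
    rw [hb2, hc3]
    have h2 : 1 * 1 ≤ (c1 : ℝ) * (M : ℝ) ^ (1 + 2 * g) := by gcongr
    linarith
  have hbb : b2 ≤ b1 := by
    refine hb2c.trans ?_
    have h1 : (M : ℝ) ^ (1 + 2 * g) ≤ (V : ℝ) ^ (1 + 2 * g) :=
      Real.rpow_le_rpow (by positivity) hMV (by positivity)
    have h2 : c3 ≤ K ^ 2 := by
      rw [hc3]
      refine (hC8c.trans hKC).trans ?_
      exact le_self_pow₀ hK1 (by norm_num)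
    have h3 : c3 * (M : ℝ) ^ (1 + 2 * g) ≤ K ^ 2 * (V : ℝ) ^ (1 + 2 * g) :=
      mul_le_mul h2 h1 (by positivity) (by positivity)
    have h4 : 0 ≤ (2 * S + 16 * c1 * (M : ℝ) ^ (1 + 2 * g)) / K := by positivity
    have h5 : (0 : ℝ) ≤ (Sm bg : ℝ) := Nat.cast_nonneg _
    have h6 : 0 ≤ K ^ 2 * (V : ℝ) ^ (1 + 2 * g) := by positivity
    rw [hb1]
    calc c3 * (M : ℝ) ^ (1 + 2 * g) ≤ 1 * (K ^ 2 * (V : ℝ) ^ (1 + 2 * g)) := by linarith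
      _ ≤ Cw * ((2 * S + 16 * c1 * (M : ℝ) ^ (1 + 2 * g)) / K + (Sm bg : ℝ) +
          d + K ^ 2 * (V : ℝ) ^ (1 + 2 * g)) :=
        mul_le_mul hCw (by linarith) h6 (by linarith)
  have hb1p : 0 < b1 := by linarith
  -- upper bound of `b1`
  have hb1d : b1 ≤ 48 * Cw * (d : ℝ) ^ 2 := by
    have h1 : b1 ≤ 4 * Cw * S := by
      refine le_trans ?_ hKb
      exact le_mul_of_one_le_left hb1p.le hK1
    have h2 : S ≤ 4 * (Sm (gr.map Tup.gs).sum : ℝ) := by rw [hS]; exact sum_cS hSL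
    have h3 : Sm (gr.map Tup.gs).sum ≤ Sq (ms + bg) := by
      have h4 := Sm_le_Sq (ms + bg)
      rw [Sm_add, hgr, Sm_add] at h4
      rw [hgr]
      omega
    have h5 : (Sm (gr.map Tup.gs).sum : ℝ) ≤ 3 * (d : ℝ) ^ 2 := by exact_mod_cast h3.trans hSq
    have h6 : S ≤ 12 * (d : ℝ) ^ 2 := by linarith
    calc b1 ≤ 4 * Cw * S := h1
      _ ≤ 4 * Cw * (12 * (d : ℝ) ^ 2) := by gcongr
      _ = _ := by ring
  have hcS : (gr.map Tup.c).sum = c0 * S := by rw [hS]; field_simp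
  have hq := q_num (C8 := C8) (d := (d : ℝ)) hc0 hCw hb1p (by rw [← hK]; exact hKb) hC8q hl hl1
    hb1d hd0
  -- the states
  have hst : ∀ ns : List ℕ, List.Forall₂ (fun (n : ℕ) (x : Tup) => x.nL ≤ n ∧ n ≤ x.nR) ns gr →
      (hh d ((ns : Multiset ℕ) + (rest + bg)) : ℝ) ≤
        Phi 1 b1 b2 (vv d ((ns : Multiset ℕ) + (rest + bg)) + 0) := by
    intro ns hns
    obtain ⟨n1, n2, n3, n4⟩ := sum_ns hns hSL
    rw [← hS] at n1
    have hsq1 : Sq ms ≤ 2 * Sq ((ns : Multiset ℕ) + rest) := by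
      rw [hgr, Sq_add, Sq_add]
      omega
    rw [add_zero, ← add_assoc, phi_one']
    refine HW d V K b1 ((ns : Multiset ℕ) + rest) bg (hM.trans hMVn) hK1 ?_ ?_ ?_ ?_ ?_ ?_
    · intro m hm
      rw [Multiset.mem_add] at hm
      rcases hm with hm | hm
      · obtain ⟨h1, h2⟩ := n4 m hm
        refine ⟨h1, ?_⟩
        exact_mod_cast h2.trans hV1
      · exact ⟨(hrest m hm).1, (hrest m hm).2.trans hMVn⟩
    · intro m hm
      refine ⟨(hbg m hm).1, le_trans ?_ (hbg m hm).2⟩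
      gcongr
    · have h1 := Sq_filter_le ms fun m => m ≤ L
      calc d ^ 2 ≤ f * Sq (ms.filter fun m => m ≤ L) := hf
        _ ≤ f * Sq ms := Nat.mul_le_mul_left _ h1
        _ ≤ f * (2 * Sq ((ns : Multiset ℕ) + rest)) := Nat.mul_le_mul_left _ hsq1
        _ = _ := by ring
    · have h1 := Sq_add ms bg
      have h2 := Sq_add (gr.map Tup.gs).sum rest
      rw [← hgr] at h2
      rw [Sq_add, Sq_add]
      omega
    · rw [hK]
      exact grow3 hg3 hgj hA1 hl1 hMr hd (by linarith) (by linarith) (Nat.cast_nonneg V) hV2 hA7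
    · rw [hb1]
      have h1 : (Sm ((ns : Multiset ℕ) + rest) : ℝ) ≤ 2 * S + 16 * c1 * (M : ℝ) ^ (1 + 2 * g) := by
        rw [Sm_add]
        push_cast
        exact add_le_add n1 hr1
      have h2 : (Sm ((ns : Multiset ℕ) + rest) : ℝ) / K ≤
          (2 * S + 16 * c1 * (M : ℝ) ^ (1 + 2 * g)) / K :=
        div_le_div_of_nonneg_right h1 (by linarith)
      apply mul_le_mul_of_nonneg_left _ (by linarith)
      linarith
  have hmain := unmerge (d := d) (Y := 800 * c1 * (M : ℝ) ^ (1 + 2 * g)) (b1 := b1) (b2 := b2)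
    (w := 0) (by rw [hb2]; linarith) (by linarith) hbb gr 1 (rest + bg) (by norm_num) le_rfl
    (fun x hx => (hSL x hx).ok) hst
  rw [add_zero, ← add_assoc, ← hgr, hcS, one_mul] at hmain
  have hq1 : Real.exp (-(c0 * S) / (4 * b1)) ≤ 1 := by
    rw [Real.exp_le_one_iff, neg_div, neg_nonpos]
    positivity
  have hfin := phi_le_eighth (v := vv d (ms + bg)) (Real.exp_pos _).le hq1 hb21 hbb hq
    ((b2_num hc31 hg hg3 hMr hl1 hlM hb21 hb2c).trans hv)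
  exact hh_int (hmain.trans hfin)

end Pool.Agent.SG
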