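import Pool.Agent.SG.T2
import Pool.Agent.SG.K1
import Pool.Agent.SG.Master
import Pool.Agent.SG.LemS
import Pool.Agent.SG.PhiL

set_option autoImplicit false

/-!
# Module Step: unmerging one group; Unmerge: unmerging a list of groups

`step`: `master`, `lemS` with `h n = hh d (n :: ms)`, `c = cn gs`, `N = d + 1` (`hh_big`), `Φ v = Phi q b1 b2
(v + w)`, `vr = vv d ms` (`vv_cons`, `vv_add`), `y0 = cd gs` (`cn_sum`), `a, b, Z` from `Win`, `φ, θ` from
`phi_stab` at `v0 = vv d (gs + ms) + w` with `Y` (the window contains `vr - y0` as `kk a ≤ y0 ≤ kk b`: `0 ≤ c n`,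
`c n = n + 1` for `n < a`, `c n ≤ n + 1`), `ε = θ/20`, `c0 = c`; `conv`, `hh_cons_le`, `hh_raise`, `cn_*`;
finally `phi_contract`.
(`hmono`: `hh_raise`.)

`unmerge`: induction on the list `l`, for all `q` and `ms`: for `x :: l` let `ns` be admissible for `l`;
`step` with `ms := ns + ms` gives the bound for `x.gs + ns + ms` with `q (1 - c/(4 b1)) ≤ q exp(-c/(4 b1))`
(`phi_mono_q`; `0 ≤ 1 - c/(4 b1)`: `c ≤ |cd gs - kk n| ≤ Y ≤ b1` for some node in the window), so the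
hypothesis of the induction holds for `l`, `ms := x.gs + ms`.
-/

namespace Pool.Agent.SG

open MvPolynomial Pool.Agent.helper5.NBS Pool.Agent.helper89.Segre Pool.Agent.SH9
open Pool.Agent.helper25.ST

private lemma step_kk_succ (m : ℕ) : kk (m + 1) = kk m + (m + 1) := by
  unfold kk
  rw [Nat.choose_succ_succ' (m + 1) 1, Nat.choose_one_right, add_comm]

private lemma step_sum_kk (m : ℕ) : ∑ n ∈ Finset.range m, ((n : ℝ) + 1) = (kk m : ℕ) := by
  induction m with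
  | zero => simp [kk]
  | succ m ih =>
    rw [Finset.sum_range_succ, ih, step_kk_succ]
    push_cast
    ring

private lemma step_zone_bd {gs : Multiset ℕ} {a b : ℕ} (h : Zone gs a b) :
    ((kk a : ℕ) : ℝ) ≤ ((cd gs : ℕ) : ℝ) ∧ ((cd gs : ℕ) : ℝ) ≤ ((kk b : ℕ) : ℝ) := by
  rw [← cn_sum h, ← step_sum_kk a, ← step_sum_kk b]
  constructor
  · have h1 : ∑ n ∈ Finset.range a, ((n : ℝ) + 1) = ∑ n ∈ Finset.range a, cn gs n :=
      Finset.sum_congr rfl fun n hn => (cn_lt h (Finset.mem_range.mp hn)).symm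
    rw [h1]
    exact Finset.sum_le_sum_of_subset_of_nonneg
      (Finset.range_subset_range.mpr h.hab) (fun n _ _ => cn_nonneg gs n)
  · exact Finset.sum_le_sum fun n _ => cn_le gs n

private lemma step_win_bd {gs : Multiset ℕ} {nL nR : ℕ} {Y : ℝ} (hw : Win gs nL nR Y) :
    ∃ a : ℕ, ((kk a : ℕ) : ℝ) ≤ ((cd gs : ℕ) : ℝ) ∧ ((cd gs : ℕ) : ℝ) ≤ ((kk a : ℕ) : ℝ) + Y ∧
      0 ≤ Y := by
  obtain ⟨⟨a, b, Z, hz, hLa, hbR, hZ, hZab, hL, hR⟩, hwid⟩ := hw
  have h1 := step_zone_bd hz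
  have h2 : ((kk nL : ℕ) : ℝ) ≤ ((kk a : ℕ) : ℝ) := by exact_mod_cast kk_mono hLa
  have h3 : ((kk b : ℕ) : ℝ) ≤ ((kk nR : ℕ) : ℝ) := by exact_mod_cast kk_mono hbR
  have h4 : ((kk a : ℕ) : ℝ) ≤ ((kk b : ℕ) : ℝ) := by exact_mod_cast kk_mono hz.hab
  exact ⟨a, h1.1, by linarith [h1.2], by linarith⟩

theorem step {gs ms : Multiset ℕ} {d nL nR : ℕ} {Y q b1 b2 w c : ℝ} (hw : Win gs nL nR Y)
    (hY : 22 * Y ≤ b2) (hb2 : 0 < b2) (hb : b2 ≤ b1) (hq0 : 0 ≤ q) (hq1 : q ≤ 1) (hc0 : 0 ≤ c)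
    (hc : ∀ n : ℕ, c ≤ |((cd gs : ℕ) : ℝ) - (kk n : ℝ)|)
    (H : ∀ n, nL ≤ n → n ≤ nR → (hh d (n ::ₘ ms) : ℝ) ≤ Phi q b1 b2 (vv d (n ::ₘ ms) + w)) :
    (hh d (gs + ms) : ℝ) ≤ Phi (q * (1 - c / (4 * b1))) b1 b2 (vv d (gs + ms) + w) := by
  obtain ⟨a0, -, -, hY0⟩ := step_win_bd hw
  obtain ⟨⟨a, b, Z, hz, hLa, hbR, hZ, hZab, hL, hR⟩, hwid⟩ := hw
  have hbd := step_zone_bd hz
  have h2 : ((kk nL : ℕ) : ℝ) ≤ ((kk a : ℕ) : ℝ) := by exact_mod_cast kk_mono hLa
  have h3 : ((kk b : ℕ) : ℝ) ≤ ((kk nR : ℕ) : ℝ) := by exact_mod_cast kk_mono hbR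
  have hvv : vv d (gs + ms) = vv d ms - ((cd gs : ℕ) : ℝ) := by
    rw [add_comm gs ms, vv_add]
  obtain ⟨φ, θ, hθ0, hθ1, hθ2, hθ3, hst⟩ :=
    phi_stab (v0 := vv d (gs + ms) + w) hq0 hq1 hY0 hY hb2 hb
  have key := lemS (h := fun n => (hh d (n ::ₘ ms) : ℝ)) (c := cn gs) (a := a) (b := b) (nL := nL)
    (nR := nR) (N := d + 1) (Φ := fun v => Phi q b1 b2 (v + w)) (vr := vv d ms) (φ := φ) (θ := θ)
    (ε := θ / 20) (Z := Z) (y0 := ((cd gs : ℕ) : ℝ)) (c0 := c)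
    (fun n => by
      have := hh_raise (d := d) (ms := ms) (Nat.le_succ n)
      have h' : ((hh d ((n + 1) ::ₘ ms) : ℕ) : ℝ) ≤ ((hh d (n ::ₘ ms) : ℕ) : ℝ) := by
        exact_mod_cast this
      linarith)
    (fun n => by
      have := hh_cons_le d n ms
      have h' : ((hh d (n ::ₘ ms) : ℕ) : ℝ) ≤ ((hh d ((n + 1) ::ₘ ms) : ℕ) : ℝ) + ((n : ℝ) + 1) := by
        exact_mod_cast this
      linarith)
    (fun n => conv d n ms)
    (fun n hn => by
      have := hh_big (d := d) (n := n) (by omega) ms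
      rw [this]
      simp)
    (cn_nonneg gs) (cn_le gs) (cn_anti gs) (fun n hn => cn_lt hz hn) (fun n hn => cn_ge hz hn)
    hLa hz.hab hbR hZ hZab hL hR
    (fun n h1 h2 => by
      have := H n h1 h2
      rw [vv_cons] at this
      exact this)
    (fun v v' hv1 hv2 hv1' hv2' => by
      have h5 := hst (v + w) (v' + w)
        (by rw [hvv, abs_le]; constructor <;> linarith [hbd.1, hbd.2])
        (by rw [hvv, abs_le]; constructor <;> linarith [hbd.1, hbd.2])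
      have h6 : v + w - (v' + w) = v - v' := by ring
      rw [h6] at h5
      exact h5)
    hθ1 hθ2 (by positivity) (by linarith) (cn_sum hz).symm (fun n _ _ => hc n)
  have h7 := master d gs ms
  have h8 := phi_contract (q := q) (b1 := b1) (b2 := b2) (c := c) (v := vv d (gs + ms) + w) (θ := θ)
    hq0 hb2 hb hc0 hθ3
  have h9 : vv d ms - ((cd gs : ℕ) : ℝ) + w = vv d (gs + ms) + w := by rw [hvv]
  rw [h9] at key
  exact le_trans h7 (le_trans key h8)

/-- the width of the window bounds `c` -/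
theorem c_le_of_win {gs : Multiset ℕ} {nL nR : ℕ} {Y c : ℝ} (hw : Win gs nL nR Y)
    (hc : ∀ n : ℕ, c ≤ |((cd gs : ℕ) : ℝ) - (kk n : ℝ)|) : c ≤ Y := by
  obtain ⟨a, h1, h2, -⟩ := step_win_bd hw
  refine le_trans (hc a) ?_
  rw [abs_le]
  constructor <;> linarith

/-- a group with its window and its distance from the triangular numbers -/
structure Tup where
  gs : Multiset ℕ
  nL : ℕ
  nR : ℕ
  c : ℝ

/-- the properties of a group -/
structure Tup.Ok (x : Tup) (Y : ℝ) : Prop where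
  win : Win x.gs x.nL x.nR Y
  c0 : 0 ≤ x.c
  hc : ∀ n : ℕ, x.c ≤ |((cd x.gs : ℕ) : ℝ) - (kk n : ℝ)|

theorem unmerge {d : ℕ} {Y b1 b2 w : ℝ} (hY : 22 * Y ≤ b2) (hb2 : 0 < b2) (hb : b2 ≤ b1) :
    ∀ (l : List Tup) (q : ℝ) (ms : Multiset ℕ), 0 ≤ q → q ≤ 1 → (∀ x ∈ l, Tup.Ok x Y) →
    (∀ ns : List ℕ, List.Forall₂ (fun (n : ℕ) (x : Tup) => x.nL ≤ n ∧ n ≤ x.nR) ns l →
      (hh d ((ns : Multiset ℕ) + ms) : ℝ) ≤ Phi q b1 b2 (vv d ((ns : Multiset ℕ) + ms) + w)) →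
    (hh d ((l.map Tup.gs).sum + ms) : ℝ) ≤
      Phi (q * Real.exp (-(l.map Tup.c).sum / (4 * b1))) b1 b2 (vv d ((l.map Tup.gs).sum + ms) + w) := by
  intro l
  induction l with
  | nil =>
    intro q ms hq0 hq1 _ H
    have h1 := H [] List.Forall₂.nil
    simpa using h1
  | cons x l ih =>
    intro q ms hq0 hq1 hl H
    have hx : Tup.Ok x Y := hl x (List.mem_cons_self ..)
    have hb1 : 0 < b1 := lt_of_lt_of_le hb2 hb
    have hcY : x.c ≤ Y := c_le_of_win hx.win hx.hc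
    obtain ⟨-, -, -, hY0⟩ := step_win_bd hx.win
    have ht0 : 0 ≤ x.c / (4 * b1) := div_nonneg hx.c0 (by linarith)
    have ht1 : x.c / (4 * b1) ≤ 1 := by
      rw [div_le_one (by linarith)]
      linarith
    have hq0' : 0 ≤ q * (1 - x.c / (4 * b1)) := mul_nonneg hq0 (by linarith)
    have hq1' : q * (1 - x.c / (4 * b1)) ≤ 1 := by
      have : q * (1 - x.c / (4 * b1)) ≤ 1 * 1 :=
        mul_le_mul hq1 (by linarith) (by linarith) (by linarith)
      linarith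
    have h1 := ih (q * (1 - x.c / (4 * b1))) (x.gs + ms) hq0' hq1'
      (fun y hy => hl y (List.mem_cons_of_mem _ hy)) (by
        intro ns hns
        have h2 := step (gs := x.gs) (ms := (ns : Multiset ℕ) + ms) (d := d) (nL := x.nL)
          (nR := x.nR) (w := w) hx.win hY hb2 hb hq0 hq1 hx.c0 hx.hc (by
            intro n hn1 hn2
            have h3 := H (n :: ns) (List.Forall₂.cons ⟨hn1, hn2⟩ hns)
            rw [← Multiset.cons_coe, Multiset.cons_add] at h3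
            exact h3)
        rw [add_left_comm] at h2
        exact h2)
    have h4 : (List.map Tup.gs (x :: l)).sum + ms = (l.map Tup.gs).sum + (x.gs + ms) := by
      rw [List.map_cons, List.sum_cons]
      abel
    rw [h4]
    refine le_trans h1 (phi_mono_q ?_ hb2 hb)
    have h5 : -(List.map Tup.c (x :: l)).sum / (4 * b1) =
        -(x.c / (4 * b1)) + -(l.map Tup.c).sum / (4 * b1) := by
      rw [List.map_cons, List.sum_cons]
      ring
    rw [h5, Real.exp_add, ← mul_assoc]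
    apply mul_le_mul_of_nonneg_right _ (Real.exp_pos _).le
    apply mul_le_mul_of_nonneg_left _ hq0
    exact Real.one_sub_le_exp_neg _

end Pool.Agent.SG
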