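import Pool.Agent.SG.Dim
import Pool.Agent.SH9.CW

set_option autoImplicit false

/-!
# Module T2: the leading forms at a general point grow (char 0)

`u_n = hh(n :: ms) - hh((n+1) :: ms)` satisfies `u_n ≥ min(n+1, u_(n+1))`.
Write `ms = univ.val.map μ` (`CWaux.exists_fun`), the systems `(n+j, μ)` as `Fin.cons (n+j) μ` on
`Fin (s+1)` (`CWaux.map_cons`), take `p` with `AI p` and the conclusions of `dim_generic` for the
three systems `j = 0, 1, 2` (`exists_ai`), derivations `exists_ders`, and apply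
`Nag.UU_growth` (`l = 0`, `m = Fin.cons (n+1) μ`, `k = n`) and `Nag.hh_step` twice
(`Function.update (Fin.cons x μ) 0 y = Fin.cons y μ`).
`conv`: consequence for the slopes `u_n / (n+1)`: they are at most `1` (`hh_cons_le`) and
nonincreasing.
-/

namespace Pool.Agent.SG

open MvPolynomial Pool.Agent.helper5.NBS Pool.Agent.helper89.Segre Pool.Agent.SH9
open Pool.Agent.helper25.ST

/-- the dimensions and the leading forms at one general point -/
private theorem T2_aux (d n : ℕ) (ms : Multiset ℕ) : ∃ u v : ℕ,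
    hh d ((n + 1) ::ₘ ms) + u = hh d (n ::ₘ ms) ∧ hh d ((n + 2) ::ₘ ms) + v = hh d ((n + 1) ::ₘ ms) ∧
      min (n + 1) v ≤ u := by
  obtain ⟨s, μ, rfl⟩ := CWaux.exists_fun ms
  obtain ⟨Q0, hQ0, h0⟩ := dim_generic (d := d) (Fin.cons n μ : Fin (s + 1) → ℕ)
  obtain ⟨Q1, hQ1, h1⟩ := dim_generic (d := d) (Fin.cons (n + 1) μ : Fin (s + 1) → ℕ)
  obtain ⟨Q2, hQ2, h2⟩ := dim_generic (d := d) (Fin.cons (n + 2) μ : Fin (s + 1) → ℕ)
  obtain ⟨p, hp, hai⟩ := exists_ai ({Q0, Q1, Q2} : Set (PtRing (s + 1)))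
    (Set.Finite.countable (Set.toFinite _)) (by
      intro Q hQ
      rcases hQ with rfl | rfl | rfl
      · exact hQ0
      · exact hQ1
      · exact hQ2)
  obtain ⟨D, hD⟩ := Pool.Agent.helper9.Nag.exists_ders hai
  have e0 := h0 p (hp Q0 (by simp))
  have e1 := h1 p (hp Q1 (by simp))
  have e2 := h2 p (hp Q2 (by simp))
  rw [CWaux.map_cons] at e0 e1 e2
  have s0 := Pool.Agent.helper9.Nag.hh_step d p (Fin.cons n μ : Fin (s + 1) → ℕ) 0
  have s1 := Pool.Agent.helper9.Nag.hh_step d p (Fin.cons (n + 1) μ : Fin (s + 1) → ℕ) 0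
  rw [Fin.cons_zero, Fin.update_cons_zero] at s0 s1
  have g := (Pool.Agent.helper9.Nag.UU_growth (e := d) hD
    (m := (Fin.cons (n + 1) μ : Fin (s + 1) → ℕ)) (l := 0) (k := n) (by rw [Fin.cons_zero])).1
  rw [Fin.update_cons_zero] at g
  rw [e0, e1] at s0
  rw [show n + 1 + 1 = n + 2 from rfl, e1, e2] at s1
  exact ⟨_, _, s0, s1, g⟩

theorem T2 (d n : ℕ) (ms : Multiset ℕ) :
    min (n + 1) (hh d ((n + 1) ::ₘ ms) - hh d ((n + 2) ::ₘ ms)) ≤
      hh d (n ::ₘ ms) - hh d ((n + 1) ::ₘ ms) := by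
  obtain ⟨u, v, h1, h2, h3⟩ := T2_aux d n ms
  omega

theorem conv (d n : ℕ) (ms : Multiset ℕ) :
    ((hh d ((n + 1) ::ₘ ms) : ℝ) - hh d ((n + 2) ::ₘ ms)) / ((n : ℝ) + 2) ≤
      ((hh d (n ::ₘ ms) : ℝ) - hh d ((n + 1) ::ₘ ms)) / ((n : ℝ) + 1) := by
  obtain ⟨u, v, h1, h2, h3⟩ := T2_aux d n ms
  have h4 := hh_cons_le d (n + 1) ms
  rw [show n + 1 + 1 = n + 2 from rfl] at h4
  have hv : v ≤ n + 2 := by omega
  have e1 : (hh d (n ::ₘ ms) : ℝ) - hh d ((n + 1) ::ₘ ms) = u := by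
    rw [← h1]
    push_cast
    ring
  have e2 : (hh d ((n + 1) ::ₘ ms) : ℝ) - hh d ((n + 2) ::ₘ ms) = v := by
    rw [← h2]
    push_cast
    ring
  rw [e1, e2, div_le_div_iff₀ (by positivity) (by positivity)]
  have h5 : v * (n + 1) ≤ u * (n + 2) := by
    rcases Nat.lt_or_ge v (n + 1) with h | h
    · have h6 : v ≤ u := by omega
      nlinarith
    · have h6 : n + 1 ≤ u := by omega
      nlinarith
  exact_mod_cast h5

end Pool.Agent.SG
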