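import Pool.Agent.SG.Step
import Pool.Agent.SG.NefE
import Pool.Agent.SG.LocalZone
import Pool.Agent.SG.Grp

set_option autoImplicit false

/-!
# Module WW: weak two-sided width (stage 1)

`g = 1/(a+2)`. `ms` the small elements (`≤ M`), `bg` the big ones.
Groups: `N i = ⌈K^2 c1 (2^i)^(2g)⌉₊` (`c1` as in PropE, `K ≥ 1`), `grp` for `ms` with `t i = N i`; so
`ms = ∑ gs_j + rest`, `card (cls i rest) < N i`. `Sm rest ≤ ∑ N i 2^i ≤ c2 K^2 M^(1+2g)` (`cls_bounds`, `geom`).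
Windows (`localZone`): `Y = 100 max N i 2^i ≤ c3 K^2 M^(1+2g)`; for `nL ≤ n ≤ nR`:
`n ≤ sqrt(3 Sq gs) ≤ sqrt 3 sqrt(N i) 2^i ≤ (4/K) Sm gs` (`Sm gs ≥ N i 2^i/2`, `sqrt(N i) ≥ K`) and
`n ≤ V := c4 K M^(1+g)`; `2 n^2 ≥ Sq gs`.
States `B = ns + rest + bg`: all elements `≥ 1`, `Sq B ≤ 3 Sq (ms + bg) ≤ 30 d^2`, elements `≤ V` have
`Sq ≥ Sq ms / 2`, so `d^2 ≤ 2 f Sq (B.filter ≤ V)`; `C0 V^(a+2) ≤ d^(a+1)` (hypothesis; `V^(a+2) = c4^(a+2) K^(a+2)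
M^(a+3)`), so also `C0 V ≤ d`; `Sm B ≤ (4/K) Sm ms + c2 K^2 M^(1+2g) + Sm bg`, so `b ≥ 100 (Sm B + d + 1)` and
`b ≥ 22 Y`.
Claim: `hh d B ≤ Phi 1 b b (vv d B)`. `v = vv d B`, `S1 B ≤ 2 Sm B`.
 (i) `v ≥ S1 B`: `regN` (`C0 V^(a+2) ≤ (S1 + d) d^a`): `hh = v`.
 (ii) `v < S1 B`: let `s = ⌈2 v + Sm B⌉` (or `0`). `B + 1^s` is empty by `empN` (`X = d`, `A = 300`):
 `Sq B + s = (d+1)(d+2) - 2v - Sm B + s ≥ d^2 + 3 d + 2`. So `hh d B ≤ s`. If `s = 0` done. Otherwise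
 `s ≤ 2 v + Sm B + 1` and `|v| ≤ 2 Sm B`: `s - max v 0 ≤ 3 Sm B + 1 ≤ b exp(-|v|/b)/2` as
 `exp(-|v|/b) ≥ exp(-1/50)`.
`unmerge` (`q = 1`, `c = 0`, `w = 0`, `b1 = b2 = b`).
-/

namespace Pool.Agent.SG

open MvPolynomial Pool.Agent.helper5.NBS Pool.Agent.helper89.Segre Pool.Agent.SH9
open Pool.Agent.helper25.ST

/-! ## elementary facts on multisets -/

private lemma w_card_le {ms : Multiset ℕ} (h : ∀ m ∈ ms, 1 ≤ m) : Multiset.card ms ≤ Sm ms := by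
  have h1 := Multiset.card_nsmul_le_sum h
  simpa [Sm] using h1

private lemma w_S1 {ms : Multiset ℕ} (h : ∀ m ∈ ms, 1 ≤ m) : S1 ms ≤ 2 * Sm ms := by
  rw [S1_eq]
  have := w_card_le h
  omega

private lemma w_Sq_mono {A B : Multiset ℕ} (h : A ≤ B) : Sq A ≤ Sq B := by
  obtain ⟨u, rfl⟩ := Multiset.le_iff_exists_add.1 h
  rw [Sq_add]
  exact Nat.le_add_right _ _

private lemma w_Sq_ones (s : ℕ) : Sq (Multiset.replicate s 1) = s := by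
  simp [Sq]

/-! ## the bound for a state -/

private lemma w_state {a C0 V F d : ℕ} (hC0 : 1 ≤ C0) (hV1 : 1 ≤ V)
    (hE : ∀ (d W X : ℕ) (ms : Multiset ℕ), 1 ≤ W →
      C0 * W ≤ d → (∀ m ∈ ms, C0 * m ≤ d) → d ^ 2 ≤ F * Sq (ms.filter fun m => m ≤ W) →
      Sq ms ≤ 300 * d ^ 2 → C0 * W ^ (a + 2) ≤ X * d ^ a → d ^ 2 + 2 * d + X + 1 ≤ Sq ms → E d ms)
    (hR : ∀ (d W : ℕ) (ms : Multiset ℕ), 1 ≤ W →
      C0 * W ≤ d → (∀ m ∈ ms, C0 * m ≤ d) → d ^ 2 ≤ F * Sq (ms.filter fun m => m ≤ W) →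
      C0 * W ^ (a + 2) ≤ (S1 ms + d) * d ^ a → ((S1 ms : ℕ) : ℝ) ≤ vv d ms →
      (hh d ms : ℝ) = vv d ms)
    (hVd : (C0 * V) ^ (a + 2) ≤ d ^ (a + 1))
    {B : Multiset ℕ} (h1 : ∀ m ∈ B, 1 ≤ m ∧ C0 * m ≤ d)
    (hf : d ^ 2 ≤ F * Sq (B.filter fun m => m ≤ V)) (hSq : Sq B ≤ 30 * d ^ 2) {b : ℝ}
    (hb : 100 * ((Sm B : ℝ) + d + 1) ≤ b) : (hh d B : ℝ) ≤ Phi 1 b b (vv d B) := by
  have hCV : 1 ≤ C0 * V := Nat.one_le_iff_ne_zero.mpr (by positivity)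
  have hVd1 : C0 * V ≤ d := by
    have h2 : (C0 * V) ^ (a + 1) ≤ d ^ (a + 1) :=
      (Nat.pow_le_pow_right hCV (Nat.le_succ _)).trans hVd
    exact (Nat.pow_le_pow_iff_left (Nat.succ_ne_zero a)).mp h2
  have hVd2 : C0 * V ^ (a + 2) ≤ d ^ (a + 1) := by
    refine le_trans ?_ hVd
    rw [mul_pow]
    exact Nat.mul_le_mul_right _ (Nat.le_self_pow (by omega) C0)
  have hd1 : 1 ≤ d := hCV.trans hVd1
  have hd1' : (1 : ℝ) ≤ d := by exact_mod_cast hd1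
  have hSm0 : (0 : ℝ) ≤ Sm B := Nat.cast_nonneg _
  have hb0 : 0 < b := by nlinarith
  have hlePhi : max (vv d B) 0 ≤ Phi 1 b b (vv d B) := le_phi zero_le_one le_rfl hb0 le_rfl
  by_cases hv : ((S1 B : ℕ) : ℝ) ≤ vv d B
  · have h3 := hR d V B hV1 hVd1 (fun m hm => (h1 m hm).2) hf
      (hVd2.trans (by
        rw [pow_succ', add_mul]
        exact Nat.le_add_left _ _)) hv
    rw [h3]
    exact (le_max_left _ _).trans hlePhi
  · push Not at hv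
    have hS1 : ((S1 B : ℕ) : ℝ) ≤ 2 * Sm B := by
      exact_mod_cast w_S1 fun m hm => (h1 m hm).1
    have hv2 : vv d B < 2 * Sm B := hv.trans_le hS1
    set s := Nat.ceil (2 * vv d B + (Sm B : ℝ)) with hs
    have h2vv := two_vv d B
    have hSmSq : Sm B ≤ Sq B := Sm_le_Sq B
    have hSqR : (Sq B : ℝ) ≤ 30 * (d : ℝ) ^ 2 := by exact_mod_cast hSq
    have hSmR : (Sm B : ℝ) ≤ Sq B := by exact_mod_cast hSmSq
    have hs1 : 2 * vv d B + (Sm B : ℝ) ≤ s := Nat.le_ceil _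
    have hs2 : (s : ℝ) ≤ max (2 * vv d B + (Sm B : ℝ) + 1) 0 := by
      by_cases h0 : 0 ≤ 2 * vv d B + (Sm B : ℝ)
      · exact (Nat.ceil_lt_add_one h0).le.trans (le_max_left _ _)
      · push Not at h0
        have : s = 0 := Nat.ceil_eq_zero.mpr h0.le
        rw [this, Nat.cast_zero]
        exact le_max_right _ _
    have hsA : (s : ℝ) ≤ 151 * (d : ℝ) ^ 2 := by
      refine hs2.trans (max_le ?_ (by positivity))
      nlinarith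
    have hcons : E d (B + Multiset.replicate s 1) := by
      refine hE d V d (B + Multiset.replicate s 1) hV1 hVd1 ?_ ?_ ?_ ?_ ?_
      · intro m hm
        rcases Multiset.mem_add.1 hm with hm | hm
        · exact (h1 m hm).2
        · rw [Multiset.eq_of_mem_replicate hm]
          exact le_trans (Nat.mul_le_mul_left _ hV1) hVd1
      · refine hf.trans (Nat.mul_le_mul_left _ (w_Sq_mono ?_))
        rw [Multiset.filter_add]
        exact Multiset.le_add_right _ _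
      · rw [Sq_add, w_Sq_ones]
        have : ((Sq B + s : ℕ) : ℝ) ≤ ((300 * d ^ 2 : ℕ) : ℝ) := by
          push_cast
          nlinarith
        exact_mod_cast this
      · rw [← pow_succ']
        exact hVd2
      · rw [Sq_add, w_Sq_ones]
        have : ((d ^ 2 + 2 * d + d + 1 : ℕ) : ℝ) ≤ ((Sq B + s : ℕ) : ℝ) := by
          push_cast
          nlinarith
        exact_mod_cast this
    have hhs : hh d B ≤ s := hh_le_iff.mpr hcons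
    have hhs' : (hh d B : ℝ) ≤ s := by exact_mod_cast hhs
    refine hhs'.trans ?_
    by_cases h0 : 2 * vv d B + (Sm B : ℝ) ≤ 0
    · have : s = 0 := Nat.ceil_eq_zero.mpr h0
      rw [this, Nat.cast_zero]
      exact (le_max_right _ _).trans hlePhi
    · push Not at h0
      have hs3 : (s : ℝ) ≤ 2 * vv d B + (Sm B : ℝ) + 1 := (Nat.ceil_lt_add_one h0.le).le
      have habs : |vv d B| ≤ 2 * Sm B := by
        rw [abs_le]
        constructor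
        · linarith
        · exact hv2.le
      rw [phi_one]
      have hexp : (49 : ℝ) / 50 ≤ Real.exp (-|vv d B| / b) := by
        have h5 : |vv d B| / b ≤ 1 / 50 := by
          rw [div_le_iff₀ hb0]
          linarith
        have h6 := Real.add_one_le_exp (-|vv d B| / b)
        have h7 : -|vv d B| / b = -(|vv d B| / b) := neg_div _ _
        linarith
      have h8 : b * (49 / 50) ≤ b * Real.exp (-|vv d B| / b) :=
        mul_le_mul_of_nonneg_left hexp hb0.le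
      rcases le_total 0 (vv d B) with hp | hn
      · rw [max_eq_left hp]
        linarith
      · rw [max_eq_right hn]
        linarith


/-! ## a list of windows -/

/-- the numerical properties of a window -/
private structure WOk (K : ℝ) (V : ℕ) (x : Tup) : Prop where
  l1 : 1 ≤ x.nL
  sq1 : Sq x.gs ≤ 2 * x.nL ^ 2
  sq2 : x.nR ^ 2 ≤ 3 * Sq x.gs
  sm : K * (x.nR : ℝ) ≤ 4 * (Sm x.gs : ℝ)
  hV : x.nR ≤ V

private lemma w_list {K : ℝ} (hK : 0 ≤ K) {V : ℕ} {L : List Tup} {ns : List ℕ}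
    (h : List.Forall₂ (fun (n : ℕ) (x : Tup) => x.nL ≤ n ∧ n ≤ x.nR) ns L)
    (hL : ∀ x ∈ L, WOk K V x) :
    Sq (ns : Multiset ℕ) ≤ 3 * Sq ((L.map Tup.gs).sum) ∧
    Sq ((L.map Tup.gs).sum) ≤ 2 * Sq (ns : Multiset ℕ) ∧
    K * (Sm (ns : Multiset ℕ) : ℝ) ≤ 4 * (Sm ((L.map Tup.gs).sum) : ℝ) ∧
    ∀ n ∈ (ns : Multiset ℕ), 1 ≤ n ∧ n ≤ V := by
  induction h with
  | nil => simp [Sq, Sm]
  | @cons n x ns L h1 h2 ih =>
    obtain ⟨i1, i2, i3, i4⟩ := ih fun y hy => hL y (List.mem_cons_of_mem _ hy)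
    have hx := hL x List.mem_cons_self
    rw [List.map_cons, List.sum_cons, ← Multiset.cons_coe, Sq_add, Sq_cons, Sm_add, Sm_cons]
    have e1 : n ^ 2 ≤ x.nR ^ 2 := Nat.pow_le_pow_left h1.2 2
    have e2 : x.nL ^ 2 ≤ n ^ 2 := Nat.pow_le_pow_left h1.1 2
    have e3 := hx.sq1
    have e4 := hx.sq2
    refine ⟨by omega, by omega, ?_, ?_⟩
    · push_cast
      have e5 : K * (n : ℝ) ≤ K * (x.nR : ℝ) :=
        mul_le_mul_of_nonneg_left (by exact_mod_cast h1.2) hK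
      have e6 := hx.sm
      linarith
    · intro k hk
      rcases Multiset.mem_cons.1 hk with rfl | hk
      · exact ⟨hx.l1.trans h1.1, h1.2.trans hx.hV⟩
      · exact i4 k hk

/-! ## one group -/

private lemma w_group {W : ℕ} {gs : Multiset ℕ} (h : ∀ m ∈ gs, W < 2 * m ∧ m ≤ W) :
    Multiset.card gs * W ≤ 2 * Sm gs ∧ Sq gs ≤ Multiset.card gs * W ^ 2 := by
  constructor
  · have h1 := Multiset.card_nsmul_le_sum (s := gs.map fun m => 2 * m) (a := W) (by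
      intro y hy
      obtain ⟨m, hm, rfl⟩ := Multiset.mem_map.1 hy
      exact (h m hm).1.le)
    rw [Multiset.card_map, smul_eq_mul] at h1
    refine h1.trans (le_of_eq ?_)
    rw [Multiset.sum_map_mul_left, Multiset.map_id']
    rfl
  · have h1 := Multiset.sum_le_card_nsmul (gs.map fun m => m ^ 2) (W ^ 2) (by
      intro y hy
      obtain ⟨m, hm, rfl⟩ := Multiset.mem_map.1 hy
      exact Nat.pow_le_pow_left (h m hm).2 2)
    rw [Multiset.card_map, smul_eq_mul] at h1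
    exact h1

/-- the number of elements of a group -/
private noncomputable def wN (a : ℕ) (c1 K : ℝ) (i : ℕ) : ℕ :=
  Nat.ceil (K ^ 2 * c1 * ((2 : ℝ) ^ i) ^ (2 / ((a : ℝ) + 2)))

private lemma w_one_le_rpow (i : ℕ) {θ : ℝ} (hθ : 0 ≤ θ) : 1 ≤ ((2 : ℝ) ^ i) ^ θ :=
  Real.one_le_rpow (one_le_pow₀ one_le_two) hθ

private lemma w_theta (a : ℕ) : 0 ≤ 2 / ((a : ℝ) + 2) ∧ 2 / ((a : ℝ) + 2) ≤ 1 := by
  have ha : (0 : ℝ) ≤ a := Nat.cast_nonneg a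
  constructor
  · positivity
  · rw [div_le_one (by positivity)]
    linarith

private lemma wN_ge (a : ℕ) {c1 K : ℝ} (i : ℕ) :
    K ^ 2 * c1 * ((2 : ℝ) ^ i) ^ (2 / ((a : ℝ) + 2)) ≤ wN a c1 K i := Nat.le_ceil _

private lemma wN_le (a : ℕ) {c1 K : ℝ} (hc : 1 ≤ c1) (hK : 1 ≤ K) (i : ℕ) :
    (wN a c1 K i : ℝ) ≤ 2 * c1 * K ^ 2 * ((2 : ℝ) ^ i) ^ (2 / ((a : ℝ) + 2)) := by
  have h1 := w_one_le_rpow i (w_theta a).1
  set t := ((2 : ℝ) ^ i) ^ (2 / ((a : ℝ) + 2)) with ht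
  have h2 : 1 ≤ K ^ 2 * c1 * t := by
    have hK2 : 1 ≤ K ^ 2 := one_le_pow₀ hK
    have h3 : 1 ≤ K ^ 2 * c1 := one_le_mul_of_one_le_of_one_le hK2 hc
    exact one_le_mul_of_one_le_of_one_le h3 h1
  have h4 := Nat.ceil_lt_add_one (a := K ^ 2 * c1 * t) (by linarith)
  change ((Nat.ceil (K ^ 2 * c1 * t) : ℕ) : ℝ) ≤ _
  nlinarith

private lemma wN_one (a : ℕ) {c1 K : ℝ} (hc : 1 ≤ c1) (hK : 1 ≤ K) (i : ℕ) :
    K ^ 2 ≤ wN a c1 K i ∧ 1 ≤ wN a c1 K i := by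
  have h1 := w_one_le_rpow i (w_theta a).1
  have h2 := wN_ge a (c1 := c1) (K := K) i
  have hK2 : 1 ≤ K ^ 2 := one_le_pow₀ hK
  have h3 : K ^ 2 ≤ K ^ 2 * c1 := le_mul_of_one_le_right (by positivity) hc
  have h4 : K ^ 2 * c1 ≤ K ^ 2 * c1 * ((2 : ℝ) ^ i) ^ (2 / ((a : ℝ) + 2)) :=
    le_mul_of_one_le_right (by positivity) h1
  have h5 : K ^ 2 ≤ wN a c1 K i := h3.trans (h4.trans h2)
  refine ⟨h5, ?_⟩
  have h6 : (1 : ℝ) ≤ wN a c1 K i := hK2.trans h5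
  exact_mod_cast h6

private lemma wN_pow (a CZ : ℕ) (hCZ : 1 ≤ CZ) {K : ℝ} (hK : 1 ≤ K) (i : ℕ) :
    CZ * (2 ^ i) ^ 2 ≤ (wN a (CZ : ℝ) K i) ^ (a + 2) := by
  have ha : (0 : ℝ) ≤ a := Nat.cast_nonneg a
  have hc : (1 : ℝ) ≤ CZ := by exact_mod_cast hCZ
  have h0 := wN_ge a (c1 := (CZ : ℝ)) (K := K) i
  have hK2 : 1 ≤ K ^ 2 := one_le_pow₀ hK
  have hp : (0 : ℝ) < ((2 : ℝ) ^ i) ^ (2 / ((a : ℝ) + 2)) := by positivity
  have h1 : (CZ : ℝ) * ((2 : ℝ) ^ i) ^ (2 / ((a : ℝ) + 2)) ≤ wN a (CZ : ℝ) K i := by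
    refine le_trans ?_ h0
    have : (CZ : ℝ) ≤ K ^ 2 * CZ := le_mul_of_one_le_left (by positivity) hK2
    exact mul_le_mul_of_nonneg_right this hp.le
  have h2 : ((CZ : ℝ) * ((2 : ℝ) ^ i) ^ (2 / ((a : ℝ) + 2))) ^ (a + 2) ≤
      (wN a (CZ : ℝ) K i : ℝ) ^ (a + 2) := pow_le_pow_left₀ (by positivity) h1 _
  have h3 : (((2 : ℝ) ^ i) ^ (2 / ((a : ℝ) + 2))) ^ (a + 2) = ((2 : ℝ) ^ i) ^ 2 := by
    rw [← Real.rpow_natCast, ← Real.rpow_mul (by positivity)]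
    have : 2 / ((a : ℝ) + 2) * ((a + 2 : ℕ) : ℝ) = ((2 : ℕ) : ℝ) := by
      push_cast
      field_simp
    rw [this, Real.rpow_natCast]
  rw [mul_pow, h3] at h2
  have h4 : (CZ : ℝ) ≤ (CZ : ℝ) ^ (a + 2) := le_self_pow₀ hc (by omega)
  have h5 : (CZ : ℝ) * ((2 : ℝ) ^ i) ^ 2 ≤ (wN a (CZ : ℝ) K i : ℝ) ^ (a + 2) :=
    (mul_le_mul_of_nonneg_right h4 (by positivity)).trans h2
  exact_mod_cast h5

/-! ## powers of the dyadic numbers -/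

private lemma w_two_rpow {θ : ℝ} (hθ0 : 0 ≤ θ) (hθ1 : θ ≤ 1) {t : ℝ} (ht : 0 ≤ t) :
    (2 * t) ^ (1 + θ) ≤ 4 * t ^ (1 + θ) ∧ (2 * t) ^ (2 + θ) ≤ 8 * t ^ (2 + θ) := by
  constructor
  · rw [Real.mul_rpow zero_le_two ht]
    refine mul_le_mul_of_nonneg_right ?_ (Real.rpow_nonneg ht _)
    calc (2 : ℝ) ^ (1 + θ) ≤ (2 : ℝ) ^ (2 : ℝ) :=
          Real.rpow_le_rpow_of_exponent_le one_le_two (by linarith)
      _ = 4 := by norm_num
  · rw [Real.mul_rpow zero_le_two ht]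
    refine mul_le_mul_of_nonneg_right ?_ (Real.rpow_nonneg ht _)
    calc (2 : ℝ) ^ (2 + θ) ≤ (2 : ℝ) ^ (3 : ℝ) :=
          Real.rpow_le_rpow_of_exponent_le one_le_two (by linarith)
      _ = 8 := by norm_num

private lemma w_pow_add {t θ : ℝ} (ht : 0 < t) :
    t ^ (1 + θ) = t ^ θ * t ∧ t ^ (2 + θ) = t ^ θ * t ^ 2 := by
  constructor
  · rw [add_comm, Real.rpow_add ht, Real.rpow_one]
  · rw [add_comm, Real.rpow_add ht]
    norm_num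

/-- the remainder is small -/
private lemma w_rest {a M : ℕ} {c1 K : ℝ} (hc : 1 ≤ c1) (hK : 1 ≤ K) (hM : 1 ≤ M)
    {rest : Multiset ℕ} (h1 : ∀ m ∈ rest, 1 ≤ m ∧ m ≤ M)
    (h2 : ∀ i, Multiset.card (cls i rest) < wN a c1 K i) :
    (Sm rest : ℝ) ≤ 16 * c1 * K ^ 2 * (M : ℝ) ^ (1 + 2 / ((a : ℝ) + 2)) := by
  obtain ⟨hθ0, hθ1⟩ := w_theta a
  set θ := 2 / ((a : ℝ) + 2) with hθ
  have e1 := (cls_bounds h1).2.2.1
  have e2 : (Sm rest : ℝ) ≤ ∑ i ∈ Finset.range (Nat.clog 2 M + 1),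
      (Multiset.card (cls i rest) : ℝ) * 2 ^ i := by exact_mod_cast e1
  have e3 : ∀ i ∈ Finset.range (Nat.clog 2 M + 1), (Multiset.card (cls i rest) : ℝ) * 2 ^ i ≤
      2 * c1 * K ^ 2 * ((2 : ℝ) ^ i) ^ (1 + θ) := by
    intro i _
    have e4 : (Multiset.card (cls i rest) : ℝ) ≤ wN a c1 K i := by exact_mod_cast (h2 i).le
    have e5 := e4.trans (wN_le a hc hK i)
    rw [(w_pow_add (by positivity)).1, ← mul_assoc]
    exact mul_le_mul_of_nonneg_right e5 (by positivity)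
  have e6 := e2.trans (Finset.sum_le_sum e3)
  rw [← Finset.mul_sum] at e6
  have e7 := geom hM (θ := 1 + θ) (by linarith)
  have e8 := (w_two_rpow hθ0 hθ1 (t := (M : ℝ)) (Nat.cast_nonneg _)).1
  have e9 : 0 ≤ 2 * c1 * K ^ 2 := by positivity
  calc (Sm rest : ℝ) ≤ _ := e6
    _ ≤ 2 * c1 * K ^ 2 * (2 * (2 * (M : ℝ)) ^ (1 + θ)) := mul_le_mul_of_nonneg_left e7 e9
    _ ≤ 2 * c1 * K ^ 2 * (2 * (4 * (M : ℝ) ^ (1 + θ))) :=
      mul_le_mul_of_nonneg_left (by linarith) e9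
    _ = _ := by ring

/-- the nodes of the windows -/
private noncomputable def wV (a M : ℕ) (c1 K : ℝ) : ℕ :=
  Nat.ceil (7 * c1 * K * (M : ℝ) ^ (1 + 1 / ((a : ℝ) + 2)))

private lemma w_half (a : ℕ) {t : ℝ} (ht : 0 ≤ t) :
    (t ^ (1 + 1 / ((a : ℝ) + 2))) ^ 2 = t ^ (2 + 2 / ((a : ℝ) + 2)) ∧
    (t ^ (1 + 1 / ((a : ℝ) + 2))) ^ (a + 2) = t ^ (a + 3) := by
  have ha : (0 : ℝ) ≤ a := Nat.cast_nonneg a
  constructor
  · rw [← Real.rpow_natCast, ← Real.rpow_mul ht]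
    congr 1
    push_cast
    ring
  · rw [← Real.rpow_natCast, ← Real.rpow_mul ht, ← Real.rpow_natCast t (a + 3)]
    congr 1
    push_cast
    field_simp
    ring

private lemma wV_facts (a : ℕ) {M : ℕ} {c1 K : ℝ} (hc : 1 ≤ c1) (hK : 1 ≤ K) (hM : 1 ≤ M) :
    7 * c1 * K * (M : ℝ) ^ (1 + 1 / ((a : ℝ) + 2)) ≤ wV a M c1 K ∧
    (wV a M c1 K : ℝ) ≤ 8 * c1 * K * (M : ℝ) ^ (1 + 1 / ((a : ℝ) + 2)) ∧ M ≤ wV a M c1 K ∧
    1 ≤ wV a M c1 K := by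
  have ha : (0 : ℝ) ≤ a := Nat.cast_nonneg a
  have hM' : (1 : ℝ) ≤ M := by exact_mod_cast hM
  have h0 : (0 : ℝ) ≤ 1 / ((a : ℝ) + 2) := by positivity
  have h1 : (M : ℝ) ≤ (M : ℝ) ^ (1 + 1 / ((a : ℝ) + 2)) := by
    have := Real.rpow_le_rpow_of_exponent_le hM' (by linarith : (1 : ℝ) ≤ 1 + 1 / ((a : ℝ) + 2))
    rwa [Real.rpow_one] at this
  set T := (M : ℝ) ^ (1 + 1 / ((a : ℝ) + 2)) with hT
  have h2 : 1 ≤ c1 * K := one_le_mul_of_one_le_of_one_le hc hK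
  have h3 : T ≤ c1 * K * T := le_mul_of_one_le_left (by linarith) h2
  have h4 : 7 * c1 * K * T ≤ wV a M c1 K := Nat.le_ceil _
  have h5 : (wV a M c1 K : ℝ) < 7 * c1 * K * T + 1 :=
    Nat.ceil_lt_add_one (by nlinarith)
  have h6 : (M : ℝ) ≤ wV a M c1 K := by nlinarith
  refine ⟨h4, by nlinarith, by exact_mod_cast h6, ?_⟩
  exact hM.trans (by exact_mod_cast h6)

private lemma wV_pow {a M C0 d : ℕ} {c1 K : ℝ} (hc : 1 ≤ c1) (hK : 1 ≤ K) (hM : 1 ≤ M)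
    (h : (8 * (C0 : ℝ) * c1) ^ (a + 2) * K ^ (a + 2) * (M : ℝ) ^ (a + 3) ≤ (d : ℝ) ^ (a + 1)) :
    (C0 * wV a M c1 K) ^ (a + 2) ≤ d ^ (a + 1) := by
  have h1 := (wV_facts a hc hK hM).2.1
  have h2 : ((C0 : ℝ) * wV a M c1 K) ^ (a + 2) ≤
      (8 * (C0 : ℝ) * c1 * K * (M : ℝ) ^ (1 + 1 / ((a : ℝ) + 2))) ^ (a + 2) := by
    refine pow_le_pow_left₀ (by positivity) ?_ _
    have h3 : (0 : ℝ) ≤ C0 := Nat.cast_nonneg _
    calc (C0 : ℝ) * wV a M c1 K ≤ C0 * (8 * c1 * K * (M : ℝ) ^ (1 + 1 / ((a : ℝ) + 2))) :=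
          mul_le_mul_of_nonneg_left h1 h3
      _ = _ := by ring
  rw [mul_pow _ ((M : ℝ) ^ (1 + 1 / ((a : ℝ) + 2))), (w_half a (Nat.cast_nonneg M)).2,
    mul_pow _ K] at h2
  have h4 := h2.trans h
  exact_mod_cast h4

/-- the window of a group -/
private lemma w_win {a M i : ℕ} {c1 K : ℝ} (hc : 1 ≤ c1) (hK : 1 ≤ K) (hM : 1 ≤ M)
    {gs : Multiset ℕ} {nL nR : ℕ} (hcard : Multiset.card gs = wN a c1 K i)
    (hgs : ∀ m ∈ gs, 2 ^ i < 2 * m ∧ m ≤ 2 ^ i) (hi : 2 ^ i ≤ 2 * M)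
    (hw : Win gs nL nR (100 * (Multiset.card gs : ℝ) * (2 ^ i : ℕ))) (h1 : 1 ≤ nL)
    (h2 : Sq gs ≤ 2 * nL ^ 2) (h3 : nR ^ 2 ≤ 3 * Sq gs) :
    Tup.Ok ⟨gs, nL, nR, 0⟩ (800 * c1 * K ^ 2 * (M : ℝ) ^ (1 + 2 / ((a : ℝ) + 2))) ∧
    WOk K (wV a M c1 K) ⟨gs, nL, nR, 0⟩ := by
  obtain ⟨hθ0, hθ1⟩ := w_theta a
  have hNle := wN_le a hc hK i
  have hN1 := (wN_one a hc hK i).1
  rw [← hcard] at hNle hN1
  obtain ⟨g1, g2⟩ := w_group hgs
  set N := Multiset.card gs with hNdef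
  have hM0 : (0 : ℝ) ≤ M := Nat.cast_nonneg M
  have h2M : (2 : ℝ) ^ i ≤ 2 * M := by exact_mod_cast hi
  have hp : (0 : ℝ) < (2 : ℝ) ^ i := by positivity
  have t1 : ((2 : ℝ) ^ i) ^ (1 + 2 / ((a : ℝ) + 2)) ≤ 4 * (M : ℝ) ^ (1 + 2 / ((a : ℝ) + 2)) :=
    (Real.rpow_le_rpow hp.le h2M (by linarith)).trans (w_two_rpow hθ0 hθ1 hM0).1
  have t2 : ((2 : ℝ) ^ i) ^ (2 + 2 / ((a : ℝ) + 2)) ≤ 8 * (M : ℝ) ^ (2 + 2 / ((a : ℝ) + 2)) :=
    (Real.rpow_le_rpow hp.le h2M (by linarith)).trans (w_two_rpow hθ0 hθ1 hM0).2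
  rw [(w_pow_add hp).1] at t1
  rw [(w_pow_add hp).2] at t2
  have hcK : 0 ≤ 2 * c1 * K ^ 2 := by positivity
  refine ⟨⟨⟨hw.ex, hw.wid.trans ?_⟩, le_rfl, fun n => abs_nonneg _⟩, ⟨h1, h2, h3, ?_, ?_⟩⟩
  · push_cast
    have e1 : (N : ℝ) * 2 ^ i ≤ 2 * c1 * K ^ 2 * ((2 : ℝ) ^ i) ^ (2 / ((a : ℝ) + 2)) * 2 ^ i :=
      mul_le_mul_of_nonneg_right hNle hp.le
    have e2 := mul_le_mul_of_nonneg_left t1 hcK
    nlinarith
  · change K * (nR : ℝ) ≤ 4 * (Sm gs : ℝ)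
    have e1 : ((nR : ℝ)) ^ 2 ≤ 3 * (N * ((2 : ℝ) ^ i) ^ 2) := by
      have e2 : nR ^ 2 ≤ 3 * (N * (2 ^ i) ^ 2) := h3.trans (Nat.mul_le_mul_left 3 g2)
      exact_mod_cast e2
    have e3 : (N : ℝ) * 2 ^ i ≤ 2 * Sm gs := by exact_mod_cast g1
    have hN0 : (0 : ℝ) ≤ N := Nat.cast_nonneg _
    have hS0 : (0 : ℝ) ≤ Sm gs := Nat.cast_nonneg _
    have e4 : (K * (nR : ℝ)) ^ 2 ≤ (4 * (Sm gs : ℝ)) ^ 2 := by
      have e5 : (K * (nR : ℝ)) ^ 2 ≤ K ^ 2 * (3 * (N * ((2 : ℝ) ^ i) ^ 2)) := by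
        rw [mul_pow]
        exact mul_le_mul_of_nonneg_left e1 (by positivity)
      have e6 : K ^ 2 * (3 * (N * ((2 : ℝ) ^ i) ^ 2)) ≤ N * (3 * (N * ((2 : ℝ) ^ i) ^ 2)) :=
        mul_le_mul_of_nonneg_right hN1 (by positivity)
      have e7 : ((N : ℝ) * 2 ^ i) ^ 2 ≤ (2 * (Sm gs : ℝ)) ^ 2 :=
        pow_le_pow_left₀ (by positivity) e3 2
      nlinarith
    exact (pow_le_pow_iff_left₀ (by positivity) (by positivity) two_ne_zero).mp e4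
  · change nR ≤ wV a M c1 K
    have e1 : ((nR : ℝ)) ^ 2 ≤ 3 * (N * ((2 : ℝ) ^ i) ^ 2) := by
      have e2 : nR ^ 2 ≤ 3 * (N * (2 ^ i) ^ 2) := h3.trans (Nat.mul_le_mul_left 3 g2)
      exact_mod_cast e2
    have e3 : (N : ℝ) * ((2 : ℝ) ^ i) ^ 2 ≤
        2 * c1 * K ^ 2 * ((2 : ℝ) ^ i) ^ (2 / ((a : ℝ) + 2)) * ((2 : ℝ) ^ i) ^ 2 :=
      mul_le_mul_of_nonneg_right hNle (by positivity)
    have e4 := mul_le_mul_of_nonneg_left t2 hcK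
    have e5 : (nR : ℝ) ^ 2 ≤ 48 * c1 * K ^ 2 * (M : ℝ) ^ (2 + 2 / ((a : ℝ) + 2)) := by
      nlinarith
    have e6 : (nR : ℝ) ^ 2 ≤ (7 * c1 * K * (M : ℝ) ^ (1 + 1 / ((a : ℝ) + 2))) ^ 2 := by
      rw [mul_pow, (w_half a hM0).1]
      refine e5.trans (mul_le_mul_of_nonneg_right ?_ (by positivity))
      have : c1 ≤ c1 ^ 2 := le_self_pow₀ hc two_ne_zero
      have hK2 : 0 ≤ K ^ 2 := sq_nonneg K
      nlinarith
    have e7 : (nR : ℝ) ≤ 7 * c1 * K * (M : ℝ) ^ (1 + 1 / ((a : ℝ) + 2)) :=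
      (pow_le_pow_iff_left₀ (by positivity) (by positivity) two_ne_zero).mp e6
    have e8 := e7.trans (wV_facts a hc hK hM).1
    exact_mod_cast e8

theorem ww {a : ℕ} (h : NN a) (f : ℕ) : ∃ C : ℝ, 1 ≤ C ∧ ∀ (d M : ℕ) (K b : ℝ) (ms bg : Multiset ℕ),
    1 ≤ M → 1 ≤ K → (∀ m ∈ ms, 1 ≤ m ∧ m ≤ M) → (∀ m ∈ bg, 1 ≤ m ∧ C * (m : ℝ) ≤ d) →
    d ^ 2 ≤ f * Sq ms → Sq (ms + bg) ≤ 10 * d ^ 2 →
    C * K ^ (a + 2) * (M : ℝ) ^ (a + 3) ≤ (d : ℝ) ^ (a + 1) →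
    C * ((Sm ms : ℝ) / K + (Sm bg : ℝ) + d + K ^ 2 * (M : ℝ) ^ (1 + 2 / ((a : ℝ) + 2))) ≤ b →
    (hh d (ms + bg) : ℝ) ≤ Phi 1 b b (vv d (ms + bg)) := by
  obtain ⟨CE, hCE1, hE⟩ := empN h (2 * f) 300
  obtain ⟨CR, hCR1, hR⟩ := regN h (2 * f)
  obtain ⟨CZ, hCZ1, hZ⟩ := localZone h
  set C0 := max CE CR with hC0
  have hC01 : 1 ≤ C0 := hCE1.trans (le_max_left _ _)
  have hE' : ∀ (d W X : ℕ) (ms : Multiset ℕ), 1 ≤ W →
      C0 * W ≤ d → (∀ m ∈ ms, C0 * m ≤ d) → d ^ 2 ≤ (2 * f) * Sq (ms.filter fun m => m ≤ W) →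
      Sq ms ≤ 300 * d ^ 2 → C0 * W ^ (a + 2) ≤ X * d ^ a → d ^ 2 + 2 * d + X + 1 ≤ Sq ms →
      E d ms := by
    intro d W X ms i1 i2 i3 i4 i5 i6 i7
    exact hE d W X ms i1 ((Nat.mul_le_mul_right _ (le_max_left _ _)).trans i2)
      (fun m hm => (Nat.mul_le_mul_right _ (le_max_left _ _)).trans (i3 m hm)) i4 i5
      ((Nat.mul_le_mul_right _ (le_max_left _ _)).trans i6) i7
  have hR' : ∀ (d W : ℕ) (ms : Multiset ℕ), 1 ≤ W →
      C0 * W ≤ d → (∀ m ∈ ms, C0 * m ≤ d) → d ^ 2 ≤ (2 * f) * Sq (ms.filter fun m => m ≤ W) →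
      C0 * W ^ (a + 2) ≤ (S1 ms + d) * d ^ a → ((S1 ms : ℕ) : ℝ) ≤ vv d ms →
      (hh d ms : ℝ) = vv d ms := by
    intro d W ms i1 i2 i3 i4 i5 i6
    exact hR d W ms i1 ((Nat.mul_le_mul_right _ (le_max_right _ _)).trans i2)
      (fun m hm => (Nat.mul_le_mul_right _ (le_max_right _ _)).trans (i3 m hm)) i4
      ((Nat.mul_le_mul_right _ (le_max_right _ _)).trans i5) i6
  have hc : (1 : ℝ) ≤ CZ := by exact_mod_cast hCZ1
  have hC0r : (1 : ℝ) ≤ C0 := by exact_mod_cast hC01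
  have hP0 : (0 : ℝ) ≤ (8 * (C0 : ℝ) * CZ) ^ (a + 2) := by positivity
  refine ⟨(8 * (C0 : ℝ) * CZ) ^ (a + 2) + 17600 * CZ + C0, by linarith, ?_⟩
  intro d M K b ms bg hM hK hms hbg hf hSq hd hb
  set C := (8 * (C0 : ℝ) * CZ) ^ (a + 2) + 17600 * CZ + C0 with hC
  have hCC0 : (C0 : ℝ) ≤ C := by linarith
  have hCP : (8 * (C0 : ℝ) * CZ) ^ (a + 2) ≤ C := by linarith
  have hCZ : 17600 * (CZ : ℝ) ≤ C := by linarith
  have hK0 : 0 < K := by linarith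
  have hM0 : (0 : ℝ) ≤ M := Nat.cast_nonneg M
  -- the number `V`
  set V := wV a M (CZ : ℝ) K with hV
  obtain ⟨_, _, hMV, hV1⟩ := wV_facts a hc hK hM
  have hVd : (C0 * V) ^ (a + 2) ≤ d ^ (a + 1) := by
    refine wV_pow hc hK hM (le_trans ?_ hd)
    exact mul_le_mul_of_nonneg_right (mul_le_mul_of_nonneg_right hCP (by positivity))
      (by positivity)
  have hVd1 : C0 * V ≤ d := by
    have hCV : 1 ≤ C0 * V := Nat.one_le_iff_ne_zero.mpr (by positivity)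
    have h2 : (C0 * V) ^ (a + 1) ≤ d ^ (a + 1) :=
      (Nat.pow_le_pow_right hCV (Nat.le_succ _)).trans hVd
    exact (Nat.pow_le_pow_iff_left (Nat.succ_ne_zero a)).mp h2
  -- the groups
  obtain ⟨l, rest, hsum, hl, hrest, -⟩ := grp
    (fun i A => Multiset.card A = wN a (CZ : ℝ) K i ∧ ∃ nL nR : ℕ,
      Win A nL nR (100 * (Multiset.card A : ℝ) * (2 ^ i : ℕ)) ∧ 1 ≤ nL ∧
      Sq A ≤ 2 * nL ^ 2 ∧ nR ^ 2 ≤ 3 * Sq A)
    (wN a (CZ : ℝ) K) (wN a (CZ : ℝ) K) (fun i => (wN_one a hc hK i).2) (fun i => le_rfl) (by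
      intro i A hA hcard
      have hWA : ∀ m ∈ A, 2 ^ i < 2 * m ∧ m ≤ 2 ^ i := fun m hm =>
        ⟨(clsW (hA m hm).1 (hA m hm).2).2, (clsW (hA m hm).1 (hA m hm).2).1⟩
      obtain ⟨nL, nR, hw⟩ := hZ (2 ^ i) A Nat.one_le_two_pow hWA (by
        rw [hcard]
        exact wN_pow a CZ hCZ1 hK i)
      refine ⟨A, le_rfl, ?_, hcard, nL, nR, hw⟩
      intro h0
      rw [h0, Multiset.card_zero] at hcard
      have := (wN_one a hc hK i).2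
      omega)
    ms (fun m hm => (hms m hm).1)
  have hlms : ∀ x ∈ l, x.2 ≤ ms := by
    intro x hx
    rw [hsum]
    refine le_trans ?_ (Multiset.le_add_right _ _)
    exact List.single_le_sum (fun y _ => Multiset.zero_le y) x.2 (List.mem_map_of_mem hx)
  have hrms : rest ≤ ms := by
    rw [hsum]
    exact Multiset.le_add_left _ _
  have hw : ∀ x : ℕ × Multiset ℕ, ∃ p : ℕ × ℕ, x ∈ l →
      Tup.Ok ⟨x.2, p.1, p.2, 0⟩ (800 * (CZ : ℝ) * K ^ 2 * (M : ℝ) ^ (1 + 2 / ((a : ℝ) + 2))) ∧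
      WOk K V ⟨x.2, p.1, p.2, 0⟩ := by
    intro x
    by_cases hx : x ∈ l
    · obtain ⟨⟨hcard, nL, nR, w1, w2, w3, w4⟩, hne, _, hcls⟩ := hl x hx
      refine ⟨(nL, nR), fun _ => ?_⟩
      have hWA : ∀ m ∈ x.2, 2 ^ x.1 < 2 * m ∧ m ≤ 2 ^ x.1 := fun m hm =>
        ⟨(clsW (hcls m hm).1 (hcls m hm).2).2, (clsW (hcls m hm).1 (hcls m hm).2).1⟩
      obtain ⟨m, hm⟩ := Multiset.exists_mem_of_ne_zero hne
      have h2 : 2 ^ x.1 ≤ 2 * M := (hWA m hm).1.le.trans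
        (Nat.mul_le_mul_left 2 (hms m (Multiset.mem_of_le (hlms x hx) hm)).2)
      exact w_win hc hK hM hcard hWA h2 w1 w2 w3 w4
    · exact ⟨(0, 0), fun h => absurd h hx⟩
  choose p hp using hw
  set L : List Tup := l.map fun x => ⟨x.2, (p x).1, (p x).2, 0⟩ with hL
  have hLgs : (L.map Tup.gs).sum = (l.map Prod.snd).sum := by
    rw [hL, List.map_map]
    rfl
  have hLc : (L.map Tup.c).sum = 0 := by
    apply List.sum_eq_zero
    intro y hy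
    rw [hL, List.map_map] at hy
    obtain ⟨x, _, rfl⟩ := List.mem_map.1 hy
    rfl
  have hOk : ∀ y ∈ L, Tup.Ok y (800 * (CZ : ℝ) * K ^ 2 * (M : ℝ) ^ (1 + 2 / ((a : ℝ) + 2))) := by
    intro y hy
    obtain ⟨x, hx, rfl⟩ := List.mem_map.1 hy
    exact (hp x hx).1
  have hWk : ∀ y ∈ L, WOk K V y := by
    intro y hy
    obtain ⟨x, hx, rfl⟩ := List.mem_map.1 hy
    exact (hp x hx).2
  -- the constants
  set T := K ^ 2 * (M : ℝ) ^ (1 + 2 / ((a : ℝ) + 2)) with hT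
  have hT0 : 0 ≤ T := by positivity
  have hS1 : (0 : ℝ) ≤ (Sm ms : ℝ) / K := by positivity
  have hS2 : (0 : ℝ) ≤ Sm bg := Nat.cast_nonneg _
  have hd0 : (1 : ℝ) ≤ d := by
    have : 1 ≤ C0 * V := Nat.one_le_iff_ne_zero.mpr (by positivity)
    exact_mod_cast this.trans hVd1
  have hb1 : 17600 * (CZ : ℝ) * ((Sm ms : ℝ) / K + (Sm bg : ℝ) + d + T) ≤ b :=
    (mul_le_mul_of_nonneg_right hCZ (by positivity)).trans hb
  have hZ1 : (Sm ms : ℝ) / K + (Sm bg : ℝ) + d + T ≤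
      CZ * ((Sm ms : ℝ) / K + (Sm bg : ℝ) + d + T) := le_mul_of_one_le_left (by positivity) hc
  have hZT : T ≤ CZ * T := le_mul_of_one_le_left hT0 hc
  have hZA : (0 : ℝ) ≤ CZ * ((Sm ms : ℝ) / K + (Sm bg : ℝ) + d) := by positivity
  have hb0 : 0 < b := by nlinarith
  have hYb : 22 * (800 * (CZ : ℝ) * K ^ 2 * (M : ℝ) ^ (1 + 2 / ((a : ℝ) + 2))) ≤ b := by
    have : 22 * (800 * (CZ : ℝ) * K ^ 2 * (M : ℝ) ^ (1 + 2 / ((a : ℝ) + 2))) =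
        17600 * (CZ * T) := by
      rw [hT]
      ring
    rw [this]
    nlinarith
  have key := unmerge (d := d) (w := 0) hYb hb0 (le_refl b) L 1 (rest + bg) zero_le_one le_rfl hOk
    (by
      intro ns hns
      rw [add_zero]
      obtain ⟨i1, i2, i3, i4⟩ := w_list hK0.le hns hWk
      rw [hLgs] at i1 i2 i3
      have hSqms : Sq ms = Sq ((l.map Prod.snd).sum) + Sq rest := by
        rw [← Sq_add, ← hsum]
      have hSmms : Sm ms = Sm ((l.map Prod.snd).sum) + Sm rest := by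
        rw [← Sm_add, ← hsum]
      refine w_state (a := a) (V := V) (F := 2 * f) hC01 hV1 hE' hR' hVd ?_ ?_ ?_ ?_
      · intro m hm
        rcases Multiset.mem_add.1 hm with hm | hm
        · exact ⟨(i4 m hm).1, (Nat.mul_le_mul_left _ (i4 m hm).2).trans hVd1⟩
        · rcases Multiset.mem_add.1 hm with hm | hm
          · have h5 := hms m (Multiset.mem_of_le hrms hm)
            exact ⟨h5.1, (Nat.mul_le_mul_left _ (h5.2.trans hMV)).trans hVd1⟩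
          · have h5 := hbg m hm
            refine ⟨h5.1, ?_⟩
            have h6 : (C0 : ℝ) * m ≤ d :=
              (mul_le_mul_of_nonneg_right hCC0 (Nat.cast_nonneg _)).trans h5.2
            exact_mod_cast h6
      · refine hf.trans ?_
        rw [Multiset.filter_add, Multiset.filter_add,
          Multiset.filter_eq_self.2 (fun m hm => (i4 m hm).2),
          Multiset.filter_eq_self.2 (fun m hm =>
            (hms m (Multiset.mem_of_le hrms hm)).2.trans hMV), Sq_add, Sq_add, hSqms,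
          mul_comm 2 f, mul_assoc]
        exact Nat.mul_le_mul_left f (by omega)
      · rw [Sq_add, Sq_add]
        rw [Sq_add, hSqms] at hSq
        omega
      · rw [Sm_add, Sm_add]
        push_cast
        have h5 := w_rest hc hK hM (fun m hm => hms m (Multiset.mem_of_le hrms hm)) hrest
        have h6 : (Sm (ns : Multiset ℕ) : ℝ) ≤ 4 * ((Sm ms : ℝ) / K) := by
          have h7 : (Sm ((l.map Prod.snd).sum) : ℝ) ≤ Sm ms := by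
            rw [hSmms]
            push_cast
            linarith [(Nat.cast_nonneg (Sm rest) : (0 : ℝ) ≤ (Sm rest : ℝ))]
          rw [mul_div_assoc', le_div_iff₀ hK0, mul_comm]
          linarith
        have h8 : 16 * (CZ : ℝ) * K ^ 2 * (M : ℝ) ^ (1 + 2 / ((a : ℝ) + 2)) =
            16 * (CZ * T) := by
          rw [hT]
          ring
        rw [h8] at h5
        nlinarith)
  rw [hLc, neg_zero, zero_div, Real.exp_zero, mul_one, add_zero, hLgs, ← add_assoc, ← hsum] at key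
  exact key

end Pool.Agent.SG
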